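import Pool.Agent.H9.JH.Defs
import Pool.Agent.H8.JD.SSysDef

set_option autoImplicit false
set_option linter.unusedSectionVars false

/-!
# JN Basic: words of length 4 in `n` letters (helper13)

`s3 a b c` is the Jordan element `(abc + cba) / 2`. `Q4 F x q`: the function `q` behaves like `(abcd + dcba) / 2`
(in more than three letters this is not a Jordan element: `q` is only determined up to an alternating function).
`Good5 F A D y` is the condition on a graded cocyclic Jordan algebra `A` of class 5 (structure `GJ F A 5 D`) which makes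
every `J` with this graded algebra (and at least 4 generators) special.
-/

namespace JD

universe u v

section defs

variable {J : Type u} [NonUnitalNonAssocCommRing J]

/-- `(abc + cba) / 2` -/
def s3 (a b c : J) : J := a * (b * c) + c * (a * b) - b * (a * c)

theorem s3_rev (a b c : J) : s3 c b a = s3 a b c := by
  unfold s3
  rw [mul_comm c b, mul_comm b a, mul_comm c a]
  abel

/-- `s3 a b c + s3 b a c = 2 c(ab)` -/
theorem s3_swap (a b c : J) : s3 a b c + s3 b a c = c * (a * b) + c * (a * b) := by
  unfold s3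
  rw [mul_comm b a]
  abel

/-- `s3 a b c + s3 a c b = 2 a(bc)` -/
theorem s3_swap' (a b c : J) : s3 a b c + s3 a c b = a * (b * c) + a * (b * c) := by
  unfold s3
  rw [mul_comm c b]
  abel

theorem s3_add_left (a a' b c : J) : s3 (a + a') b c = s3 a b c + s3 a' b c := by
  simp only [s3, add_mul, mul_add]; abel

theorem s3_add_mid (a b b' c : J) : s3 a (b + b') c = s3 a b c + s3 a b' c := by
  simp only [s3, add_mul, mul_add]; abel

theorem s3_add_right (a b c c' : J) : s3 a b (c + c') = s3 a b c + s3 a b c' := by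
  simp only [s3, add_mul, mul_add]; abel

@[simp] theorem s3_zero_left (b c : J) : s3 0 b c = 0 := by simp [s3]

@[simp] theorem s3_zero_mid (a c : J) : s3 a 0 c = 0 := by simp [s3]

@[simp] theorem s3_zero_right (a b : J) : s3 a b 0 = 0 := by simp [s3]

variable {F : Type u} [Field F] [Module F J] [IsScalarTower F J J] [SMulCommClass F J J]

theorem s3_smul_left (r : F) (a b c : J) : s3 (r • a) b c = r • s3 a b c := by
  simp only [s3, smul_mul_assoc, mul_smul_comm, smul_add, smul_sub]

theorem s3_smul_mid (r : F) (a b c : J) : s3 a (r • b) c = r • s3 a b c := by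
  simp only [s3, smul_mul_assoc, mul_smul_comm, smul_add, smul_sub]

theorem s3_smul_right (r : F) (a b c : J) : s3 a b (r • c) = r • s3 a b c := by
  simp only [s3, smul_mul_assoc, mul_smul_comm, smul_add, smul_sub]

variable (F) in
/-- rotation: `s3 (ab) c d - s3 b (ac) d + s3 b c (ad) = a (s3 b c d)` -/
theorem s3_rot (h2 : (2 : F) ≠ 0) (hJ : IsJordan J) (a b c d : J) :
    s3 (a * b) c d - s3 b (a * c) d + s3 b c (a * d) = a * s3 b c d := by
  have e1 := gJ3 F h2 hJ a b c d
  have e2 := gder F h2 hJ b c a d
  unfold s3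
  rw [mul_comm c a, mul_comm b a] at e2
  simp only [sub_mul] at e2
  rw [mul_comm c a] at e1
  rw [mul_comm (b * (a * c)) d, mul_comm (c * (a * b)) d] at e2
  rw [mul_comm (a * c) (b * d)] at e1
  rw [mul_comm (a * d) (b * c), mul_comm (a * c) (b * d), mul_comm (a * b) c,
    mul_comm d (b * c)]
  simp only [mul_sub, mul_add] at e2 ⊢
  linear_combination (norm := abel) e1 + e2

variable (F) in
/-- the braid identity -/
theorem s3_braid (h2 : (2 : F) ≠ 0) (hJ : IsJordan J) (a b c d : J) :
    s3 (a * b) c d - s3 b (a * c) d + s3 (b * c) a d =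
      s3 a (b * c) d - s3 (a * c) b d + s3 c (a * b) d := by
  have e1 := gJ3 F h2 hJ a b c d
  unfold s3
  rw [mul_comm c a] at e1
  rw [mul_comm b (a * c), mul_comm a (b * c), mul_comm c (a * b), mul_comm (b * c) (a * d),
    mul_comm (a * c) (b * d)] at *
  linear_combination (norm := abel) e1 + e1

variable (F) in
/-- the alternating identity `y (s3 c d e) - c (s3 d e y) + d (s3 e y c) - e (s3 y c d) = 0` -/
theorem s3_alt (h2 : (2 : F) ≠ 0) (hJ : IsJordan J) (y c d e : J) :
    y * s3 c d e = c * s3 d e y - d * s3 e y c + e * s3 y c d := by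
  have e1 := gJ3 F h2 hJ d e y c
  have e2 := gJ3 F h2 hJ c d y e
  have e3 := gJ3 F h2 hJ c e y d
  have e4 := gJ3 F h2 hJ c d e y
  unfold s3
  simp only [mul_add, mul_sub]
  simp only [mul_comm] at e1 e2 e3 e4 ⊢
  linear_combination (norm := abel) e3 + e4 - e1 - e2

end defs

section Q4

variable (F : Type u) [Field F] {J : Type u} [NonUnitalNonAssocCommRing J] [Module F J]

/-- the rules for `q a b c d = (abcd + dcba) / 2` -/
structure Q4 {ι : Type v} (x : ι → J) (q : ι → ι → ι → ι → J) : Prop where
  sw1 : ∀ a b c d, q a b c d + q b a c d = (2 : F) • s3 (x a * x b) (x c) (x d)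
  sw2 : ∀ a b c d, q a b c d + q a c b d = (2 : F) • s3 (x a) (x b * x c) (x d)
  sw3 : ∀ a b c d, q a b c d + q a b d c = (2 : F) • s3 (x a) (x b) (x c * x d)

variable {F} {A : Type u} [NonUnitalNonAssocCommRing A] [Module F A]

/-- the obstruction of class 5 -/
def T5 {m : ℕ} (y : Fin m → A) (q : Fin m → Fin m → Fin m → Fin m → A)
    (c' : Fin m → Fin m → F) (a b d : Fin m) : A :=
  ∑ i, ∑ j, c' i j • (y i * (q j a b d - y j * s3 (y a) (y b) (y d)))

variable (F) in
/-- there is a base `t` of `q` such that all obstructions vanish -/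
def Good5 (D : ℕ → Submodule F A) {m : ℕ} (y : Fin m → A) : Prop :=
  ∃ t : Fin m → Fin m → Fin m → Fin m → A, (∀ i j k l, t i j k l ∈ D 4) ∧
    ∀ q : Fin m → Fin m → Fin m → Fin m → A, Q4 F y q →
      (∀ i j k l, i < j → j < k → k < l → q i j k l = t i j k l) →
      ∀ c' : Fin m → Fin m → F, (∀ i j, c' i j = c' j i) →
        ∑ i, ∑ j, c' i j • (y i * y j) = 0 →
        ∀ a b d, a ≠ b → a ≠ d → b ≠ d → T5 y q c' a b d = 0

end Q4

end JD
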