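import Pool.Agent.H13.JN.K5L

set_option autoImplicit false
set_option linter.unusedSectionVars false

/-!
# JN Om3: class 5, dimensions `(n; 3, 2, 1)`: the condition (ω), codimension 1 (helper13)

`finrank (D 2) = 3`, `finrank (D 3) = 2`. `Y = Y5` has codimension 1 in `D 1`: `ζ` is a functional with `ζ = 0` on `Y`, `b1 ∈ D 1`, `ζ b1 = 1`, and
`v - ζ(v) b1 ∈ Y` for `v ∈ D 1`. `n` is the form of `ζ`: `2 n(ab) = θ(a)ζ(b) + θ(b)ζ(a)`.

THEOREM `omega_three_one`: (ω) holds: `kk c b h = kk b c h` for `h = y y'`, `y, y' ∈ Y`, `b, c ∈ D 1`.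

PROOF. Suppose not. Put `λ(c,h) := kk c b1 h`. `kk c v h = λ(c,h) ζ(v)` for `c, v ∈ D 1`, `h ∈ D 2` (`v - ζ(v) b1 ∈ Y`, `kk_mem_Y5`).
`Q := D 2 ⊓ ker n` has dimension 2 (`n ≠ 0` on `D 2` by `nform_inj`); `y y' ∈ Q` for `y, y' ∈ Y`.
(0) Some `λ(y,h) ≠ 0` with `y ∈ Y`, `h = y' y''`, `y', y'' ∈ Y`: otherwise for such `h`, `λ(c,h) = ζ(c) λ(b1,h)` and `kk c b h = ζ(c) ζ(b) λ(b1,h)` is symmetric.
(1) CLAIM I: for `q ∈ Q`, `q ≠ 0`, there is `y ∈ Y` with `λ(y,q) ≠ 0`. Otherwise `Q = F q + F s` for some `s`, `y y' = β(y,y') s + β'(y,y') q`, `λ(x, y y') = β(y,y') λ(x,s)` for `x ∈ Y`; `kk_sq` (`w = b1`):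
`β(x,x) λ(x,s) = 0` on `Y`; `quad_lin`: `β = 0` or `λ(.,s) = 0` on `Y`; in both cases `λ(x, y y') = 0` for all `x, y, y' ∈ Y`, against (0).
(2) For `v ∈ D 1`, `h, h' ∈ D 2`: `k5 (h' (v h)) = θ(v) k4(h h') + 2 n(h) λ(v,h')` (`kk_star` for `h = xy`, then linear in `h`, `hG.gen2`). For `u, v ∈ D 1`, `h ∈ D 2`: `k4 (u (v h)) = k4 ((u v) h) - λ(u,h) ζ(v)`.
Let `U = {a ∈ D 3 | h a = 0 for all h ∈ D 2}`.

CASE A: `θ = t ζ` on `D 1` (`t ≠ 0`). Take `b0 ∈ D 1` with `θ(b0) = 1`; replace `ζ` by `θ`, `n` by the form with `n(ab) = θ(a)θ(b)`, `λ` accordingly: so WLOG `t = 1`, `ζ = θ`, `b1 = b0`. `m := b0 b0`, `n(m) = 1`. By CLAIM I the functionals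
`λ(y,.)`, `y ∈ Y`, separate the points of the 2-dimensional `Q`, so there are `y1, y2 ∈ Y` such that `λ(y1,.), λ(y2,.)` are independent on `Q`. `k5 (h' (y m)) = 2 λ(y,h')` for `y ∈ Y` (`θ(y) = 0`). So `y1 m, y2 m` are
independent, a basis of `D 3`, and (3) AN ELEMENT `a ∈ D 3` WITH `q a = 0` FOR ALL `q ∈ Q` IS `0` [`a = α y1 m + β y2 m`, `2(α λ(y1,q) + β λ(y2,q)) = 0`]. For `y ∈ Y`, `q ∈ Q`: `k5 (h' (y q)) = 0` for all `h' ∈ D 2`, so `y q = 0` by (3). So for `u ∈ D 1`: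
`0 = k4 (u (y q)) = k4 ((u y) q)`. The products `u y` (`u ∈ D 1`, `y ∈ Y`) are in `Q` (`n(uy) = θ(u)θ(y) = 0`), and `D 2` is spanned by `m` and these products, so they span `Q`: `k4 (q' q) = 0` for `q, q' ∈ Q`. `k5 (q' (b0 q)) = k4 (q q') + 0 = 0` for
`q, q' ∈ Q` so `b0 q = 0` by (3). Now `0 = k4 (b0 (y q)) - k4 (y (b0 q)) = [k4((b0 y)q) - λ(b0,q) ζ(y)] - [k4((y b0)q) - λ(y,q) ζ(b0)] = λ(y,q)` for `y ∈ Y`, `q ∈ Q`: against CLAIM I.

CASE B: `θ` is not a multiple of `ζ` on `D 1`. Then there are `b0 ∈ D 1` with `ζ(b0) = 1`, `θ(b0) = 0` and `y0 ∈ Y` with `θ(y0) = 1` (`ζ(y0) = 0`) [`ζ, θ` are independent on `D 1`; note `ζ(v) = 0` implies `v ∈ Y`]. WLOG `b1 = b0`. `m := y0 b0`, `2 n(m) = 1`. `Y0 := Y ⊓ ker θ`, `Y = F y0 + Y0`.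
(B1) There are `v1 ∈ Y0`, `q1 ∈ Q` with `λ(v1,q1) ≠ 0`: otherwise `λ(y,q) = θ(y) λ(y0,q)` on `Y × Q`, and the functional `λ(y0,.)` on the 2-dimensional `Q` has a nonzero zero, against CLAIM I.
(B2) `U ≠ 0`: `b0 q1, v1 q1 ∈ U` (`θ = 0` on them, `n(q1) = 0`), `k4 (b0 (v1 q1)) - k4 (v1 (b0 q1)) = λ(v1,q1) ≠ 0` (as in CASE A).
(B3) `Ψ(h') := λ(v1,h') = k5 (h' (v1 m))`, `Ψ(q1) ≠ 0`, so `v1 m ∉ U`; `finrank (D 3) = 2`, so `D 3 = F (v1 m) + U`: for every `a ∈ D 3` there is `r` with `k5 (h' a) = r Ψ(h')` for all `h' ∈ D 2`. Let `q2 ∈ Q`, `q2 ≠ 0`, `Ψ(q2) = 0`. `a = y0 q`, `q ∈ Q`: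
`k4 (q h') = c(q) Ψ(h')`. So `k4 (q1 q2) = c(q1) Ψ(q2) = 0` and `k4 (q2 q1) = c(q2) Ψ(q1)`, so `c(q2) = 0`, `k4 (q2 h') = 0` for all `h' ∈ D 2`. `a = y0 m`: `k4 (m h') + λ(y0,h') = r0 Ψ(h')`; `h' = q2`: `λ(y0,q2) = 0`. `a = v m`, `v ∈ Y0`: `λ(v,h') = r Ψ(h')`,
so `λ(v,q2) = 0`. So `λ(Y,q2) = 0`, against CLAIM I.
-/

namespace JD

universe u

section tools

variable {F : Type u} [Field F] {A : Type u} [AddCommGroup A] [Module F A]

/-- two independent vectors span a two-dimensional space -/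
private theorem Om3_span2 [Module.Finite F A] {P : Submodule F A} (h : Module.finrank F P = 2) (p s : A)
    (hp : p ∈ P) (hs : s ∈ P) (hi : ∀ a b : F, a • p + b • s = 0 → a = 0 ∧ b = 0)
    (x : A) (hx : x ∈ P) : ∃ a b : F, x = a • p + b • s := by
  have hli : LinearIndependent F ![(⟨p, hp⟩ : P), ⟨s, hs⟩] := by
    rw [LinearIndependent.pair_iff]
    intro a b hab
    exact hi a b (by simpa using congrArg Subtype.val hab)
  have htop := hli.span_eq_top_of_card_eq_finrank' (by simp [h])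
  have hx' : (⟨x, hx⟩ : P) ∈ Submodule.span F (Set.range ![(⟨p, hp⟩ : P), ⟨s, hs⟩]) := by
    rw [htop]
    exact Submodule.mem_top
  rw [Matrix.range_cons, Matrix.range_cons, Matrix.range_empty, Set.union_empty,
    Set.singleton_union, Submodule.mem_span_pair] at hx'
  obtain ⟨a, b, hab⟩ := hx'
  exact ⟨a, b, by simpa using (congrArg Subtype.val hab).symm⟩

/-- a vector in a two-dimensional space, and a coordinate modulo it -/
private theorem Om3_quot [Module.Finite F A] {Q : Submodule F A}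
    (h : Module.finrank F Q = 2) (q : A) (hq : q ∈ Q) (hq0 : q ≠ 0) :
    ∃ s ∈ Q, ∃ β : A →ₗ[F] F, ∀ x ∈ Q, ∃ a : F, x = a • q + β x • s := by
  obtain ⟨s₁, hs₁, s₂, hs₂, φ₁, φ₂, -, -, -, -, hφ⟩ := exists_coord2 h
  have hqe := hφ q hq
  by_cases h1 : φ₁ q = 0
  · have h2 : φ₂ q ≠ 0 := by
      intro h2
      rw [h1, h2, zero_smul, zero_smul, add_zero] at hqe
      exact hq0 hqe
    refine ⟨s₁, hs₁, φ₁, fun x hx => ⟨φ₂ x / φ₂ q, ?_⟩⟩
    have hxe := hφ x hx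
    rw [h1, zero_smul, zero_add] at hqe
    have e : (φ₂ x / φ₂ q) • q = φ₂ x • s₂ := by
      have := congrArg (fun z => (φ₂ x / φ₂ q) • z) hqe
      rw [smul_smul, div_mul_cancel₀ _ h2] at this
      exact this
    rw [e, add_comm]
    exact hxe
  · refine ⟨s₂, hs₂, φ₂ - (φ₂ q / φ₁ q) • φ₁, fun x hx => ⟨φ₁ x / φ₁ q, ?_⟩⟩
    have hxe := hφ x hx
    have e : (φ₁ x / φ₁ q) • q = φ₁ x • s₁ + (φ₁ x / φ₁ q * φ₂ q) • s₂ := by
      have := congrArg (fun z => (φ₁ x / φ₁ q) • z) hqe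
      rw [smul_add, smul_smul, smul_smul, div_mul_cancel₀ _ h1] at this
      exact this
    rw [e, LinearMap.sub_apply, LinearMap.smul_apply, smul_eq_mul, sub_smul]
    have e2 : φ₁ x / φ₁ q * φ₂ q = φ₂ q / φ₁ q * φ₁ x := by ring
    rw [e2]
    refine hxe.trans ?_
    abel

/-- a functional on a two-dimensional space has a nonzero zero -/
private theorem Om3_zero [Module.Finite F A] {Q : Submodule F A}
    (h : Module.finrank F Q = 2) (φ : A →ₗ[F] F) : ∃ q ∈ Q, q ≠ 0 ∧ φ q = 0 := by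
  obtain ⟨s₁, hs₁, s₂, hs₂, φ₁, φ₂, h11, h12, h21, h22, hφ⟩ := exists_coord2 h
  by_cases h0 : φ s₂ = 0
  · refine ⟨s₂, hs₂, ?_, h0⟩
    intro h
    rw [h, map_zero] at h22
    exact zero_ne_one h22
  · refine ⟨φ s₂ • s₁ - φ s₁ • s₂, Q.sub_mem (Q.smul_mem _ hs₁) (Q.smul_mem _ hs₂), ?_, ?_⟩
    · intro h
      have := congrArg φ₁ h
      rw [map_sub, map_smul, map_smul, h11, h12, smul_eq_mul, smul_eq_mul, mul_one, mul_zero,
        sub_zero, map_zero] at this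
      exact h0 this
    · rw [map_sub, map_smul, map_smul, smul_eq_mul, smul_eq_mul]
      ring

/-- the kernel of a nonzero functional on a three-dimensional space -/
private theorem Om3_ker [Module.Finite F A] {P : Submodule F A}
    (h : Module.finrank F P = 3) (n : A →ₗ[F] F) (hn : ∃ x ∈ P, n x ≠ 0) :
    Module.finrank F (P ⊓ LinearMap.ker n : Submodule F A) = 2 := by
  obtain ⟨x, hx, hnx⟩ := hn
  have h1 := LinearMap.finrank_range_add_finrank_ker (n ∘ₗ P.subtype)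
  have h2 : LinearMap.range (n ∘ₗ P.subtype) = ⊤ := by
    rw [LinearMap.range_eq_top]
    intro r
    refine ⟨(r / n x) • ⟨x, hx⟩, ?_⟩
    simp [div_mul_cancel₀ _ hnx]
  rw [h2, finrank_top, Module.finrank_self, h, LinearMap.ker_comp,
    ← Submodule.finrank_map_subtype_eq, Submodule.map_comap_subtype] at h1
  omega

/-- a pairing which is nondegenerate on one side -/
private theorem Om3_pair [Module.Finite F A] (P Q : Submodule F A)
    (hd : Module.finrank F P ≤ Module.finrank F Q) (B : A →ₗ[F] A →ₗ[F] F)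
    (h : ∀ q ∈ Q, q ≠ 0 → ∃ p ∈ P, B p q ≠ 0) (p : A) (hp : p ∈ P)
    (h0 : ∀ q ∈ Q, B p q = 0) : p = 0 := by
  let Φ : Q →ₗ[F] Module.Dual F P := ((LinearMap.lcomp F F P.subtype) ∘ₗ B.flip) ∘ₗ Q.subtype
  have hΦ : ∀ (q : Q) (p : P), Φ q p = B p q := fun q p => rfl
  have hinj : Function.Injective Φ := by
    rw [injective_iff_map_eq_zero]
    intro q hq
    by_contra hne
    obtain ⟨p, hp, hpq⟩ := h q q.2 (fun h => hne (Subtype.ext h))
    exact hpq (by rw [← hΦ q ⟨p, hp⟩, hq]; rfl)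
  have hfr : Module.finrank F Q = Module.finrank F (Module.Dual F P) := by
    rw [Subspace.dual_finrank_eq]
    refine le_antisymm ?_ hd
    rw [← Subspace.dual_finrank_eq (K := F) (V := P)]
    exact LinearMap.finrank_le_finrank_of_injective hinj
  have hsurj : Function.Surjective Φ :=
    (LinearMap.injective_iff_surjective_of_finrank_eq_finrank hfr).mp hinj
  have : (⟨p, hp⟩ : P) = 0 := by
    rw [← Module.forall_dual_apply_eq_zero_iff F]
    intro f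
    obtain ⟨q, rfl⟩ := hsurj f
    exact h0 q q.2
  exact congrArg Subtype.val this

end tools

variable {F : Type u} [Field F] {A : Type u} [NonUnitalNonAssocCommRing A] [Module F A]
  [IsScalarTower F A A] [SMulCommClass F A A] {D : ℕ → Submodule F A}
  {g u : A} {k4 k5 θ : A →ₗ[F] F}

/-- `λ(c,h) = kk c b h` as a bilinear form -/
private def Om3_L (k4 : A →ₗ[F] F) (b : A) : A →ₗ[F] A →ₗ[F] F :=
  LinearMap.mk₂ F (fun c h => kk k4 c b h)
    (by
      intro c c' h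
      unfold kk
      rw [← map_add]
      congr 1
      rw [add_mul, add_mul, add_mul]
      abel)
    (by
      intro r c h
      unfold kk
      rw [← map_smul]
      congr 1
      rw [smul_mul_assoc, smul_mul_assoc, smul_mul_assoc, smul_sub])
    (by
      intro c h h'
      unfold kk
      rw [← map_add]
      congr 1
      rw [mul_add, mul_add, mul_add]
      abel)
    (by
      intro r c h
      unfold kk
      rw [← map_smul]
      congr 1
      rw [mul_smul_comm, mul_smul_comm, mul_smul_comm, smul_sub])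

private theorem Om3_L_apply (k4 : A →ₗ[F] F) (b c h : A) : Om3_L k4 b c h = kk k4 c b h := rfl

private theorem Om3_kk_sub (k4 : A →ₗ[F] F) (c v w h : A) (r : F) :
    kk k4 c (v - r • w) h = kk k4 c v h - r * kk k4 c w h := by
  have e : (c * (v - r • w)) * h - c * ((v - r • w) * h) =
      (c * v * h - c * (v * h)) - r • (c * w * h - c * (w * h)) := by
    rw [mul_sub, sub_mul, sub_mul, mul_sub, mul_smul_comm, smul_mul_assoc, smul_mul_assoc,
      mul_smul_comm, smul_sub]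
    abel
  unfold kk
  rw [e, map_sub, map_smul, smul_eq_mul]

/-- the data of the proof -/
private structure Om3_S (D : ℕ → Submodule F A) (k4 k5 θ ζ n : A →ₗ[F] F)
    (L : A →ₗ[F] A →ₗ[F] F) : Prop where
  kz : ∀ u ∈ D 1, ∀ v ∈ D 1, ∀ h ∈ D 2, k4 (u * (v * h)) = k4 ((u * v) * h) - ζ v * L u h
  n2 : ∀ a ∈ D 1, ∀ b ∈ D 1, 2 * n (a * b) = θ a * ζ b + θ b * ζ a
  st : ∀ v ∈ D 1, ∀ h ∈ D 2, ∀ h' ∈ D 2,
    k5 (h' * (v * h)) = θ v * k4 (h * h') + 2 * n h * L v h'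
  c1 : ∀ q ∈ D 2, n q = 0 → q ≠ 0 → ∃ y ∈ Y5 D, L y q ≠ 0

/-- the commutator identity -/
private theorem Om3_comm {ζ n : A →ₗ[F] F} {L : A →ₗ[F] A →ₗ[F] F}
    (hS : Om3_S D k4 k5 θ ζ n L) (b y q : A) (hb : b ∈ D 1) (hy : y ∈ D 1) (hq : q ∈ D 2)
    (hbq : b * q = 0) (hyq : y * q = 0) : ζ y * L b q = ζ b * L y q := by
  have h1 := hS.kz b hb y hy q hq
  have h2 := hS.kz y hy b hb q hq
  rw [hyq, mul_zero, map_zero] at h1
  rw [hbq, mul_zero, map_zero, mul_comm y b] at h2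
  linear_combination h1 - h2

private theorem Om3_caseA (hG : GJ F A 5 D) (h3 : Module.finrank F (D 3) = 2)
    {ζ n : A →ₗ[F] F} {L : A →ₗ[F] A →ₗ[F] F} (hS : Om3_S D k4 k5 θ ζ n L)
    (hY : Y5 D ≤ D 1) (hζ : ∀ y ∈ Y5 D, ζ y = 0)
    (hQ : Module.finrank F (D 2 ⊓ LinearMap.ker n : Submodule F A) = 2)
    (b1 : A) (hb1 : b1 ∈ D 1) (hζb : ζ b1 = 1) (hc : ∀ v ∈ D 1, v - ζ v • b1 ∈ Y5 D)
    (t : F) (ht : t ≠ 0) (hθ : ∀ v ∈ D 1, θ v = t * ζ v) : False := by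
  have := hG.fin
  have h2 := hG.two
  have hn : ∀ a ∈ D 1, ∀ b ∈ D 1, n (a * b) = t * ζ a * ζ b := by
    intro a ha b hb
    have := hS.n2 a ha b hb
    rw [hθ a ha, hθ b hb] at this
    exact mul_left_cancel₀ h2 (by linear_combination this)
  have hm2 : b1 * b1 ∈ D 2 := hG.mul_mem 1 1 le_rfl le_rfl _ hb1 _ hb1
  have hnm : n (b1 * b1) = t := by rw [hn b1 hb1 b1 hb1, hζb, mul_one, mul_one]
  -- (3)
  have h3' : ∀ a ∈ D 3, (∀ q ∈ D 2, n q = 0 → k5 (q * a) = 0) → a = 0 := by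
    intro a ha h0
    refine Om3_pair (D 3) (D 2 ⊓ LinearMap.ker n) (by rw [h3, hQ])
      (LinearMap.mk₂ F (fun a q => k5 (q * a))
        (by intro a a' q; rw [← map_add, mul_add])
        (by intro r a q; rw [← map_smul, mul_smul_comm])
        (by intro a q q'; rw [← map_add, add_mul])
        (by intro r a q; rw [← map_smul, smul_mul_assoc])) ?_ a ha ?_
    · intro q hq hq0
      obtain ⟨y, hy, hyq⟩ := hS.c1 q hq.1 hq.2 hq0
      refine ⟨y * (b1 * b1), hG.mul_mem 1 2 le_rfl (by norm_num) _ (hY hy) _ hm2, ?_⟩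
      rw [LinearMap.mk₂_apply, hS.st y (hY hy) _ hm2 q hq.1, hθ y (hY hy), hζ y hy, hnm]
      simp only [mul_zero, zero_mul, zero_add]
      exact mul_ne_zero (mul_ne_zero h2 ht) hyq
    · intro q hq
      exact h0 q hq.1 hq.2
  have hyq : ∀ y ∈ Y5 D, ∀ q ∈ D 2, n q = 0 → y * q = 0 := by
    intro y hy q hq hnq
    refine h3' _ (hG.mul_mem 1 2 le_rfl (by norm_num) _ (hY hy) _ hq) fun q' hq' _ => ?_
    rw [hS.st y (hY hy) q hq q' hq', hθ y (hY hy), hζ y hy, hnq]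
    simp
  have huy : ∀ u ∈ D 1, ∀ y ∈ Y5 D, ∀ q ∈ D 2, n q = 0 → k4 ((u * y) * q) = 0 := by
    intro u hu y hy q hq hnq
    have := hS.kz u hu y (hY hy) q hq
    rw [hyq y hy q hq hnq, mul_zero, map_zero, hζ y hy, zero_mul, sub_zero] at this
    exact this.symm
  have hqq : ∀ q ∈ D 2, n q = 0 → ∀ q' ∈ D 2, n q' = 0 → k4 (q' * q) = 0 := by
    intro q hq hnq q' hq' hnq'
    let R : A →ₗ[F] F := t • (k4 ∘ₗ LinearMap.mulRight F q) - (k4 ((b1 * b1) * q)) • n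
    have hR : ∀ x, R x = t * k4 (x * q) - k4 ((b1 * b1) * q) * n x := fun x => rfl
    have hT : D 2 ≤ LinearMap.ker R := by
      refine hG.gen2 _ fun v hv w hw => ?_
      rw [LinearMap.mem_ker, hR, hn v hv w hw]
      have e1 : v * w = (ζ v * ζ w) • (b1 * b1) + ζ v • (b1 * (w - ζ w • b1)) +
          w * (v - ζ v • b1) := by
        rw [mul_sub, mul_sub, mul_smul_comm, mul_smul_comm, smul_sub, mul_comm w v,
          mul_comm w b1, smul_smul]
        abel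
      rw [e1, add_mul, add_mul, smul_mul_assoc, smul_mul_assoc, map_add, map_add, map_smul,
        map_smul, huy b1 hb1 _ (hc w hw) q hq hnq, huy w hw _ (hc v hv) q hq hnq, smul_zero,
        smul_eq_mul]
      ring
    have := hT hq'
    rw [LinearMap.mem_ker, hR, hnq', mul_zero, sub_zero] at this
    exact (mul_eq_zero.mp this).resolve_left ht
  have hbq : ∀ q ∈ D 2, n q = 0 → b1 * q = 0 := by
    intro q hq hnq
    refine h3' _ (hG.mul_mem 1 2 le_rfl (by norm_num) _ hb1 _ hq) fun q' hq' hnq' => ?_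
    rw [hS.st b1 hb1 q hq q' hq', hqq q' hq' hnq' q hq hnq, hnq]
    simp
  obtain ⟨q, hq, hq0, -⟩ := Om3_zero hQ 0
  obtain ⟨y, hy, hyq'⟩ := hS.c1 q hq.1 hq.2 hq0
  have := Om3_comm hS b1 y q hb1 (hY hy) hq.1 (hbq q hq.1 hq.2) (hyq y hy q hq.1 hq.2)
  rw [hζ y hy, hζb, zero_mul, one_mul] at this
  exact hyq' this.symm

private theorem Om3_caseB (hG : GJ F A 5 D) (h3 : Module.finrank F (D 3) = 2)
    {ζ n : A →ₗ[F] F} {L : A →ₗ[F] A →ₗ[F] F} (hS : Om3_S D k4 k5 θ ζ n L)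
    (hY : Y5 D ≤ D 1) (hζ : ∀ y ∈ Y5 D, ζ y = 0)
    (hQ : Module.finrank F (D 2 ⊓ LinearMap.ker n : Submodule F A) = 2)
    (b0 : A) (hb0 : b0 ∈ D 1) (hζb : ζ b0 = 1) (hθb : θ b0 = 0)
    (y0 : A) (hy0 : y0 ∈ Y5 D) (hθy : θ y0 = 1) : False := by
  have := hG.fin
  have h2 := hG.two
  have hy01 := hY hy0
  have hm2 : y0 * b0 ∈ D 2 := hG.mul_mem 1 1 le_rfl le_rfl _ hy01 _ hb0
  have hnm : 2 * n (y0 * b0) = 1 := by
    rw [hS.n2 y0 hy01 b0 hb0, hθy, hζb, hθb]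
    ring
  have hdec : ∀ y ∈ Y5 D, y - θ y • y0 ∈ Y5 D ∧ θ (y - θ y • y0) = 0 := by
    intro y hy
    refine ⟨(Y5 D).sub_mem hy ((Y5 D).smul_mem _ hy0), ?_⟩
    rw [map_sub, map_smul, hθy, smul_eq_mul, mul_one, sub_self]
  have hsplit : ∀ q, L y0 q = 0 → (∀ v ∈ Y5 D, θ v = 0 → L v q = 0) → ∀ y ∈ Y5 D, L y q = 0 := by
    intro q hq0 hqv y hy
    have := hqv _ (hdec y hy).1 (hdec y hy).2
    rw [map_sub, map_smul, LinearMap.sub_apply, LinearMap.smul_apply, hq0, smul_zero,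
      sub_zero] at this
    exact this
  -- (B1)
  obtain ⟨v1, hv1, hθv1, q1, hq1, hnq1, hL1⟩ : ∃ v ∈ Y5 D, θ v = 0 ∧ ∃ q ∈ D 2, n q = 0 ∧
      L v q ≠ 0 := by
    by_contra hcon
    push Not at hcon
    obtain ⟨q, hq, hq0, hLq⟩ := Om3_zero hQ (L y0)
    obtain ⟨y, hy, hyq⟩ := hS.c1 q hq.1 hq.2 hq0
    exact hyq (hsplit q hLq (fun v hv hθv => hcon v hv hθv q hq.1 hq.2) y hy)
  have hv11 := hY hv1
  -- (B2)
  obtain ⟨a0, ha0, ha00, ha0k⟩ : ∃ a ∈ D 3, a ≠ 0 ∧ ∀ h ∈ D 2, k5 (h * a) = 0 := by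
    by_cases hb : b0 * q1 = 0
    · refine ⟨v1 * q1, hG.mul_mem 1 2 le_rfl (by norm_num) _ hv11 _ hq1, ?_, ?_⟩
      · intro hv
        have := Om3_comm hS b0 v1 q1 hb0 hv11 hq1 hb hv
        rw [hζ v1 hv1, hζb, zero_mul, one_mul] at this
        exact hL1 this.symm
      · intro h hh
        rw [hS.st v1 hv11 q1 hq1 h hh, hθv1, hnq1]
        ring
    · refine ⟨b0 * q1, hG.mul_mem 1 2 le_rfl (by norm_num) _ hb0 _ hq1, hb, ?_⟩
      intro h hh
      rw [hS.st b0 hb0 q1 hq1 h hh, hθb, hnq1]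
      ring
  -- (B3)
  have hvm : ∀ v ∈ Y5 D, θ v = 0 → ∀ h ∈ D 2, k5 (h * (v * (y0 * b0))) = L v h := by
    intro v hv hθv h hh
    rw [hS.st v (hY hv) _ hm2 h hh, hθv, hnm]
    ring
  have hr : ∀ a ∈ D 3, ∃ r : F, ∀ h ∈ D 2, k5 (h * a) = r * L v1 h := by
    intro a ha
    obtain ⟨s, r, hsr⟩ := Om3_span2 h3 a0 (v1 * (y0 * b0)) ha0
      (hG.mul_mem 1 2 le_rfl (by norm_num) _ hv11 _ hm2) (by
        intro s r hsr
        have h1 := congrArg (fun x => k5 (q1 * x)) hsr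
        simp only [mul_add, mul_smul_comm, map_add, map_smul, mul_zero, map_zero,
          ha0k q1 hq1, hvm v1 hv1 hθv1 q1 hq1, smul_eq_mul, mul_zero, zero_add] at h1
        have hr0 := (mul_eq_zero.mp h1).resolve_right hL1
        rw [hr0, zero_smul, add_zero] at hsr
        exact ⟨(smul_eq_zero.mp hsr).resolve_right ha00, hr0⟩) a ha
    refine ⟨r, fun h hh => ?_⟩
    rw [hsr, mul_add, mul_smul_comm, mul_smul_comm, map_add, map_smul, map_smul,
      ha0k h hh, hvm v1 hv1 hθv1 h hh, smul_zero, zero_add, smul_eq_mul]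
  obtain ⟨q2, hq2, hq20, hL2⟩ := Om3_zero hQ (L v1)
  have hk : ∀ h ∈ D 2, k4 (q2 * h) = 0 := by
    obtain ⟨r1, hr1⟩ := hr (y0 * q1) (hG.mul_mem 1 2 le_rfl (by norm_num) _ hy01 _ hq1)
    obtain ⟨r2, hr2⟩ := hr (y0 * q2) (hG.mul_mem 1 2 le_rfl (by norm_num) _ hy01 _ hq2.1)
    have hnq2 : n q2 = 0 := hq2.2
    have e1 : k4 (q1 * q2) = 0 := by
      have := hr1 q2 hq2.1
      rw [hS.st y0 hy01 q1 hq1 q2 hq2.1, hθy, hnq1, hL2] at this
      linear_combination this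
    have e2 : ∀ h ∈ D 2, k4 (q2 * h) = r2 * L v1 h := by
      intro h hh
      have := hr2 h hh
      rw [hS.st y0 hy01 q2 hq2.1 h hh, hθy, hnq2] at this
      linear_combination this
    have e3 : r2 = 0 := by
      have := e2 q1 hq1
      rw [mul_comm q2 q1, e1] at this
      exact (mul_eq_zero.mp this.symm).resolve_right hL1
    intro h hh
    rw [e2 h hh, e3, zero_mul]
  obtain ⟨y, hy, hyq⟩ := hS.c1 q2 hq2.1 hq2.2 hq20
  refine hyq (hsplit q2 ?_ ?_ y hy)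
  · obtain ⟨r, hr0⟩ := hr (y0 * (y0 * b0)) (hG.mul_mem 1 2 le_rfl (by norm_num) _ hy01 _ hm2)
    have := hr0 q2 hq2.1
    rw [hS.st y0 hy01 _ hm2 q2 hq2.1, hθy, hnm, hL2, mul_comm (y0 * b0) q2, hk _ hm2] at this
    linear_combination this
  · intro v hv hθv
    obtain ⟨r, hr0⟩ := hr (v * (y0 * b0)) (hG.mul_mem 1 2 le_rfl (by norm_num) _ (hY hv) _ hm2)
    have := hr0 q2 hq2.1
    rw [hvm v hv hθv q2 hq2.1, hL2, mul_zero] at this
    exact this

theorem omega_three_one (hG : GJ F A 5 D) (hK : K5 D g u k4 k5 θ)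
    (h2 : Module.finrank F (D 2) = 3) (h3 : Module.finrank F (D 3) = 2)
    (b1 : A) (hb1 : b1 ∈ D 1) (ζ : A →ₗ[F] F) (hζ : ∀ y ∈ Y5 D, ζ y = 0) (hζb : ζ b1 = 1)
    (hc : ∀ v ∈ D 1, v - ζ v • b1 ∈ Y5 D) :
    ∀ y ∈ Y5 D, ∀ y' ∈ Y5 D, ∀ b ∈ D 1, ∀ c ∈ D 1,
      kk k4 c b (y * y') = kk k4 b c (y * y') := by
  have := hG.fin
  have := hG.inf
  have h20 := hG.two
  have hY : Y5 D ≤ D 1 := fun v hv => hv.1
  obtain ⟨n, hn⟩ := nform hG hK ζ hζ
  have hkz : ∀ c ∈ D 1, ∀ v ∈ D 1, ∀ h ∈ D 2, kk k4 c v h = ζ v * Om3_L k4 b1 c h := by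
    intro c hc' v hv h hh
    have := ((kk_mem_Y5 hG hK _).mp (hc v hv)).2 c hc' h hh
    rw [Om3_kk_sub, sub_eq_zero] at this
    exact this
  by_contra hcon
  push Not at hcon
  obtain ⟨y', hy', y'', hy'', b, hb, c, hcc, hne⟩ := hcon
  -- (0)
  have h0 : ¬ ∀ x ∈ Y5 D, ∀ y ∈ Y5 D, ∀ z ∈ Y5 D, Om3_L k4 b1 x (y * z) = 0 := by
    intro h0
    apply hne
    have hh : y' * y'' ∈ D 2 := hG.mul_mem 1 1 le_rfl le_rfl _ (hY hy') _ (hY hy'')
    have e : ∀ c ∈ D 1, Om3_L k4 b1 c (y' * y'') = ζ c * Om3_L k4 b1 b1 (y' * y'') := by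
      intro c hcc
      have := h0 _ (hc c hcc) y' hy' y'' hy''
      rw [map_sub, map_smul, LinearMap.sub_apply, LinearMap.smul_apply, smul_eq_mul,
        sub_eq_zero] at this
      exact this
    rw [hkz c hcc b hb _ hh, hkz b hb c hcc _ hh, e c hcc, e b hb]
    ring
  have hne0 : ∃ x ∈ D 2, n x ≠ 0 := by
    by_contra hcon
    push Not at hcon
    have := nform_inj hG hK ζ n hn hcon b1 hb1
    rw [hζb] at this
    exact one_ne_zero this
  have hQ := Om3_ker h2 n hne0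
  have hst : ∀ v ∈ D 1, ∀ h ∈ D 2, ∀ h' ∈ D 2,
      k5 (h' * (v * h)) = θ v * k4 (h * h') + 2 * n h * Om3_L k4 b1 v h' := by
    intro v hv h hh h' hh'
    let R : A →ₗ[F] F := (k5 ∘ₗ LinearMap.mulLeft F h') ∘ₗ LinearMap.mulLeft F v -
      θ v • (k4 ∘ₗ LinearMap.mulRight F h') - (2 * Om3_L k4 b1 v h') • n
    have hR : ∀ x, R x = k5 (h' * (v * x)) - θ v * k4 (x * h') -
      (2 * Om3_L k4 b1 v h') * n x := fun x => rfl
    have hT : D 2 ≤ LinearMap.ker R := by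
      refine hG.gen2 _ fun x hx y hy => ?_
      rw [LinearMap.mem_ker, hR, kk_star hG hK v x y h' hv hx hy hh', hkz v hv y hy h' hh',
        hkz v hv x hx h' hh']
      linear_combination (-Om3_L k4 b1 v h') * hn x hx y hy
    have := hT hh
    rw [LinearMap.mem_ker, hR] at this
    linear_combination this
  have hS : Om3_S D k4 k5 θ ζ n (Om3_L k4 b1) := by
    refine ⟨?_, hn, hst, ?_⟩
    · intro u hu v hv h hh
      have := hkz u hu v hv h hh
      unfold kk at this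
      rw [map_sub] at this
      linear_combination -this
    · -- CLAIM I
      intro q hq hnq hq0
      by_contra hcon
      push Not at hcon
      apply h0
      obtain ⟨s, hs, β, hβ⟩ := Om3_quot hQ q ⟨hq, hnq⟩ hq0
      have hYY : ∀ y ∈ Y5 D, ∀ z ∈ Y5 D, y * z ∈ (D 2 ⊓ LinearMap.ker n : Submodule F A) := by
        intro y hy z hz
        refine ⟨hG.mul_mem 1 1 le_rfl le_rfl _ (hY hy) _ (hY hz), ?_⟩
        have := hn y (hY hy) z (hY hz)
        rw [hζ y hy, hζ z hz, mul_zero, mul_zero, add_zero] at this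
        exact (mul_eq_zero.mp this).resolve_left h20
      have hxyz : ∀ x ∈ Y5 D, ∀ y ∈ Y5 D, ∀ z ∈ Y5 D,
          Om3_L k4 b1 x (y * z) = β (y * z) * Om3_L k4 b1 x s := by
        intro x hx y hy z hz
        obtain ⟨a, ha⟩ := hβ _ (hYY y hy z hz)
        have := congrArg (Om3_L k4 b1 x) ha
        rw [map_add, map_smul, map_smul, hcon x hx, smul_zero, zero_add, smul_eq_mul] at this
        exact this
      let Bt : A →ₗ[F] A →ₗ[F] F := LinearMap.mk₂ F (fun y z => β (y * z))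
        (by intro a a' q; rw [← map_add, add_mul])
        (by intro r a q; rw [← map_smul, smul_mul_assoc])
        (by intro a q q'; rw [← map_add, mul_add])
        (by intro r a q; rw [← map_smul, mul_smul_comm])
      have hBt : ∀ y z, Bt y z = β (y * z) := fun y z => rfl
      rcases quad_lin h20 (Y5 D) Bt (fun x _ y _ => by rw [hBt, hBt, mul_comm])
        ((Om3_L k4 b1).flip s) (by
          intro x hx
          have := kk_sq hG k4 x b1
          rw [← Om3_L_apply, hxyz x hx x hx x hx] at this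
          exact this) with h | h
      · intro x hx y hy z hz
        rw [hxyz x hx y hy z hz]
        have : Om3_L k4 b1 x s = 0 := h x hx
        rw [this, mul_zero]
      · intro x hx y hy z hz
        rw [hxyz x hx y hy z hz]
        have : β (y * z) = 0 := h y hy z hz
        rw [this, zero_mul]
  by_cases hA : ∀ v ∈ D 1, ζ v = 0 → θ v = 0
  · have hθ : ∀ v ∈ D 1, θ v = θ b1 * ζ v := by
      intro v hv
      have := hA (v - ζ v • b1) ((D 1).sub_mem hv ((D 1).smul_mem _ hb1)) (by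
        rw [map_sub, map_smul, hζb, smul_eq_mul, mul_one, sub_self])
      rw [map_sub, map_smul, smul_eq_mul] at this
      linear_combination this
    refine Om3_caseA hG h3 hS hY hζ hQ b1 hb1 hζb hc (θ b1) ?_ hθ
    intro ht
    obtain ⟨v, hv, hv0⟩ := hK.ne
    exact hv0 (by rw [hθ v hv, ht, zero_mul])
  · push Not at hA
    obtain ⟨y0, hy0, hζy, hθy⟩ := hA
    have hy0Y : y0 ∈ Y5 D := by
      have := hc y0 hy0
      rwa [hζy, zero_smul, sub_zero] at this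
    refine Om3_caseB hG h3 hS hY hζ hQ (b1 - (θ b1 / θ y0) • y0)
      ((D 1).sub_mem hb1 ((D 1).smul_mem _ hy0)) ?_ ?_ ((θ y0)⁻¹ • y0)
      ((Y5 D).smul_mem _ hy0Y) ?_
    · rw [map_sub, map_smul, hζy, smul_zero, sub_zero, hζb]
    · rw [map_sub, map_smul, smul_eq_mul, div_mul_cancel₀ _ hθy, sub_self]
    · rw [map_smul, smul_eq_mul, inv_mul_cancel₀ hθy]

end JD
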