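import Pool.Agent.H13.JN.K5L

set_option autoImplicit false
set_option linter.unusedSectionVars false

/-!
# JN Om4: class 5, dimensions `(n; 3, 2, 1)`: the condition (ω), codimension 2 (helper13)

`finrank (D 2) = 3`, `finrank (D 3) = 2`. `Y = Y5` has codimension 2 in `D 1`: functionals `ζ1, ζ2` zero on `Y`, `v1, v2 ∈ D 1` dual to them,
`v - ζ1(v) v1 - ζ2(v) v2 ∈ Y` for `v ∈ D 1`. `n1, n2` are the forms: `2 n_i(ab) = θ(a)ζ_i(b) + θ(b)ζ_i(a)`; they are independent on `D 2` (`nform_inj`), so `D 2 ⊓ ker n1 ⊓ ker n2 = F s`, `s ≠ 0`.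

THEOREM `omega_three_two`: (ω) holds: `kk c b h = kk b c h` for `h = y y'`, `y, y' ∈ Y`.

PROOF. Suppose not. `λ_i(c,h) := kk c v_i h`; `kk c v h = λ_1(c,h) ζ1(v) + λ_2(c,h) ζ2(v)` (`c, v ∈ D 1`, `h ∈ D 2`). For `y, y' ∈ Y`: `n_i(y y') = 0`, so `y y' = β(y,y') s`. `β ≠ 0` on `Y` (otherwise (ω)).
(1) `kk_sq` (`w = v_i`): `β(x,x) λ_i(x,s) = 0` on `Y`, so `λ_i(x,s) = 0` for `x ∈ Y` (`quad_lin`). So `λ_i(c,s) = ∑_j a_ij ζ_j(c)`, `a_ij = λ_i(v_j,s)`, and `kk c b s = ∑_ij a_ij ζ_j(c) ζ_i(b)`; (ω) fails, so `a_12 ≠ a_21`.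
(2) There is `y0 ∈ Y` with `θ(y0) = 1`. Otherwise for `y ∈ Y`, `b ∈ D 1`: `2 n_i(y b) = θ(y)ζ_i(b) + θ(b)ζ_i(y) = 0`, so `y b ∈ F s`, `kk y w (y' b) = 0` for `y, y' ∈ Y` (by (1), `kk y w s = 0`). `kk_cyc` for `b, y, y'`: `kk b w (y y') + kk y w (y' b) + kk y' w (b y) = 0`, so
`β(y,y') kk b w s = 0` for all `b, w ∈ D 1`: `kk . . s = 0`, against (1).
Replace `v_i` by `v_i - θ(v_i) y0`: so WLOG `θ(v_1) = θ(v_2) = 0` (`λ_i`, `a_ij` do not change, as `y0 ∈ Y`: `kk c y0 h = 0` and `λ_i(y0,s) = 0`).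
(3) For `v ∈ D 1`, `h, h' ∈ D 2`: `k5 (h' (v h)) = θ(v) k4(h h') + 2 n1(h) λ_1(v,h') + 2 n2(h) λ_2(v,h')` (`kk_star`, then linear in `h`). `k4 (u (v h)) = k4 ((u v) h) - ∑_i λ_i(u,h) ζ_i(v)`.
`U := {a ∈ D 3 | h a = 0 for all h ∈ D 2}`. For `θ(v) = 0`: `v s ∈ U`. `U ≠ 0`: otherwise `v_1 s = v_2 s = 0` and `0 = k4 (v_1 (v_2 s)) - k4 (v_2 (v_1 s)) = -λ_2(v_1,s) + λ_1(v_2,s) = a_12 - a_21`.
(4) Let `m_1, m_2 ∈ D 2` with `n_i(m_j) = δ_ij`. `k5 (h' (v m_j)) = θ(v) k4(m_j h') + 2 λ_j(v,h')`. Some `a_jk ≠ 0`; `a0 := v_k m_j`: `k5 (s a0) = 2 a_jk ≠ 0`. So `a0 ∉ U`, and as `finrank (D 3) = 2`, `D 3 = F a0 + U`: with `Ψ(h') := k5 (h' a0) / (2 a_jk)`, `Ψ(s) = 1`: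
`k5 (h' a) = k5 (s a) Ψ(h')` for all `a ∈ D 3`, `h' ∈ D 2`. Replace `m_j` by `m_j - Ψ(m_j) s`: `Ψ(m_j) = 0` (`n_i(s) = 0`).
(5) `a = y0 s`: `k4 (s h') = k4 (s s) Ψ(h')`, so `k4 (s m_j) = 0`. `a = y0 m_j`: `k4 (m_j h') + 2 λ_j(y0,h') = [k4 (m_j s) + 2 λ_j(y0,s)] Ψ(h') = 0`: `k4 (m_j h') = -2 λ_j(y0,h')`. `a = y m_j` for `y ∈ Y`, `θ(y) = 0`: `2 λ_j(y,h') = 2 λ_j(y,s) Ψ(h') = 0`.
(6) `kk_cyc` for `b, y0, y0` and `w`, `b, w ∈ {v_1, v_2}`: `kk b w (y0 y0) + 2 kk y0 w (y0 b) = 0`. `2 n_i(y0 b) = ζ_i(b)`, so `y0 b = (1/2) ∑_j ζ_j(b) m_j + σ s`, `kk y0 w s = 0`; `kk y0 w (y0 b) = (1/2) ∑_ij ζ_j(b) λ_i(y0,m_j) ζ_i(w) = -(1/4) ∑_ij ζ_j(b) ζ_i(w) k4 (m_i m_j)`.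
So `β(y0,y0) a_ij = (1/2) k4 (m_i m_j)`, symmetric in `i, j`; as `a_12 ≠ a_21`: `β(y0,y0) = 0`.
(7) Let `y1 ∈ Y`, `θ(y1) = 0`, `b, w ∈ {v_1, v_2}`. `n_i(y1 b) = 0` so `y1 b ∈ F s`, `kk y1 w (y1 b) = 0`, `kk_cyc` for `b, y1, y1`: `β(y1,y1) kk b w s = 0`, so `β(y1,y1) = 0` (some `kk v_j v_i s = a_ij ≠ 0`). `kk_cyc` for `b, y1, y0`: `kk b w (y1 y0) + kk y1 w (y0 b) + kk y0 w (b y1) = 0`;
the third is `0` (`b y1 ∈ F s`, `λ_i(y0,s) = 0`), the second is `0` by (5) (`λ_i(y1,.) = 0` on `D 2`); so `β(y1,y0) = 0`. As `Y = F y0 + (Y ⊓ ker θ)` and `β` is symmetric with `2 ≠ 0` (polarise `β(y1,y1) = 0`): `β = 0` on `Y`. Contradiction.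
-/

namespace JD

universe u

variable {F : Type u} [Field F] {A : Type u} [NonUnitalNonAssocCommRing A] [Module F A]
  [IsScalarTower F A A] [SMulCommClass F A A] {D : ℕ → Submodule F A}
  {g u : A} {k4 k5 θ : A →ₗ[F] F}

section lin

private theorem Om4_a1 (k4 : A →ₗ[F] F) (c c' v h : A) :
    kk k4 (c + c') v h = kk k4 c v h + kk k4 c' v h := by
  unfold kk; simp only [add_mul, map_add, map_sub]; ring

private theorem Om4_s1 (k4 : A →ₗ[F] F) (r : F) (c v h : A) :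
    kk k4 (r • c) v h = r * kk k4 c v h := by
  unfold kk; simp only [smul_mul_assoc, map_smul, map_sub, smul_eq_mul]; ring

private theorem Om4_a2 (k4 : A →ₗ[F] F) (c v v' h : A) :
    kk k4 c (v + v') h = kk k4 c v h + kk k4 c v' h := by
  unfold kk; simp only [add_mul, mul_add, map_add, map_sub]; ring

private theorem Om4_s2 (k4 : A →ₗ[F] F) (r : F) (c v h : A) :
    kk k4 c (r • v) h = r * kk k4 c v h := by
  unfold kk; simp only [smul_mul_assoc, mul_smul_comm, map_smul, map_sub, smul_eq_mul]; ring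

private theorem Om4_a3 (k4 : A →ₗ[F] F) (c v h h' : A) :
    kk k4 c v (h + h') = kk k4 c v h + kk k4 c v h' := by
  unfold kk; simp only [mul_add, map_add, map_sub]; ring

private theorem Om4_s3 (k4 : A →ₗ[F] F) (r : F) (c v h : A) :
    kk k4 c v (r • h) = r * kk k4 c v h := by
  unfold kk; simp only [mul_smul_comm, map_smul, map_sub, smul_eq_mul]; ring

end lin

private structure Om4_S (D : ℕ → Submodule F A) (θ : A →ₗ[F] F) (v1 v2 : A)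
    (ζ1 ζ2 n1 n2 φ : A →ₗ[F] F) (s m1 m2 : A) : Prop where
  hv1 : v1 ∈ D 1
  hv2 : v2 ∈ D 1
  hζ1 : ∀ y ∈ Y5 D, ζ1 y = 0
  hζ2 : ∀ y ∈ Y5 D, ζ2 y = 0
  h11 : ζ1 v1 = 1
  h12 : ζ1 v2 = 0
  h21 : ζ2 v1 = 0
  h22 : ζ2 v2 = 1
  hc : ∀ v ∈ D 1, v - ζ1 v • v1 - ζ2 v • v2 ∈ Y5 D
  hn1 : ∀ a ∈ D 1, ∀ b ∈ D 1, 2 * n1 (a * b) = θ a * ζ1 b + θ b * ζ1 a
  hn2 : ∀ a ∈ D 1, ∀ b ∈ D 1, 2 * n2 (a * b) = θ a * ζ2 b + θ b * ζ2 a
  hs : s ∈ D 2
  hm1 : m1 ∈ D 2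
  hm2 : m2 ∈ D 2
  n1s : n1 s = 0
  n2s : n2 s = 0
  φs : φ s = 1
  n11 : n1 m1 = 1
  n12 : n1 m2 = 0
  n21 : n2 m1 = 0
  n22 : n2 m2 = 1
  dec : ∀ h ∈ D 2, h = n1 h • m1 + n2 h • m2 + φ h • s

section steps

variable {v1 v2 : A} {ζ1 ζ2 n1 n2 φ : A →ₗ[F] F} {s m1 m2 : A}

/-- `kk c v h` in terms of `v1, v2` -/
private theorem Om4_kk (hG : GJ F A 5 D) (hK : K5 D g u k4 k5 θ)
    (hS : Om4_S D θ v1 v2 ζ1 ζ2 n1 n2 φ s m1 m2) (c v h : A) (hc : c ∈ D 1) (hv : v ∈ D 1)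
    (hh : h ∈ D 2) : kk k4 c v h = kk k4 c v1 h * ζ1 v + kk k4 c v2 h * ζ2 v := by
  have h1 := ((kk_mem_Y5 hG hK _).mp (hS.hc v hv)).2 c hc h hh
  have h2 : v = (v - ζ1 v • v1 - ζ2 v • v2) + (ζ1 v • v1 + ζ2 v • v2) := by abel
  conv_lhs => rw [h2]
  rw [Om4_a2, h1, Om4_a2, Om4_s2, Om4_s2]
  ring

private theorem Om4_kY (hG : GJ F A 5 D) (hK : K5 D g u k4 k5 θ) (c v h : A) (hc : c ∈ D 1)
    (hv : v ∈ Y5 D) (hh : h ∈ D 2) : kk k4 c v h = 0 :=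
  ((kk_mem_Y5 hG hK _).mp hv).2 c hc h hh

/-- products with `n1 = n2 = 0` -/
private theorem Om4_mul (hG : GJ F A 5 D)
    (hS : Om4_S D θ v1 v2 ζ1 ζ2 n1 n2 φ s m1 m2) (a b : A) (ha : a ∈ D 1) (hb : b ∈ D 1)
    (e1 : θ a * ζ1 b + θ b * ζ1 a = 0) (e2 : θ a * ζ2 b + θ b * ζ2 a = 0) :
    a * b = φ (a * b) • s := by
  have h1 : n1 (a * b) = 0 := by
    have := hS.hn1 a ha b hb
    rw [e1] at this
    exact (mul_eq_zero.mp this).resolve_left hG.two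
  have h2 : n2 (a * b) = 0 := by
    have := hS.hn2 a ha b hb
    rw [e2] at this
    exact (mul_eq_zero.mp this).resolve_left hG.two
  have h3 := hS.dec _ (hG.mul_mem 1 1 (by norm_num) (by norm_num) a ha b hb)
  rw [h1, h2, zero_smul, zero_smul, zero_add, zero_add] at h3
  exact h3

private theorem Om4_Y1 {y : A} (hy : y ∈ Y5 D) : y ∈ D 1 := hy.1

private theorem Om4_mulY (hG : GJ F A 5 D)
    (hS : Om4_S D θ v1 v2 ζ1 ζ2 n1 n2 φ s m1 m2) (a b : A) (ha : a ∈ Y5 D) (hb : b ∈ Y5 D) :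
    a * b = φ (a * b) • s := by
  apply Om4_mul hG hS a b (Om4_Y1 ha) (Om4_Y1 hb)
  · rw [hS.hζ1 a ha, hS.hζ1 b hb]; ring
  · rw [hS.hζ2 a ha, hS.hζ2 b hb]; ring

/-- step (1) -/
private theorem Om4_1 (hG : GJ F A 5 D)
    (hS : Om4_S D θ v1 v2 ζ1 ζ2 n1 n2 φ s m1 m2) (w : A)
    (hβ : ∃ y ∈ Y5 D, ∃ y' ∈ Y5 D, φ (y * y') ≠ 0) : ∀ x ∈ Y5 D, kk k4 x w s = 0 := by
  have := hG.inf
  obtain ⟨y, hy, y', hy', hne⟩ := hβ
  let lam : A →ₗ[F] F := k4 ∘ₗ (LinearMap.mulRight F s ∘ₗ LinearMap.mulRight F w -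
    LinearMap.mulRight F (w * s))
  have hlam : ∀ x, lam x = kk k4 x w s := by
    intro x
    simp [lam, kk]
  rcases quad_lin hG.two (Y5 D) ((LinearMap.mul F A).compr₂ φ)
    (fun a _ b _ => by simp [mul_comm]) lam (by
      intro x hx
      have h1 := Om4_mulY hG hS x x hx hx
      have h2 := kk_sq hG k4 x w
      rw [h1, Om4_s3] at h2
      rw [hlam]
      simpa using h2) with h | h
  · intro x hx
    rw [← hlam]
    exact h x hx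
  · exact absurd (by simpa using h y hy y' hy') hne

/-- step (2) -/
private theorem Om4_2 (hG : GJ F A 5 D) (hK : K5 D g u k4 k5 θ)
    (hS : Om4_S D θ v1 v2 ζ1 ζ2 n1 n2 φ s m1 m2)
    (h1 : ∀ x ∈ Y5 D, kk k4 x v1 s = 0) (h2 : ∀ x ∈ Y5 D, kk k4 x v2 s = 0)
    (hβ : ∃ y ∈ Y5 D, ∃ y' ∈ Y5 D, φ (y * y') ≠ 0)
    (hne : ∃ b ∈ D 1, ∃ c ∈ D 1, kk k4 c b s ≠ kk k4 b c s) : ∃ y0 ∈ Y5 D, θ y0 = 1 := by
  by_contra hcon
  push Not at hcon
  have hθ0 : ∀ y ∈ Y5 D, θ y = 0 := by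
    intro y hy
    by_contra hy0
    apply hcon ((θ y)⁻¹ • y) ((Y5 D).smul_mem _ hy)
    rw [map_smul, smul_eq_mul, inv_mul_cancel₀ hy0]
  have hYw : ∀ x ∈ Y5 D, ∀ w ∈ D 1, kk k4 x w s = 0 := by
    intro x hx w hw
    rw [Om4_kk hG hK hS x w s (Om4_Y1 hx) hw hS.hs, h1 x hx, h2 x hx]
    ring
  have hYb : ∀ y ∈ Y5 D, ∀ b ∈ D 1, y * b = φ (y * b) • s := by
    intro y hy b hb
    apply Om4_mul hG hS y b (Om4_Y1 hy) hb
    · rw [hθ0 y hy, hS.hζ1 y hy]; ring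
    · rw [hθ0 y hy, hS.hζ2 y hy]; ring
  obtain ⟨y, hy, y', hy', hyy⟩ := hβ
  have key : ∀ b ∈ D 1, ∀ w ∈ D 1, kk k4 b w s = 0 := by
    intro b hb w hw
    have e := kk_cyc hG k4 b y y' w
    rw [Om4_mulY hG hS y y' hy hy', hYb y' hy' b hb, mul_comm b y, hYb y hy b hb, Om4_s3, Om4_s3,
      Om4_s3, hYw y hy w hw, hYw y' hy' w hw, mul_zero, mul_zero, add_zero, add_zero] at e
    exact (mul_eq_zero.mp e).resolve_left hyy
  obtain ⟨b, hb, c, hc, hbc⟩ := hne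
  exact hbc (by rw [key c hc b hb, key b hb c hc])

/-- (3), first formula -/
private theorem Om4_3 (hG : GJ F A 5 D) (hK : K5 D g u k4 k5 θ)
    (hS : Om4_S D θ v1 v2 ζ1 ζ2 n1 n2 φ s m1 m2) (v h' : A) (hv : v ∈ D 1) (hh' : h' ∈ D 2) :
    ∀ h ∈ D 2, k5 (h' * (v * h)) =
      θ v * k4 (h * h') + 2 * n1 h * kk k4 v v1 h' + 2 * n2 h * kk k4 v v2 h' := by
  let f1 : A →ₗ[F] F := k5 ∘ₗ LinearMap.mulLeft F h' ∘ₗ LinearMap.mulLeft F v
  let f2 : A →ₗ[F] F := θ v • (k4 ∘ₗ LinearMap.mulRight F h') +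
    (2 * kk k4 v v1 h') • n1 + (2 * kk k4 v v2 h') • n2
  have key : D 2 ≤ LinearMap.ker (f1 - f2) := by
    apply hG.gen2
    intro x hx y hy
    rw [LinearMap.mem_ker, LinearMap.sub_apply]
    simp only [f1, f2, LinearMap.comp_apply, LinearMap.mulLeft_apply, LinearMap.add_apply,
      LinearMap.smul_apply, LinearMap.mulRight_apply, smul_eq_mul]
    rw [kk_star hG hK v x y h' hv hx hy hh', Om4_kk hG hK hS v y h' hv hy hh',
      Om4_kk hG hK hS v x h' hv hx hh']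
    have e1 := hS.hn1 x hx y hy
    have e2 := hS.hn2 x hx y hy
    linear_combination (-kk k4 v v1 h') * e1 - kk k4 v v2 h' * e2
  intro h hh
  have := key hh
  rw [LinearMap.mem_ker, LinearMap.sub_apply] at this
  simp only [f1, f2, LinearMap.comp_apply, LinearMap.mulLeft_apply, LinearMap.add_apply,
      LinearMap.smul_apply, LinearMap.mulRight_apply, smul_eq_mul] at this
  linear_combination this

private theorem Om4_span2 {W : Type u} [AddCommGroup W] [Module F W] (T : Submodule F W)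
    (h : Module.finrank F T = 2) (a b : W) (ha : a ∈ T) (hb : b ∈ T)
    (hab : ∀ r t : F, r • a + t • b = 0 → r = 0 ∧ t = 0) : ∀ x ∈ T, ∃ r t : F, x = r • a + t • b := by
  have hfd : FiniteDimensional F T := FiniteDimensional.of_finrank_pos (by omega)
  have hli : LinearIndependent F ![(⟨a, ha⟩ : T), ⟨b, hb⟩] := by
    rw [LinearIndependent.pair_iff]
    intro r t hrt
    apply hab
    have := congrArg Subtype.val hrt
    simpa using this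
  have hsp := hli.span_eq_top_of_card_eq_finrank' (by simp [h])
  intro x hx
  have h1 : (⟨x, hx⟩ : T) ∈ Submodule.span F (Set.range ![(⟨a, ha⟩ : T), ⟨b, hb⟩]) := by
    rw [hsp]; trivial
  rw [Matrix.range_cons, Matrix.range_cons, Matrix.range_empty, Set.union_empty,
    Set.singleton_union, Submodule.mem_span_pair] at h1
  obtain ⟨r, t, hrt⟩ := h1
  refine ⟨r, t, ?_⟩
  have := congrArg Subtype.val hrt
  simpa using this.symm

/-- main part, steps (3)-(7) -/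
private theorem Om4_main (hG : GJ F A 5 D) (hK : K5 D g u k4 k5 θ)
    (h3 : Module.finrank F (D 3) = 2)
    (hS : Om4_S D θ v1 v2 ζ1 ζ2 n1 n2 φ s m1 m2)
    (h1 : ∀ x ∈ Y5 D, kk k4 x v1 s = 0) (h2 : ∀ x ∈ Y5 D, kk k4 x v2 s = 0)
    (y0 : A) (hy0 : y0 ∈ Y5 D) (hθ0 : θ y0 = 1) (hθ1 : θ v1 = 0) (hθ2 : θ v2 = 0)
    (hne : kk k4 v2 v1 s ≠ kk k4 v1 v2 s) : ∀ y ∈ Y5 D, ∀ y' ∈ Y5 D, φ (y * y') = 0 := by
  have two := hG.two
  -- the element of `U`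
  have hU : ∃ u1 ∈ D 3, u1 ≠ 0 ∧ ∀ h ∈ D 2, k5 (h * u1) = 0 := by
    by_contra hcon
    push Not at hcon
    have z : ∀ v ∈ D 1, θ v = 0 → v * s = 0 := by
      intro v hv hθv
      by_contra hvs
      obtain ⟨h, hh, hh1⟩ := hcon (v * s)
        (hG.mul_mem 1 2 (by norm_num) (by norm_num) v hv s hS.hs) hvs
      apply hh1
      rw [Om4_3 hG hK hS v h hv hh s hS.hs, hθv, hS.n1s, hS.n2s]
      ring
    have e1 : kk k4 v1 v2 s = k4 ((v1 * v2) * s) := by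
      unfold kk
      rw [z v2 hS.hv2 hθ2, mul_zero, sub_zero]
    have e2 : kk k4 v2 v1 s = k4 ((v2 * v1) * s) := by
      unfold kk
      rw [z v1 hS.hv1 hθ1, mul_zero, sub_zero]
    apply hne
    rw [e1, e2, mul_comm v1 v2]
  obtain ⟨u1, hu1, hu1n, hu1U⟩ := hU
  -- the element `a0`
  have hA0 : ∃ a0 ∈ D 3, k5 (s * a0) ≠ 0 := by
    by_cases hz : kk k4 v2 v1 s = 0
    · have hz' : kk k4 v1 v2 s ≠ 0 := fun h => hne (by rw [hz, h])
      refine ⟨v1 * m2, hG.mul_mem 1 2 (by norm_num) (by norm_num) v1 hS.hv1 m2 hS.hm2, ?_⟩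
      rw [Om4_3 hG hK hS v1 s hS.hv1 hS.hs m2 hS.hm2, hθ1, hS.n12, hS.n22]
      intro h
      apply hz'
      have : (2 : F) * kk k4 v1 v2 s = 0 := by linear_combination h
      exact (mul_eq_zero.mp this).resolve_left two
    · refine ⟨v2 * m1, hG.mul_mem 1 2 (by norm_num) (by norm_num) v2 hS.hv2 m1 hS.hm1, ?_⟩
      rw [Om4_3 hG hK hS v2 s hS.hv2 hS.hs m1 hS.hm1, hθ2, hS.n11, hS.n21]
      intro h
      apply hz
      have : (2 : F) * kk k4 v2 v1 s = 0 := by linear_combination h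
      exact (mul_eq_zero.mp this).resolve_left two
  obtain ⟨a0, ha0, ha0n⟩ := hA0
  let Ψ : A →ₗ[F] F := (k5 (s * a0))⁻¹ • (k5 ∘ₗ LinearMap.mulRight F a0)
  have hΨ : ∀ h, Ψ h = (k5 (s * a0))⁻¹ * k5 (h * a0) := by
    intro h
    simp [Ψ]
  have hΨs : Ψ s = 1 := by rw [hΨ, inv_mul_cancel₀ ha0n]
  have h4 : ∀ a ∈ D 3, ∀ h ∈ D 2, k5 (h * a) = k5 (s * a) * Ψ h := by
    intro a ha h hh
    obtain ⟨r, t, hrt⟩ := Om4_span2 (D 3) h3 a0 u1 ha0 hu1 (by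
      intro r t hrt
      have e1 := congrArg (fun z => k5 (s * z)) hrt
      simp only [mul_add, mul_smul_comm, map_add, map_smul, smul_eq_mul, mul_zero, map_zero] at e1
      rw [hu1U s hS.hs, mul_zero, add_zero] at e1
      have hr : r = 0 := (mul_eq_zero.mp e1).resolve_right ha0n
      rw [hr, zero_smul, zero_add] at hrt
      exact ⟨hr, (smul_eq_zero.mp hrt).resolve_right hu1n⟩) a ha
    rw [hrt]
    simp only [mul_add, mul_smul_comm, map_add, map_smul, smul_eq_mul]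
    rw [hu1U s hS.hs, hu1U h hh, hΨ]
    field_simp
    ring
  -- new `m1, m2`
  obtain ⟨M1, hM1⟩ : ∃ M1, M1 = m1 - Ψ m1 • s := ⟨_, rfl⟩
  obtain ⟨M2, hM2⟩ : ∃ M2, M2 = m2 - Ψ m2 • s := ⟨_, rfl⟩
  have M1m : M1 ∈ D 2 := by rw [hM1]; exact (D 2).sub_mem hS.hm1 ((D 2).smul_mem _ hS.hs)
  have M2m : M2 ∈ D 2 := by rw [hM2]; exact (D 2).sub_mem hS.hm2 ((D 2).smul_mem _ hS.hs)
  have N11 : n1 M1 = 1 := by
    rw [hM1, map_sub, map_smul, hS.n1s, hS.n11, smul_zero, sub_zero]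
  have N12 : n1 M2 = 0 := by
    rw [hM2, map_sub, map_smul, hS.n1s, hS.n12, smul_zero, sub_zero]
  have N21 : n2 M1 = 0 := by
    rw [hM1, map_sub, map_smul, hS.n2s, hS.n21, smul_zero, sub_zero]
  have N22 : n2 M2 = 1 := by
    rw [hM2, map_sub, map_smul, hS.n2s, hS.n22, smul_zero, sub_zero]
  have P1 : Ψ M1 = 0 := by
    rw [hM1, map_sub, map_smul, hΨs, smul_eq_mul, mul_one, sub_self]
  have P2 : Ψ M2 = 0 := by
    rw [hM2, map_sub, map_smul, hΨs, smul_eq_mul, mul_one, sub_self]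
  have dec : ∀ h ∈ D 2, h = n1 h • M1 + n2 h • M2 + Ψ h • s := by
    intro h hh
    have e := hS.dec h hh
    have e' : Ψ h = n1 h * Ψ m1 + n2 h * Ψ m2 + φ h := by
      have := congrArg Ψ e
      rw [map_add, map_add, map_smul, map_smul, map_smul, hΨs] at this
      simpa using this
    rw [hM1, hM2, e', smul_sub, smul_sub, add_smul, add_smul, mul_smul, mul_smul]
    conv_lhs => rw [e]
    abel
  have Y01 := Om4_Y1 hy0
  have f3 := fun (v h' h : A) (hv : v ∈ D 1) (hh' : h' ∈ D 2) (hh : h ∈ D 2) =>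
    Om4_3 hG hK hS v h' hv hh' h hh
  have mem3 : ∀ v ∈ D 1, ∀ h ∈ D 2, v * h ∈ D 3 := fun v hv h hh =>
    hG.mul_mem 1 2 (by norm_num) (by norm_num) v hv h hh
  -- (5)
  have s1 : k4 (s * M1) = 0 := by
    have e := h4 (y0 * s) (mem3 _ Y01 _ hS.hs) M1 M1m
    rw [P1, f3 y0 M1 s Y01 M1m hS.hs, hS.n1s, hS.n2s, hθ0] at e
    linear_combination e
  have s2 : k4 (s * M2) = 0 := by
    have e := h4 (y0 * s) (mem3 _ Y01 _ hS.hs) M2 M2m
    rw [P2, f3 y0 M2 s Y01 M2m hS.hs, hS.n1s, hS.n2s, hθ0] at e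
    linear_combination e
  have t1 : ∀ h ∈ D 2, k4 (M1 * h) = - 2 * kk k4 y0 v1 h := by
    intro h hh
    have e := h4 (y0 * M1) (mem3 _ Y01 _ M1m) h hh
    rw [f3 y0 h M1 Y01 hh M1m, f3 y0 s M1 Y01 hS.hs M1m, hθ0, N11, N21, h1 y0 hy0,
      mul_comm M1 s, s1] at e
    linear_combination e
  have t2 : ∀ h ∈ D 2, k4 (M2 * h) = - 2 * kk k4 y0 v2 h := by
    intro h hh
    have e := h4 (y0 * M2) (mem3 _ Y01 _ M2m) h hh
    rw [f3 y0 h M2 Y01 hh M2m, f3 y0 s M2 Y01 hS.hs M2m, hθ0, N12, N22, h2 y0 hy0,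
      mul_comm M2 s, s2] at e
    linear_combination e
  have w1 : ∀ y ∈ Y5 D, θ y = 0 → ∀ h ∈ D 2, kk k4 y v1 h = 0 := by
    intro y hy hθy h hh
    have e := h4 (y * M1) (mem3 _ (Om4_Y1 hy) _ M1m) h hh
    rw [f3 y h M1 (Om4_Y1 hy) hh M1m, f3 y s M1 (Om4_Y1 hy) hS.hs M1m, hθy, N11, N21,
      h1 y hy] at e
    have : (2 : F) * kk k4 y v1 h = 0 := by linear_combination e
    exact (mul_eq_zero.mp this).resolve_left two
  have w2 : ∀ y ∈ Y5 D, θ y = 0 → ∀ h ∈ D 2, kk k4 y v2 h = 0 := by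
    intro y hy hθy h hh
    have e := h4 (y * M2) (mem3 _ (Om4_Y1 hy) _ M2m) h hh
    rw [f3 y h M2 (Om4_Y1 hy) hh M2m, f3 y s M2 (Om4_Y1 hy) hS.hs M2m, hθy, N12, N22,
      h2 y hy] at e
    have : (2 : F) * kk k4 y v2 h = 0 := by linear_combination e
    exact (mul_eq_zero.mp this).resolve_left two
  -- (6)
  have y00 : y0 * y0 = φ (y0 * y0) • s := Om4_mulY hG hS y0 y0 hy0 hy0
  have ζ10 := hS.hζ1 y0 hy0
  have ζ20 := hS.hζ2 y0 hy0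
  have m11 : y0 * v1 = (2 : F)⁻¹ • M1 + Ψ (y0 * v1) • s := by
    have e := dec _ (hG.mul_mem 1 1 (by norm_num) (by norm_num) y0 Y01 v1 hS.hv1)
    have e1 := hS.hn1 y0 Y01 v1 hS.hv1
    have e2 := hS.hn2 y0 Y01 v1 hS.hv1
    rw [hθ0, hθ1, hS.h11] at e1
    rw [hθ0, hθ1, hS.h21] at e2
    have e1' : n1 (y0 * v1) = (2 : F)⁻¹ := by
      field_simp
      linear_combination e1
    have e2' : n2 (y0 * v1) = 0 := by
      have : (2 : F) * n2 (y0 * v1) = 0 := by linear_combination e2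
      exact (mul_eq_zero.mp this).resolve_left two
    rw [e1', e2', zero_smul, add_zero] at e
    exact e
  have m22 : y0 * v2 = (2 : F)⁻¹ • M2 + Ψ (y0 * v2) • s := by
    have e := dec _ (hG.mul_mem 1 1 (by norm_num) (by norm_num) y0 Y01 v2 hS.hv2)
    have e1 := hS.hn1 y0 Y01 v2 hS.hv2
    have e2 := hS.hn2 y0 Y01 v2 hS.hv2
    rw [hθ0, hθ2, hS.h12] at e1
    rw [hθ0, hθ2, hS.h22] at e2
    have e1' : n2 (y0 * v2) = (2 : F)⁻¹ := by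
      field_simp
      linear_combination e2
    have e2' : n1 (y0 * v2) = 0 := by
      have : (2 : F) * n1 (y0 * v2) = 0 := by linear_combination e1
      exact (mul_eq_zero.mp this).resolve_left two
    rw [e1', e2', zero_smul, zero_add] at e
    exact e
  have b12 : φ (y0 * y0) * kk k4 v2 v1 s = (2 : F)⁻¹ * k4 (M1 * M2) := by
    have e := kk_cyc hG k4 v2 y0 y0 v1
    rw [mul_comm v2 y0, y00, m22, Om4_s3, Om4_a3, Om4_s3, Om4_s3, h1 y0 hy0] at e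
    have e3 := t1 M2 M2m
    rw [e3]
    have e4 : (2 : F)⁻¹ * 2 = 1 := inv_mul_cancel₀ two
    linear_combination e
  have b21 : φ (y0 * y0) * kk k4 v1 v2 s = (2 : F)⁻¹ * k4 (M1 * M2) := by
    have e := kk_cyc hG k4 v1 y0 y0 v2
    rw [mul_comm v1 y0, y00, m11, Om4_s3, Om4_a3, Om4_s3, Om4_s3, h2 y0 hy0] at e
    have e3 := t2 M1 M1m
    rw [mul_comm M1 M2, e3]
    linear_combination e
  have z0 : φ (y0 * y0) = 0 := by
    have : φ (y0 * y0) * (kk k4 v2 v1 s - kk k4 v1 v2 s) = 0 := by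
      rw [mul_sub, b12, b21, sub_self]
    exact (mul_eq_zero.mp this).resolve_right (sub_ne_zero.mpr hne)
  -- (7)
  have hany : ∀ x : F, x * kk k4 v2 v1 s = 0 → x * kk k4 v1 v2 s = 0 → x = 0 := by
    intro x hx1 hx2
    by_contra hx
    apply hne
    rw [(mul_eq_zero.mp hx1).resolve_left hx, (mul_eq_zero.mp hx2).resolve_left hx]
  have yb : ∀ y ∈ Y5 D, θ y = 0 → ∀ b ∈ D 1, θ b = 0 → y * b = φ (y * b) • s := by
    intro y hy hθy b hb hθb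
    apply Om4_mul hG hS y b (Om4_Y1 hy) hb
    · rw [hθy, hθb]; ring
    · rw [hθy, hθb]; ring
  have z1 : ∀ y ∈ Y5 D, θ y = 0 → φ (y * y) = 0 := by
    intro y hy hθy
    apply hany
    · have e := kk_cyc hG k4 v2 y y v1
      rw [mul_comm v2 y, Om4_mulY hG hS y y hy hy, yb y hy hθy v2 hS.hv2 hθ2, Om4_s3, Om4_s3,
        h1 y hy] at e
      linear_combination e
    · have e := kk_cyc hG k4 v1 y y v2
      rw [mul_comm v1 y, Om4_mulY hG hS y y hy hy, yb y hy hθy v1 hS.hv1 hθ1, Om4_s3, Om4_s3,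
        h2 y hy] at e
      linear_combination e
  have z2 : ∀ y ∈ Y5 D, θ y = 0 → φ (y * y0) = 0 := by
    intro y hy hθy
    apply hany
    · have e := kk_cyc hG k4 v2 y y0 v1
      rw [mul_comm v2 y, Om4_mulY hG hS y y0 hy hy0, yb y hy hθy v2 hS.hv2 hθ2, Om4_s3, Om4_s3,
        h1 y0 hy0, w1 y hy hθy _ (hG.mul_mem 1 1 (by norm_num) (by norm_num) y0 Y01 v2 hS.hv2)] at e
      linear_combination e
    · have e := kk_cyc hG k4 v1 y y0 v2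
      rw [mul_comm v1 y, Om4_mulY hG hS y y0 hy hy0, yb y hy hθy v1 hS.hv1 hθ1, Om4_s3, Om4_s3,
        h2 y0 hy0, w2 y hy hθy _ (hG.mul_mem 1 1 (by norm_num) (by norm_num) y0 Y01 v1 hS.hv1)] at e
      linear_combination e
  have z3 : ∀ y ∈ Y5 D, φ (y * y) = 0 := by
    intro y hy
    have hy1 : y - θ y • y0 ∈ Y5 D := (Y5 D).sub_mem hy ((Y5 D).smul_mem _ hy0)
    have hθy1 : θ (y - θ y • y0) = 0 := by
      rw [map_sub, map_smul, hθ0, smul_eq_mul, mul_one, sub_self]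
    have e1 := z1 _ hy1 hθy1
    have e2 := z2 _ hy1 hθy1
    rw [sub_mul, map_sub, smul_mul_assoc, map_smul, z0, smul_zero, sub_zero] at e2
    rw [sub_mul, mul_sub, mul_sub, smul_mul_assoc, smul_mul_assoc, mul_smul_comm, mul_smul_comm,
      mul_comm y0 y, map_sub, map_sub, map_sub, map_smul, map_smul, map_smul, z0, e2] at e1
    simpa using e1
  intro y hy y' hy'
  have e1 := z3 (y + y') ((Y5 D).add_mem hy hy')
  rw [add_mul, mul_add, mul_add, map_add, map_add, map_add, z3 y hy, z3 y' hy',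
    mul_comm y' y] at e1
  have : (2 : F) * φ (y * y') = 0 := by linear_combination e1
  exact (mul_eq_zero.mp this).resolve_left two

end steps

/-- linear algebra: two independent functionals on a space of dimension 3 -/
private theorem Om4_la [Module.Finite F A] (W : Submodule F A) (h : Module.finrank F W = 3)
    (n1 n2 : A →ₗ[F] F)
    (hi : ∀ a b : F, (∀ h ∈ W, a * n1 h + b * n2 h = 0) → a = 0 ∧ b = 0) :
    ∃ s ∈ W, ∃ m1 ∈ W, ∃ m2 ∈ W, ∃ φ : A →ₗ[F] F, n1 s = 0 ∧ n2 s = 0 ∧ φ s = 1 ∧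
      n1 m1 = 1 ∧ n1 m2 = 0 ∧ n2 m1 = 0 ∧ n2 m2 = 1 ∧
      ∀ h ∈ W, h = n1 h • m1 + n2 h • m2 + φ h • s := by
  let f : W →ₗ[F] (F × F) := (n1.prod n2) ∘ₗ W.subtype
  have hsurj : LinearMap.range f = ⊤ := by
    by_contra hr
    obtain ⟨ψ, hψ0, hψ⟩ := Submodule.exists_le_ker_of_lt_top _ (lt_top_iff_ne_top.mpr hr)
    have e : ∀ p : F × F, ψ p = p.1 * ψ (1, 0) + p.2 * ψ (0, 1) := by
      intro p
      have : p = p.1 • ((1 : F), (0 : F)) + p.2 • ((0 : F), (1 : F)) := by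
        ext <;> simp
      conv_lhs => rw [this]
      rw [map_add, map_smul, map_smul, smul_eq_mul, smul_eq_mul]
    obtain ⟨ha, hb⟩ := hi (ψ (1, 0)) (ψ (0, 1)) (by
      intro h hh
      have h1 : ψ (n1 h, n2 h) = 0 := hψ ⟨⟨h, hh⟩, rfl⟩
      rw [e] at h1
      simp only at h1
      linear_combination h1)
    apply hψ0
    ext
    · simpa using ha
    · simpa using hb
  have hker : Module.finrank F (LinearMap.ker f) = 1 := by
    have := LinearMap.finrank_range_add_finrank_ker f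
    rw [hsurj, finrank_top, h] at this
    simp at this
    omega
  have hK : Module.finrank F ((LinearMap.ker f).map W.subtype) = 1 := by
    rw [← hker]
    exact LinearEquiv.finrank_eq
      (Submodule.equivMapOfInjective W.subtype W.injective_subtype (LinearMap.ker f)).symm
  obtain ⟨s, hs, hs0, φ0, hφs, hφ⟩ := exists_coord hK
  obtain ⟨⟨s', hs'⟩, hsk, hse⟩ := hs
  have hse' : s' = s := hse
  subst hse'
  have hf1 : ∀ p : F × F, ∃ m ∈ W, n1 m = p.1 ∧ n2 m = p.2 := by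
    intro p
    have : p ∈ LinearMap.range f := by rw [hsurj]; trivial
    obtain ⟨⟨m, hm⟩, he⟩ := this
    refine ⟨m, hm, ?_, ?_⟩
    · exact congrArg Prod.fst he
    · exact congrArg Prod.snd he
  obtain ⟨m1, hm1, h11, h21⟩ := hf1 (1, 0)
  obtain ⟨m2, hm2, h12, h22⟩ := hf1 (0, 1)
  simp only at h11 h21 h12 h22
  have hk1 : n1 s' = 0 := congrArg Prod.fst (LinearMap.mem_ker.mp hsk)
  have hk2 : n2 s' = 0 := congrArg Prod.snd (LinearMap.mem_ker.mp hsk)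
  refine ⟨s', hs', m1, hm1, m2, hm2, φ0 - (φ0 m1) • n1 - (φ0 m2) • n2, hk1, hk2, ?_, h11, h12,
    h21, h22, ?_⟩
  · simp [hk1, hk2, hφs]
  · intro h hh
    have hmem : h - n1 h • m1 - n2 h • m2 ∈ (LinearMap.ker f).map W.subtype := by
      refine ⟨⟨h - n1 h • m1 - n2 h • m2, W.sub_mem (W.sub_mem hh (W.smul_mem _ hm1))
        (W.smul_mem _ hm2)⟩, ?_, rfl⟩
      rw [SetLike.mem_coe, LinearMap.mem_ker]
      simp only [f, LinearMap.comp_apply, LinearMap.prod_apply, Submodule.subtype_apply,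
        map_sub, map_smul]
      simp [h11, h12, h21, h22]
    have h1 := hφ _ hmem
    simp only [map_sub, map_smul, smul_eq_mul, LinearMap.sub_apply, LinearMap.smul_apply] at h1 ⊢
    rw [mul_comm (φ0 m1), mul_comm (φ0 m2), ← h1]
    abel

theorem omega_three_two (hG : GJ F A 5 D) (hK : K5 D g u k4 k5 θ)
    (h2 : Module.finrank F (D 2) = 3) (h3 : Module.finrank F (D 3) = 2)
    (v1 v2 : A) (hv1 : v1 ∈ D 1) (hv2 : v2 ∈ D 1) (ζ1 ζ2 : A →ₗ[F] F)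
    (hζ1 : ∀ y ∈ Y5 D, ζ1 y = 0) (hζ2 : ∀ y ∈ Y5 D, ζ2 y = 0)
    (h11 : ζ1 v1 = 1) (h12 : ζ1 v2 = 0) (h21 : ζ2 v1 = 0) (h22 : ζ2 v2 = 1)
    (hc : ∀ v ∈ D 1, v - ζ1 v • v1 - ζ2 v • v2 ∈ Y5 D) :
    ∀ y ∈ Y5 D, ∀ y' ∈ Y5 D, ∀ b ∈ D 1, ∀ c ∈ D 1,
      kk k4 c b (y * y') = kk k4 b c (y * y') := by
  have := hG.fin
  obtain ⟨n1, hn1⟩ := nform hG hK ζ1 hζ1
  obtain ⟨n2, hn2⟩ := nform hG hK ζ2 hζ2
  obtain ⟨s, hs, m1, hm1, m2, hm2, φ, n1s, n2s, φs, n11, n12, n21, n22, dec⟩ :=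
    Om4_la (D 2) h2 n1 n2 (by
      intro a b hab
      have h0 := nform_inj hG hK (a • ζ1 + b • ζ2) (a • n1 + b • n2) (by
        intro x hx y hy
        simp only [LinearMap.add_apply, LinearMap.smul_apply, smul_eq_mul]
        linear_combination a * hn1 x hx y hy + b * hn2 x hx y hy) (by
        intro h hh
        simpa using hab h hh)
      have e1 := h0 v1 hv1
      have e2 := h0 v2 hv2
      simp only [LinearMap.add_apply, LinearMap.smul_apply, smul_eq_mul, h11, h12, h21, h22] at e1 e2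
      constructor
      · linear_combination e1
      · linear_combination e2)
  intro y hy y' hy' b hb c hcc
  by_contra hne
  have hS : Om4_S D θ v1 v2 ζ1 ζ2 n1 n2 φ s m1 m2 :=
    ⟨hv1, hv2, hζ1, hζ2, h11, h12, h21, h22, hc, hn1, hn2, hs, hm1, hm2, n1s, n2s, φs, n11, n12,
      n21, n22, dec⟩
  have hyy := Om4_mulY hG hS y y' hy hy'
  have hφ0 : φ (y * y') ≠ 0 := by
    intro h0
    apply hne
    rw [hyy, h0, Om4_s3, Om4_s3, zero_mul, zero_mul]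
  rw [hyy, Om4_s3, Om4_s3] at hne
  have hne' : kk k4 c b s ≠ kk k4 b c s := fun h => hne (by rw [h])
  have hβ : ∃ y ∈ Y5 D, ∃ y' ∈ Y5 D, φ (y * y') ≠ 0 := ⟨y, hy, y', hy', hφ0⟩
  have hl : ∀ w, ∀ x ∈ Y5 D, kk k4 x w s = 0 := fun w => Om4_1 hG hS w hβ
  obtain ⟨y0, hy0, hθ0⟩ := Om4_2 hG hK hS (hl v1) (hl v2) hβ ⟨b, hb, c, hcc, hne'⟩
  obtain ⟨w1, hw1⟩ : ∃ w1, w1 = v1 - θ v1 • y0 := ⟨_, rfl⟩
  obtain ⟨w2, hw2⟩ : ∃ w2, w2 = v2 - θ v2 • y0 := ⟨_, rfl⟩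
  have hS' : Om4_S D θ w1 w2 ζ1 ζ2 n1 n2 φ s m1 m2 := by
    refine ⟨?_, ?_, hζ1, hζ2, ?_, ?_, ?_, ?_, ?_, hn1, hn2, hs, hm1, hm2, n1s, n2s, φs, n11, n12,
      n21, n22, dec⟩
    · rw [hw1]; exact (D 1).sub_mem hv1 ((D 1).smul_mem _ (Om4_Y1 hy0))
    · rw [hw2]; exact (D 1).sub_mem hv2 ((D 1).smul_mem _ (Om4_Y1 hy0))
    · rw [hw1, map_sub, map_smul, hζ1 y0 hy0, h11, smul_zero, sub_zero]
    · rw [hw2, map_sub, map_smul, hζ1 y0 hy0, h12, smul_zero, sub_zero]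
    · rw [hw1, map_sub, map_smul, hζ2 y0 hy0, h21, smul_zero, sub_zero]
    · rw [hw2, map_sub, map_smul, hζ2 y0 hy0, h22, smul_zero, sub_zero]
    · intro v hv
      have e : v - ζ1 v • w1 - ζ2 v • w2 = (v - ζ1 v • v1 - ζ2 v • v2) +
          (ζ1 v * θ v1 + ζ2 v * θ v2) • y0 := by
        rw [hw1, hw2]
        module
      rw [e]
      exact (Y5 D).add_mem (hc v hv) ((Y5 D).smul_mem _ hy0)
  have hθ1 : θ w1 = 0 := by
    rw [hw1, map_sub, map_smul, hθ0, smul_eq_mul, mul_one, sub_self]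
  have hθ2 : θ w2 = 0 := by
    rw [hw2, map_sub, map_smul, hθ0, smul_eq_mul, mul_one, sub_self]
  have hcs : ∀ c ∈ D 1, ∀ w, kk k4 c w s = ζ1 c * kk k4 w1 w s + ζ2 c * kk k4 w2 w s := by
    intro c hc' w
    have e : c = (c - ζ1 c • w1 - ζ2 c • w2) + (ζ1 c • w1 + ζ2 c • w2) := by abel
    conv_lhs => rw [e]
    rw [Om4_a1, hl w _ (hS'.hc c hc'), Om4_a1, Om4_s1, Om4_s1, zero_add]
  have hne2 : kk k4 w2 w1 s ≠ kk k4 w1 w2 s := by
    intro heq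
    apply hne'
    rw [Om4_kk hG hK hS' c b s hcc hb hs, Om4_kk hG hK hS' b c s hb hcc hs, hcs c hcc w1,
      hcs c hcc w2, hcs b hb w1, hcs b hb w2, heq]
    ring
  exact hφ0 (Om4_main hG hK h3 hS' (hl w1) (hl w2) y0 hy0 hθ0 hθ1 hθ2 hne2 y hy y' hy')

end JD
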