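import Pool.Agent.H13.JN.Om2
import Pool.Agent.H13.JN.Om3
import Pool.Agent.H13.JN.Om4

set_option autoImplicit false
set_option linter.unusedSectionVars false

/-!
# JN Om5: class 5, dimensions `(n; 3, 2, 1)`: the condition (ω) (helper13)

PROOF of `omega_three`. `comp_exists` for `Y = Y5 D ≤ V = D 1`: `r`, `v_i`, `ζ_i`. By `omega_iff` we must show `kk c b (y y') = kk b c (y y')`.
`r = 0`: `Y5 = D 1`, `kk = 0` (`kk_mem_Y5`). `r = 1`: `omega_three_one`. `r = 2`: `omega_three_two`. `r ≥ 3`: the forms `n_i` of `ζ_i`, `i = 0, 1, 2` (`nform`) are independent on `D 2` (if `∑ a_i n_i = 0` on `D 2`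
then `∑ a_i ζ_i = 0` on `D 1` by `nform_inj`, so `a_i = 0`), `finrank (D 2) = 3`, so a vector of `D 2` killed by all three is `0`; `2 n_i(y y') = θ(y)ζ_i(y') + θ(y')ζ_i(y) = 0` for `y, y' ∈ Y5`,
so `y y' = 0` and (ω) is trivial.
-/

namespace JD

universe u

variable {F : Type u} [Field F] {A : Type u} [NonUnitalNonAssocCommRing A] [Module F A]
  [IsScalarTower F A A] [SMulCommClass F A A] {D : ℕ → Submodule F A}
  {g u : A} {k4 k5 θ : A →ₗ[F] F}

/-- a submodule of dimension 3 on which three independent functionals vanish jointly only at `0` -/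
private theorem Om5_la [Module.Finite F A] (W : Submodule F A) (h : Module.finrank F W = 3)
    (n : Fin 3 → A →ₗ[F] F)
    (hi : ∀ a : Fin 3 → F, (∀ h ∈ W, ∑ i, a i * n i h = 0) → ∀ i, a i = 0) :
    ∀ x ∈ W, (∀ i, n i x = 0) → x = 0 := by
  let f : W →ₗ[F] (Fin 3 → F) := (LinearMap.pi n) ∘ₗ W.subtype
  have hsurj : LinearMap.range f = ⊤ := by
    by_contra hr
    obtain ⟨ψ, hψ0, hψ⟩ := Submodule.exists_le_ker_of_lt_top _ (lt_top_iff_ne_top.mpr hr)
    have e : ∀ p : Fin 3 → F, ψ p = ∑ i, ψ (Pi.single i 1) * p i := by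
      intro p
      have : p = ∑ i, p i • (Pi.single i (1 : F) : Fin 3 → F) := by
        rw [← pi_eq_sum_univ' p]
      conv_lhs => rw [this]
      rw [map_sum]
      refine Finset.sum_congr rfl fun i _ => ?_
      rw [map_smul, smul_eq_mul, mul_comm]
    have ha := hi (fun i => ψ (Pi.single i 1)) (by
      intro h hh
      have h1 : ψ (fun i => n i h) = 0 := hψ ⟨⟨h, hh⟩, rfl⟩
      rw [e] at h1
      exact h1)
    apply hψ0
    ext i
    simpa using ha i
  have hinj : Function.Injective f := by
    rw [← LinearMap.ker_eq_bot]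
    have h1 := LinearMap.finrank_range_add_finrank_ker f
    rw [hsurj, finrank_top, h, Module.finrank_fin_fun] at h1
    exact Submodule.finrank_eq_zero.mp (by omega)
  intro x hx hn
  have h1 : f ⟨x, hx⟩ = f 0 := by
    rw [map_zero]
    funext i
    exact hn i
  exact congrArg Subtype.val (hinj h1)

theorem omega_three (hG : GJ F A 5 D) (hK : K5 D g u k4 k5 θ)
    (h2 : Module.finrank F (D 2) = 3) (h3 : Module.finrank F (D 3) = 2) :
    ∀ y ∈ Y5 D, ∀ y' ∈ Y5 D, ∀ b ∈ D 1, ∀ c ∈ D 1, b * (c * (y * y')) = c * (b * (y * y')) := by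
  have := hG.fin
  obtain ⟨r, v, ζ, hv, hζ, hζv, hc⟩ := comp_exists (Y5 D) (D 1) (fun y hy => hy.1)
  intro y hy y' hy' b hb c hcc
  have hyy : y * y' ∈ D 2 := hG.mul_mem 1 1 (by norm_num) (by norm_num) y hy.1 y' hy'.1
  rw [omega_iff hG hK b c (y * y') hb hcc hyy]
  match r, v, ζ, hv, hζ, hζv, hc with
  | 0, v, ζ, hv, hζ, hζv, hc =>
    have hY : ∀ w ∈ D 1, w ∈ Y5 D := by
      intro w hw
      have := hc w hw
      simpa using this
    rw [((kk_mem_Y5 hG hK b).mp (hY b hb)).2 c hcc _ hyy,
      ((kk_mem_Y5 hG hK c).mp (hY c hcc)).2 b hb _ hyy]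
  | 1, v, ζ, hv, hζ, hζv, hc =>
    exact omega_three_one hG hK h2 h3 (v 0) (hv 0) (ζ 0) (hζ 0) (by simpa using hζv 0 0)
      (fun w hw => by simpa using hc w hw) y hy y' hy' b hb c hcc
  | 2, v, ζ, hv, hζ, hζv, hc =>
    exact omega_three_two hG hK h2 h3 (v 0) (v 1) (hv 0) (hv 1) (ζ 0) (ζ 1) (hζ 0) (hζ 1)
      (by simpa using hζv 0 0) (by simpa using hζv 0 1) (by simpa using hζv 1 0)
      (by simpa using hζv 1 1)
      (fun w hw => by
        have := hc w hw
        rw [Fin.sum_univ_two, ← sub_sub] at this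
        exact this) y hy y' hy' b hb c hcc
  | (k + 3), v, ζ, hv, hζ, hζv, hc =>
    have hj : ∀ i : Fin 3, (i : ℕ) < k + 3 := fun i => by have := i.2; omega
    let e : Fin 3 → Fin (k + 3) := fun i => ⟨i, hj i⟩
    have he : ∀ i j, e i = e j → i = j := by
      intro i j hij
      have := congrArg Fin.val hij
      exact Fin.ext this
    choose n hn using fun i : Fin 3 => nform hG hK (ζ (e i)) (hζ (e i))
    have h0 : y * y' = 0 := by
      apply Om5_la (D 2) h2 n _ _ hyy
      · intro i
        have h1 := hn i y hy.1 y' hy'.1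
        rw [hζ (e i) y hy, hζ (e i) y' hy', mul_zero, mul_zero, add_zero] at h1
        exact (mul_eq_zero.mp h1).resolve_left hG.two
      · intro a ha i
        have h1 := nform_inj hG hK (∑ i, a i • ζ (e i)) (∑ i, a i • n i) (by
          intro x hx z hz
          simp only [LinearMap.sum_apply, LinearMap.smul_apply, smul_eq_mul, Finset.mul_sum,
            ← Finset.sum_add_distrib]
          refine Finset.sum_congr rfl fun i _ => ?_
          linear_combination a i * hn i x hx z hz) (by
          intro h hh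
          simpa using ha h hh)
        have h2 := h1 (v (e i)) (hv (e i))
        simp only [LinearMap.sum_apply, LinearMap.smul_apply, smul_eq_mul, hζv] at h2
        rw [Finset.sum_eq_single i] at h2
        · simpa using h2
        · intro j _ hji
          rw [if_neg (fun h => hji (he _ _ h)), mul_zero]
        · intro h
          exact absurd (Finset.mem_univ _) h
    rw [h0]
    simp [kk]

end JD
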