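import Pool.Agent.H13.JN.Basic

set_option autoImplicit false
set_option linter.unusedSectionVars false

/-!
# JN Q4U: uniqueness, reversal, rotation, membership, images of `Q4` systems (helper13)

`Alt4 δ`: `δ a b c d` changes sign under the three adjacent exchanges.

PROOFS. `Alt4.zero`: if two letters are equal, `δ = 0` (move them to adjacent places, then `2 δ = 0`). `Alt4.ext`: if moreover `δ i j k l = 0` for `i < j < k < l` then `δ = 0` (bubble sort;
for distinct letters, at most six adjacent exchanges; e.g. prove for a submodule `T` (or `P`) the general induction principle `sort4`).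
`Q4.ext`: apply it to `q - q'`. `Q4.mem`: the general form: if `q i j k l ∈ T` for `i < j < k < l` and all the right sides of the rules for permutations of the same letters are in `T`.
`Q4.rev`: `δ a b c d = q d c b a - q a b c d` is alternating (`s3_rev`; e.g. `q d c b a + q d c a b = 2 s3 d c (b a) = 2 s3 (a b) c d`), and `δ d c b a = - δ a b c d`, but the reversal is a product of six adjacent
exchanges (even), so `δ d c b a = δ a b c d`, so `2 δ = 0`.
`Q4.rot`: `q a b c d + q b a c d = 2 s3 (ab) c d`, `q b a c d + q b c a d = 2 s3 b (ac) d`, `q b c a d + q b c d a = 2 s3 b c (ad)`; alternating sum and `s3_rot`.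
`Q4.tie`: for repeated adjacent letters: `2 q a a c d = 2 s3 (aa) c d`, etc.
`Q4.map`: linear multiplicative images (`f (a b) = f a f b` only needed for products of total degree `≤ 4`: this is why there are several maps: `f1, f2, f3, f4`).
`Q4.comp`: restriction along any map of the letters.
-/

namespace JD

universe u v w

variable {F : Type u} [Field F] {J : Type u} [NonUnitalNonAssocCommRing J] [Module F J]

/-- alternating functions of four letters -/
structure Alt4 {ι : Type v} (δ : ι → ι → ι → ι → J) : Prop where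
  sw1 : ∀ a b c d, δ b a c d = -δ a b c d
  sw2 : ∀ a b c d, δ a c b d = -δ a b c d
  sw3 : ∀ a b c d, δ a b d c = -δ a b c d

private theorem Q4U_two_eq_zero (h2 : (2 : F) ≠ 0) {u : J} (h : u + u = 0) : u = 0 := by
  have h1 : (2 : F) • u = 0 := by rw [two_smul, h]
  exact (smul_eq_zero.mp h1).resolve_left h2

private theorem Q4U_eq_neg (h2 : (2 : F) ≠ 0) {u : J} (h : u = -u) : u = 0 := by
  refine Q4U_two_eq_zero h2 ?_
  nth_rw 2 [h]
  exact add_neg_cancel u

theorem Alt4.zero {ι : Type v} {δ : ι → ι → ι → ι → J} (h2 : (2 : F) ≠ 0) (h : Alt4 δ)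
    (a b c d : ι) (he : a = b ∨ a = c ∨ a = d ∨ b = c ∨ b = d ∨ c = d) : δ a b c d = 0 := by
  have e1 : ∀ a c d, δ a a c d = 0 := fun a c d => Q4U_eq_neg h2 (h.sw1 a a c d)
  have e2 : ∀ a b d, δ a b b d = 0 := fun a b d => Q4U_eq_neg h2 (h.sw2 a b b d)
  have e3 : ∀ a b c, δ a b c c = 0 := fun a b c => Q4U_eq_neg h2 (h.sw3 a b c c)
  have e4 : ∀ a b d, δ a b a d = 0 := fun a b d => by rw [h.sw1 b a a d, e2, neg_zero]
  have e5 : ∀ a b c, δ a b c b = 0 := fun a b c => by rw [h.sw3 a b b c, e2, neg_zero]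
  have e6 : ∀ a b c, δ a b c a = 0 := fun a b c => by rw [h.sw3 a b a c, e4, neg_zero]
  rcases he with he | he | he | he | he | he
  · subst he; exact e1 _ _ _
  · subst he; exact e4 _ _ _
  · subst he; exact e6 _ _ _
  · subst he; exact e2 _ _ _
  · subst he; exact e5 _ _ _
  · subst he; exact e3 _ _ _

private theorem Q4U_perm1 {ι : Type v} {i j k l : ι} {L : List ι} (h : [j, i, k, l].Perm L) :
    [i, j, k, l].Perm L := (List.Perm.swap j i [k, l]).trans h

private theorem Q4U_perm2 {ι : Type v} {i j k l : ι} {L : List ι} (h : [i, k, j, l].Perm L) :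
    [i, j, k, l].Perm L := ((List.Perm.swap k j [l]).cons i).trans h

private theorem Q4U_perm3 {ι : Type v} {i j k l : ι} {L : List ι} (h : [i, j, l, k].Perm L) :
    [i, j, k, l].Perm L := (((List.Perm.swap l k []).cons j).cons i).trans h

private theorem Q4U_sort {ι : Type v} [LinearOrder ι] (R : ι → ι → ι → ι → Prop)
    (h1 : ∀ i j k l, R i j k l → R j i k l)
    (h2 : ∀ i j k l, R i j k l → R i k j l)
    (h3 : ∀ i j k l, R i j k l → R i j l k)
    (h0 : ∀ i j k l, i < j → j < k → k < l → R i j k l) (a b c d : ι)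
    (hab : a ≠ b) (hac : a ≠ c) (had : a ≠ d) (hbc : b ≠ c) (hbd : b ≠ d) (hcd : c ≠ d) :
    R a b c d := by
  have s4 : ∀ i j k l : ι, i ≠ j → i ≠ k → i ≠ l → j < k → k < l → R i j k l := by
    intro i j k l hij hik hil hjk hkl
    rcases lt_or_gt_of_ne hij with h | h
    · exact h0 i j k l h hjk hkl
    rcases lt_or_gt_of_ne hik with h' | h'
    · exact h1 _ _ _ _ (h0 j i k l h h' hkl)
    rcases lt_or_gt_of_ne hil with h'' | h''
    · exact h1 _ _ _ _ (h2 _ _ _ _ (h0 j k i l hjk h' h''))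
    · exact h1 _ _ _ _ (h2 _ _ _ _ (h3 _ _ _ _ (h0 j k l i hjk hkl h'')))
  have s3 : ∀ i j k l : ι, i ≠ j → i ≠ k → i ≠ l → j ≠ k → j ≠ l → k < l → R i j k l := by
    intro i j k l hij hik hil hjk hjl hkl
    rcases lt_or_gt_of_ne hjk with h | h
    · exact s4 i j k l hij hik hil h hkl
    rcases lt_or_gt_of_ne hjl with h' | h'
    · exact h2 _ _ _ _ (s4 i k j l hik hij hil h h')
    · exact h2 _ _ _ _ (h3 _ _ _ _ (s4 i k l j hik hil hij hkl h'))
  rcases lt_or_gt_of_ne hcd with h | h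
  · exact s3 a b c d hab hac had hbc hbd h
  · exact h3 _ _ _ _ (s3 a b d c hab had hac hbd hbc h)

/-- bubble sort -/
theorem sort4 {ι : Type v} [LinearOrder ι] (P : ι → ι → ι → ι → Prop) (a b c d : ι)
    (hne : a ≠ b ∧ a ≠ c ∧ a ≠ d ∧ b ≠ c ∧ b ≠ d ∧ c ≠ d)
    (h1 : ∀ i j k l, [i, j, k, l].Perm [a, b, c, d] → P i j k l → P j i k l)
    (h2 : ∀ i j k l, [i, j, k, l].Perm [a, b, c, d] → P i j k l → P i k j l)
    (h3 : ∀ i j k l, [i, j, k, l].Perm [a, b, c, d] → P i j k l → P i j l k)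
    (h0 : ∀ i j k l, [i, j, k, l].Perm [a, b, c, d] → i < j → j < k → k < l → P i j k l) :
    P a b c d := by
  obtain ⟨hab, hac, had, hbc, hbd, hcd⟩ := hne
  exact Q4U_sort (fun i j k l => [i, j, k, l].Perm [a, b, c, d] → P i j k l)
    (fun i j k l h hp => h1 i j k l (Q4U_perm1 hp) (h (Q4U_perm1 hp)))
    (fun i j k l h hp => h2 i j k l (Q4U_perm2 hp) (h (Q4U_perm2 hp)))
    (fun i j k l h hp => h3 i j k l (Q4U_perm3 hp) (h (Q4U_perm3 hp)))
    (fun i j k l hij hjk hkl hp => h0 i j k l hp hij hjk hkl) a b c d hab hac had hbc hbd hcd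
    (List.Perm.refl _)

theorem Alt4.ext {ι : Type v} [LinearOrder ι] {δ : ι → ι → ι → ι → J} (h2 : (2 : F) ≠ 0)
    (h : Alt4 δ) (h0 : ∀ i j k l, i < j → j < k → k < l → δ i j k l = 0) (a b c d : ι) :
    δ a b c d = 0 := by
  by_cases he : a = b ∨ a = c ∨ a = d ∨ b = c ∨ b = d ∨ c = d
  · exact h.zero h2 a b c d he
  · push Not at he
    obtain ⟨hab, hac, had, hbc, hbd, hcd⟩ := he
    exact Q4U_sort (fun i j k l => δ i j k l = 0)
      (fun i j k l hd => by rw [h.sw1, hd, neg_zero])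
      (fun i j k l hd => by rw [h.sw2, hd, neg_zero])
      (fun i j k l hd => by rw [h.sw3, hd, neg_zero]) h0 a b c d hab hac had hbc hbd hcd

theorem Q4.ext {ι : Type v} [LinearOrder ι] {x : ι → J} {q q' : ι → ι → ι → ι → J}
    (h2 : (2 : F) ≠ 0) (hq : Q4 F x q) (hq' : Q4 F x q')
    (h0 : ∀ i j k l, i < j → j < k → k < l → q i j k l = q' i j k l) : q = q' := by
  have hA : Alt4 (fun a b c d => q a b c d - q' a b c d) := by
    refine ⟨fun a b c d => ?_, fun a b c d => ?_, fun a b c d => ?_⟩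
    · have e := (hq.sw1 a b c d).trans (hq'.sw1 a b c d).symm
      linear_combination (norm := abel) e
    · have e := (hq.sw2 a b c d).trans (hq'.sw2 a b c d).symm
      linear_combination (norm := abel) e
    · have e := (hq.sw3 a b c d).trans (hq'.sw3 a b c d).symm
      linear_combination (norm := abel) e
  funext a b c d
  have := hA.ext h2 (fun i j k l hij hjk hkl => sub_eq_zero.mpr (h0 i j k l hij hjk hkl)) a b c d
  exact sub_eq_zero.mp this

theorem Q4.rev {ι : Type v} {x : ι → J} {q : ι → ι → ι → ι → J} (h2 : (2 : F) ≠ 0)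
    (hq : Q4 F x q) (a b c d : ι) : q d c b a = q a b c d := by
  have hA : Alt4 (fun a b c d => q d c b a - q a b c d) := by
    refine ⟨fun a b c d => ?_, fun a b c d => ?_, fun a b c d => ?_⟩
    · have e1 := hq.sw3 d c b a
      have e2 := hq.sw1 a b c d
      rw [s3_rev, mul_comm (x b) (x a)] at e1
      have e := e1.trans e2.symm
      linear_combination (norm := abel) e
    · have e1 := hq.sw2 d c b a
      have e2 := hq.sw2 a b c d
      rw [s3_rev, mul_comm (x c) (x b)] at e1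
      have e := e1.trans e2.symm
      linear_combination (norm := abel) e
    · have e1 := hq.sw1 d c b a
      have e2 := hq.sw3 a b c d
      rw [s3_rev, mul_comm (x d) (x c)] at e1
      have e := e1.trans e2.symm
      linear_combination (norm := abel) e
  have e1 := hA.sw1 a b c d
  have e2 := hA.sw2 b a c d
  have e3 := hA.sw3 b c a d
  have e4 := hA.sw1 b c d a
  have e5 := hA.sw2 c b d a
  have e6 := hA.sw1 c d b a
  rw [e5, e4, e3, e2, e1] at e6
  have h : (q d c b a - q a b c d) + (q d c b a - q a b c d) = 0 := by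
    linear_combination (norm := abel) -e6
  exact sub_eq_zero.mp (Q4U_two_eq_zero h2 h)

private theorem Q4U_half (h2 : (2 : F) ≠ 0) {u v : J} (h : u + u = (2 : F) • v) : u = v := by
  rw [← two_smul F u] at h
  exact smul_right_injective J h2 h

theorem Q4.tie1 {ι : Type v} {x : ι → J} {q : ι → ι → ι → ι → J} (h2 : (2 : F) ≠ 0)
    (hq : Q4 F x q) (a c d : ι) : q a a c d = s3 (x a * x a) (x c) (x d) :=
  Q4U_half h2 (hq.sw1 a a c d)

theorem Q4.tie2 {ι : Type v} {x : ι → J} {q : ι → ι → ι → ι → J} (h2 : (2 : F) ≠ 0)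
    (hq : Q4 F x q) (a c d : ι) : q c a a d = s3 (x c) (x a * x a) (x d) :=
  Q4U_half h2 (hq.sw2 c a a d)

theorem Q4.tie3 {ι : Type v} {x : ι → J} {q : ι → ι → ι → ι → J} (h2 : (2 : F) ≠ 0)
    (hq : Q4 F x q) (a c d : ι) : q c d a a = s3 (x c) (x d) (x a * x a) :=
  Q4U_half h2 (hq.sw3 c d a a)

theorem Q4.comp {ι : Type v} {κ : Type w} {x : ι → J} {q : ι → ι → ι → ι → J} (hq : Q4 F x q)
    (σ : κ → ι) : Q4 F (fun i => x (σ i)) (fun a b c d => q (σ a) (σ b) (σ c) (σ d)) :=
  ⟨fun a b c d => hq.sw1 _ _ _ _, fun a b c d => hq.sw2 _ _ _ _, fun a b c d => hq.sw3 _ _ _ _⟩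

theorem Q4.rot [IsScalarTower F J J] [SMulCommClass F J J] {ι : Type v} {x : ι → J}
    {q : ι → ι → ι → ι → J} (h2 : (2 : F) ≠ 0) (hJ : IsJordan J)
    (hq : Q4 F x q) (a b c d : ι) :
    q a b c d + q b c d a = (2 : F) • (x a * s3 (x b) (x c) (x d)) := by
  have e1 := hq.sw1 a b c d
  have e2 := hq.sw2 b a c d
  have e3 := hq.sw3 b c a d
  rw [← s3_rot F h2 hJ, smul_add, smul_sub]
  linear_combination (norm := abel) e1 - e2 + e3

theorem Q4.mem {ι : Type v} [LinearOrder ι] {x : ι → J} {q : ι → ι → ι → ι → J}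
    (h2 : (2 : F) ≠ 0) (hq : Q4 F x q) (T : Submodule F J) (a b c d : ι)
    (hT1 : ∀ i j k l, [i, j, k, l].Perm [a, b, c, d] → s3 (x i * x j) (x k) (x l) ∈ T)
    (hT2 : ∀ i j k l, [i, j, k, l].Perm [a, b, c, d] → s3 (x i) (x j * x k) (x l) ∈ T)
    (hT3 : ∀ i j k l, [i, j, k, l].Perm [a, b, c, d] → s3 (x i) (x j) (x k * x l) ∈ T)
    (h0 : ∀ i j k l, [i, j, k, l].Perm [a, b, c, d] → i < j → j < k → k < l → q i j k l ∈ T) :
    q a b c d ∈ T := by
  have m1 : ∀ i j k l, [i, j, k, l].Perm [a, b, c, d] → q i j k l ∈ T → q j i k l ∈ T := by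
    intro i j k l hp h
    have e : q j i k l = (2 : F) • s3 (x i * x j) (x k) (x l) - q i j k l := by
      rw [← hq.sw1 i j k l]; abel
    rw [e]
    exact T.sub_mem (T.smul_mem _ (hT1 i j k l hp)) h
  have m2 : ∀ i j k l, [i, j, k, l].Perm [a, b, c, d] → q i j k l ∈ T → q i k j l ∈ T := by
    intro i j k l hp h
    have e : q i k j l = (2 : F) • s3 (x i) (x j * x k) (x l) - q i j k l := by
      rw [← hq.sw2 i j k l]; abel
    rw [e]
    exact T.sub_mem (T.smul_mem _ (hT2 i j k l hp)) h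
  have m3 : ∀ i j k l, [i, j, k, l].Perm [a, b, c, d] → q i j k l ∈ T → q i j l k ∈ T := by
    intro i j k l hp h
    have e : q i j l k = (2 : F) • s3 (x i) (x j) (x k * x l) - q i j k l := by
      rw [← hq.sw3 i j k l]; abel
    rw [e]
    exact T.sub_mem (T.smul_mem _ (hT3 i j k l hp)) h
  by_cases he : a = b ∨ a = c ∨ a = d ∨ b = c ∨ b = d ∨ c = d
  · have t2 : ∀ i j l, [i, j, j, l].Perm [a, b, c, d] → q i j j l ∈ T := by
      intro i j l hp
      rw [hq.tie2 h2]
      exact hT2 i j j l hp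
    have t4 : ∀ i j l, [i, j, i, l].Perm [a, b, c, d] → q i j i l ∈ T := fun i j l hp =>
      m1 j i i l (Q4U_perm1 hp) (t2 j i l (Q4U_perm1 hp))
    rcases he with he | he | he | he | he | he
    · subst he
      rw [hq.tie1 h2]
      exact hT1 _ _ _ _ (List.Perm.refl _)
    · subst he
      exact t4 _ _ _ (List.Perm.refl _)
    · subst he
      exact m3 _ _ _ _ (Q4U_perm3 (List.Perm.refl _)) (t4 _ _ _ (Q4U_perm3 (List.Perm.refl _)))
    · subst he
      exact t2 _ _ _ (List.Perm.refl _)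
    · subst he
      exact m3 _ _ _ _ (Q4U_perm3 (List.Perm.refl _)) (t2 _ _ _ (Q4U_perm3 (List.Perm.refl _)))
    · subst he
      rw [hq.tie3 h2]
      exact hT3 _ _ _ _ (List.Perm.refl _)
  · push Not at he
    exact sort4 (fun i j k l => q i j k l ∈ T) a b c d he m1 m2 m3 h0

/-- images under graded homomorphisms -/
theorem Q4.map {J' : Type u} [NonUnitalNonAssocCommRing J'] [Module F J'] {ι : Type v}
    {x : ι → J} {q : ι → ι → ι → ι → J} (hq : Q4 F x q) (Φ : ℕ → Submodule F J)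
    (f : ℕ → J →ₗ[F] J') (hx : ∀ i, x i ∈ Φ 1)
    (hΦ : ∀ m n, ∀ a ∈ Φ m, ∀ b ∈ Φ n, a * b ∈ Φ (m + n))
    (hf : ∀ i j, 1 ≤ i → 1 ≤ j → ∀ a ∈ Φ i, ∀ b ∈ Φ j, f (i + j) (a * b) = f i a * f j b) :
    Q4 F (fun i => f 1 (x i)) (fun a b c d => f 4 (q a b c d)) := by
  have hs : ∀ i j k : ℕ, 1 ≤ i → 1 ≤ j → 1 ≤ k → ∀ a ∈ Φ i, ∀ b ∈ Φ j, ∀ c ∈ Φ k,
      f (i + j + k) (s3 a b c) = s3 (f i a) (f j b) (f k c) := by
    intro i j k hi hj hk a ha b hb c hc
    have e1 : f (i + j + k) (a * (b * c)) = f i a * (f j b * f k c) := by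
      rw [show i + j + k = i + (j + k) by omega,
        hf i (j + k) hi (by omega) a ha (b * c) (hΦ j k b hb c hc), hf j k hj hk b hb c hc]
    have e2 : f (i + j + k) (c * (a * b)) = f k c * (f i a * f j b) := by
      rw [show i + j + k = k + (i + j) by omega,
        hf k (i + j) hk (by omega) c hc (a * b) (hΦ i j a ha b hb), hf i j hi hj a ha b hb]
    have e3 : f (i + j + k) (b * (a * c)) = f j b * (f i a * f k c) := by
      rw [show i + j + k = j + (i + k) by omega,
        hf j (i + k) hj (by omega) b hb (a * c) (hΦ i k a ha c hc), hf i k hi hk a ha c hc]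
    rw [s3, s3, map_sub, map_add, e1, e2, e3]
  have h2 : ∀ i j, x i * x j ∈ Φ 2 := fun i j => hΦ 1 1 _ (hx i) _ (hx j)
  have hp : ∀ i j, f 2 (x i * x j) = f 1 (x i) * f 1 (x j) := fun i j =>
    hf 1 1 le_rfl le_rfl _ (hx i) _ (hx j)
  refine ⟨fun a b c d => ?_, fun a b c d => ?_, fun a b c d => ?_⟩
  · have e := congrArg (f 4) (hq.sw1 a b c d)
    rw [map_add, map_smul] at e
    have e' := hs 2 1 1 (by norm_num) le_rfl le_rfl _ (h2 a b) _ (hx c) _ (hx d)
    rw [hp] at e'
    rw [e]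
    exact congrArg _ e'
  · have e := congrArg (f 4) (hq.sw2 a b c d)
    rw [map_add, map_smul] at e
    have e' := hs 1 2 1 le_rfl (by norm_num) le_rfl _ (hx a) _ (h2 b c) _ (hx d)
    rw [hp] at e'
    rw [e]
    exact congrArg _ e'
  · have e := congrArg (f 4) (hq.sw3 a b c d)
    rw [map_add, map_smul] at e
    have e' := hs 1 1 2 le_rfl le_rfl (by norm_num) _ (hx a) _ (hx b) _ (h2 c d)
    rw [hp] at e'
    rw [e]
    exact congrArg _ e'

end JD
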