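import Pool.Agent.H13.JN.K5L
import Pool.Agent.H13.JN.Q4U

set_option autoImplicit false
set_option linter.unusedSectionVars false

/-!
# JN OmG: class 5, `dim D 4 = 1`: the condition (ω) implies `Good5` (helper13)

Take `y`, `r` from `adapted_basis` for `Y5 D ≤ D 1` and `t i j k l = y i * s3 (y j) (y k) (y l)` (in `D 4`). Let `q` be a `Q4` system with `q = t` on increasing indices, `c'` symmetric with
`∑ c'_ij y_i y_j = 0`. Write `G(j; a,b,d) = q j a b d - y_j s3(a,b,d) ∈ D 4` (`Q4.mem` with `T = D 4`).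
(1) `T5 = ∑_ij c'_ij y_i G(j;a,b,d)`; `k5 (T5) = ∑_j β_j k4 (G(j;a,b,d))`, `β_j = ∑_i c'_ij θ(y_i)` (`hK.hθ`), and `T5 ∈ D 5`. By `hat_mem`, `∑_j β_j y_j ∈ Y5`, so `β_j = 0` for `r ≤ j` (`adapted_basis`). So it suffices: `G(j;a,b,d) = 0` for `j < r` and distinct `a, b, d`.
(2) Let `j < r`, so `y_j ∈ Y5`. `G(j;a,b,d) + G(j;b,a,d) = 2 s3(y_j, ab, d) - 2 y_j(d(ab)) = 2 [d(y_j(ab)) - (ab)(y_j d)] = 0` (`Q4.sw2`, `s3_swap`; `(d y_j) h = d (y_j h)` with `h = ab`), and
`G(j;a,b,d) + G(j;a,d,b) = 2 s3(y_j, a, bd) - 2 y_j(a(bd)) = 2 [(bd)(y_j a) - a(y_j(bd))] = 0` (`Q4.sw3`, `s3_swap'`). [All `a, b, d` here, also equal ones.] So `G(j;.,.,.)` is alternating in `a, b, d`; it vanishes if two of them are equal.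
(3) `E(j,a;b,d) := 2 s3(y_j y_a, b, d) - y_a s3(y_j,b,d) - y_j s3(y_a,b,d) = 0` for `j, a < r`. PROOF. `y_a (y_j (bd)) = (y_a y_j)(bd)` (`y_j ∈ Y5`), `y_j (y_a (bd)) = (y_j y_a)(bd)`. So with `h = y_j y_a`:
`E = 2 [d(hb) - b(hd)] - { y_a(d(y_j b)) - y_a(b(y_j d)) + y_j(d(y_a b)) - y_j(b(y_a d)) }`, and by `gder d b y_j y_a : d(b(y_j y_a)) - b(d(y_j y_a)) = (d(b y_j) - b(d y_j)) y_a + y_j (d(b y_a) - b(d y_a))` the brace is `d(bh) - b(dh)`.
So `E = d(bh) - b(dh) = 0` by (ω).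
(4) `G(j;a,b,d) + G(a;j,b,d) = E(j,a;b,d)` (`Q4.sw1`): so for `j, a < r`: `G(j;a,b,d) = - G(a;j,b,d)`; for `a = j`: `2 G(j;j,b,d) = E(j,j;b,d) = 0`.
(5) Let `j < r`, `a, b, d` distinct. If `j ∈ {a,b,d}`: move it to the front by (2); `G = 0` by (4). Otherwise sort `a < b < d` by (2). If `j < a`: `G = t - y_j s3 = 0`. If `a < j`: `a < r` as well and `G(j;a,b,d) = -G(a;j,b,d)` by (4), and `a` is smaller than `j, b, d`: sort `j, b, d` by (2): `G = 0`.
-/

namespace JD

universe u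

variable {F : Type u} [Field F] {A : Type u} [NonUnitalNonAssocCommRing A] [Module F A]
  [IsScalarTower F A A] [SMulCommClass F A A] {D : ℕ → Submodule F A}
  {g u : A} {k4 k5 θ : A →ₗ[F] F}

private theorem OmG_mem {c : ℕ} (hG : GJ F A c D) {m n l : ℕ} (hm : 1 ≤ m) (hn : 1 ≤ n)
    (hl : m + n = l) {a b : A} (ha : a ∈ D m) (hb : b ∈ D n) : a * b ∈ D l := by
  subst hl
  exact hG.mul_mem m n hm hn a ha b hb

private theorem OmG_s3 {c : ℕ} (hG : GJ F A c D) {i j k l : ℕ} (hi : 1 ≤ i) (hj : 1 ≤ j)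
    (hk : 1 ≤ k) (hl : i + j + k = l) {a b d : A} (ha : a ∈ D i) (hb : b ∈ D j) (hd : d ∈ D k) :
    s3 a b d ∈ D l := by
  unfold s3
  apply (D l).sub_mem
  · apply (D l).add_mem
    · exact OmG_mem hG (m := i) (n := j + k) hi (by omega) (by omega) ha
        (OmG_mem hG hj hk rfl hb hd)
    · exact OmG_mem hG (m := k) (n := i + j) hk (by omega) (by omega) hd
        (OmG_mem hG hi hj rfl ha hb)
  · exact OmG_mem hG (m := j) (n := i + k) hj (by omega) (by omega) hb
      (OmG_mem hG hi hk rfl ha hd)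

private theorem OmG_self (h2 : (2 : F) ≠ 0) {x : A} (h : x = -x) : x = 0 := by
  have h1 : (2 : F) • x = 0 := by
    rw [two_smul]
    nth_rewrite 1 [h]
    exact neg_add_cancel x
  exact (smul_eq_zero.mp h1).resolve_left h2

private theorem OmG_sort3 (h2 : (2 : F) ≠ 0) {m : ℕ} (P : Fin m → Prop)
    (δ : Fin m → Fin m → Fin m → A) (h1 : ∀ a b d, δ b a d = -δ a b d)
    (h3 : ∀ a b d, δ a d b = -δ a b d)
    (h0 : ∀ a b d, P a → P b → P d → a < b → b < d → δ a b d = 0) :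
    ∀ a b d, P a → P b → P d → δ a b d = 0 := by
  have z1 : ∀ a d, δ a a d = 0 := fun a d => OmG_self h2 (h1 a a d)
  have z2 : ∀ a b, δ a b b = 0 := fun a b => OmG_self h2 (h3 a b b)
  intro a b d ha hb hd
  rcases lt_trichotomy a b with hab | hab | hab
  · rcases lt_trichotomy b d with hbd | hbd | hbd
    · exact h0 a b d ha hb hd hab hbd
    · rw [← hbd]
      exact z2 a b
    · rcases lt_trichotomy a d with had | had | had
      · rw [h3 a d b, h0 a d b ha hd hb had hbd, neg_zero]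
      · rw [← had, h1 b a a, z2, neg_zero]
      · rw [h3 a d b, h1 d a b, h0 d a b hd ha hb had hab, neg_zero, neg_zero]
  · rw [← hab]
    exact z1 a d
  · rcases lt_trichotomy a d with had | had | had
    · rw [h1 b a d, h0 b a d hb ha hd hab had, neg_zero]
    · rw [← had, h1 b a a, z2, neg_zero]
    · rcases lt_trichotomy b d with hbd | hbd | hbd
      · rw [h1 b a d, h3 b d a, h0 b d a hb hd ha hbd had, neg_zero, neg_zero]
      · rw [← hbd]
        exact z2 a b
      · rw [h3 a d b, h1 d a b, h3 d b a, h0 d b a hd hb ha hbd hab, neg_zero, neg_zero,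
          neg_zero]

private theorem OmG_alg2 {q1 q2 yj a b d : A}
    (e1 : q1 + q2 = (2 : F) • s3 yj (a * b) d)
    (e2 : s3 a b d + s3 b a d = d * (a * b) + d * (a * b))
    (e3 : (d * yj) * (a * b) = d * (yj * (a * b))) :
    q2 - yj * s3 b a d = -(q1 - yj * s3 a b d) := by
  have e4 : yj * s3 a b d + yj * s3 b a d = yj * (d * (a * b)) + yj * (d * (a * b)) := by
    rw [← mul_add, e2, mul_add]
  have e5 : s3 yj (a * b) d = yj * ((a * b) * d) + d * (yj * (a * b)) - (a * b) * (yj * d) := rfl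
  rw [e5, two_smul] at e1
  rw [mul_comm (a * b) d, mul_comm (a * b) (yj * d), mul_comm yj d, e3] at e1
  linear_combination (norm := abel) e1 - e4

private theorem OmG_alg3 {q1 q2 yj a b d : A}
    (e1 : q1 + q2 = (2 : F) • s3 yj a (b * d))
    (e2 : s3 a b d + s3 a d b = a * (b * d) + a * (b * d))
    (e3 : (a * yj) * (b * d) = a * (yj * (b * d))) :
    q2 - yj * s3 a d b = -(q1 - yj * s3 a b d) := by
  have e4 : yj * s3 a b d + yj * s3 a d b = yj * (a * (b * d)) + yj * (a * (b * d)) := by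
    rw [← mul_add, e2, mul_add]
  have e5 : s3 yj a (b * d) = yj * (a * (b * d)) + (b * d) * (yj * a) - a * (yj * (b * d)) := rfl
  rw [e5, two_smul] at e1
  rw [mul_comm (b * d) (yj * a), mul_comm yj a, e3] at e1
  linear_combination (norm := abel) e1 - e4

private theorem OmG_alg4 {q1 q2 yj ya b d : A}
    (e1 : q1 + q2 = (2 : F) • s3 (yj * ya) b d)
    (e2 : (ya * yj) * (b * d) = ya * (yj * (b * d)))
    (e3 : (yj * ya) * (b * d) = yj * (ya * (b * d)))
    (e4 : d * (b * (yj * ya)) - b * (d * (yj * ya)) =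
      (d * (b * yj) - b * (d * yj)) * ya + yj * (d * (b * ya) - b * (d * ya)))
    (e5 : d * (b * (yj * ya)) = b * (d * (yj * ya))) :
    q1 - yj * s3 ya b d = -(q2 - ya * s3 yj b d) := by
  have e6 : s3 (yj * ya) b d = (yj * ya) * (b * d) + d * ((yj * ya) * b) -
    b * ((yj * ya) * d) := rfl
  have e7 : ya * s3 yj b d = ya * (yj * (b * d)) + ya * (d * (yj * b)) -
      ya * (b * (yj * d)) := by
    unfold s3
    rw [mul_sub, mul_add]
  have e8 : yj * s3 ya b d = yj * (ya * (b * d)) + yj * (d * (ya * b)) -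
      yj * (b * (ya * d)) := by
    unfold s3
    rw [mul_sub, mul_add]
  rw [e6, two_smul, mul_comm (yj * ya) b, mul_comm (yj * ya) d] at e1
  rw [sub_mul, mul_sub, mul_comm (d * (b * yj)) ya, mul_comm (b * (d * yj)) ya] at e4
  rw [mul_comm ya yj] at e2
  rw [e7, e8, mul_comm yj b, mul_comm yj d, mul_comm ya b, mul_comm ya d]
  linear_combination (norm := abel) e1 + e2 + e3 + e4 + e5

theorem good5_of_omega (hG : GJ F A 5 D) (hK : K5 D g u k4 k5 θ)
    (hω : ∀ y ∈ Y5 D, ∀ y' ∈ Y5 D, ∀ b ∈ D 1, ∀ c ∈ D 1,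
      b * (c * (y * y')) = c * (b * (y * y'))) :
    ∃ y : Fin (Module.finrank F (D 1)) → A, LinearIndependent F y ∧
      Submodule.span F (Set.range y) = D 1 ∧ Good5 F D y := by
  have hfin := hG.fin
  have h2 := hG.two
  have hJ := hG.jordan
  obtain ⟨y, r, hli, hsp, hyr, hcr⟩ := adapted_basis (Y5 D) (D 1) (fun v hv => hv.1)
  have hy1 : ∀ i, y i ∈ D 1 := by
    intro i
    have h1 : y i ∈ Submodule.span F (Set.range y) := Submodule.subset_span ⟨i, rfl⟩
    rwa [hsp] at h1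
  refine ⟨y, hli, hsp, fun i j k l => y i * s3 (y j) (y k) (y l), ?_, ?_⟩
  · intro i j k l
    exact OmG_mem hG (m := 1) (n := 3) le_rfl (by norm_num) (by norm_num) (hy1 i)
      (OmG_s3 hG (i := 1) (j := 1) (k := 1) le_rfl le_rfl le_rfl (by norm_num) (hy1 j) (hy1 k)
        (hy1 l))
  intro q hq hqt c' hc' h0 a b d hab had hbd
  -- the elements `G`
  have hGm : ∀ j a b d, q j a b d - y j * s3 (y a) (y b) (y d) ∈ D 4 := by
    intro j a b d
    apply (D 4).sub_mem
    · have hyy : ∀ i j, y i * y j ∈ D 2 := fun i j =>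
        OmG_mem hG (m := 1) (n := 1) le_rfl le_rfl (by norm_num) (hy1 i) (hy1 j)
      apply hq.mem h2 (D 4) j a b d
      · intro i j k l _
        exact OmG_s3 hG (i := 2) (j := 1) (k := 1) (by norm_num) le_rfl le_rfl (by norm_num)
          (hyy i j) (hy1 k) (hy1 l)
      · intro i j k l _
        exact OmG_s3 hG (i := 1) (j := 2) (k := 1) le_rfl (by norm_num) le_rfl (by norm_num)
          (hy1 i) (hyy j k) (hy1 l)
      · intro i j k l _
        exact OmG_s3 hG (i := 1) (j := 1) (k := 2) le_rfl le_rfl (by norm_num) (by norm_num)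
          (hy1 i) (hy1 j) (hyy k l)
      · intro i j k l _ hij hjk hkl
        rw [hqt i j k l hij hjk hkl]
        exact OmG_mem hG (m := 1) (n := 3) le_rfl (by norm_num) (by norm_num) (hy1 i)
          (OmG_s3 hG (i := 1) (j := 1) (k := 1) le_rfl le_rfl le_rfl (by norm_num) (hy1 j)
            (hy1 k) (hy1 l))
    · exact OmG_mem hG (m := 1) (n := 3) le_rfl (by norm_num) (by norm_num) (hy1 j)
        (OmG_s3 hG (i := 1) (j := 1) (k := 1) le_rfl le_rfl le_rfl (by norm_num) (hy1 a)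
          (hy1 b) (hy1 d))
  -- (2)
  have hs1 : ∀ j : Fin (Module.finrank F (D 1)), (j : ℕ) < r → ∀ a b d,
      q j b a d - y j * s3 (y b) (y a) (y d) = -(q j a b d - y j * s3 (y a) (y b) (y d)) := by
    intro j hj a b d
    have hh : y a * y b ∈ D 2 :=
      OmG_mem hG (m := 1) (n := 1) le_rfl le_rfl (by norm_num) (hy1 a) (hy1 b)
    have e1 := hq.sw2 j a b d
    have e2 := s3_swap (y a) (y b) (y d)
    have e3 := (hyr j hj).2 (y d) (hy1 d) (y a * y b) hh
    exact OmG_alg2 e1 e2 e3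
  have hs2 : ∀ j : Fin (Module.finrank F (D 1)), (j : ℕ) < r → ∀ a b d,
      q j a d b - y j * s3 (y a) (y d) (y b) = -(q j a b d - y j * s3 (y a) (y b) (y d)) := by
    intro j hj a b d
    have hh : y b * y d ∈ D 2 :=
      OmG_mem hG (m := 1) (n := 1) le_rfl le_rfl (by norm_num) (hy1 b) (hy1 d)
    have e1 := hq.sw3 j a b d
    have e2 := s3_swap' (y a) (y b) (y d)
    have e3 := (hyr j hj).2 (y a) (hy1 a) (y b * y d) hh
    exact OmG_alg3 e1 e2 e3
  -- (3), (4)
  have hs3 : ∀ j a : Fin (Module.finrank F (D 1)), (j : ℕ) < r → (a : ℕ) < r → ∀ b d,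
      q j a b d - y j * s3 (y a) (y b) (y d) = -(q a j b d - y a * s3 (y j) (y b) (y d)) := by
    intro j a hj ha b d
    have hh : y b * y d ∈ D 2 :=
      OmG_mem hG (m := 1) (n := 1) le_rfl le_rfl (by norm_num) (hy1 b) (hy1 d)
    have e1 := hq.sw1 j a b d
    have e2 := (hyr j hj).2 (y a) (hy1 a) (y b * y d) hh
    have e3 := (hyr a ha).2 (y j) (hy1 j) (y b * y d) hh
    have e4 := gder F h2 hJ (y d) (y b) (y j) (y a)
    have e5 := hω (y j) (hyr j hj) (y a) (hyr a ha) (y d) (hy1 d) (y b) (hy1 b)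
    exact OmG_alg4 e1 e2 e3 e4 e5
  -- (5)
  have hL1 : ∀ a : Fin (Module.finrank F (D 1)), (a : ℕ) < r → ∀ x z w, a < x → a < z →
      a < w → q a x z w - y a * s3 (y x) (y z) (y w) = 0 := by
    intro a ha
    refine OmG_sort3 h2 (fun x => a < x)
      (fun x z w => q a x z w - y a * s3 (y x) (y z) (y w)) (hs1 a ha) (hs2 a ha) ?_
    intro x z w hx _ _ hxz hzw
    exact sub_eq_zero.mpr (hqt a x z w hx hxz hzw)
  have hL3 : ∀ j : Fin (Module.finrank F (D 1)), (j : ℕ) < r → ∀ a b d,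
      q j a b d - y j * s3 (y a) (y b) (y d) = 0 := by
    intro j hj a b d
    refine OmG_sort3 h2 (fun _ => True)
      (fun a b d => q j a b d - y j * s3 (y a) (y b) (y d)) (hs1 j hj) (hs2 j hj) ?_ a b d
      trivial trivial trivial
    intro a b d _ _ _ hab hbd
    rcases lt_trichotomy j a with h | h | h
    · exact sub_eq_zero.mpr (hqt j a b d h hab hbd)
    · rw [← h]
      exact OmG_self h2 (hs3 j j hj hj b d)
    · rw [hs3 j a hj (lt_trans h hj) b d, hL1 a (lt_trans h hj) j b d h hab (hab.trans hbd),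
        neg_zero]
  -- (1)
  have hβ : ∀ j : Fin (Module.finrank F (D 1)), r ≤ (j : ℕ) → ∑ i, c' i j * θ (y i) = 0 := by
    apply hcr (fun j => ∑ i, c' i j * θ (y i))
    have h1 := hat_mem hG hK y hy1 c' hc' h0
    rw [Finset.sum_comm] at h1
    have h3 : ∑ j, (∑ i, c' i j * θ (y i)) • y j = ∑ j, ∑ i, (c' i j * θ (y i)) • y j :=
      Finset.sum_congr rfl fun j _ => Finset.sum_smul
    rw [h3]
    exact h1
  have hmem : T5 y q c' a b d ∈ D 5 := by
    unfold T5
    refine (D 5).sum_mem fun i _ => (D 5).sum_mem fun j _ => (D 5).smul_mem _ ?_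
    exact OmG_mem hG (m := 1) (n := 4) le_rfl (by norm_num) (by norm_num) (hy1 i)
      (hGm j a b d)
  rw [hK.h5 _ hmem]
  have hk : k5 (T5 y q c' a b d) = 0 := by
    unfold T5
    rw [map_sum]
    have h1 : ∀ i, k5 (∑ j, c' i j • (y i * (q j a b d - y j * s3 (y a) (y b) (y d)))) =
        ∑ j, c' i j * θ (y i) * k4 (q j a b d - y j * s3 (y a) (y b) (y d)) := by
      intro i
      rw [map_sum]
      refine Finset.sum_congr rfl fun j _ => ?_
      rw [map_smul, hK.hθ _ (hy1 i) _ (hGm j a b d), smul_eq_mul, mul_assoc]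
    rw [Finset.sum_congr rfl fun i _ => h1 i, Finset.sum_comm]
    refine Finset.sum_eq_zero fun j _ => ?_
    rw [← Finset.sum_mul]
    by_cases hj : (j : ℕ) < r
    · rw [hL3 j hj, map_zero, mul_zero]
    · rw [hβ j (not_lt.mp hj), zero_mul]
  rw [hk, zero_smul]

end JD
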