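import Pool.Agent.H13.JN.K5

set_option autoImplicit false
set_option linter.unusedSectionVars false

/-!
# JN K5L: linear algebra for class 5 (helper13)

`quad_lin`: `β` bilinear, symmetric on `Y`, `λ` linear, `β(x,x) λ(x) = 0` for all `x ∈ Y`: then `λ = 0` on `Y` or `β = 0` on `Y × Y`. PROOF. Suppose `β ≠ 0` on `Y`; by
polarisation (`2 ≠ 0`) `β(x0,x0) ≠ 0` for some `x0 ∈ Y`. For `x ∈ Y` the polynomial `t ↦ β(x + t x0, x + t x0)` has leading coefficient `β(x0,x0) ≠ 0`, so by
`mem_of_dense` (file Defs) with `T = Y ⊓ ker λ`: `x ∈ T` (`x0 ∈ T` as `β(x0,x0) λ(x0) = 0`).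

`comp_exists`: `Y ≤ V`, `V` finite dimensional: a complement with dual functionals. PROOF. Take a basis `v` of a complement `W` of `Y` in `V` and a projection of `A` onto `W` along a complement of `W`
that contains `Y` (e.g. `Submodule.exists_isCompl`), compose with the coordinates.

`adapted_basis`: a basis of `V` whose first `r` vectors are a basis of `Y ≤ V`. PROOF. Basis of `Y` followed by the `v` of `comp_exists` (`Fin.append`), reindexed.

`nform_inj`: if `2 n (a b) = θ a ζ b + θ b ζ a` and `n = 0` on `D 2` then `ζ = 0` on `D 1`: take `a` with `θ a ≠ 0`; `b = a`: `2 θ a ζ a = 0`, so `ζ a = 0`, so `θ a ζ b = 0`.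
-/

namespace JD

universe u

variable {F : Type u} [Field F]

theorem quad_lin {A : Type u} [AddCommGroup A] [Module F A] [Infinite F] (h2 : (2 : F) ≠ 0)
    (Y : Submodule F A) (β : A →ₗ[F] A →ₗ[F] F) (hβ : ∀ x ∈ Y, ∀ y ∈ Y, β x y = β y x)
    (lam : A →ₗ[F] F) (h : ∀ x ∈ Y, β x x * lam x = 0) :
    (∀ x ∈ Y, lam x = 0) ∨ ∀ x ∈ Y, ∀ y ∈ Y, β x y = 0 := by
  by_cases hb : ∀ x ∈ Y, β x x = 0
  · right
    intro x hx y hy
    have h1 := hb (x + y) (Y.add_mem hx hy)
    simp only [map_add, LinearMap.add_apply, hb x hx, hb y hy, hβ y hy x hx] at h1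
    have h3 : (2 : F) * β x y = 0 := by linear_combination h1
    exact (mul_eq_zero.mp h3).resolve_left h2
  · left
    push Not at hb
    obtain ⟨x0, hx0, hb0⟩ := hb
    have hl0 : lam x0 = 0 := (mul_eq_zero.mp (h x0 hx0)).resolve_left hb0
    intro x hx
    by_contra hl
    have key : ∀ t : F, β x x + t * (β x x0 + β x0 x) + t * t * β x0 x0 = 0 := by
      intro t
      have h1 := h (x + t • x0) (Y.add_mem hx (Y.smul_mem t hx0))
      rw [map_add lam, map_smul lam, hl0, smul_zero, add_zero] at h1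
      have h3 := (mul_eq_zero.mp h1).resolve_right hl
      simp only [map_add, map_smul, LinearMap.add_apply, LinearMap.smul_apply, smul_eq_mul] at h3
      linear_combination h3
    have k0 := key 0
    have k1 := key 1
    have k2 := key (-1)
    have h3 : (2 : F) * β x0 x0 = 0 := by linear_combination k1 + k2 - 2 * k0
    exact hb0 ((mul_eq_zero.mp h3).resolve_left h2)

theorem comp_exists {A : Type u} [AddCommGroup A] [Module F A] [Module.Finite F A]
    (Y V : Submodule F A) (hY : Y ≤ V) :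
    ∃ (r : ℕ) (v : Fin r → A) (ζ : Fin r → A →ₗ[F] F), (∀ i, v i ∈ V) ∧
      (∀ i, ∀ y ∈ Y, ζ i y = 0) ∧ (∀ i j, ζ i (v j) = if i = j then 1 else 0) ∧
      ∀ w ∈ V, w - ∑ i, ζ i w • v i ∈ Y := by
  let Y' : Submodule F V := Y.comap V.subtype
  let b : Module.Basis (Fin (Module.finrank F (V ⧸ Y'))) F (V ⧸ Y') := Module.finBasis F (V ⧸ Y')
  have hl : ∀ i, ∃ x : V, Y'.mkQ x = b i := fun i => Submodule.mkQ_surjective Y' (b i)
  choose v hv using hl
  have hz : ∀ i, ∃ g : A →ₗ[F] F, g ∘ₗ V.subtype = (b.coord i) ∘ₗ Y'.mkQ := fun i =>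
    LinearMap.exists_extend _
  choose ζ hζ using hz
  have hζ' : ∀ i (w : A) (hw : w ∈ V), ζ i w = b.coord i (Y'.mkQ ⟨w, hw⟩) := fun i w hw =>
    LinearMap.congr_fun (hζ i) ⟨w, hw⟩
  refine ⟨_, fun i => (v i : A), ζ, fun i => (v i).2, ?_, ?_, ?_⟩
  · intro i y hy
    rw [hζ' i y (hY hy)]
    have : Y'.mkQ ⟨y, hY hy⟩ = 0 := by
      rw [Submodule.mkQ_apply, Submodule.Quotient.mk_eq_zero]
      exact hy
    rw [this, map_zero]
  · intro i j
    rw [hζ' i (v j) (v j).2]
    have : Y'.mkQ ⟨(v j : A), (v j).2⟩ = b j := hv j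
    rw [this, Module.Basis.coord_apply, Module.Basis.repr_self, Finsupp.single_apply]
    simp [eq_comm]
  · intro w hw
    have h1 : Y'.mkQ (⟨w, hw⟩ - ∑ i, ζ i w • v i) = 0 := by
      rw [map_sub, map_sum, sub_eq_zero]
      have h3 := b.sum_repr (Y'.mkQ ⟨w, hw⟩)
      rw [← h3]
      refine Finset.sum_congr rfl fun i _ => ?_
      rw [map_smul, hv, hζ' i w hw, Module.Basis.coord_apply]
    rw [Submodule.mkQ_apply, Submodule.Quotient.mk_eq_zero] at h1
    have h3 : ((⟨w, hw⟩ - ∑ i, ζ i w • v i : V) : A) ∈ Y := h1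
    simpa using h3

theorem adapted_basis {A : Type u} [AddCommGroup A] [Module F A] [Module.Finite F A]
    (Y V : Submodule F A) (hY : Y ≤ V) :
    ∃ (y : Fin (Module.finrank F V) → A) (r : ℕ), LinearIndependent F y ∧
      Submodule.span F (Set.range y) = V ∧ (∀ i : Fin (Module.finrank F V), (i : ℕ) < r → y i ∈ Y) ∧
      ∀ c : Fin (Module.finrank F V) → F, ∑ i, c i • y i ∈ Y →
        ∀ i : Fin (Module.finrank F V), r ≤ (i : ℕ) → c i = 0 := by
  obtain ⟨r, v, ζ, hv, hζY, hζv, hw⟩ := comp_exists Y V hY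
  let b : Module.Basis (Fin (Module.finrank F Y)) F Y := Module.finBasis F Y
  let s := Module.finrank F Y
  let z : Fin (s + r) → A := Fin.append (fun i => (b i : A)) v
  have zl : ∀ i : Fin s, z (Fin.castAdd r i) = (b i : A) := fun i => Fin.append_left _ _ i
  have zr : ∀ j : Fin r, z (Fin.natAdd s j) = v j := fun j => Fin.append_right _ _ j
  have key : ∀ c : Fin (s + r) → F, ∑ i, c i • z i ∈ Y → ∀ j : Fin r, c (Fin.natAdd s j) = 0 := by
    intro c hc j
    have h1 := hζY j _ hc
    rw [map_sum, Fin.sum_univ_add] at h1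
    simp only [map_smul, zl, zr] at h1
    rw [Finset.sum_eq_zero fun i _ => by rw [hζY j _ (b i).2, smul_zero], zero_add] at h1
    simpa [hζv] using h1
  have hsp : Submodule.span F (Set.range z) = V := by
    apply le_antisymm
    · rw [Submodule.span_le]
      rintro _ ⟨i, rfl⟩
      refine Fin.addCases (fun i => ?_) (fun j => ?_) i
      · rw [zl]; exact hY (b i).2
      · rw [zr]; exact hv j
    · intro w hwV
      have h1 := hw w hwV
      have h3 : w = ∑ i, b.repr ⟨_, h1⟩ i • (b i : A) + ∑ i, ζ i w • v i := by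
        have h4 := congrArg Subtype.val (b.sum_repr ⟨_, h1⟩)
        simp only [Submodule.coe_sum, Submodule.coe_smul] at h4
        rw [h4]
        abel
      rw [h3]
      refine Submodule.add_mem _ (Submodule.sum_mem _ fun i _ => Submodule.smul_mem _ _ ?_)
        (Submodule.sum_mem _ fun i _ => Submodule.smul_mem _ _ ?_)
      · rw [← zl]; exact Submodule.subset_span ⟨_, rfl⟩
      · rw [← zr]; exact Submodule.subset_span ⟨_, rfl⟩
  have hli : LinearIndependent F z := by
    rw [Fintype.linearIndependent_iff]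
    intro c hc
    have k1 := key c (by rw [hc]; exact Y.zero_mem)
    rw [Fin.sum_univ_add] at hc
    simp only [zl, zr] at hc
    rw [Finset.sum_eq_zero (s := Finset.univ) (f := fun j => c (Fin.natAdd s j) • v j)
      fun j _ => by rw [k1 j, zero_smul], add_zero] at hc
    have hbl : LinearIndependent F (fun i => (b i : A)) :=
      b.linearIndependent.map' Y.subtype (Submodule.ker_subtype Y)
    have k2 := Fintype.linearIndependent_iff.mp hbl (fun i => c (Fin.castAdd r i)) hc
    intro i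
    refine Fin.addCases (fun i => ?_) (fun j => ?_) i
    · exact k2 i
    · exact k1 j
  have hcard : Module.finrank F V = s + r := by
    have := finrank_span_eq_card hli
    rw [hsp, Fintype.card_fin] at this
    exact this
  have hsum : ∀ c : Fin (Module.finrank F V) → F,
      ∑ i, c i • z (Fin.cast hcard i) = ∑ j, c (Fin.cast hcard.symm j) • z j := by
    intro c
    refine Fintype.sum_equiv (finCongr hcard) _ _ fun i => ?_
    simp
  refine ⟨fun i => z (Fin.cast hcard i), s, ?_, ?_, ?_, ?_⟩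
  · exact hli.comp _ (Fin.cast_injective hcard)
  · have : Set.range (fun i => z (Fin.cast hcard i)) = Set.range z := by
      apply Set.Subset.antisymm
      · rintro _ ⟨i, rfl⟩; exact ⟨_, rfl⟩
      · rintro _ ⟨j, rfl⟩; exact ⟨Fin.cast hcard.symm j, by simp⟩
    rw [this]
    exact hsp
  · intro i hi
    have : Fin.cast hcard i = Fin.castAdd r ⟨i, hi⟩ := by ext; simp
    change z (Fin.cast hcard i) ∈ Y
    rw [this, zl]
    exact (b _).2
  · intro c hc i hi
    rw [hsum] at hc
    have h1 := key _ hc ⟨i - s, by have := i.2; omega⟩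
    have h3 : Fin.cast hcard.symm (Fin.natAdd s ⟨i - s, by have := i.2; omega⟩) = i := by
      ext; simp; omega
    rwa [h3] at h1

variable {A : Type u} [NonUnitalNonAssocCommRing A] [Module F A]
  [IsScalarTower F A A] [SMulCommClass F A A] {D : ℕ → Submodule F A}
  {g u : A} {k4 k5 θ : A →ₗ[F] F}

theorem nform_inj (hG : GJ F A 5 D) (hK : K5 D g u k4 k5 θ) (ζ n : A →ₗ[F] F)
    (hn : ∀ a ∈ D 1, ∀ b ∈ D 1, 2 * n (a * b) = θ a * ζ b + θ b * ζ a)
    (h0 : ∀ h ∈ D 2, n h = 0) : ∀ a ∈ D 1, ζ a = 0 := by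
  have key : ∀ a ∈ D 1, ∀ b ∈ D 1, θ a * ζ b + θ b * ζ a = 0 := by
    intro a ha b hb
    rw [← hn a ha b hb, h0 _ (hG.mul_mem 1 1 le_rfl le_rfl a ha b hb), mul_zero]
  obtain ⟨v, hv, hθ⟩ := hK.ne
  have h1 := key v hv v hv
  have h3 : ζ v = 0 := by
    have h4 : (2 : F) * (θ v * ζ v) = 0 := by linear_combination h1
    exact (mul_eq_zero.mp ((mul_eq_zero.mp h4).resolve_left hG.two)).resolve_left hθ
  intro a ha
  have h4 := key v hv a ha
  rw [h3, mul_zero, add_zero] at h4
  exact (mul_eq_zero.mp h4).resolve_left hθ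

end JD
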