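import Pool.Agent.H13.JN.TEa

set_option autoImplicit false
set_option linter.unusedSectionVars false

/-!
# JN TEc: class 5, `(4; 2, 2, 2)`, common factor structure with `m1 = l` (helper13)

Letters `y = ![x, y, k1, k2]` (indices 0, 1, 2, 3): `l(x) = 1, m(x) = 0, l(y) = 0, m(y) = 1`, `l = m = 0` on `k1, k2`, `Δ k1 = Δ k2 = 0`. Products: `x x = s1`, `2 x y = s2`, `y y = 0`, `k v = 0` (`k = k1, k2`). Base `t = 0`. `k a = 0` for `a ∈ D 3` (`PS_k_mul3` with `m1 = l`).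
(1) `comp1 : w(v s1) = s1(v w) - m(w) Δv`, `comp2 : w(v s2) = s2(v w) + l(w) Δv`. So `w (k s_i) = 0` for all `w` (`k = k1, k2`, `Δ k = 0`, `k w = 0`), `k (v s_i) = 0`.
(2) `s3 x y k = k(xy) = (k s2)/2`, `s3 x k1 k2 = s3 y k1 k2 = 0`.
(3) RELATIONS: `∑ c'_ij y_i y_j = c'_00 s1 + c'_01 s2`: so `c'_00 = 0`, `c'_01 = 0`. (Not needed below.)
(4) ALL `G(j;a,b,d) = q j a b d - y_j s3(y_a)(y_b)(y_d)`, `a < b < d`, VANISH (`q 0123 = 0`; `k` = `k1` or `k2`, index `K` = 2 or 3):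
 `q 00 1K = s3(s1,y,k) = s1(yk) + k(s1 y) - y(s1 k) = 0`, `x(k s2) = 0`; `q 00 23 = s3(s1,k1,k2) = k2(s1 k1) - k1(s1 k2) = 0`; `q 0123 = 0`.
 `q 1 01K = 2 s3(xy,y,k) - q 011K = s3(s2,y,k) - s3(x,yy,k) = k(s2 y) - y(s2 k) = 0`, `y(k s2) = 0`; `q 1 023 = 2 s3(xy,k1,k2) - q 0123 = s3(s2,k1,k2) = 0`; `q 1123 = s3(yy,k1,k2) = 0`.
 `q K ...`: `q 2013`: `q 0213 = 2 s3(x, y k1, k2) - q 0123 = 0`, `q 2013 = 2 s3(k1 x, y, k2) - 0 = 0`; `q 3012`: `q 0132 = 2 s3(x,y,k1k2) - 0 = 0`, `q 0312 = 2 s3(x,y k2,k1) - 0 = 0`, `q 3012 = 0`; `q K01K`: `q 01KK = s3(x,y,kk) = 0, q 0K1K = 2 s3(x,yk,k) - 0 = 0, q K01K = 0`;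
 `q 2023 = 2 s3(k1 x,k1,k2) - s3(x,k1k1,k2) = 0`, `q 3023`: `q 0233 = s3(x,k1,k2k2) = 0`, `q 0323 = 2 s3(x,k1k2,k2) - 0 = 0`, `q 3023 = 0`; the same for `q 2123, q 3123`. `k (s3 ...) = 0` as `s3 ... ∈ D 3`.
So `T5 = 0` on increasing triples; `T5_sorted`.
-/

namespace JD

universe u

variable {F : Type u} [Field F] {A : Type u} [NonUnitalNonAssocCommRing A] [Module F A]
  [IsScalarTower F A A] [SMulCommClass F A A] {D : ℕ → Submodule F A}
  {s1 s2 : A} {l m : A →ₗ[F] F} {Δ : A →ₗ[F] A}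

/-- `w (k h) = 0` for `h ∈ D 2` if `Δ k = 0` and `k v = 0` for all `v ∈ D 1` -/
private theorem TEc_wk (hP : PS D s1 s2 l l m Δ) (k : A) (hk : ∀ v ∈ D 1, k * v = 0)
    (hΔ : Δ k = 0) (w : A) (hw : w ∈ D 1) (h : A) (hh : h ∈ D 2) : w * (k * h) = 0 := by
  obtain ⟨a, b, rfl⟩ := hP.span h hh
  rw [mul_add, mul_add, mul_smul_comm, mul_smul_comm, mul_smul_comm, mul_smul_comm,
    hP.comp1 w hw k, hP.comp2 w hw k, hk w hw, hΔ]
  simp

/-- `s3 a b k = 0` for `a ∈ D 2`, `b ∈ D 1` -/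
private theorem TEc_s3 (hG : GJ F A 5 D) (k : A)
    (hk : ∀ v ∈ D 1, k * v = 0) (hk3 : ∀ a ∈ D 3, k * a = 0)
    (hk2 : ∀ w ∈ D 1, ∀ h ∈ D 2, w * (k * h) = 0) (a b : A) (ha : a ∈ D 2) (hb : b ∈ D 1) :
    s3 a b k = 0 := by
  have e1 : b * k = 0 := by rw [mul_comm]; exact hk b hb
  have e2 : k * (a * b) = 0 := hk3 _ (hG.mul_mem 2 1 (by norm_num) le_rfl a ha b hb)
  have e3 : b * (a * k) = 0 := by rw [mul_comm a k]; exact hk2 b hb a ha
  unfold s3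
  rw [e1, e2, e3, mul_zero]
  abel

theorem good5_N2 (hG : GJ F A 5 D) (hP : PS D s1 s2 l l m Δ) (x y k1 k2 : A)
    (hx : x ∈ D 1) (hy : y ∈ D 1) (hk1 : k1 ∈ D 1) (hk2 : k2 ∈ D 1)
    (lx : l x = 1) (ly : l y = 0) (lk1 : l k1 = 0) (lk2 : l k2 = 0)
    (mx : m x = 0) (my : m y = 1) (mk1 : m k1 = 0) (mk2 : m k2 = 0)
    (hΔ1 : Δ k1 = 0) (hΔ2 : Δ k2 = 0) : Good5 F D ![x, y, k1, k2] := by
  have h2 := hG.two
  have hJ := hG.jordan
  have hkv1 := PS_k_mul h2 hP k1 hk1 lk1 lk1 mk1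
  have hkv2 := PS_k_mul h2 hP k2 hk2 lk2 lk2 mk2
  have hka1 := PS_k_mul3 hG hP k1 hk1 lk1 lk1 mk1
  have hka2 := PS_k_mul3 hG hP k2 hk2 lk2 lk2 mk2
  have hwk1 := TEc_wk hP k1 hkv1 hΔ1
  have hwk2 := TEc_wk hP k2 hkv2 hΔ2
  have hxx : x * x ∈ D 2 := hG.mul_mem 1 1 le_rfl le_rfl x hx x hx
  have hxy : x * y ∈ D 2 := hG.mul_mem 1 1 le_rfl le_rfl x hx y hy
  have hyx : y * x ∈ D 2 := hG.mul_mem 1 1 le_rfl le_rfl y hy x hx
  have hyy : y * y = 0 := by rw [hP.sq y hy, ly, zero_smul]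
  have kx1 : k1 * x = 0 := hkv1 x hx
  have ky1 : k1 * y = 0 := hkv1 y hy
  have kx2 : k2 * x = 0 := hkv2 x hx
  have ky2 : k2 * y = 0 := hkv2 y hy
  have kk11 : k1 * k1 = 0 := hkv1 k1 hk1
  have kk12 : k1 * k2 = 0 := hkv1 k2 hk2
  have kk21 : k2 * k1 = 0 := hkv2 k1 hk1
  have kk22 : k2 * k2 = 0 := hkv2 k2 hk2
  have xk1 : x * k1 = 0 := by rw [mul_comm]; exact kx1
  have yk1 : y * k1 = 0 := by rw [mul_comm]; exact ky1
  have xk2 : x * k2 = 0 := by rw [mul_comm]; exact kx2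
  have yk2 : y * k2 = 0 := by rw [mul_comm]; exact ky2
  refine ⟨fun _ _ _ _ => 0, fun _ _ _ _ => (D 4).zero_mem, ?_⟩
  intro q hq hq0 c' hc h0 a b d hab had hbd
  refine T5_sorted h2 hJ _ q hq c' hc h0 ?_ a b d hab had hbd
  generalize hX : (![x, y, k1, k2] : Fin 4 → A) = X at hq h0
  have X0 : X 0 = x := by rw [← hX]; rfl
  have X1 : X 1 = y := by rw [← hX]; rfl
  have X2 : X 2 = k1 := by rw [← hX]; rfl
  have X3 : X 3 = k2 := by rw [← hX]; rfl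
  have tri : ∀ a b d : Fin 4, a < b → b < d → (a = 0 ∧ b = 1 ∧ d = 2) ∨ (a = 0 ∧ b = 1 ∧ d = 3) ∨
      (a = 0 ∧ b = 2 ∧ d = 3) ∨ (a = 1 ∧ b = 2 ∧ d = 3) := by decide
  have fj : ∀ j : Fin 4, j = 0 ∨ j = 1 ∨ j = 2 ∨ j = 3 := by decide
  -- the values of `s3`
  have s0 : ∀ a b : A, s3 (0 : A) a b = 0 := s3_zero_left
  have g1 := TEc_s3 hG k1 hkv1 hka1 hwk1
  have g2 := TEc_s3 hG k2 hkv2 hka2 hwk2
  have q0123 : q 0 1 2 3 = 0 := hq0 0 1 2 3 (by decide) (by decide) (by decide)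
  have q0012 : q 0 0 1 2 = 0 := by
    rw [hq.tie1 h2, X0, X1, X2]; exact g1 _ _ hxx hy
  have q0013 : q 0 0 1 3 = 0 := by
    rw [hq.tie1 h2, X0, X1, X3]; exact g2 _ _ hxx hy
  have q0023 : q 0 0 2 3 = 0 := by
    rw [hq.tie1 h2, X0, X2, X3]; exact g2 _ _ hxx hk1
  have q1012 : q 1 0 1 2 = 0 := by
    have e1 := hq.sw1 1 0 1 2
    rw [hq.tie2 h2, X0, X1, X2, hyy, s3_zero_mid, g1 _ _ hyx hy, smul_zero, add_zero] at e1
    exact e1
  have q1013 : q 1 0 1 3 = 0 := by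
    have e1 := hq.sw1 1 0 1 3
    rw [hq.tie2 h2, X0, X1, X3, hyy, s3_zero_mid, g2 _ _ hyx hy, smul_zero, add_zero] at e1
    exact e1
  have q1023 : q 1 0 2 3 = 0 := by
    have e1 := hq.sw1 1 0 2 3
    rw [q0123, X0, X1, X2, X3, g2 _ _ hyx hk1, smul_zero, add_zero] at e1
    exact e1
  have q1123 : q 1 1 2 3 = 0 := by
    rw [hq.tie1 h2, X1, X2, X3, hyy, s0]
  have q0213 : q 0 2 1 3 = 0 := by
    have e1 := hq.sw2 0 1 2 3
    rw [q0123, X0, X1, X2, X3, yk1, s3_zero_mid, smul_zero, zero_add] at e1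
    exact e1
  have q2013 : q 2 0 1 3 = 0 := by
    have e1 := hq.sw1 2 0 1 3
    rw [q0213, X0, X1, X2, X3, kx1, s0, smul_zero, add_zero] at e1
    exact e1
  have q0132 : q 0 1 3 2 = 0 := by
    have e1 := hq.sw3 0 1 2 3
    rw [q0123, X0, X1, X2, X3, kk12, s3_zero_right, smul_zero, zero_add] at e1
    exact e1
  have q0312 : q 0 3 1 2 = 0 := by
    have e1 := hq.sw2 0 1 3 2
    rw [q0132, X0, X1, X2, X3, yk2, s3_zero_mid, smul_zero, zero_add] at e1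
    exact e1
  have q3012 : q 3 0 1 2 = 0 := by
    have e1 := hq.sw1 3 0 1 2
    rw [q0312, X0, X1, X2, X3, kx2, s0, smul_zero, add_zero] at e1
    exact e1
  have q2012 : q 2 0 1 2 = 0 := by
    have e0 : q 0 1 2 2 = 0 := by
      rw [hq.tie3 h2, X0, X1, X2, kk11, s3_zero_right]
    have e1 := hq.sw2 0 1 2 2
    rw [e0, X0, X1, X2, yk1, s3_zero_mid, smul_zero, zero_add] at e1
    have e2 := hq.sw1 2 0 1 2
    rw [e1, X0, X1, X2, kx1, s0, smul_zero, add_zero] at e2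
    exact e2
  have q3013 : q 3 0 1 3 = 0 := by
    have e0 : q 0 1 3 3 = 0 := by
      rw [hq.tie3 h2, X0, X1, X3, kk22, s3_zero_right]
    have e1 := hq.sw2 0 1 3 3
    rw [e0, X0, X1, X3, yk2, s3_zero_mid, smul_zero, zero_add] at e1
    have e2 := hq.sw1 3 0 1 3
    rw [e1, X0, X1, X3, kx2, s0, smul_zero, add_zero] at e2
    exact e2
  have q2023 : q 2 0 2 3 = 0 := by
    have e1 := hq.sw1 2 0 2 3
    rw [hq.tie2 h2, X0, X2, X3, kk11, s3_zero_mid, kx1, s0, smul_zero, add_zero] at e1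
    exact e1
  have q2123 : q 2 1 2 3 = 0 := by
    have e1 := hq.sw1 2 1 2 3
    rw [hq.tie2 h2, X1, X2, X3, kk11, s3_zero_mid, ky1, s0, smul_zero, add_zero] at e1
    exact e1
  have q3023 : q 3 0 2 3 = 0 := by
    have e0 : q 0 2 3 3 = 0 := by
      rw [hq.tie3 h2, X0, X2, X3, kk22, s3_zero_right]
    have e1 := hq.sw2 0 2 3 3
    rw [e0, X0, X2, X3, kk12, s3_zero_mid, smul_zero, zero_add] at e1
    have e2 := hq.sw1 3 0 2 3
    rw [e1, X0, X2, X3, kx2, s0, smul_zero, add_zero] at e2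
    exact e2
  have q3123 : q 3 1 2 3 = 0 := by
    have e0 : q 1 2 3 3 = 0 := by
      rw [hq.tie3 h2, X1, X2, X3, kk22, s3_zero_right]
    have e1 := hq.sw2 1 2 3 3
    rw [e0, X1, X2, X3, kk12, s3_zero_mid, smul_zero, zero_add] at e1
    have e2 := hq.sw1 3 1 2 3
    rw [e1, X1, X2, X3, ky2, s0, smul_zero, add_zero] at e2
    exact e2
  have hXmem : ∀ j, X j ∈ D 1 := by
    intro j
    rcases fj j with rfl | rfl | rfl | rfl
    · rw [X0]; exact hx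
    · rw [X1]; exact hy
    · rw [X2]; exact hk1
    · rw [X3]; exact hk2
  -- the products with `s3`
  have p012 : ∀ w ∈ D 1, w * s3 x y k1 = 0 := by
    intro w hw
    unfold s3
    rw [yk1, xk1, mul_zero, mul_zero, zero_add, sub_zero]
    exact hwk1 w hw _ hxy
  have p013 : ∀ w ∈ D 1, w * s3 x y k2 = 0 := by
    intro w hw
    unfold s3
    rw [yk2, xk2, mul_zero, mul_zero, zero_add, sub_zero]
    exact hwk2 w hw _ hxy
  have p023 : s3 x k1 k2 = 0 := by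
    unfold s3
    rw [kk12, xk1, xk2, mul_zero, mul_zero, mul_zero]
    abel
  have p123 : s3 y k1 k2 = 0 := by
    unfold s3
    rw [kk12, yk1, yk2, mul_zero, mul_zero, mul_zero]
    abel
  intro a b d hab' hbd'
  unfold T5
  refine Finset.sum_eq_zero fun i _ => Finset.sum_eq_zero fun j _ => ?_
  have key : q j a b d - X j * s3 (X a) (X b) (X d) = 0 := by
    rcases tri a b d hab' hbd' with ⟨rfl, rfl, rfl⟩ | ⟨rfl, rfl, rfl⟩ | ⟨rfl, rfl, rfl⟩ |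
      ⟨rfl, rfl, rfl⟩
    · have e1 : q j 0 1 2 = 0 := by
        rcases fj j with rfl | rfl | rfl | rfl
        · exact q0012
        · exact q1012
        · exact q2012
        · exact q3012
      rw [e1, X0, X1, X2, p012 _ (hXmem j), sub_zero]
    · have e1 : q j 0 1 3 = 0 := by
        rcases fj j with rfl | rfl | rfl | rfl
        · exact q0013
        · exact q1013
        · exact q2013
        · exact q3013
      rw [e1, X0, X1, X3, p013 _ (hXmem j), sub_zero]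
    · have e1 : q j 0 2 3 = 0 := by
        rcases fj j with rfl | rfl | rfl | rfl
        · exact q0023
        · exact q1023
        · exact q2023
        · exact q3023
      rw [e1, X0, X2, X3, p023, mul_zero, sub_zero]
    · have e1 : q j 1 2 3 = 0 := by
        rcases fj j with rfl | rfl | rfl | rfl
        · exact q0123
        · exact q1123
        · exact q2123
        · exact q3123
      rw [e1, X1, X2, X3, p123, mul_zero, sub_zero]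
  rw [key, mul_zero, smul_zero]

end JD
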