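import Pool.Agent.H13.JN.TEb
import Pool.Agent.H13.JN.TEc
import Pool.Agent.H13.JN.K5L

set_option autoImplicit false
set_option linter.unusedSectionVars false

/-!
# JN TEd: class 5, `(4; 2, 2, 2)`, common factor structure: `Good5` (helper13)

`pencil_normal` (file `PenN.lean`). FIRST CASE: `x, y, z ∈ D 1` dual to `l, m1, m2` on `D 1`. `finrank (D 1) = 4`: take `k0 ∈ D 1` outside `span {x,y,z}` and
`k = k0 - l(k0) x - m1(k0) y - m2(k0) z ≠ 0`: `l(k) = m1(k) = m2(k) = 0`; `x, y, z, k` are linearly independent (apply `l, m1, m2`, then `k ≠ 0`), so a basis of `D 1`. `Δ k = 0` by `PS_delta`; `good5_N1`.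
SECOND CASE: `PS D s1' s2' l l m Δ'`: by `hP.dual` (with `m1 = l`) there are `x, y ∈ D 1` with `l(x) = 1, m(x) = 0, l(y) = 0, m(y) = 1`; the kernel of `(l, m)` on `D 1` has dimension `2`: basis `k1, k2`. `Δ' k_i = 0` by `PS_delta`; `good5_N2`.
The letters are indexed by `Fin 4`; `finrank (D 1) = 4` (`h1 ▸` or `Fin.cast`; it may be easiest to state the existence for `m : ℕ` with `m = finrank (D 1)` and `subst`).
-/

namespace JD

universe u

variable {F : Type u} [Field F] {A : Type u} [NonUnitalNonAssocCommRing A] [Module F A]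
  [IsScalarTower F A A] [SMulCommClass F A A] {D : ℕ → Submodule F A}
  {s1 s2 : A} {l m1 m2 : A →ₗ[F] F} {Δ : A →ₗ[F] A}

private theorem TEd_ext {V : Submodule F A} [Module.Finite F A] {r : ℕ} (w : Fin r → A)
    (hr : r < Module.finrank F V) : ∃ v ∈ V, v ∉ Submodule.span F (Set.range w) := by
  by_contra hcon
  push Not at hcon
  have h1 : V ≤ Submodule.span F (Set.range w) := hcon
  have h2 := Submodule.finrank_mono h1
  have h3 := finrank_range_le_card (R := F) w
  rw [Fintype.card_fin] at h3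
  unfold Set.finrank at h3
  omega

private theorem TEd_cast {V : Submodule F A} [Module.Finite F A] {n : ℕ} (hn : Module.finrank F V = n)
    (y : Fin n → A) (hy : ∀ i, y i ∈ V) (hli : LinearIndependent F y)
    (hg : Good5 F D y) :
    ∃ y : Fin (Module.finrank F V) → A, LinearIndependent F y ∧
      Submodule.span F (Set.range y) = V ∧ Good5 F D y := by
  subst hn
  refine ⟨y, hli, ?_, hg⟩
  apply Submodule.eq_of_le_of_finrank_eq
  · rw [Submodule.span_le]
    rintro _ ⟨i, rfl⟩
    exact hy i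
  · rw [finrank_span_eq_card hli, Fintype.card_fin]

private theorem TEd_mem4 {V : Submodule F A} {a b c d : A} (ha : a ∈ V) (hb : b ∈ V) (hc : c ∈ V)
    (hd : d ∈ V) : ∀ i, ![a, b, c, d] i ∈ V := by
  intro i
  fin_cases i
  · exact ha
  · exact hb
  · exact hc
  · exact hd

theorem good5_PS (hG : GJ F A 5 D) (hP : PS D s1 s2 l m1 m2 Δ)
    (h1 : Module.finrank F (D 1) = 4)
    (h3 : Module.finrank F (D 3) = 2) (h4 : Module.finrank F (D 4) = 2) :
    ∃ y : Fin (Module.finrank F (D 1)) → A, LinearIndependent F y ∧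
      Submodule.span F (Set.range y) = D 1 ∧ Good5 F D y := by
  have := hG.fin
  rcases pencil_normal hG hP with ⟨x, hx, y, hy, z, hz, lx, ly, lz, m1x, m1y, m1z, m2x, m2y, m2z⟩ |
    ⟨s1', s2', m, Δ', hP'⟩
  · obtain ⟨k0, hk0, hk0'⟩ := TEd_ext (F := F) (V := D 1) ![x, y, z] (by rw [h1]; norm_num)
    have hsx : x ∈ Submodule.span F (Set.range ![x, y, z]) := Submodule.subset_span ⟨0, rfl⟩
    have hsy : y ∈ Submodule.span F (Set.range ![x, y, z]) := Submodule.subset_span ⟨1, rfl⟩
    have hsz : z ∈ Submodule.span F (Set.range ![x, y, z]) := Submodule.subset_span ⟨2, rfl⟩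
    obtain ⟨k, hkd⟩ : ∃ k, k = k0 - l k0 • x - m1 k0 • y - m2 k0 • z := ⟨_, rfl⟩
    have hk : k ∈ D 1 := by
      rw [hkd]
      exact (D 1).sub_mem ((D 1).sub_mem ((D 1).sub_mem hk0 ((D 1).smul_mem _ hx))
        ((D 1).smul_mem _ hy)) ((D 1).smul_mem _ hz)
    have lk : l k = 0 := by
      rw [hkd]
      simp only [map_sub, map_smul, lx, ly, lz, smul_eq_mul]
      ring
    have m1k : m1 k = 0 := by
      rw [hkd]
      simp only [map_sub, map_smul, m1x, m1y, m1z, smul_eq_mul]
      ring
    have m2k : m2 k = 0 := by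
      rw [hkd]
      simp only [map_sub, map_smul, m2x, m2y, m2z, smul_eq_mul]
      ring
    have hk1 : k ≠ 0 := by
      intro h
      apply hk0'
      have e : k0 = l k0 • x + m1 k0 • y + m2 k0 • z := by
        rw [h] at hkd
        rw [eq_comm, ← sub_eq_zero, ← neg_eq_zero, hkd]
        abel
      rw [e]
      exact Submodule.add_mem _ (Submodule.add_mem _ (Submodule.smul_mem _ _ hsx)
        (Submodule.smul_mem _ _ hsy)) (Submodule.smul_mem _ _ hsz)
    refine TEd_cast h1 ![x, y, z, k] (TEd_mem4 hx hy hz hk) ?_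
      (good5_N1 hG hP x y z k hx hy hz hk lx ly lz lk m1x m1y m1z m1k m2x m2y m2z m2k
        (PS_delta hG hP h3 h4 k hk lk m1k m2k))
    rw [Fintype.linearIndependent_iff]
    intro c hc
    rw [Fin.sum_univ_four] at hc
    change c 0 • x + c 1 • y + c 2 • z + c 3 • k = 0 at hc
    have e0 : c 0 = 0 := by
      have h := congrArg l hc
      simp only [map_add, map_smul, lx, ly, lz, lk, map_zero, smul_eq_mul] at h
      linear_combination h
    have e1 : c 1 = 0 := by
      have h := congrArg m1 hc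
      simp only [map_add, map_smul, m1x, m1y, m1z, m1k, map_zero, smul_eq_mul] at h
      linear_combination h
    have e2 : c 2 = 0 := by
      have h := congrArg m2 hc
      simp only [map_add, map_smul, m2x, m2y, m2z, m2k, map_zero, smul_eq_mul] at h
      linear_combination h
    rw [e0, e1, e2, zero_smul, zero_smul, zero_smul, zero_add, zero_add, zero_add] at hc
    have e3 : c 3 = 0 := (smul_eq_zero.1 hc).resolve_right hk1
    intro i
    fin_cases i
    · exact e0
    · exact e1
    · exact e2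
    · exact e3
  · obtain ⟨x, hx, y, hy, lx, mx, ly, my⟩ := hP'.dual
    have key : ∀ k0 ∈ D 1, k0 - l k0 • x - m k0 • y ∈ D 1 ∧ l (k0 - l k0 • x - m k0 • y) = 0 ∧
        m (k0 - l k0 • x - m k0 • y) = 0 := by
      intro k0 hk0
      refine ⟨(D 1).sub_mem ((D 1).sub_mem hk0 ((D 1).smul_mem _ hx)) ((D 1).smul_mem _ hy), ?_, ?_⟩
      · simp only [map_sub, map_smul, lx, ly, smul_eq_mul]
        ring
      · simp only [map_sub, map_smul, mx, my, smul_eq_mul]
        ring
    obtain ⟨k, hk, hk'⟩ := TEd_ext (F := F) (V := D 1) ![x, y] (by rw [h1]; norm_num)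
    obtain ⟨k1, hkd⟩ : ∃ k1, k1 = k - l k • x - m k • y := ⟨_, rfl⟩
    obtain ⟨hk1, lk1, mk1⟩ := key k hk
    rw [← hkd] at hk1 lk1 mk1
    have hk1' : k1 ≠ 0 := by
      intro h
      apply hk'
      have e : k = l k • x + m k • y := by
        rw [h] at hkd
        rw [eq_comm, ← sub_eq_zero, ← neg_eq_zero, hkd]
        abel
      rw [e]
      exact Submodule.add_mem _ (Submodule.smul_mem _ _ (Submodule.subset_span ⟨0, rfl⟩))
        (Submodule.smul_mem _ _ (Submodule.subset_span ⟨1, rfl⟩))
    obtain ⟨k', hq, hq'⟩ := TEd_ext (F := F) (V := D 1) ![x, y, k1] (by rw [h1]; norm_num)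
    obtain ⟨k2, hqd⟩ : ∃ k2, k2 = k' - l k' • x - m k' • y := ⟨_, rfl⟩
    obtain ⟨hk2, lk2, mk2⟩ := key k' hq
    rw [← hqd] at hk2 lk2 mk2
    have hk2' : ∀ a : F, k2 ≠ a • k1 := by
      intro a h
      apply hq'
      have e : k' = l k' • x + m k' • y + a • k1 := by
        rw [← h, hqd]
        abel
      rw [e]
      exact Submodule.add_mem _ (Submodule.add_mem _
        (Submodule.smul_mem _ _ (Submodule.subset_span ⟨0, rfl⟩))
        (Submodule.smul_mem _ _ (Submodule.subset_span ⟨1, rfl⟩)))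
        (Submodule.smul_mem _ _ (Submodule.subset_span ⟨2, rfl⟩))
    refine TEd_cast h1 ![x, y, k1, k2] (TEd_mem4 hx hy hk1 hk2) ?_
      (good5_N2 hG hP' x y k1 k2 hx hy hk1 hk2 lx ly lk1 lk2 mx my mk1 mk2
        (PS_delta hG hP' h3 h4 k1 hk1 lk1 lk1 mk1) (PS_delta hG hP' h3 h4 k2 hk2 lk2 lk2 mk2))
    rw [Fintype.linearIndependent_iff]
    intro c hc
    rw [Fin.sum_univ_four] at hc
    change c 0 • x + c 1 • y + c 2 • k1 + c 3 • k2 = 0 at hc
    have e0 : c 0 = 0 := by
      have h := congrArg l hc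
      simp only [map_add, map_smul, lx, ly, lk1, lk2, map_zero, smul_eq_mul] at h
      linear_combination h
    have e1 : c 1 = 0 := by
      have h := congrArg m hc
      simp only [map_add, map_smul, mx, my, mk1, mk2, map_zero, smul_eq_mul] at h
      linear_combination h
    rw [e0, e1, zero_smul, zero_smul, zero_add, zero_add] at hc
    have e3 : c 3 = 0 := by
      by_contra hne
      apply hk2' (-((c 3)⁻¹ * c 2))
      have h : (c 3)⁻¹ • (c 2 • k1 + c 3 • k2) = 0 := by rw [hc, smul_zero]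
      rw [smul_add, smul_smul, smul_smul, inv_mul_cancel₀ hne, one_smul] at h
      rw [neg_smul]
      exact eq_neg_of_add_eq_zero_right h
    rw [e3, zero_smul, add_zero] at hc
    have e2 : c 2 = 0 := (smul_eq_zero.1 hc).resolve_right hk1'
    intro i
    fin_cases i
    · exact e0
    · exact e1
    · exact e2
    · exact e3

end JD
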