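import Pool.Agent.H13.JN.TAB
import Pool.Agent.H13.JN.TEd
import Pool.Agent.H13.JN.OmG
import Pool.Agent.H13.JN.Om5
import Pool.Agent.H9.JH.PenA
import Pool.Agent.H9.JN.CurvX
import Pool.Agent.H9.JN.L221

set_option autoImplicit false
set_option linter.unusedSectionVars false

/-!
# JN C5Low: class 5: every graded algebra with the possible dimensions is good (helper13)

`D4_ne5`: `D 4 ≠ ⊥`. PROOF. Suppose `D 4 = 0`: `V D 3 = 0`, `D 2 D 2 = 0` (`V = D 1`). `gJ3 x y z` on `q ∈ D 2`: `(xy)(zq) + (yz)(xq) + (zx)(yq) = z((xy)q) + .. = 0` (inner products in `D 4`). `gJ3 x y q` on `h ∈ V`: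
`(xy)(qh) + (yq)(xh) + (qx)(yh) = q((xy)h) + x((yq)h) + y((qx)h) = q((xy)h)` (`(yq)h ∈ D 4 = 0`). The left side is the previous sum with `z = h`, so `q((xy)h) = 0`: `D 2 D 3 = 0`. So `a ∈ D 3` is killed by `V` and `D 2`: `D 3 = 0` (`nd`), `D 5 = V D 4 + D 2 D 3 = 0`, contradiction.

`D3_ne1`: `finrank (D 4) = 1` implies `D 3 ≠ ⊥`. PROOF. `K5_exists`. Suppose `D 3 = 0`. For `v ∈ V`, `p, q ∈ D 2`: `k5 (v (p q)) = θ(v) k4(p q)`, `v (v² q) = v² (v q) = 0` (`gJ1`): `θ(v) k4(v² q) = 0`; so `k4(v² q) = 0` for all `v` with `θ(v) ≠ 0`, hence for all `v ∈ V`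
(density: `mem_of_dense` or `quad`-argument: `v + t v0`), so `k4 = 0` on `D 2 D 2 = D 4` (`hG.gen 4`, `hG.sq`), contradiction.

`good5_main`. `n' = finrank (D 1)`. If `n' ≤ 3`: `A` is special by `hsp`, any basis `y` of `D 1`, `good5_three`. Let `n' ≥ 4`, `d_i = finrank (D i)`: `n' + d2 + d3 + d4 ≤ 10`. `d4 ≥ 1` (`D4_ne5`), `d2 ≥ 1` (otherwise all `D i = 0` for `i ≥ 2`).
`d2 = 1`: the multiplications commute (proof as in `H1`, file `Comm.lean`: `D 2 = F s`, `v² = b(v) s`, `gJ1`: `b(v)(s(vh) - v(sh)) = 0`, density); `good5_comm`. So `d2 ≥ 2`. `d3 = 0`: `D3_ne` (helper9, `L221.lean`) gives `d2 ≥ 5`, `D3_ne1` gives `d4 ≥ 2`: sum `≥ 4 + 5 + 2 = 11`. `d3 = 1`: `curv5` gives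
`d2 ≥ 5`: `4 + 5 + 1 + 1 = 11`. So `d3 ≥ 2`, `d2 ≥ 2`, `d4 ≥ 1`, `n' ≥ 4`, sum `≤ 10`: `(n';d2,d3,d4)` is one of `(4;2,2,1), (5;2,2,1), (4;2,3,1), (4;3,2,1), (4;2,2,2)`. `d4 = 1`: `K5_exists`, (ω) from `omega_two` or `omega_three`, `good5_of_omega`.
`(4;2,2,2)`: `pencil` (file `PenA.lean`): commuting: `good5_comm`; or `PS`: `good5_PS`.
-/

namespace JD

universe u

variable {F : Type u} [Field F] {A : Type u} [NonUnitalNonAssocCommRing A] [Module F A]
  [IsScalarTower F A A] [SMulCommClass F A A] {D : ℕ → Submodule F A}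

private theorem C5Low_D5 (hG : GJ F A 5 D) (h : D 5 ≤ ⊥) : False := by
  have h1 := hG.top
  rw [eq_bot_iff.mpr h, finrank_bot] at h1
  exact zero_ne_one h1

theorem D4_ne5 (hG : GJ F A 5 D) : D 4 ≠ ⊥ := by
  intro h4
  have z4 : ∀ a ∈ D 4, a = 0 := fun a ha => by
    rw [h4] at ha
    exact (Submodule.mem_bot F).mp ha
  have m11 : ∀ v ∈ D 1, ∀ w ∈ D 1, v * w ∈ D 2 := fun v hv w hw =>
    hG.mul_mem 1 1 le_rfl le_rfl v hv w hw
  have m12 : ∀ v ∈ D 1, ∀ q ∈ D 2, v * q ∈ D 3 := fun v hv w hw =>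
    hG.mul_mem 1 2 (by norm_num) (by norm_num) v hv w hw
  have m21 : ∀ q ∈ D 2, ∀ v ∈ D 1, q * v ∈ D 3 := fun q hq v hv =>
    hG.mul_mem 2 1 (by norm_num) (by norm_num) q hq v hv
  have z13 : ∀ v ∈ D 1, ∀ a ∈ D 3, v * a = 0 := fun v hv a ha =>
    z4 _ (hG.mul_mem 1 3 (by norm_num) (by norm_num) v hv a ha)
  have z31 : ∀ a ∈ D 3, ∀ v ∈ D 1, a * v = 0 := fun a ha v hv =>
    z4 _ (hG.mul_mem 3 1 (by norm_num) (by norm_num) a ha v hv)
  have z22 : ∀ p ∈ D 2, ∀ q ∈ D 2, p * q = 0 := fun p hp q hq =>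
    z4 _ (hG.mul_mem 2 2 (by norm_num) (by norm_num) p hp q hq)
  have k1 : ∀ x ∈ D 1, ∀ y ∈ D 1, ∀ h ∈ D 1, ∀ q ∈ D 2, q * ((x * y) * h) = 0 := by
    intro x hx y hy h hh q hq
    have e1 := gJ3 F hG.two hG.jordan x y h q
    rw [z22 _ (m11 x hx y hy) q hq, z22 _ (m11 y hy h hh) q hq, z22 _ (m11 h hh x hx) q hq] at e1
    have e2 := gJ3 F hG.two hG.jordan x y q h
    rw [z31 _ (m12 y hy q hq) h hh, z31 _ (m21 q hq x hx) h hh] at e2
    simp only [mul_zero, add_zero] at e1 e2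
    simp only [mul_comm] at e1 e2 ⊢
    rw [← e2]
    linear_combination (norm := abel) e1
  have k2 : ∀ q ∈ D 2, ∀ v ∈ D 1, ∀ h ∈ D 2, q * (v * h) = 0 := by
    intro q hq v hv h hh
    have hT : D 2 ≤ LinearMap.ker ((LinearMap.mulLeft F q) ∘ₗ (LinearMap.mulLeft F v)) := by
      apply hG.gen2
      intro x hx y hy
      rw [LinearMap.mem_ker, LinearMap.comp_apply, LinearMap.mulLeft_apply,
        LinearMap.mulLeft_apply, mul_comm v]
      exact k1 x hx y hy v hv q hq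
    exact LinearMap.mem_ker.mp (hT hh)
  have k3 : ∀ q ∈ D 2, ∀ a ∈ D 3, q * a = 0 := by
    intro q hq a ha
    have hT : D 3 ≤ LinearMap.ker (LinearMap.mulLeft F q) := by
      refine hG.gen 3 le_rfl _ ?_ ?_
      · intro v hv h hh
        rw [LinearMap.mem_ker, LinearMap.mulLeft_apply]
        exact k2 q hq v hv h hh
      · intro p hp h hh
        rw [LinearMap.mem_ker, LinearMap.mulLeft_apply, mul_comm p h]
        exact k2 q hq h hh p hp
    exact LinearMap.mem_ker.mp (hT ha)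
  have z3 : ∀ a ∈ D 3, a = 0 := fun a ha =>
    hG.nd 3 (by norm_num) (by norm_num) a ha (fun v hv => z13 v hv a ha)
      (fun q hq => k3 q hq a ha)
  refine C5Low_D5 hG (hG.gen 5 (by norm_num) ⊥ ?_ ?_)
  · intro v _ h hh
    rw [z4 h hh, mul_zero]
    exact Submodule.zero_mem _
  · intro q _ h hh
    rw [z3 h hh, mul_zero]
    exact Submodule.zero_mem _

theorem D3_ne1 (hG : GJ F A 5 D) (h4 : Module.finrank F (D 4) = 1) : D 3 ≠ ⊥ := by
  intro h3
  obtain ⟨g, u, k4, k5, θ, hK⟩ := K5_exists hG h4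
  have z3 : ∀ a ∈ D 3, a = 0 := fun a ha => by
    rw [h3] at ha
    exact (Submodule.mem_bot F).mp ha
  have m11 : ∀ v ∈ D 1, ∀ w ∈ D 1, v * w ∈ D 2 := fun v hv w hw =>
    hG.mul_mem 1 1 le_rfl le_rfl v hv w hw
  have z12 : ∀ v ∈ D 1, ∀ q ∈ D 2, v * q = 0 := fun v hv w hw =>
    z3 _ (hG.mul_mem 1 2 (by norm_num) (by norm_num) v hv w hw)
  have k1 : ∀ v ∈ D 1, θ v ≠ 0 → ∀ q ∈ D 2, k4 ((v * v) * q) = 0 := by
    intro v hv hθ q hq
    have e1 := gJ1 hG.jordan v q
    rw [z12 v hv q hq, mul_zero] at e1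
    have e2 := hK.hθ v hv _ (hG.mul_mem 2 2 (by norm_num) (by norm_num) _ (m11 v hv v hv) q hq)
    rw [← e1, map_zero] at e2
    exact (mul_eq_zero.mp e2.symm).resolve_left hθ
  obtain ⟨v0, hv0, hθ0⟩ := hK.ne
  have k2 : ∀ v ∈ D 1, ∀ q ∈ D 2, k4 ((v * v) * q) = 0 := by
    intro v hv q hq
    by_cases hθ : θ v = 0
    · have e1 := k1 (v + v0) ((D 1).add_mem hv hv0) (by rw [map_add, hθ, zero_add]; exact hθ0) q hq
      have e2 := k1 (v - v0) ((D 1).sub_mem hv hv0) (by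
        rw [map_sub, hθ, zero_sub]; exact neg_ne_zero.mpr hθ0) q hq
      have e3 := k1 v0 hv0 hθ0 q hq
      simp only [add_mul, mul_add, sub_mul, mul_sub, map_add, map_sub, mul_comm v0 v] at e1 e2 e3
      have e4 : (2 : F) * k4 ((v * v) * q) = 0 := by
        linear_combination e1 + e2 - 2 * e3
      exact (mul_eq_zero.mp e4).resolve_left hG.two
    · exact k1 v hv hθ q hq
  have k3 : ∀ p ∈ D 2, ∀ q ∈ D 2, k4 (p * q) = 0 := by
    intro p hp q hq
    have hT : D 2 ≤ LinearMap.ker (k4 ∘ₗ LinearMap.mulRight F q) := by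
      apply hG.sq
      intro v hv
      rw [LinearMap.mem_ker, LinearMap.comp_apply, LinearMap.mulRight_apply]
      exact k2 v hv q hq
    exact LinearMap.mem_ker.mp (hT hp)
  have k5' : D 4 ≤ LinearMap.ker k4 := by
    refine hG.gen 4 (by norm_num) _ ?_ ?_
    · intro v _ a ha
      rw [z3 a ha, mul_zero]
      exact Submodule.zero_mem _
    · intro p hp q hq
      rw [LinearMap.mem_ker]
      exact k3 p hp q hq
  have := LinearMap.mem_ker.mp (k5' hK.g_mem)
  rw [hK.k4g] at this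
  exact one_ne_zero this

private theorem C5Low_basis [Module.Finite F A] (T : Submodule F A) :
    ∃ y : Fin (Module.finrank F T) → A, LinearIndependent F y ∧
      Submodule.span F (Set.range y) = T ∧ ∀ i, y i ∈ T := by
  let b := Module.finBasis F T
  refine ⟨fun i => (b i : A), ?_, ?_, fun i => (b i).2⟩
  · exact b.linearIndependent.map' T.subtype (Submodule.ker_subtype T)
  · have h1 : Set.range (fun i => (b i : A)) = T.subtype '' Set.range b := by
      rw [← Set.range_comp]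
      rfl
    rw [h1, Submodule.span_image, b.span_eq, Submodule.map_top, Submodule.range_subtype]

private theorem C5Low_comm (hG : GJ F A 5 D) (h : Module.finrank F (D 2) = 1) :
    ∀ v ∈ D 1, ∀ q ∈ D 2, ∀ b : A, v * (q * b) = q * (v * b) := by
  have hfin := hG.fin
  obtain ⟨s, hs, hs0, φ, hφs, hφ⟩ := exists_coord h
  have hD2 : D 2 ≠ ⊥ := by
    intro h0
    rw [h0, Submodule.mem_bot] at hs
    exact hs0 hs
  obtain ⟨v0, hv0, hv0s⟩ := hG.exists_sq_ne hD2
  have hφv0 : φ (v0 * v0) ≠ 0 := by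
    intro h0
    apply hv0s
    rw [hφ _ (hG.mul_mem 1 1 le_rfl le_rfl v0 hv0 v0 hv0), h0, zero_smul]
  let T : Submodule F A :=
    { carrier := {v | ∀ b : A, v * (s * b) = s * (v * b)}
      add_mem' := by
        intro v w hv hw b
        rw [add_mul, add_mul, mul_add, hv b, hw b]
      zero_mem' := by
        intro b
        rw [zero_mul, zero_mul, mul_zero]
      smul_mem' := by
        intro r v hv b
        rw [smul_mul_assoc, smul_mul_assoc, mul_smul_comm, hv b] }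
  have hT : D 1 ≤ T := by
    refine hG.dense φ v0 hv0 hφv0 T ?_
    intro v hv hv1 b
    have h1 := gJ1 hG.jordan v b
    rw [hφ _ (hG.mul_mem 1 1 le_rfl le_rfl v hv v hv), smul_mul_assoc, smul_mul_assoc,
      mul_smul_comm] at h1
    exact (smul_right_injective A hv1 h1).symm
  intro v hv q hq b
  have hvs : v * (s * b) = s * (v * b) := (hT hv : _) b
  rw [hφ q hq, smul_mul_assoc, smul_mul_assoc, mul_smul_comm, hvs]

theorem good5_main (hG : GJ F A 5 D)
    (hsp : Module.finrank F (D 1) ≤ 3 → IsSpecial.{u, u, u} F A)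
    (hd : 4 ≤ Module.finrank F (D 1) → Module.finrank F (D 1) + Module.finrank F (D 2) +
      Module.finrank F (D 3) + Module.finrank F (D 4) ≤ 10) :
    ∃ y : Fin (Module.finrank F (D 1)) → A, LinearIndependent F y ∧
      Submodule.span F (Set.range y) = D 1 ∧ Good5 F D y := by
  have hfin := hG.fin
  obtain ⟨y, hy1, hy2, hy3⟩ := C5Low_basis (D 1)
  by_cases hn : Module.finrank F (D 1) ≤ 3
  · exact ⟨y, hy1, hy2, good5_three hG.two (hsp hn) hn y⟩
  have hs := hd (by omega)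
  have h4 : 1 ≤ Module.finrank F (D 4) := Submodule.one_le_finrank_iff.mpr (D4_ne5 hG)
  have h2 : 1 ≤ Module.finrank F (D 2) := by
    rw [Submodule.one_le_finrank_iff]
    intro h0
    have z2 : ∀ a ∈ D 2, a = 0 := fun a ha => by
      rw [h0] at ha
      exact (Submodule.mem_bot F).mp ha
    have z3 : D 3 ≤ ⊥ := by
      refine hG.gen 3 le_rfl ⊥ ?_ ?_
      · intro v _ h hh
        rw [z2 h hh, mul_zero]
        exact Submodule.zero_mem _
      · intro q hq h _
        rw [z2 q hq, zero_mul]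
        exact Submodule.zero_mem _
    apply D4_ne5 hG
    rw [eq_bot_iff]
    refine hG.gen 4 (by norm_num) ⊥ ?_ ?_
    · intro v _ h hh
      have h1 : h = 0 := (Submodule.mem_bot F).mp (z3 hh)
      rw [h1, mul_zero]
      exact Submodule.zero_mem _
    · intro q hq h _
      rw [z2 q hq, zero_mul]
      exact Submodule.zero_mem _
  by_cases h21 : Module.finrank F (D 2) = 1
  · exact ⟨y, hy1, hy2, good5_comm hG (fun v hv q hq h _ => C5Low_comm hG h21 v hv q hq h) y hy3⟩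
  have h30 : Module.finrank F (D 3) ≠ 0 := by
    intro h0
    have hb : D 3 = ⊥ := Submodule.finrank_eq_zero.mp h0
    have h5 : 5 ≤ Module.finrank F (D 2) := by
      by_contra hcon
      exact D3_ne hG le_rfl (by omega) hb
    have h41 : Module.finrank F (D 4) ≠ 1 := fun h41 => D3_ne1 hG h41 hb
    omega
  have h31 : Module.finrank F (D 3) ≠ 1 := by
    intro h1
    rcases curv5 hG h1 with h5 | h5 <;> omega
  by_cases h41 : Module.finrank F (D 4) = 1
  · obtain ⟨g, u, k4, k5, θ, hK⟩ := K5_exists hG h41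
    by_cases h22 : Module.finrank F (D 2) = 2
    · exact good5_of_omega hG hK (omega_two hG hK h22)
    · exact good5_of_omega hG hK (omega_three hG hK (by omega) (by omega))
  · rcases pencil hG (show Module.finrank F (D 2) = 2 by omega) with hc | ⟨s1, s2, l, m1, m2, Δ, hP⟩
    · exact ⟨y, hy1, hy2, good5_comm hG (fun v hv q hq h hh => hc v hv q hq 1 le_rfl h hh) y hy3⟩
    · exact good5_PS hG hP (by omega) (by omega) (by omega)

end JD
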