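import Pool.Agent.H13.JN.CritW

set_option autoImplicit false
set_option linter.unusedSectionVars false

/-!
# JN CliW: the weight criterion for the Clifford type of class 6 (helper13)

`jpow_span`: for an S-system with values in all compatible filtrations that spans `J`: for `m ≥ 1`, `J^m` is spanned by the `S w`, `|w| ≥ m`. (Induction: the span `T_m` of the `S w`, `|w| ≥ m`, satisfies `T_i T_j ≤ T_(i+j)` by `SSys.mul`; `T_1 = ⊤`; `jpow_le_of`, strong induction on `m`.)

`critW_cliff`. Class 6, four letters of weights `(1,1,2,2)`, `Φ 7 = 0`, `x 0 ^ 2, x 1 ^ 2 ∈ J^3`, `J^3 ≤ Φ 3`, `x 0 * x 1 ∉ Φ 3`. PROOF. `critW` with `N = 6`, `a0 = 1`: `h5`: `1 + 1 + 2 + 2 + 1 = 7`; `h4`: three distinct letters have weight `≥ 4`: `4 + 1 + 2 = 7`. `hT`: Let `k` be as there, `i, j, l` distinct, `k_v ≠ 0`, so `|v| ≥ 2`.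
If `{0,1}` is not contained in `{i,j,l}`: `[i,j,l]` has weight `≥ 5`, total `≥ 7`: `0`. Otherwise `{i,j,l} = {0,1,w}`, weight 4, and only `v` of weight 2 (letters `0, 1`, length 2) contribute: `k [0,0] S[0,0,i,j,l] + k [1,1] S[1,1,i,j,l] + k [0,1] (..)`, `k [0,1] = k [1,0]`. The relation modulo `Φ 3`: all other `v` have weight `≥ 3`, and `x 0 * x 0, x 1 * x 1 ∈ Φ 3`:
`2 k [0,1] (x 0 * x 1) ∈ Φ 3`, so `k [0,1] = 0`. It remains to show `S[0,0,i,j,l] = 0` and `S[1,1,i,j,l] = 0`. By symmetry consider `e = 0`. By `jpow_span` choose a finitely supported `G0` on words of length `≥ 3` with `∑ G0_v S v = x 0 * x 0`; `G = (G0 + G0*)/2` is symmetric with the same property (`SSys.rev`). `k' := [0,0] - G` (i.e. `Finsupp.single [0,0] 1 - G`)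
is symmetric, `k' [] = 0`, `∑ k'_v S v = 0`. Let `T(i,j,l) := ∑ k'_v S(v ++ [i,j,l])`; for `{i,j,l} = {0,1,w}` the words of `G` give weight `≥ 3 + 4 = 7`: `T(i,j,l) = S[0,0,i,j,l]`. `two_K` with `g = [i,j], h = [l]` and `g = [i], h = [j,l]`: `T(i,j,l) + T(j,i,l) = 0`, `T(i,j,l) + T(i,l,j) = 0` (divide by 2). So it suffices: `T(0,1,w) = 0`.
`k'' := k' 0 + 0 k'` (words with the letter `0` appended plus prepended) is symmetric and `∑ k''_v S v = 2·..`: `∑ k'_v (S(v ++ [0]) + S([0] ++ v)) = 2 ∑ k'_v S(v ++ [0]) = 0` by `two_K` with `g = [0], h = []` [`S([0] ++ v) = S(v* ++ [0])`, `k'` symmetric]. `two_K` for `k''`, `g = [1]`, `h = [w]`: `∑ k'_v (S(v ++ [0,1,w]) + S([0] ++ v ++ [1,w])) = 0`.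
The words of `G` contribute `0` (weight `≥ 7`) and `[0,0]` gives `S[0,0,0,1,w] + S[0,0,0,1,w]`. So `2 S[0,0,0,1,w] = 0`, i.e. `T(0,1,w) = 0`. For the letter `1`: the same with `0` and `1` exchanged (`T'(1,0,w) = 0`, alternating).
-/

namespace JD

universe u

variable {K : Type u} [Field K] {J : Type u} [NonUnitalNonAssocCommRing J] [Module K J]
  [IsScalarTower K J J] [SMulCommClass K J J] {e : J}

private theorem CliW_four (h2 : (2 : K) ≠ 0) : (4 : K) ≠ 0 := by
  have : (4 : K) = 2 * 2 := by norm_num
  rw [this]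
  exact mul_ne_zero h2 h2

private theorem CliW_mul (h2 : (2 : K) ≠ 0) {n : ℕ} {x : Fin n → J} {S : List (Fin n) → J}
    (hS : SSys K x S) (i j : ℕ) (hi : 1 ≤ i) (hj : 1 ≤ j) (a b : J)
    (ha : a ∈ Submodule.span K (S '' {w | i ≤ w.length}))
    (hb : b ∈ Submodule.span K (S '' {w | j ≤ w.length})) :
    a * b ∈ Submodule.span K (S '' {w | i + j ≤ w.length}) := by
  induction ha using Submodule.span_induction with
  | mem a ha =>
    obtain ⟨v, hv, rfl⟩ := ha
    induction hb using Submodule.span_induction with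
    | mem b hb =>
      obtain ⟨w, hw, rfl⟩ := hb
      simp only [Set.mem_ofPred_eq] at hv hw
      have h4 := CliW_four h2
      have hv0 : v ≠ [] := by rintro rfl; simp at hv; omega
      have hw0 : w ≠ [] := by rintro rfl; simp at hw; omega
      have e1 : S v * S w = (4 : K)⁻¹ • (S (v ++ w) + S (v ++ w.reverse) +
          S (v.reverse ++ w) + S (w ++ v)) := by
        rw [← hS.mul v w hv0 hw0, smul_smul, inv_mul_cancel₀ h4, one_smul]
      rw [e1]
      have hmem : ∀ u : List (Fin n), i + j ≤ u.length →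
          S u ∈ Submodule.span K (S '' {w | i + j ≤ w.length}) := fun u hu =>
        Submodule.subset_span ⟨u, hu, rfl⟩
      refine Submodule.smul_mem _ _ (add_mem (add_mem (add_mem ?_ ?_) ?_) ?_) <;>
        refine hmem _ ?_ <;> simp only [List.length_append, List.length_reverse] <;> omega
    | zero => rw [mul_zero]; exact zero_mem _
    | add b c _ _ hb hc => rw [mul_add]; exact add_mem hb hc
    | smul r b _ hb => rw [mul_smul_comm]; exact Submodule.smul_mem _ _ hb
  | zero => rw [zero_mul]; exact zero_mem _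
  | add a c _ _ ha hc => rw [add_mul]; exact add_mem ha hc
  | smul r a _ ha => rw [smul_mul_assoc]; exact Submodule.smul_mem _ _ ha

theorem jpow_span (h2 : (2 : K) ≠ 0) {n : ℕ} {x : Fin n → J} {S : List (Fin n) → J}
    (hS : SSys K x S) (hspan : Submodule.span K (Set.range S) = ⊤) (m : ℕ) (hm : 1 ≤ m) :
    jpow K J m ≤ Submodule.span K (S '' {w | m ≤ w.length}) := by
  induction m using Nat.strong_induction_on with
  | _ m ih =>
    rcases Nat.lt_or_ge m 2 with h | h
    · obtain rfl : m = 1 := by omega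
      rw [jpow_one, ← hspan, Submodule.span_le]
      rintro _ ⟨w, rfl⟩
      rcases eq_or_ne w [] with hw | hw
      · subst hw
        rw [hS.nil]
        exact Submodule.zero_mem _
      · exact Submodule.subset_span ⟨w, List.length_pos_iff.2 hw, rfl⟩
    · refine jpow_le_of h _ fun i j hi hj hij a ha b hb => ?_
      subst hij
      exact CliW_mul h2 hS i j hi hj a b (ih i (by omega) hi ha) (ih j (by omega) hj hb)

/-- linear combinations of values -/
private noncomputable abbrev CliW_L {n : ℕ} (f : List (Fin n) → J) : (List (Fin n) →₀ K) →ₗ[K] J :=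
  Finsupp.linearCombination K f

private theorem CliW_L_sum {n : ℕ} (f : List (Fin n) → J) (k : List (Fin n) →₀ K) :
    CliW_L f k = k.sum (fun v r => r • f v) := Finsupp.linearCombination_apply K k

private theorem CliW_L_zero {n : ℕ} (f : List (Fin n) → J) (k : List (Fin n) →₀ K)
    (h : ∀ v, k v ≠ 0 → f v = 0) : CliW_L f k = 0 := by
  rw [CliW_L_sum, Finsupp.sum]
  refine Finset.sum_eq_zero fun v hv => ?_
  rw [h v (Finsupp.mem_support_iff.1 hv), smul_zero]

private theorem CliW_L_map {n : ℕ} (f : List (Fin n) → J) (g : List (Fin n) → List (Fin n))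
    (k : List (Fin n) →₀ K) : CliW_L f (k.mapDomain g) = CliW_L (fun v => f (g v)) k := by
  rw [CliW_L, Finsupp.linearCombination_mapDomain]
  rfl

/-- division by 4 -/
private theorem CliW_div (h2 : (2 : K) ≠ 0) {a : J} (h : (4 : K) • a = 0) : a = 0 := by
  have h4 := CliW_four h2
  have := congrArg (fun t => (4 : K)⁻¹ • t) h
  simpa [smul_smul, inv_mul_cancel₀ h4] using this

/-- the core: a square of a letter that is deep -/
private theorem CliW_key (h2 : (2 : K) ≠ 0) {n : ℕ} {x : Fin n → J} {S : List (Fin n) → J}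
    (hS : SSys K x S) (hspan : Submodule.span K (Set.range S) = ⊤) (a : Fin n → ℕ)
    (ha : ∀ i, 1 ≤ a i) (h7 : ∀ w : List (Fin n), w ≠ [] → 7 ≤ wt a w → S w = 0)
    (i f w : Fin n) (hw : 4 ≤ a i + a f + a w) (hsq : x i * x i ∈ jpow K J 3)
    (hii : S [i, i] = x i * x i) :
    S [i, i, i, f, w] = 0 ∧
      (∀ p q r, 4 ≤ a p + a q + a r → S [i, i, p, q, r] + S [i, i, q, p, r] = 0) ∧
      (∀ p q r, 4 ≤ a p + a q + a r → S [i, i, p, q, r] + S [i, i, p, r, q] = 0) := by
  have hm := jpow_span h2 hS hspan 3 (by norm_num) hsq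
  rw [Finsupp.mem_span_image_iff_linearCombination] at hm
  obtain ⟨G0, hG0, hG0s⟩ := hm
  have hG0' : ∀ v, G0 v ≠ 0 → 3 ≤ v.length := by
    intro v hv
    exact hG0 (Finsupp.mem_support_iff.2 hv)
  set G : List (Fin n) →₀ K := (2 : K)⁻¹ • (G0 + G0.mapDomain List.reverse) with hGdef
  -- linear functionals vanishing on long words
  have hGL : ∀ g : List (Fin n) → J, (∀ v : List (Fin n), 3 ≤ v.length → g v = 0) →
      CliW_L g G = 0 := by
    intro g hg
    rw [hGdef, map_smul, map_add, CliW_L_map]
    rw [CliW_L_zero g G0 (fun v hv => hg v (hG0' v hv)),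
      CliW_L_zero (fun v => g v.reverse) G0 (fun v hv => hg _ (by
        rw [List.length_reverse]; exact hG0' v hv))]
    simp
  set k' : List (Fin n) →₀ K := Finsupp.single [i, i] 1 - G with hk'
  have hrevrev : ∀ l : List (Fin n) →₀ K,
      (l.mapDomain List.reverse).mapDomain List.reverse = l := by
    intro l
    rw [← Finsupp.mapDomain_comp]
    have : (List.reverse ∘ List.reverse : List (Fin n) → List (Fin n)) = id := by
      funext v; simp
    rw [this, Finsupp.mapDomain_id]
  have hGrev : G.mapDomain List.reverse = G := by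
    rw [hGdef, Finsupp.mapDomain_smul, Finsupp.mapDomain_add, hrevrev, add_comm]
  have hrev : k'.mapDomain List.reverse = k' := by
    rw [hk', sub_eq_add_neg, Finsupp.mapDomain_add, Finsupp.mapDomain_single]
    have : (-G).mapDomain List.reverse = -G := by
      have e1 : -G = (-1 : K) • G := by simp
      rw [e1, Finsupp.mapDomain_smul, hGrev]
    rw [this]
    rfl
  have hG0nil : G0 [] = 0 := by
    by_contra h
    have := hG0' _ h
    simp at this
  have hnil : k' [] = 0 := by
    have e1 : (G0.mapDomain List.reverse) [] = 0 := by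
      have : (G0.mapDomain List.reverse) (List.reverse []) = G0 [] :=
        Finsupp.mapDomain_apply List.reverse_injective G0 []
      rw [List.reverse_nil] at this
      rw [this, hG0nil]
    rw [hk', Finsupp.sub_apply, hGdef, Finsupp.smul_apply, Finsupp.add_apply, e1, hG0nil]
    simp
  have hsingle : ∀ g : List (Fin n) → J, CliW_L g (Finsupp.single [i, i] (1 : K)) = g [i, i] := by
    intro g
    rw [CliW_L, Finsupp.linearCombination_single, one_smul]
  have hk0 : CliW_L S k' = 0 := by
    have e1 : CliW_L S G = x i * x i := by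
      rw [hGdef, map_smul, map_add, CliW_L_map]
      have e3 : (fun v : List (Fin n) => S v.reverse) = S := funext fun v => hS.rev v
      rw [e3, hG0s, ← two_smul K, smul_smul, inv_mul_cancel₀ h2, one_smul]
    rw [hk', map_sub, hsingle, e1, hii, sub_self]
  -- values on `k'`
  have hval : ∀ g : List (Fin n) → J, (∀ v : List (Fin n), 3 ≤ v.length → g v = 0) →
      CliW_L g k' = g [i, i] := by
    intro g hg
    rw [hk', map_sub, hsingle, hGL g hg, sub_zero]
  have hlen : ∀ v : List (Fin n), v.length ≤ wt a v := by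
    intro v
    induction v with
    | nil => simp
    | cons b v ih =>
      simp only [wt, List.map_cons, List.sum_cons, List.length_cons] at ih ⊢
      have := ha b
      omega
  have hT : ∀ p q r, 4 ≤ a p + a q + a r →
      CliW_L (fun v => S (v ++ [p, q, r])) k' = S [i, i, p, q, r] := by
    intro p q r hpqr
    rw [hval]
    · rfl
    · intro v hv
      refine h7 _ (by simp) ?_
      have := hlen v
      rw [wt_append]
      simp only [wt, List.map_cons, List.map_nil, List.sum_cons, List.sum_nil] at this ⊢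
      omega
  have hK : ∀ g h : List (Fin n), CliW_L (fun v => S (v ++ g ++ h) + S (v ++ g.reverse ++ h) +
      S (v ++ g ++ h.reverse) + S (v ++ g.reverse ++ h.reverse)) k' = 0 := by
    intro g h
    rw [CliW_L_sum]
    exact two_K h2 hS k' hrev hnil (by rw [← CliW_L_sum]; exact hk0) g h
  have hadd : ∀ g h : List (Fin n) → J, CliW_L (fun v => g v + h v) k' =
      CliW_L g k' + CliW_L h k' := by
    intro g h
    simp only [CliW_L_sum, Finsupp.sum, smul_add, Finset.sum_add_distrib]
  refine ⟨?_, ?_, ?_⟩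
  · -- `T(i,f,w) = 0`
    set k'' : List (Fin n) →₀ K := k'.mapDomain (fun v => v ++ [i]) +
      k'.mapDomain (fun v => [i] ++ v) with hk''
    have hmap : ∀ g : List (Fin n) → J, CliW_L g k'' =
        CliW_L (fun v => g (v ++ [i])) k' + CliW_L (fun v => g ([i] ++ v)) k' := by
      intro g
      rw [hk'', map_add, CliW_L_map, CliW_L_map]
    have hrev2 : k''.mapDomain List.reverse = k'' := by
      have e1 : (k'.mapDomain (fun v => v ++ [i])).mapDomain List.reverse =
          k'.mapDomain (fun v => [i] ++ v) := by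
        conv_rhs => rw [← hrev]
        rw [← Finsupp.mapDomain_comp, ← Finsupp.mapDomain_comp]
        congr 1
        funext v
        simp
      have e3 : (k'.mapDomain (fun v => [i] ++ v)).mapDomain List.reverse =
          k'.mapDomain (fun v => v ++ [i]) := by
        conv_rhs => rw [← hrev]
        rw [← Finsupp.mapDomain_comp, ← Finsupp.mapDomain_comp]
        congr 1
        funext v
        simp
      rw [hk'', Finsupp.mapDomain_add, e1, e3, add_comm]
    have hnil2 : k'' [] = 0 := by
      rw [hk'', Finsupp.add_apply, Finsupp.mapDomain_of_notMem_range, Finsupp.mapDomain_of_notMem_range,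
        add_zero]
      · rintro ⟨v, hv⟩; simp at hv
      · rintro ⟨v, hv⟩; simp at hv
    have hs1 : CliW_L (fun v => S (v ++ [i])) k' = 0 := by
      have := hK [i] []
      simp only [List.reverse_singleton, List.reverse_nil, List.append_nil] at this
      rw [hadd, hadd, hadd] at this
      apply CliW_div h2
      rw [← this]
      module
    have hk02 : CliW_L S k'' = 0 := by
      rw [hmap, hs1, zero_add]
      have e1 : (fun v : List (Fin n) => S ([i] ++ v)) = fun v => S (v.reverse ++ [i]) := by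
        funext v
        rw [← hS.rev ([i] ++ v)]
        simp
      rw [e1]
      have e3 := CliW_L_map (fun v => S (v ++ [i])) List.reverse k'
      rw [hrev] at e3
      rw [← e3, hs1]
    have h3 := two_K h2 hS k'' hrev2 hnil2 (by rw [← CliW_L_sum]; exact hk02) [f] [w]
    simp only [List.reverse_singleton] at h3
    rw [← CliW_L_sum] at h3
    have h4 : (4 : K) • CliW_L (fun v => S (v ++ [f] ++ [w])) k'' = 0 := by
      rw [← h3]
      simp only [CliW_L_sum, Finsupp.sum, smul_add, Finset.sum_add_distrib]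
      module
    have h5 := CliW_div h2 h4
    rw [hmap, hval, hval] at h5
    · have h6 : (2 : K) • S [i, i, i, f, w] = 0 := by
        rw [two_smul]
        exact h5
      have := congrArg (fun t => (2 : K)⁻¹ • t) h6
      simpa [smul_smul, inv_mul_cancel₀ h2] using this
    · intro v hv
      refine h7 _ (by simp) ?_
      have := hlen v
      simp only [wt_append]
      simp only [wt, List.map_cons, List.map_nil, List.sum_cons, List.sum_nil] at this ⊢
      omega
    · intro v hv
      refine h7 _ (by simp) ?_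
      have := hlen v
      simp only [wt_append]
      simp only [wt, List.map_cons, List.map_nil, List.sum_cons, List.sum_nil] at this ⊢
      omega
  · intro p q r h
    have h3 := hK [p, q] [r]
    rw [hadd, hadd, hadd] at h3
    simp only [List.reverse_cons, List.reverse_nil, List.nil_append, List.append_assoc,
      List.cons_append] at h3
    rw [hT p q r h, hT q p r (by omega)] at h3
    have h6 : (2 : K) • (S [i, i, p, q, r] + S [i, i, q, p, r]) = 0 := by
      rw [← h3]
      module
    have := congrArg (fun t => (2 : K)⁻¹ • t) h6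
    simpa [smul_smul, inv_mul_cancel₀ h2] using this
  · intro p q r h
    have h3 := hK [p] [q, r]
    rw [hadd, hadd, hadd] at h3
    simp only [List.reverse_cons, List.reverse_nil, List.nil_append, List.append_assoc,
      List.cons_append] at h3
    rw [hT p q r h, hT p r q (by omega)] at h3
    have h6 : (2 : K) • (S [i, i, p, q, r] + S [i, i, p, r, q]) = 0 := by
      rw [← h3]
      module
    have := congrArg (fun t => (2 : K)⁻¹ • t) h6
    simpa [smul_smul, inv_mul_cancel₀ h2] using this

theorem critW_cliff (h : Crit K J 6 e) (x : Fin 4 → J) (hx : Gens K J x)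
    (Φ : ℕ → Submodule K J) (hΦ : Filt K x ![1, 1, 2, 2] Φ) (hN : Φ 7 = ⊥)
    (h3 : jpow K J 3 ≤ Φ 3) (h00 : x 0 * x 0 ∈ jpow K J 3) (h11 : x 1 * x 1 ∈ jpow K J 3)
    (h01 : x 0 * x 1 ∉ Φ 3) : False := by
  have h2 := h.two
  refine critW h (by norm_num) le_rfl x hx ![1, 1, 2, 2] Φ hΦ 6 1 hN (by decide) (by decide)
    (by decide) ?_
  intro S hS hSf hspan k hrev hnil h1 hk0 i j l hd
  set a : Fin 4 → ℕ := ![1, 1, 2, 2] with ha
  have ha1 : ∀ i, 1 ≤ a i := by rw [ha]; decide
  have h7 : ∀ w : List (Fin 4), w ≠ [] → 7 ≤ wt a w → S w = 0 := by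
    intro w hw hwt
    have := hΦ.anti 7 (wt a w) hwt (hSf a Φ hΦ w hw)
    rwa [hN, Submodule.mem_bot] at this
  have hlen : ∀ v : List (Fin 4), v.length ≤ wt a v := by
    intro v
    induction v with
    | nil => simp
    | cons b v ih =>
      simp only [wt, List.map_cons, List.sum_cons, List.length_cons] at ih ⊢
      have := ha1 b
      omega
  have hk2 : ∀ v : List (Fin 4), k v ≠ 0 → 2 ≤ v.length := by
    intro v hv
    match v, hv with
    | [], hv => exact absurd hnil hv
    | [b], hv => exact absurd (h1 b) hv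
    | _ :: _ :: _, _ => simp
  have hpair : ∀ p q : Fin 4, S [p, q] = x p * x q := (SSys.q4 h2 hS).1
  -- the words of weight 2
  let s : Finset (List (Fin 4)) := {[0, 0], [0, 1], [1, 0], [1, 1]}
  have hs : ∀ v : List (Fin 4), k v ≠ 0 → v ∉ s → 3 ≤ wt a v := by
    intro v hv hvs
    have hdec : ∀ p q : Fin 4, [p, q] ∉ ({[0, 0], [0, 1], [1, 0], [1, 1]} :
        Finset (List (Fin 4))) → 3 ≤ wt (![1, 1, 2, 2] : Fin 4 → ℕ) [p, q] := by decide
    match v, hk2 v hv, hvs with
    | [p, q], _, hvs => exact hdec p q hvs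
    | p :: q :: r :: v, _, _ =>
      have := hlen (p :: q :: r :: v)
      simp only [List.length_cons] at this
      omega
  have hsum : ∀ f : List (Fin 4) → J, (∀ v, k v ≠ 0 → v ∉ s → f v = 0) →
      k.sum (fun v r => r • f v) = k [0, 0] • f [0, 0] + k [0, 1] • f [0, 1] +
        k [1, 0] • f [1, 0] + k [1, 1] • f [1, 1] := by
    intro f hf
    have e1 : k.sum (fun v r => r • f v) = ∑ v ∈ s, k v • f v := by
      rw [Finsupp.sum]
      have e2 : ∑ v ∈ k.support, k v • f v = ∑ v ∈ k.support ∪ s, k v • f v := by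
        refine Finset.sum_subset Finset.subset_union_left fun v _ hv => ?_
        rw [Finsupp.notMem_support_iff.1 hv, zero_smul]
      have e3 : ∑ v ∈ s, k v • f v = ∑ v ∈ k.support ∪ s, k v • f v := by
        refine Finset.sum_subset Finset.subset_union_right fun v _ hv => ?_
        by_cases h0 : k v = 0
        · rw [h0, zero_smul]
        · rw [hf v h0 hv, smul_zero]
      rw [e2, e3]
    rw [e1]
    simp only [s]
    rw [Finset.sum_insert (by decide), Finset.sum_insert (by decide),
      Finset.sum_insert (by decide), Finset.sum_singleton]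
    abel
  have hsym : k [1, 0] = k [0, 1] := by
    have : (k.mapDomain List.reverse) (List.reverse [0, 1]) = k [0, 1] :=
      Finsupp.mapDomain_apply List.reverse_injective k [0, 1]
    rw [hrev] at this
    exact this
  -- the coefficient of `x 0 * x 1`
  have hk01 : k [0, 1] = 0 := by
    by_contra hne
    apply h01
    -- restrict the relation
    have e1 : k.sum (fun v r => r • (if v ∈ s then S v else 0)) = k [0, 0] • S [0, 0] +
        k [0, 1] • S [0, 1] + k [1, 0] • S [1, 0] + k [1, 1] • S [1, 1] := by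
      rw [hsum _ (fun v _ hv => if_neg hv)]
      rw [if_pos (by decide), if_pos (by decide), if_pos (by decide), if_pos (by decide)]
    have e2 : k.sum (fun v r => r • (if v ∈ s then S v else 0)) +
        k.sum (fun v r => r • (if v ∈ s then 0 else S v)) = 0 := by
      refine Eq.trans ?_ hk0
      simp only [Finsupp.sum]
      rw [← Finset.sum_add_distrib]
      refine Finset.sum_congr rfl fun v _ => ?_
      by_cases hv : v ∈ s
      · rw [if_pos hv, if_pos hv, smul_zero, add_zero]
      · rw [if_neg hv, if_neg hv, smul_zero, zero_add]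
    have e3 : k.sum (fun v r => r • (if v ∈ s then 0 else S v)) ∈ Φ 3 := by
      rw [Finsupp.sum]
      refine Submodule.sum_mem _ fun v hv => Submodule.smul_mem _ _ ?_
      by_cases hvs : v ∈ s
      · rw [if_pos hvs]; exact Submodule.zero_mem _
      · rw [if_neg hvs]
        have hv0 := Finsupp.mem_support_iff.1 hv
        have hne' : v ≠ [] := by
          rintro rfl
          exact hv0 hnil
        exact hΦ.anti 3 _ (hs v hv0 hvs) (hSf a Φ hΦ v hne')
    have e4 : k.sum (fun v r => r • (if v ∈ s then S v else 0)) ∈ Φ 3 := by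
      rw [eq_neg_of_add_eq_zero_left e2]
      exact Submodule.neg_mem _ e3
    rw [e1, hsym, hpair, hpair, hpair, hpair, mul_comm (x 1) (x 0)] at e4
    have e5 : (2 * k [0, 1]) • (x 0 * x 1) ∈ Φ 3 := by
      have e6 : (2 * k [0, 1]) • (x 0 * x 1) =
          (k [0, 0] • (x 0 * x 0) + k [0, 1] • (x 0 * x 1) + k [0, 1] • (x 0 * x 1) +
            k [1, 1] • (x 1 * x 1)) - k [0, 0] • (x 0 * x 0) - k [1, 1] • (x 1 * x 1) := by
        module
      rw [e6]
      exact Submodule.sub_mem _ (Submodule.sub_mem _ e4 (Submodule.smul_mem _ _ (h3 h00)))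
        (Submodule.smul_mem _ _ (h3 h11))
    exact (Submodule.smul_mem_iff _ (mul_ne_zero h2 hne)).1 e5
  -- reduction to the letters `0, 1, w`
  have hzero : ∀ v, k v ≠ 0 → v ∉ s → S (v ++ [i, j, l]) = 0 := by
    intro v hv hvs
    refine h7 _ (by simp) ?_
    rw [wt_append]
    have := hs v hv hvs
    have h4 : 4 ≤ wt a [i, j, l] := by
      revert hd
      rw [ha]
      revert i j l
      decide
    omega
  rw [hsum _ hzero, hsym, hk01, zero_smul, zero_smul, add_zero, add_zero]
  by_cases h5 : 5 ≤ wt a [i, j, l]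
  · have z : ∀ p q : Fin 4, S ([p, q] ++ [i, j, l]) = 0 := by
      intro p q
      refine h7 _ (by simp) ?_
      rw [wt_append]
      have := hlen [p, q]
      simp only [List.length_cons, List.length_nil] at this
      omega
    rw [z, z, smul_zero, smul_zero, add_zero]
  · have hcase : ∃ w : Fin 4, 2 ≤ a w ∧ ((i = 0 ∧ j = 1 ∧ l = w) ∨ (i = 1 ∧ j = 0 ∧ l = w) ∨
        (i = 0 ∧ j = w ∧ l = 1) ∨ (i = 1 ∧ j = w ∧ l = 0) ∨ (i = w ∧ j = 0 ∧ l = 1) ∨
        (i = w ∧ j = 1 ∧ l = 0)) := by
      have hdec : ∀ i j l : Fin 4, i ≠ j → i ≠ l → j ≠ l →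
          wt (![1, 1, 2, 2] : Fin 4 → ℕ) [i, j, l] < 5 →
          (i, j, l) ∈ [((0 : Fin 4), (1 : Fin 4), (2 : Fin 4)), (0, 1, 3), (1, 0, 2), (1, 0, 3),
            (0, 2, 1), (0, 3, 1), (1, 2, 0), (1, 3, 0), (2, 0, 1), (3, 0, 1), (2, 1, 0),
            (3, 1, 0)] := by decide
      have hm := hdec i j l hd.1 hd.2.1 hd.2.2 (not_le.1 h5)
      have w2 : 2 ≤ a 2 := le_rfl
      have w3 : 2 ≤ a 3 := le_rfl
      simp only [List.mem_cons, Prod.mk.injEq, List.not_mem_nil, or_false] at hm
      rcases hm with h | h | h | h | h | h | h | h | h | h | h | h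
      · exact ⟨2, w2, Or.inl h⟩
      · exact ⟨3, w3, Or.inl h⟩
      · exact ⟨2, w2, Or.inr (Or.inl h)⟩
      · exact ⟨3, w3, Or.inr (Or.inl h)⟩
      · exact ⟨2, w2, Or.inr (Or.inr (Or.inl h))⟩
      · exact ⟨3, w3, Or.inr (Or.inr (Or.inl h))⟩
      · exact ⟨2, w2, Or.inr (Or.inr (Or.inr (Or.inl h)))⟩
      · exact ⟨3, w3, Or.inr (Or.inr (Or.inr (Or.inl h)))⟩
      · exact ⟨2, w2, Or.inr (Or.inr (Or.inr (Or.inr (Or.inl h))))⟩
      · exact ⟨3, w3, Or.inr (Or.inr (Or.inr (Or.inr (Or.inl h))))⟩
      · exact ⟨2, w2, Or.inr (Or.inr (Or.inr (Or.inr (Or.inr h))))⟩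
      · exact ⟨3, w3, Or.inr (Or.inr (Or.inr (Or.inr (Or.inr h))))⟩
    obtain ⟨w, hw, hc⟩ := hcase
    have a0 : a 0 = 1 := rfl
    have a1 : a 1 = 1 := rfl
    obtain ⟨p1, p2, p3⟩ := CliW_key h2 hS hspan a ha1 h7 0 1 w (by omega) h00 (hpair 0 0)
    obtain ⟨q1, q2, q3⟩ := CliW_key h2 hS hspan a ha1 h7 1 0 w (by omega) h11 (hpair 1 1)
    -- alternating functions
    have halt : ∀ T : Fin 4 → Fin 4 → Fin 4 → J,
        (∀ p q r, 4 ≤ a p + a q + a r → T p q r + T q p r = 0) →
        (∀ p q r, 4 ≤ a p + a q + a r → T p q r + T p r q = 0) →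
        (T 0 1 w = 0 ∨ T 1 0 w = 0) → T i j l = 0 := by
      intro T t1 t2 t0
      have t01 : T 0 1 w = 0 := by
        rcases t0 with t0 | t0
        · exact t0
        · have := t1 0 1 w (by omega)
          rwa [t0, add_zero] at this
      have t10 : T 1 0 w = 0 := by
        have := t1 0 1 w (by omega)
        rwa [t01, zero_add] at this
      have t0w1 : T 0 w 1 = 0 := by
        have := t2 0 1 w (by omega)
        rwa [t01, zero_add] at this
      have t1w0 : T 1 w 0 = 0 := by
        have := t2 1 0 w (by omega)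
        rwa [t10, zero_add] at this
      have tw01 : T w 0 1 = 0 := by
        have := t1 0 w 1 (by omega)
        rwa [t0w1, zero_add] at this
      have tw10 : T w 1 0 = 0 := by
        have := t1 1 w 0 (by omega)
        rwa [t1w0, zero_add] at this
      rcases hc with ⟨rfl, rfl, rfl⟩ | ⟨rfl, rfl, rfl⟩ | ⟨rfl, rfl, rfl⟩ | ⟨rfl, rfl, rfl⟩ |
        ⟨rfl, rfl, rfl⟩ | ⟨rfl, rfl, rfl⟩ <;> assumption
    have z0 := halt (fun p q r => S [0, 0, p, q, r]) p2 p3 (Or.inl p1)
    have z1 := halt (fun p q r => S [1, 1, p, q, r]) q2 q3 (Or.inr q1)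
    have z0' : S ([0, 0] ++ [i, j, l]) = 0 := z0
    have z1' : S ([1, 1] ++ [i, j, l]) = 0 := z1
    rw [z0', z1', smul_zero, smul_zero, add_zero]

end JD
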