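import Pool.Agent.H13.JN.Few

set_option autoImplicit false
set_option linter.unusedSectionVars false

/-!
# JN Q4Ex: existence of `Q4` systems with arbitrary base (helper13)

`exists_Q4`: for every `t` there is a `Q4` system `q` with `q i j k l = t i j k l` for `i < j < k < l`.

PROOF. Write `a b` for `x a * x b` inside `s3`, `m > a` etc. for the order of the letters.
TUPLES WITH A REPEATED LETTER: `q a b c d := S [a,b,c,d]`, `S` from `exists_few` (`Few [a,b,c,d]`; all permutations of a tuple with a repeated letter have one, so the rules do not mix). The rules hold in every three-letter S-system: for `σ : Fin 3 → Fin n`, `a b c d ∈ Fin 3`: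
`S[a,b,c,d] + S[b,a,c,d] = 2 s3 (x a x b) (x c) (x d)`. [Lemma `three_sw` for an S-system `S` in any letters: `S[a,b] = x a x b`; `S[a,b,c] = s3`: from `4 x_a S[b,c] = 2 S[a,b,c] + S[a,c,b] + S[b,c,a]` etc.; and with `p = (ab + ba)/2`: from `SSys.mul` with words `[a,b]`, `[c,d]` and `[c]`, `[a,b,d]`, ...:
`4 S[a,b] S[c,d] = S[abcd] + S[abdc] + S[bacd] + S[cdab]`, where `S[cdab] = S[badc]`;
`4 x_c S[a,b,d] = S[cabd] + S[cdba] + S[cabd] + S[abdc]`, where `S[cdba] = S[abdc]`, so `2 x_c S[a,b,d] = S[cabd] + S[abdc]`. Then `2 s3 (ab) c d = 2 (ab)(cd) + 2 d((ab)c) - 2 c((ab)d)` where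
`(ab)c = ` combination: `4 S[a,b] x_c = S[abc] + S[abc] + S[bac] + S[cab]`, `S[cab] = S[bac]`, so `2 (ab)c = S[abc] + S[bac]`; so `2 d((ab)c) = x_d (S[abc] + S[bac]) = (1/2)(S[dabc] + S[abcd] + S[dbac] + S[bacd])`, and likewise `2 c((ab)d) = (1/2)(S[cabd] + S[abdc] + S[cbad] + S[badc])`; `S[cabd]`, .. use `rev`:
`S[dabc] = S[cbad]`, `S[dbac] = S[cabd]`. Total: `(1/2)(S[abcd] + S[abdc] + S[bacd] + S[badc]) + (1/2)(S[cbad] + S[abcd] + S[cabd] + S[bacd]) - (1/2)(S[cabd] + S[abdc] + S[cbad] + S[badc]) = S[abcd] + S[bacd]`. The other two rules are the same computation (sw3 follows from sw1 by `rev`; for sw2: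
`2 s3 a (bc) d = 2 a((bc)d) + 2 d(a(bc)) - 2 (bc)(ad)`, `2 a((bc)d) = (1/2)(S[abcd] + S[bcda] + S[acbd] + S[cbda])`, `2 d(a(bc)) = x_d(S[abc] + S[acb]) = (1/2)(S[dabc] + S[abcd] + S[dacb] + S[acbd])`, `2 (bc)(ad) = (1/2)(S[bcad] + S[bcda] + S[cbad] + S[adbc])`, `S[adbc] = S[cbda]`, `S[dabc] = S[cbad]`, `S[dacb] = S[bcad]`: total `S[abcd] + S[acbd]`.)]

TUPLES OF DISTINCT LETTERS. Put (with `2` meaning `(2 : F) •`)
 `p a b c d` (`a, b < c < d`) `:= t a b c d` if `a < b`, `:= 2 s3 (ab) c d - t b a c d` if `b < a`;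
 `r a b c d` (`d` the largest) `:= p a b c d` if `c` is the largest of `a,b,c`; `2 s3 a (bc) d - p a c b d` if `b` is; `2 s3 (ab) c d - 2 s3 b (ac) d + p b c a d` if `a` is;
 `q a b c d := r a b c d` if `d` is the largest; `2 s3 a b (cd) - r a b d c` if `c` is; `2 s3 a (bc) d - 2 s3 a c (bd) + r a c d b` if `b` is; `2 s3 (ab) c d - 2 s3 b (ac) d + 2 s3 b c (ad) - r b c d a` if `a` is.
BRAID: `s3 (ab) c d + s3 (bc) a d + s3 (ca) b d = s3 a (bc) d + s3 b (ca) d + s3 c (ab) d` for all `a b c d ∈ J` (`s3_braid`), and its mirror image (`s3_rev`): `s3 d c (ab) + s3 d a (bc) + s3 d b (ca) = s3 d (bc) a + s3 d (ca) b + s3 d (ab) c`. Also `s3_swap`, `s3_swap'`.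
RULES FOR `p`: `p a b c d + p b a c d = 2 s3 (ab) c d` (definition). RULES FOR `r` (`d` largest): sw1 (exchange of `a,b`): if `c` is the largest of the three: rule for `p`; if `a` or `b` is: definition. sw2 (exchange of `b,c`): if `b` or `c` is the largest: definition; if `a` is: `r a b c d + r a c b d =
2 [s3 (ab) c d + s3 (ac) b d - s3 b (ac) d - s3 c (ab) d] + 2 s3 (bc) a d = 2 s3 a (bc) d` by BRAID.
RULES FOR `q`. Adjacent exchanges that move the largest letter: definition. Otherwise: largest letter `m`.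
 `q a b c m`: rules for `r`. `q a b m c`, exchange of `a, b`: `2 s3 a b (mc) + 2 s3 b a (mc) - 2 s3 (ab) c m = 4 (mc)(ab) - 2 s3 (ab) c m = 2 s3 (ab) m c` (`s3_swap`, `s3_swap'`).
 `q a m c d`, exchange of `c, d`: `2 [s3 a (mc) d + s3 a (md) c - s3 a c (md) - s3 a d (mc)] + 2 s3 a (cd) m = 2 s3 a m (cd)` by the mirror BRAID.
 `q m b c d`, exchange of `c, d`: `2 [s3 (mb) c d + s3 (mb) d c] - [q b m c d + q b m d c] = 4 (mb)(cd) - 2 s3 b m (cd) = 2 s3 m b (cd)` (note `q m b c d = 2 s3 (mb) c d - q b m c d`).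
 `q m b c d`, exchange of `b, c`: `2 [s3 (mb) c d + s3 (mc) b d] - [q b m c d + q c m b d]` and `q b m c d + q c m b d = 2 [s3 b (mc) d + s3 c (mb) d] - 2 [s3 b c (md) + s3 c b (md)] + 2 s3 (bc) d m = 2 [s3 b (mc) d + s3 c (mb) d] - 2 s3 (bc) m d`; BRAID gives `2 s3 m (bc) d`.
-/

namespace JD

universe u

variable {F : Type u} [Field F] {J : Type u} [NonUnitalNonAssocCommRing J] [Module F J]
  [IsScalarTower F J J] [SMulCommClass F J J]

/-- S-systems give the values of short words and the rules of `Q4` -/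
theorem SSys.q4 (h2 : (2 : F) ≠ 0) {ι : Type} {x : ι → J} {S : List ι → J} (hS : SSys F x S) :
    (∀ a b, S [a, b] = x a * x b) ∧ (∀ a b c, S [a, b, c] = s3 (x a) (x b) (x c)) ∧
      Q4 F x (fun a b c d => S [a, b, c, d]) := by
  have h4 : (4 : F) ≠ 0 := by
    have : (4 : F) = 2 * 2 := by norm_num
    rw [this]; exact mul_ne_zero h2 h2
  have c2 : ∀ u v : J, (2 : F) • u = (2 : F) • v → u = v := fun u v h =>
    smul_right_injective J h2 h
  have c4 : ∀ u v : J, (4 : F) • u = (4 : F) • v → u = v := fun u v h =>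
    smul_right_injective J h4 h
  have r2 : ∀ a b, S [b, a] = S [a, b] := fun a b => hS.rev [a, b]
  have r3 : ∀ a b c, S [c, b, a] = S [a, b, c] := fun a b c => hS.rev [a, b, c]
  have r4 : ∀ a b c d, S [d, c, b, a] = S [a, b, c, d] := fun a b c d => hS.rev [a, b, c, d]
  have p2 : ∀ a b, S [a, b] = x a * x b := by
    intro a b
    have h := hS.mul [a] [b] (by simp) (by simp)
    simp only [List.reverse_cons, List.reverse_nil, List.nil_append, List.cons_append,
      hS.single] at h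
    rw [r2 a b] at h
    apply c4
    linear_combination (norm := module) -h
  -- two times a letter times a word of length 2
  have p21 : ∀ a b c, (2 : F) • (x c * (x a * x b)) = S [a, b, c] + S [b, a, c] := by
    intro a b c
    have h := hS.mul [c] [a, b] (by simp) (by simp)
    simp only [List.reverse_cons, List.reverse_nil, List.nil_append, List.cons_append,
      hS.single, p2] at h
    rw [r3 b a c, r3 a b c] at h
    apply c2
    linear_combination (norm := module) h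
  have p3 : ∀ a b c, S [a, b, c] = s3 (x a) (x b) (x c) := by
    intro a b c
    have h1 := p21 b c a
    have h3 := p21 a b c
    have h5 := p21 a c b
    rw [r3 a c b, r3 a b c] at h1
    rw [r3 b a c] at h5
    apply c2
    unfold s3
    linear_combination (norm := module) -h1 - h3 + h5
  have p31 : ∀ a b c d, (2 : F) • (x d * S [a, b, c]) = S [d, a, b, c] + S [a, b, c, d] := by
    intro a b c d
    have h := hS.mul [d] [a, b, c] (by simp) (by simp)
    simp only [List.reverse_cons, List.reverse_nil, List.nil_append, List.cons_append,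
      hS.single] at h
    rw [r4 a b c d] at h
    apply c2
    linear_combination (norm := module) h
  have p22 : ∀ a b c d, (4 : F) • ((x a * x b) * (x c * x d)) =
      S [a, b, c, d] + S [a, b, d, c] + S [b, a, c, d] + S [b, a, d, c] := by
    intro a b c d
    have h := hS.mul [a, b] [c, d] (by simp) (by simp)
    simp only [List.reverse_cons, List.reverse_nil, List.nil_append, List.cons_append,
      p2] at h
    rw [r4 b a d c] at h
    exact h
  have p211 : ∀ a b c d, (4 : F) • (x d * (x c * (x a * x b))) =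
      S [d, a, b, c] + S [a, b, c, d] + S [d, b, a, c] + S [b, a, c, d] := by
    intro a b c d
    have h := congrArg (fun z => (2 : F) • (x d * z)) (p21 a b c)
    simp only [mul_add, mul_smul_comm, smul_add] at h
    have h1 := p31 a b c d
    have h3 := p31 b a c d
    linear_combination (norm := module) h + h1 + h3
  have q1 : ∀ a b c d, S [a, b, c, d] + S [b, a, c, d] =
      (2 : F) • s3 (x a * x b) (x c) (x d) := by
    intro a b c d
    have h1 := p22 a b c d
    have h3 := p211 a b c d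
    have h5 := p211 a b d c
    rw [r4 c b a d, r4 c a b d] at h3
    apply c4
    unfold s3
    rw [mul_comm (x a * x b) (x c), mul_comm (x a * x b) (x d)]
    linear_combination (norm := module) (-2 : F) • h1 - (2 : F) • h3 + (2 : F) • h5
  have q2 : ∀ a b c d, S [a, b, c, d] + S [a, c, b, d] =
      (2 : F) • s3 (x a) (x b * x c) (x d) := by
    intro a b c d
    have h1 := p22 b c a d
    have h3 := p211 b c d a
    have h5 := p211 b c a d
    rw [r4 a c b d, r4 a b c d] at h5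
    apply c4
    unfold s3
    rw [mul_comm (x b * x c) (x d)]
    linear_combination (norm := module) (2 : F) • h1 - (2 : F) • h3 - (2 : F) • h5
  refine ⟨p2, p3, ⟨q1, q2, ?_⟩⟩
  intro a b c d
  have h := q1 d c b a
  rw [r4 a b c d, r4 a b d c, s3_rev, mul_comm (x d) (x c)] at h
  exact h

section distinct

variable {n : ℕ} (x : Fin n → J) (t : Fin n → Fin n → Fin n → Fin n → J)

variable (F) in
/-- the function `p` -/
private noncomputable def Q4Ex_p (a b c d : Fin n) : J :=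
  if a < b then t a b c d else (2 : F) • s3 (x a * x b) (x c) (x d) - t b a c d

variable (F) in
/-- the function `r` -/
private noncomputable def Q4Ex_r (a b c d : Fin n) : J :=
  if a < c ∧ b < c then Q4Ex_p F x t a b c d
  else if a < b then (2 : F) • s3 (x a) (x b * x c) (x d) - Q4Ex_p F x t a c b d
  else (2 : F) • s3 (x a * x b) (x c) (x d) - (2 : F) • s3 (x b) (x a * x c) (x d) +
    Q4Ex_p F x t b c a d

variable (F) in
/-- the function `q` -/
private noncomputable def Q4Ex_q (a b c d : Fin n) : J :=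
  if a < d ∧ b < d ∧ c < d then Q4Ex_r F x t a b c d
  else if a < c ∧ b < c then (2 : F) • s3 (x a) (x b) (x c * x d) - Q4Ex_r F x t a b d c
  else if a < b then (2 : F) • s3 (x a) (x b * x c) (x d) -
    (2 : F) • s3 (x a) (x c) (x b * x d) + Q4Ex_r F x t a c d b
  else (2 : F) • s3 (x a * x b) (x c) (x d) - (2 : F) • s3 (x b) (x a * x c) (x d) +
    (2 : F) • s3 (x b) (x c) (x a * x d) - Q4Ex_r F x t b c d a

variable {x t}

private theorem Q4Ex_p_sw {a b : Fin n} (hab : a ≠ b) (c d : Fin n) :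
    Q4Ex_p F x t a b c d + Q4Ex_p F x t b a c d = (2 : F) • s3 (x a * x b) (x c) (x d) := by
  unfold Q4Ex_p
  rcases lt_or_gt_of_ne hab with h | h
  · rw [if_pos h, if_neg (by omega), mul_comm (x b) (x a)]; module
  · rw [if_neg (by omega), if_pos h]; module

private theorem Q4Ex_r_c {a b c : Fin n} (h1 : a < c) (h2 : b < c) (d : Fin n) :
    Q4Ex_r F x t a b c d = Q4Ex_p F x t a b c d := by
  unfold Q4Ex_r
  rw [if_pos ⟨h1, h2⟩]

private theorem Q4Ex_r_b {a b c : Fin n} (h1 : a < b) (h2 : c < b) (d : Fin n) :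
    Q4Ex_r F x t a b c d =
      (2 : F) • s3 (x a) (x b * x c) (x d) - Q4Ex_p F x t a c b d := by
  unfold Q4Ex_r
  rw [if_neg (by omega), if_pos h1]

private theorem Q4Ex_r_a {a b c : Fin n} (h1 : b < a) (h2 : c < a) (d : Fin n) :
    Q4Ex_r F x t a b c d =
      (2 : F) • s3 (x a * x b) (x c) (x d) - (2 : F) • s3 (x b) (x a * x c) (x d) +
        Q4Ex_p F x t b c a d := by
  unfold Q4Ex_r
  rw [if_neg (by omega), if_neg (by omega)]

private theorem Q4Ex_q_d {a b c d : Fin n} (h1 : a < d) (h2 : b < d) (h3 : c < d) :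
    Q4Ex_q F x t a b c d = Q4Ex_r F x t a b c d := by
  unfold Q4Ex_q
  rw [if_pos ⟨h1, h2, h3⟩]

private theorem Q4Ex_q_c {a b c d : Fin n} (h1 : a < c) (h2 : b < c) (h3 : d < c) :
    Q4Ex_q F x t a b c d =
      (2 : F) • s3 (x a) (x b) (x c * x d) - Q4Ex_r F x t a b d c := by
  unfold Q4Ex_q
  rw [if_neg (by omega), if_pos ⟨h1, h2⟩]

private theorem Q4Ex_q_b {a b c d : Fin n} (h1 : a < b) (h2 : c < b) (h3 : d < b) :
    Q4Ex_q F x t a b c d = (2 : F) • s3 (x a) (x b * x c) (x d) -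
      (2 : F) • s3 (x a) (x c) (x b * x d) + Q4Ex_r F x t a c d b := by
  unfold Q4Ex_q
  rw [if_neg (by omega), if_neg (by omega), if_pos h1]

private theorem Q4Ex_q_a {a b c d : Fin n} (h1 : b < a) (h2 : c < a) (h3 : d < a) :
    Q4Ex_q F x t a b c d =
      (2 : F) • s3 (x a * x b) (x c) (x d) - (2 : F) • s3 (x b) (x a * x c) (x d) +
        (2 : F) • s3 (x b) (x c) (x a * x d) - Q4Ex_r F x t b c d a := by
  unfold Q4Ex_q
  rw [if_neg (by omega), if_neg (by omega), if_neg (by omega)]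

/-- the rules for `r` -/
private theorem Q4Ex_r_sw1 {a b c : Fin n} (hab : a ≠ b) (hac : a ≠ c) (hbc : b ≠ c)
    (d : Fin n) :
    Q4Ex_r F x t a b c d + Q4Ex_r F x t b a c d = (2 : F) • s3 (x a * x b) (x c) (x d) := by
  rcases (by omega : (a < c ∧ b < c) ∨ (a < b ∧ c < b) ∨ (b < a ∧ c < a)) with h | h | h
  · rw [Q4Ex_r_c h.1 h.2, Q4Ex_r_c h.2 h.1]
    exact Q4Ex_p_sw hab c d
  · rw [Q4Ex_r_b h.1 h.2, Q4Ex_r_a h.1 h.2, mul_comm (x b) (x a)]
    module
  · rw [Q4Ex_r_a h.1 h.2, Q4Ex_r_b h.1 h.2]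
    module

private theorem Q4Ex_r_sw2 (h2 : (2 : F) ≠ 0) (hJ : IsJordan J) {a b c : Fin n} (hab : a ≠ b)
    (hac : a ≠ c) (hbc : b ≠ c) (d : Fin n) :
    Q4Ex_r F x t a b c d + Q4Ex_r F x t a c b d = (2 : F) • s3 (x a) (x b * x c) (x d) := by
  rcases (by omega : (a < c ∧ b < c) ∨ (a < b ∧ c < b) ∨ (b < a ∧ c < a)) with h | h | h
  · rw [Q4Ex_r_c h.1 h.2, Q4Ex_r_b h.1 h.2, mul_comm (x c) (x b)]
    module
  · rw [Q4Ex_r_b h.1 h.2, Q4Ex_r_c h.1 h.2]
    module
  · rw [Q4Ex_r_a h.1 h.2, Q4Ex_r_a h.2 h.1]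
    have h3 := Q4Ex_p_sw (F := F) (x := x) (t := t) hbc a d
    have h4 := s3_braid F h2 hJ (x a) (x b) (x c) (x d)
    linear_combination (norm := module) h3 + (2 : F) • h4

end distinct

/-- the distinct tuples -/
theorem exists_Q4_distinct (h2 : (2 : F) ≠ 0) (hJ : IsJordan J) {n : ℕ} (x : Fin n → J)
    (t : Fin n → Fin n → Fin n → Fin n → J) :
    ∃ q : Fin n → Fin n → Fin n → Fin n → J,
      (∀ a b c d, (a ≠ b ∧ a ≠ c ∧ a ≠ d ∧ b ≠ c ∧ b ≠ d ∧ c ≠ d) →
        q a b c d + q b a c d = (2 : F) • s3 (x a * x b) (x c) (x d) ∧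
        q a b c d + q a c b d = (2 : F) • s3 (x a) (x b * x c) (x d) ∧
        q a b c d + q a b d c = (2 : F) • s3 (x a) (x b) (x c * x d)) ∧
      ∀ i j k l, i < j → j < k → k < l → q i j k l = t i j k l := by
  refine ⟨Q4Ex_q F x t, ?_, ?_⟩
  · rintro a b c d ⟨hab, hac, had, hbc, hbd, hcd⟩
    have sw := fun u v w : J => s3_swap u v w
    rcases (by omega : (a < d ∧ b < d ∧ c < d) ∨ (a < c ∧ b < c ∧ d < c) ∨
      (a < b ∧ c < b ∧ d < b) ∨ (b < a ∧ c < a ∧ d < a)) with ⟨h, h', h''⟩ | ⟨h, h', h''⟩ |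
        ⟨h, h', h''⟩ | ⟨h, h', h''⟩
    · -- `d` is the largest letter
      refine ⟨?_, ?_, ?_⟩
      · rw [Q4Ex_q_d h h' h'', Q4Ex_q_d h' h h'']
        exact Q4Ex_r_sw1 hab hac hbc d
      · rw [Q4Ex_q_d h h' h'', Q4Ex_q_d h h'' h']
        exact Q4Ex_r_sw2 h2 hJ hab hac hbc d
      · rw [Q4Ex_q_d h h' h'', Q4Ex_q_c h h' h'', mul_comm (x d) (x c)]
        module
    · -- `c` is the largest letter
      refine ⟨?_, ?_, ?_⟩
      · rw [Q4Ex_q_c h h' h'', Q4Ex_q_c h' h h'']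
        have e1 := Q4Ex_r_sw1 (F := F) (x := x) (t := t) hab had hbd c
        have e2 := s3_swap (x a) (x b) (x c * x d)
        have e3 := s3_swap' (x a * x b) (x c) (x d)
        rw [mul_comm (x a * x b) (x c * x d)] at e3
        linear_combination (norm := module) -e1 + (2 : F) • e2 - (2 : F) • e3
      · rw [Q4Ex_q_c h h' h'', Q4Ex_q_b h h' h'', mul_comm (x c) (x b)]
        module
      · rw [Q4Ex_q_c h h' h'', Q4Ex_q_d h h' h'']
        module
    · -- `b` is the largest letter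
      refine ⟨?_, ?_, ?_⟩
      · rw [Q4Ex_q_b h h' h'', Q4Ex_q_a h h' h'', mul_comm (x b) (x a)]
        module
      · rw [Q4Ex_q_b h h' h'', Q4Ex_q_c h h' h'']
        module
      · rw [Q4Ex_q_b h h' h'', Q4Ex_q_b h h'' h']
        have e1 := Q4Ex_r_sw2 (F := F) (x := x) (t := t) h2 hJ hac had hcd b
        have e2 := s3_braid F h2 hJ (x b) (x c) (x d) (x a)
        rw [s3_rev (x a) (x d) (x b * x c), s3_rev (x a) (x b * x d) (x c),
          s3_rev (x a) (x b) (x c * x d), s3_rev (x a) (x c * x d) (x b),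
          s3_rev (x a) (x c) (x b * x d), s3_rev (x a) (x b * x c) (x d)] at e2
        linear_combination (norm := module) e1 - (2 : F) • e2
    · -- `a` is the largest letter
      refine ⟨?_, ?_, ?_⟩
      · rw [Q4Ex_q_a h h' h'', Q4Ex_q_b h h' h'']
        module
      · rw [Q4Ex_q_a h h' h'', Q4Ex_q_a h' h h'']
        have e1 := Q4Ex_r_sw1 (F := F) (x := x) (t := t) hbc hbd hcd a
        have e2 := s3_swap (x b) (x c) (x a * x d)
        have e3 := s3_swap' (x b * x c) (x a) (x d)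
        have e4 := s3_braid F h2 hJ (x a) (x b) (x c) (x d)
        rw [mul_comm (x b * x c) (x a * x d)] at e3
        linear_combination (norm := module) -e1 + (2 : F) • e2 - (2 : F) • e3 + (2 : F) • e4
      · rw [Q4Ex_q_a h h' h'', Q4Ex_q_a h h'' h']
        have e1 := Q4Ex_r_sw2 (F := F) (x := x) (t := t) h2 hJ hbc hbd hcd a
        have e2 := s3_braid F h2 hJ (x a) (x c) (x d) (x b)
        have e3 := s3_swap' (x a * x b) (x c) (x d)
        have e4 := s3_swap (x a) (x b) (x c * x d)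
        rw [s3_rev (x b) (x d) (x a * x c), s3_rev (x b) (x a * x d) (x c),
          s3_rev (x b) (x a) (x c * x d), s3_rev (x b) (x c * x d) (x a),
          s3_rev (x b) (x c) (x a * x d), s3_rev (x b) (x a * x c) (x d)] at e2
        rw [mul_comm (x a * x b) (x c * x d)] at e3
        linear_combination (norm := module) -e1 + (2 : F) • e2 + (2 : F) • e3 - (2 : F) • e4
  · intro i j k l hij hjk hkl
    rw [Q4Ex_q_d (by omega) (by omega) (by omega), Q4Ex_r_c (by omega) (by omega), Q4Ex_p,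
      if_pos hij]

theorem exists_Q4 (h2 : (2 : F) ≠ 0) (hJ : IsJordan J) (h8 : jpow F J 8 = ⊥) {n : ℕ}
    (hn : 3 ≤ n) (x : Fin n → J) (t : Fin n → Fin n → Fin n → Fin n → J) :
    ∃ q : Fin n → Fin n → Fin n → Fin n → J, Q4 F x q ∧
      ∀ i j k l, i < j → j < k → k < l → q i j k l = t i j k l := by
  obtain ⟨S, hS, -, -, -⟩ := exists_few h2 hJ h8 hn x
  obtain ⟨q', hq', ht⟩ := exists_Q4_distinct h2 hJ x t
  have key : ∀ a b c d : Fin n, ¬ (a ≠ b ∧ a ≠ c ∧ a ≠ d ∧ b ≠ c ∧ b ≠ d ∧ c ≠ d) →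
      S [a, b, c, d] + S [b, a, c, d] = (2 : F) • s3 (x a * x b) (x c) (x d) ∧
      S [a, b, c, d] + S [a, c, b, d] = (2 : F) • s3 (x a) (x b * x c) (x d) ∧
      S [a, b, c, d] + S [a, b, d, c] = (2 : F) • s3 (x a) (x b) (x c * x d) := by
    intro a b c d h
    have hf : Few [a, b, c, d] := by
      by_contra hf
      exact h (not_few_four a b c d hf)
    obtain ⟨σ, w', hw⟩ := hf
    have hl : w'.length = 4 := by
      have := congrArg List.length hw
      simpa using this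
    match w', hl, hw with
    | [i, j, k, l], _, hw =>
      simp only [List.map_cons, List.map_nil, List.cons.injEq, and_true] at hw
      obtain ⟨rfl, rfl, rfl, rfl⟩ := hw
      have h4 := ((hS σ).q4 h2).2.2
      exact ⟨h4.sw1 i j k l, h4.sw2 i j k l, h4.sw3 i j k l⟩
  refine ⟨fun a b c d => if (a ≠ b ∧ a ≠ c ∧ a ≠ d ∧ b ≠ c ∧ b ≠ d ∧ c ≠ d) then q' a b c d
    else S [a, b, c, d], ⟨?_, ?_, ?_⟩, ?_⟩
  · intro a b c d
    by_cases h : a ≠ b ∧ a ≠ c ∧ a ≠ d ∧ b ≠ c ∧ b ≠ d ∧ c ≠ d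
    · have h' : b ≠ a ∧ b ≠ c ∧ b ≠ d ∧ a ≠ c ∧ a ≠ d ∧ c ≠ d := by tauto
      simp only [if_pos h, if_pos h']
      exact (hq' a b c d h).1
    · have h' : ¬ (b ≠ a ∧ b ≠ c ∧ b ≠ d ∧ a ≠ c ∧ a ≠ d ∧ c ≠ d) := by
        intro h'; apply h; tauto
      simp only [if_neg h, if_neg h']
      exact (key a b c d h).1
  · intro a b c d
    by_cases h : a ≠ b ∧ a ≠ c ∧ a ≠ d ∧ b ≠ c ∧ b ≠ d ∧ c ≠ d
    · have h' : a ≠ c ∧ a ≠ b ∧ a ≠ d ∧ c ≠ b ∧ c ≠ d ∧ b ≠ d := by tauto
      simp only [if_pos h, if_pos h']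
      exact (hq' a b c d h).2.1
    · have h' : ¬ (a ≠ c ∧ a ≠ b ∧ a ≠ d ∧ c ≠ b ∧ c ≠ d ∧ b ≠ d) := by
        intro h'; apply h; tauto
      simp only [if_neg h, if_neg h']
      exact (key a b c d h).2.1
  · intro a b c d
    by_cases h : a ≠ b ∧ a ≠ c ∧ a ≠ d ∧ b ≠ c ∧ b ≠ d ∧ c ≠ d
    · have h' : a ≠ b ∧ a ≠ d ∧ a ≠ c ∧ b ≠ d ∧ b ≠ c ∧ d ≠ c := by tauto
      simp only [if_pos h, if_pos h']
      exact (hq' a b c d h).2.2
    · have h' : ¬ (a ≠ b ∧ a ≠ d ∧ a ≠ c ∧ b ≠ d ∧ b ≠ c ∧ d ≠ c) := by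
        intro h'; apply h; tauto
      simp only [if_neg h, if_neg h']
      exact (key a b c d h).2.2
  · intro i j k l hij hjk hkl
    have h : i ≠ j ∧ i ≠ k ∧ i ≠ l ∧ j ≠ k ∧ j ≠ l ∧ k ≠ l := by omega
    simp only [if_pos h]
    exact ht i j k l hij hjk hkl

end JD
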