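import Pool.Agent.H13.JN.Q4U
import Pool.Agent.H8.JD.Pow

set_option autoImplicit false
set_option linter.unusedSectionVars false

/-!
# JN Sys5: the S-system of class 5 in any number of letters (helper13)

`S5w x q`: `0, x a, x a x b, s3, q` on words of length `0, .., 4`; on length 5 the word
`a q(bcde) - b q(cdea) + c q(deab) - d q(eabc) + e q(abcd)`; `0` on longer words. If `J^6 = 0`, `q` is a `Q4` system and `q ∈ J^4`, this is an S-system.

PROOF. `S5w w ∈ J^|w|` (`mul_mem_jpow`). `rev`: length 3 `s3_rev`, length 4 `Q4.rev`, length 5: reversal maps the five terms to each other (`q (dcba) = q (abcd)` etc.): `S(edcba) = e q(dcba) - d q(cbae) + c q(baed) - b q(aedc) + a q(edcb)`.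
`mul` for nonempty `v, w`: if `|v| + |w| ≥ 6` everything is `0` (`S v * S w ∈ J^6`). Otherwise (up to exchanging `v, w`: the right side changes by `rev`; or check both):
 (1,1): `4 ab`. (1,2): `4 a(bc) = S(abc) + S(acb) + S(abc) + S(bca)`, `S(bca) = S(acb)`: `s3_swap'`. (2,1) the same.
 (1,3): `4 a s3(bcd) = S(abcd) + S(adcb) + S(abcd) + S(bcda)`, `S(adcb) = S(bcda)`: `Q4.rot`. (3,1) the same.
 (2,2): `4 (ab)(cd) = S(abcd) + S(abdc) + S(bacd) + S(cdab)`, `S(cdab) = S(badc)`: `sw3` gives `2 s3 a b (cd) + 2 s3 b a (cd)`, `s3_swap`.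
 (1,4): `4 a q(bcde) = 2 S(abcde) + 2 S(bcdea)` (after `rev`): all other terms of the two formulas cancel. (4,1) the same.
 (2,3): `4 (ab) s3(cde) = S(abcde) + S(abedc) + S(bacde) + S(cdeab)`, `S(cdeab) = S(baedc)`. With `y = ab`: `S(abcde) + S(bacde) = a[q(bcde) - q(cdeb)] + b[q(acde) - q(cdea)] + 2 c s3(d,e,y) - 2 d s3(e,y,c) + 2 e s3(y,c,d)` (rules `sw1, sw2, sw3`; e.g. `q(deab) + q(deba) = 2 s3(d,e,ab)`,
 `q(eabc) + q(ebac) = 2 s3(e,ab,c)`, `q(abcd) + q(bacd) = 2 s3(ab,c,d)`); `S(abedc) + S(baedc)` is the same with `c` and `e` exchanged; by `Q4.rev` the `a[..]`, `b[..]` terms of the two sums cancel and the others double (`s3_rev`): total `4 [c s3(d,e,y) - d s3(e,y,c) + e s3(y,c,d)] = 4 y s3(c,d,e)` by `s3_alt`.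
 (3,2): the same (`S v * S w = S w * S v`, and the four words correspond by `rev`).
-/

namespace JD

universe u

/-- the system of class 5 -/
def S5w {J : Type u} [NonUnitalNonAssocCommRing J] {ι : Type} (x : ι → J)
    (q : ι → ι → ι → ι → J) : List ι → J
  | [] => 0
  | [a] => x a
  | [a, b] => x a * x b
  | [a, b, c] => s3 (x a) (x b) (x c)
  | [a, b, c, d] => q a b c d
  | [a, b, c, d, e] => x a * q b c d e - x b * q c d e a + x c * q d e a b - x d * q e a b c +
      x e * q a b c d
  | _ => 0

variable {F : Type u} [Field F] {J : Type u} [NonUnitalNonAssocCommRing J] [Module F J]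
  [IsScalarTower F J J] [SMulCommClass F J J]

theorem S5w_mem {ι : Type} (x : ι → J) (q : ι → ι → ι → ι → J)
    (hq4 : ∀ a b c d, q a b c d ∈ jpow F J 4) (w : List ι) (hw : w ≠ []) :
    S5w x q w ∈ jpow F J w.length := by
  have hx : ∀ a, x a ∈ jpow F J 1 := fun a => by rw [jpow_one]; exact Submodule.mem_top
  match w, hw with
  | [], hw => exact absurd rfl hw
  | [a], _ => exact hx a
  | [a, b], _ => exact mul_mem_jpow (hx a) (hx b)
  | [a, b, c], _ =>
    have e : ∀ a b c, x a * (x b * x c) ∈ jpow F J 3 := fun a b c =>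
      mul_mem_jpow (hx a) (mul_mem_jpow (hx b) (hx c))
    exact Submodule.sub_mem _ (Submodule.add_mem _ (e a b c) (e c a b)) (e b a c)
  | [a, b, c, d], _ => exact hq4 a b c d
  | [a, b, c, d, e], _ =>
    have h : ∀ a b c d e, x a * q b c d e ∈ jpow F J 5 := fun a b c d e =>
      mul_mem_jpow (i := 1) (j := 4) (hx a) (hq4 b c d e)
    exact Submodule.add_mem _ (Submodule.sub_mem _ (Submodule.add_mem _ (Submodule.sub_mem _
      (h a b c d e) (h b c d e a)) (h c d e a b)) (h d e a b c)) (h e a b c d)
  | _ :: _ :: _ :: _ :: _ :: _ :: _, _ => exact Submodule.zero_mem _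

private theorem Sys5_long {ι : Type} (x : ι → J) (q : ι → ι → ι → ι → J) (w : List ι)
    (hw : 6 ≤ w.length) : S5w x q w = 0 := by
  match w, hw with
  | [], hw => exact absurd hw (by simp)
  | [a], hw => exact absurd hw (by simp)
  | [a, b], hw => exact absurd hw (by simp)
  | [a, b, c], hw => exact absurd hw (by simp)
  | [a, b, c, d], hw => exact absurd hw (by simp)
  | [a, b, c, d, e], hw => exact absurd hw (by simp)
  | _ :: _ :: _ :: _ :: _ :: _ :: _, _ => rfl

private theorem Sys5_rev (h2 : (2 : F) ≠ 0) {ι : Type} (x : ι → J)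
    (q : ι → ι → ι → ι → J) (hq : Q4 F x q) (w : List ι) :
    S5w x q w.reverse = S5w x q w := by
  match w with
  | [] => rfl
  | [a] => rfl
  | [a, b] => exact mul_comm _ _
  | [a, b, c] => exact s3_rev _ _ _
  | [a, b, c, d] => exact hq.rev h2 a b c d
  | [a, b, c, d, e] =>
    change x e * q d c b a - x d * q c b a e + x c * q b a e d - x b * q a e d c +
      x a * q e d c b = x a * q b c d e - x b * q c d e a + x c * q d e a b - x d * q e a b c +
      x e * q a b c d
    rw [hq.rev h2 a b c d, hq.rev h2 e a b c, hq.rev h2 d e a b, hq.rev h2 c d e a,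
      hq.rev h2 b c d e]
    abel
  | a :: b :: c :: d :: e :: f :: w =>
    rw [Sys5_long x q _ (by rw [List.length_reverse]; simp only [List.length_cons]; omega),
      Sys5_long x q _ (by simp only [List.length_cons]; omega)]

/-- the rule for products -/
private def Sys5P {ι : Type} (F : Type u) [Field F] [Module F J] (x : ι → J)
    (q : ι → ι → ι → ι → J) (v w : List ι) : Prop :=
  (4 : F) • (S5w x q v * S5w x q w) = S5w x q (v ++ w) + S5w x q (v ++ w.reverse) +
    S5w x q (v.reverse ++ w) + S5w x q (w ++ v)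

private theorem Sys5_swap (h2 : (2 : F) ≠ 0) {ι : Type} (x : ι → J)
    (q : ι → ι → ι → ι → J) (hq : Q4 F x q) (v w : List ι) (h : Sys5P F x q v w) :
    Sys5P F x q w v := by
  unfold Sys5P at h ⊢
  have e1 : S5w x q (w ++ v.reverse) = S5w x q (v ++ w.reverse) := by
    rw [← Sys5_rev h2 x q hq, List.reverse_append, List.reverse_reverse]
  have e2 : S5w x q (w.reverse ++ v) = S5w x q (v.reverse ++ w) := by
    rw [← Sys5_rev h2 x q hq, List.reverse_append, List.reverse_reverse]
  rw [mul_comm, h, e1, e2]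
  abel

private theorem Sys5_11 {ι : Type} (x : ι → J)
    (q : ι → ι → ι → ι → J) (a b : ι) : Sys5P F x q [a] [b] := by
  change (4 : F) • (x a * x b) = x a * x b + x a * x b + x a * x b + x b * x a
  rw [mul_comm (x b) (x a)]
  module

private theorem Sys5_12 {ι : Type} (x : ι → J)
    (q : ι → ι → ι → ι → J) (a b c : ι) : Sys5P F x q [a] [b, c] := by
  change (4 : F) • (x a * (x b * x c)) = s3 (x a) (x b) (x c) + s3 (x a) (x c) (x b) +
    s3 (x a) (x b) (x c) + s3 (x b) (x c) (x a)
  unfold s3
  rw [mul_comm (x c) (x b), mul_comm (x c) (x a), mul_comm (x b) (x a)]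
  module

private theorem Sys5_13 (h2 : (2 : F) ≠ 0) (hJ : IsJordan J) {ι : Type} (x : ι → J)
    (q : ι → ι → ι → ι → J) (hq : Q4 F x q) (a b c d : ι) : Sys5P F x q [a] [b, c, d] := by
  change (4 : F) • (x a * s3 (x b) (x c) (x d)) = q a b c d + q a d c b + q a b c d + q b c d a
  have h := hq.rot h2 hJ a b c d
  rw [hq.rev h2 b c d a]
  linear_combination (norm := module) (-2 : F) • h

private theorem Sys5_22 (h2 : (2 : F) ≠ 0) {ι : Type} (x : ι → J)
    (q : ι → ι → ι → ι → J) (hq : Q4 F x q) (a b c d : ι) : Sys5P F x q [a, b] [c, d] := by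
  change (4 : F) • ((x a * x b) * (x c * x d)) = q a b c d + q a b d c + q b a c d + q c d a b
  have h1 := hq.sw3 a b c d
  have h3 := hq.sw3 b a c d
  have h4 := s3_swap (x a) (x b) (x c * x d)
  rw [hq.rev h2 b a d c]
  rw [mul_comm (x a * x b) (x c * x d)]
  linear_combination (norm := module) (-1 : F) • h1 - (1 : F) • h3 - (2 : F) • h4

private theorem Sys5_14 (h2 : (2 : F) ≠ 0) {ι : Type} (x : ι → J)
    (q : ι → ι → ι → ι → J) (hq : Q4 F x q) (a b c d e : ι) :
    Sys5P F x q [a] [b, c, d, e] := by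
  change (4 : F) • (x a * q b c d e) =
    (x a * q b c d e - x b * q c d e a + x c * q d e a b - x d * q e a b c + x e * q a b c d) +
    (x a * q e d c b - x e * q d c b a + x d * q c b a e - x c * q b a e d + x b * q a e d c) +
    (x a * q b c d e - x b * q c d e a + x c * q d e a b - x d * q e a b c + x e * q a b c d) +
    (x b * q c d e a - x c * q d e a b + x d * q e a b c - x e * q a b c d + x a * q b c d e)
  rw [hq.rev h2 a b c d, hq.rev h2 e a b c, hq.rev h2 d e a b, hq.rev h2 c d e a,
    hq.rev h2 b c d e]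
  module

private theorem Sys5_23 (h2 : (2 : F) ≠ 0) (hJ : IsJordan J) {ι : Type} (x : ι → J)
    (q : ι → ι → ι → ι → J) (hq : Q4 F x q) (a b c d e : ι) :
    Sys5P F x q [a, b] [c, d, e] := by
  change (4 : F) • ((x a * x b) * s3 (x c) (x d) (x e)) =
    (x a * q b c d e - x b * q c d e a + x c * q d e a b - x d * q e a b c + x e * q a b c d) +
    (x a * q b e d c - x b * q e d c a + x e * q d c a b - x d * q c a b e + x c * q a b e d) +
    (x b * q a c d e - x a * q c d e b + x c * q d e b a - x d * q e b a c + x e * q b a c d) +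
    (x c * q d e a b - x d * q e a b c + x e * q a b c d - x a * q b c d e + x b * q c d e a)
  have e1 : x c * (q d e a b + q d e b a) = x c * ((2 : F) • s3 (x d) (x e) (x a * x b)) := by
    rw [hq.sw3]
  have e2 : x d * (q e a b c + q e b a c) = x d * ((2 : F) • s3 (x e) (x a * x b) (x c)) := by
    rw [hq.sw2]
  have e3 : x e * (q a b c d + q b a c d) = x e * ((2 : F) • s3 (x a * x b) (x c) (x d)) := by
    rw [hq.sw1]
  have e4 := s3_alt F h2 hJ (x a * x b) (x c) (x d) (x e)
  rw [hq.rev h2 c d e b, hq.rev h2 a c d e, hq.rev h2 b a c d, hq.rev h2 e b a c,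
    hq.rev h2 d e b a]
  rw [mul_add, mul_smul_comm] at e1 e2 e3
  linear_combination (norm := module) (4 : F) • e4 - (2 : F) • e1 + (2 : F) • e2 - (2 : F) • e3

theorem sys5 (h2 : (2 : F) ≠ 0) (hJ : IsJordan J) (h6 : jpow F J 6 = ⊥) {ι : Type} (x : ι → J)
    (q : ι → ι → ι → ι → J) (hq : Q4 F x q) (hq4 : ∀ a b c d, q a b c d ∈ jpow F J 4) :
    SSys F x (S5w x q) := by
  refine ⟨rfl, fun _ => rfl, Sys5_rev h2 x q hq, ?_, 6, Sys5_long x q⟩
  have main : ∀ v w : List ι, v ≠ [] → w ≠ [] → v.length ≤ w.length → Sys5P F x q v w := by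
    intro v w hv hw hle
    rcases Nat.lt_or_ge (v.length + w.length) 6 with hlt | hge
    · match v, w, hv, hw, hle, hlt with
      | [], _, hv, _, _, _ => exact absurd rfl hv
      | _, [], _, hw, _, _ => exact absurd rfl hw
      | [a], [b], _, _, _, _ => exact Sys5_11 x q a b
      | [a], [b, c], _, _, _, _ => exact Sys5_12 x q a b c
      | [a], [b, c, d], _, _, _, _ => exact Sys5_13 h2 hJ x q hq a b c d
      | [a], [b, c, d, e], _, _, _, _ => exact Sys5_14 h2 x q hq a b c d e
      | [a, b], [c, d], _, _, _, _ => exact Sys5_22 h2 x q hq a b c d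
      | [a, b], [c, d, e], _, _, _, _ => exact Sys5_23 h2 hJ x q hq a b c d e
      | [a], _ :: _ :: _ :: _ :: _ :: _, _, _, _, hlt =>
        simp only [List.length_cons, List.length_nil] at hlt
        omega
      | [a, b], [c], _, _, hle, _ =>
        simp only [List.length_cons, List.length_nil] at hle
        omega
      | [a, b], _ :: _ :: _ :: _ :: _, _, _, _, hlt =>
        simp only [List.length_cons, List.length_nil] at hlt
        omega
      | _ :: _ :: _ :: _, w, _, _, hle, hlt =>
        simp only [List.length_cons] at hle hlt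
        omega
    · have h1 : S5w x q v * S5w x q w = 0 := by
        have h := mul_mem_jpow (S5w_mem (F := F) x q hq4 v hv) (S5w_mem (F := F) x q hq4 w hw)
        have h' := jpow_anti (F := F) (J := J) hge h
        rw [h6] at h'
        exact (Submodule.mem_bot F).mp h'
      unfold Sys5P
      rw [h1, smul_zero, Sys5_long x q (v ++ w) (by rw [List.length_append]; exact hge),
        Sys5_long x q (v ++ w.reverse) (by rw [List.length_append, List.length_reverse]; exact hge),
        Sys5_long x q (v.reverse ++ w) (by rw [List.length_append, List.length_reverse]; exact hge),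
        Sys5_long x q (w ++ v) (by rw [List.length_append, add_comm]; exact hge)]
      simp only [add_zero]
  intro v w hv hw
  rcases Nat.le_total v.length w.length with hle | hle
  · exact main v w hv hw hle
  · exact Sys5_swap h2 x q hq w v (main w v hw hv hle)

end JD
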