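import Pool.Agent.H13.JN.Pal
import Pool.Agent.H13.JN.Sys5
import Pool.Agent.H13.JN.Q4Ex

set_option autoImplicit false
set_option linter.unusedSectionVars false

/-!
# JN Crit5: the criterion for class at most 5 (helper13)

`crit5`. `J` critical of class `c ≤ 5`, `x` generators, `q` a `Q4` system with values in `J^4`, all obstructions `T5 x q c' a b d` (`c'` symmetric with `∑ c'_ij x_i x_j ∈ J^3`, `a, b, d` distinct) vanish: contradiction.

PROOF. `J^6 = 0` (`h.bot`, `jpow_anti`). `S = S5w x q` is an S-system (`sys5`), `S w ∈ J^|w|` (`S5w_mem`), it spans `J`: the span of the `S w` is closed under products (`SSys.mul`, `4 ≠ 0`) and contains the `x i`: `hx.gen` (same proof as at the end of `exists_SSys7`).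
By `special_of_SSys_pal` (and `h.exc`, `h.ne`, `h.mem`) we need: `k` symmetric, `k [] = 0`, `∑ k_v S v = 0`, `|w| ≥ 3`, `w` not `TwoPal`: `∑ k_v S(v ++ w) = 0`.
(1) `k [i] = 0`: modulo `J^2` the relation is `∑ k_[i] x_i = 0`; `hx.indep`.
(2) So `k_v ≠ 0` implies `|v| ≥ 2`; `S(v ++ w) = 0` if `|v| + |w| ≥ 6`: only `|w| = 3`, `|v| = 2` (`|w| ≥ 3`) remain; `w = [a,b,d]` distinct (`twoPal_three`).
(3) `c' i j := k [i,j]` is symmetric (`hrev`), `∑ c'_ij x_i x_j = ∑_{|v|=2} k_v S v = - ∑_{|v| ≥ 3} k_v S v ∈ J^3`. Put `r = ∑ c'_ij x_i x_j`.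
(4) `∑ c'_ij S[i,j,a,b,d] = ∑ c'_ij [x_i q(jabd) - x_j q(abdi) + x_a q(bdij) - x_b q(dija) + x_d q(ijab)]`. `∑ c'_ij q(bdij) = (1/2) ∑ c'_ij (q(bdij) + q(bdji)) = ∑ c'_ij s3(x_b, x_d, x_i x_j) = s3(x_b, x_d, r) ∈ J^5`, so `x_a (..) ∈ J^6 = 0`. The same for the terms with
`q(dija)` (`sw2`) and `q(ijab)` (`sw1`). `q(abdi)`: by the symmetry of `c'` the second term is `- ∑ c'_ij x_i q(abdj)`, and `q(jabd) + q(abdj) = 2 x_j s3(abd)` (`Q4.rot`). So the sum is `∑ c'_ij x_i (q(jabd) - q(abdj)) = 2 ∑ c'_ij x_i (q(jabd) - x_j s3(abd)) = 2 T5 = 0`.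

`crit_n_c4`: class `c ≤ 4`, at least 3 generators: `exists_gens`, `exists_Q4` with `t = 0`, `q ∈ J^4` (`Q4.mem`; the right sides are products of total degree 4), `T5 ∈ J^5 ≤ J^(c+1) = 0`.
-/

namespace JD

universe u

variable {K : Type u} [Field K] {J : Type u} [NonUnitalNonAssocCommRing J] [Module K J]
  [IsScalarTower K J J] [SMulCommClass K J J] {c : ℕ} {e : J}

private theorem Crit5_split {ι : Type} [Fintype ι] [DecidableEq ι] (k : List ι →₀ K)
    (f : List ι → J) :
    k.sum (fun v c => c • f v) = k [] • f [] + ∑ i, k [i] • f [i] +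
      ∑ i, ∑ j, k [i, j] • f [i, j] +
      (k.filter (fun v => 3 ≤ v.length)).sum (fun v c => c • f v) := by
  classical
  induction k using Finsupp.induction_linear with
  | zero =>
    rw [Finsupp.filter_zero, Finsupp.sum_zero_index]
    simp
  | add k l hk hl =>
    rw [Finsupp.sum_add_index' (by simp) (by intros; rw [add_smul]), hk, hl, Finsupp.filter_add,
      Finsupp.sum_add_index' (by simp) (by intros; rw [add_smul])]
    simp only [Finsupp.add_apply, add_smul, Finset.sum_add_distrib]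
    abel
  | single v c =>
    rw [Finsupp.sum_single_index (by simp)]
    match v with
    | [] =>
      rw [Finsupp.filter_single_of_neg _ (by simp)]
      simp [Finsupp.single_apply]
    | [i] =>
      rw [Finsupp.filter_single_of_neg _ (by simp)]
      simp [Finsupp.single_apply]
    | [i, j] =>
      rw [Finsupp.filter_single_of_neg _ (by simp)]
      have e0 : (Finsupp.single [i, j] c : List ι →₀ K) [] = 0 :=
        Finsupp.single_eq_of_ne (by simp)
      have e1 : ∀ a, (Finsupp.single [i, j] c : List ι →₀ K) [a] = 0 := fun a =>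
        Finsupp.single_eq_of_ne (by simp)
      rw [e0, zero_smul, zero_add, Finset.sum_eq_zero (fun a _ => by rw [e1 a, zero_smul]),
        zero_add, Finsupp.sum_zero_index, add_zero, Finset.sum_eq_single i,
        Finset.sum_eq_single j, Finsupp.single_eq_same]
      · intro b _ hb
        rw [Finsupp.single_eq_of_ne (by simpa using hb), zero_smul]
      · intro hj
        exact absurd (Finset.mem_univ j) hj
      · intro a _ ha
        refine Finset.sum_eq_zero fun b _ => ?_
        rw [Finsupp.single_eq_of_ne (by simp [ha]), zero_smul]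
      · intro hi
        exact absurd (Finset.mem_univ i) hi
    | i :: j :: l :: w =>
      rw [Finsupp.filter_single_of_pos _ (by simp), Finsupp.sum_single_index (by simp)]
      simp [Finsupp.single_apply]

private theorem Crit5_span (h2 : (2 : K) ≠ 0) {ι : Type} {x : ι → J} {S : List ι → J}
    (hS : SSys K x S)
    (hgen : ∀ T : Submodule K J, (∀ i, x i ∈ T) → (∀ a ∈ T, ∀ b ∈ T, a * b ∈ T) → T = ⊤) :
    Submodule.span K (Set.range S) = ⊤ := by
  have h4 : (4 : K) ≠ 0 := by
    have : (4 : K) = 2 * 2 := by norm_num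
    rw [this]; exact mul_ne_zero h2 h2
  apply hgen
  · intro i
    rw [← hS.single i]
    exact Submodule.subset_span ⟨[i], rfl⟩
  · intro a ha b hb
    induction ha using Submodule.span_induction with
    | mem a ha =>
      obtain ⟨v, rfl⟩ := ha
      induction hb using Submodule.span_induction with
      | mem b hb =>
        obtain ⟨w, rfl⟩ := hb
        by_cases hv : v = []
        · subst hv; rw [hS.nil, zero_mul]; exact zero_mem _
        · by_cases hw : w = []
          · subst hw; rw [hS.nil, mul_zero]; exact zero_mem _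
          · have := hS.mul v w hv hw
            have e : S v * S w = (4 : K)⁻¹ • (S (v ++ w) + S (v ++ w.reverse) +
                S (v.reverse ++ w) + S (w ++ v)) := by
              rw [← this, smul_smul, inv_mul_cancel₀ h4, one_smul]
            rw [e]
            have hm : ∀ w, S w ∈ Submodule.span K (Set.range S) := fun w =>
              Submodule.subset_span ⟨w, rfl⟩
            exact Submodule.smul_mem _ _ (add_mem (add_mem (add_mem (hm _) (hm _)) (hm _)) (hm _))
      | zero => rw [mul_zero]; exact zero_mem _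
      | add b c _ _ hb hc => rw [mul_add]; exact add_mem hb hc
      | smul r b _ hb => rw [mul_smul_comm]; exact Submodule.smul_mem _ _ hb
    | zero => rw [zero_mul]; exact zero_mem _
    | add a c _ _ ha hc => rw [add_mul]; exact add_mem ha hc
    | smul r a _ ha => rw [smul_mul_assoc]; exact Submodule.smul_mem _ _ ha

private theorem Crit5_s3_mem {l m n : ℕ} {a b d : J} (ha : a ∈ jpow K J l) (hb : b ∈ jpow K J m)
    (hd : d ∈ jpow K J n) : s3 a b d ∈ jpow K J (l + m + n) := by
  unfold s3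
  refine Submodule.sub_mem _ (Submodule.add_mem _ ?_ ?_) ?_
  · have := mul_mem_jpow ha (mul_mem_jpow hb hd)
    rwa [show l + (m + n) = l + m + n by omega] at this
  · have := mul_mem_jpow hd (mul_mem_jpow ha hb)
    rwa [show n + (l + m) = l + m + n by omega] at this
  · have := mul_mem_jpow hb (mul_mem_jpow ha hd)
    rwa [show m + (l + n) = l + m + n by omega] at this

private theorem Crit5_one (a : J) : a ∈ jpow K J 1 := by
  rw [jpow_one]; exact Submodule.mem_top

private theorem Crit5_long {ι : Type} (x : ι → J) (q : ι → ι → ι → ι → J) (w : List ι)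
    (hw : 6 ≤ w.length) : S5w x q w = 0 := by
  match w, hw with
  | _ :: _ :: _ :: _ :: _ :: _ :: _, _ => rfl

private theorem Crit5_sym {n : ℕ} (c' : Fin n → Fin n → K) (hc : ∀ i j, c' i j = c' j i)
    (f : Fin n → Fin n → J) :
    ∑ i, ∑ j, c' i j • f j i = ∑ i, ∑ j, c' i j • f i j := by
  rw [Finset.sum_comm]
  refine Finset.sum_congr rfl fun i _ => Finset.sum_congr rfl fun j _ => ?_
  rw [hc j i]

private theorem Crit5_half (h2 : (2 : K) ≠ 0) {n : ℕ} (c' : Fin n → Fin n → K)
    (hc : ∀ i j, c' i j = c' j i) (f g : Fin n → Fin n → J)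
    (h : ∀ i j, f i j + f j i = (2 : K) • g i j) :
    ∑ i, ∑ j, c' i j • f i j = ∑ i, ∑ j, c' i j • g i j := by
  have e1 := Crit5_sym c' hc f
  have e2 : (2 : K) • ∑ i, ∑ j, c' i j • f i j = (2 : K) • ∑ i, ∑ j, c' i j • g i j := by
    calc (2 : K) • ∑ i, ∑ j, c' i j • f i j
        = ∑ i, ∑ j, c' i j • f i j + ∑ i, ∑ j, c' i j • f j i := by rw [e1, two_smul]
      _ = ∑ i, ∑ j, c' i j • (f i j + f j i) := by
          simp only [smul_add, Finset.sum_add_distrib]
      _ = ∑ i, ∑ j, c' i j • ((2 : K) • g i j) := by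
          refine Finset.sum_congr rfl fun i _ => Finset.sum_congr rfl fun j _ => ?_
          rw [h i j]
      _ = (2 : K) • ∑ i, ∑ j, c' i j • g i j := by
          simp only [Finset.smul_sum]
          refine Finset.sum_congr rfl fun i _ => Finset.sum_congr rfl fun j _ => ?_
          rw [smul_comm]
  have := congrArg (fun t => (2 : K)⁻¹ • t) e2
  simpa [smul_smul, inv_mul_cancel₀ h2] using this

private theorem Crit5_s3_sum {n : ℕ} (c' : Fin n → Fin n → K) (x : Fin n → J) (a b : J) :
    (∑ i, ∑ j, c' i j • s3 a b (x i * x j) = s3 a b (∑ i, ∑ j, c' i j • (x i * x j))) ∧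
    (∑ i, ∑ j, c' i j • s3 a (x i * x j) b = s3 a (∑ i, ∑ j, c' i j • (x i * x j)) b) ∧
    (∑ i, ∑ j, c' i j • s3 (x i * x j) a b = s3 (∑ i, ∑ j, c' i j • (x i * x j)) a b) := by
  refine ⟨?_, ?_, ?_⟩ <;>
  simp only [s3, Finset.mul_sum, Finset.sum_mul, mul_smul_comm, smul_mul_assoc,
    ← Finset.sum_add_distrib, ← Finset.sum_sub_distrib, smul_add, smul_sub]

private theorem Crit5_key (h2 : (2 : K) ≠ 0) (hJ : IsJordan J) (h6 : jpow K J 6 = ⊥) {n : ℕ}
    (x : Fin n → J) (q : Fin n → Fin n → Fin n → Fin n → J) (hq : Q4 K x q)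
    (c' : Fin n → Fin n → K) (hc : ∀ i j, c' i j = c' j i)
    (hr : ∑ i, ∑ j, c' i j • (x i * x j) ∈ jpow K J 3) (a b d : Fin n)
    (hT : T5 x q c' a b d = 0) :
    ∑ i, ∑ j, c' i j • S5w x q ([i, j] ++ [a, b, d]) = 0 := by
  obtain ⟨r, hrr⟩ : ∃ r, r = ∑ i, ∑ j, c' i j • (x i * x j) := ⟨_, rfl⟩
  rw [← hrr] at hr
  have z6 : ∀ t : J, t ∈ jpow K J 6 → t = 0 := by
    intro t ht; rwa [h6, Submodule.mem_bot] at ht
  have e3 : ∑ i, ∑ j, c' i j • q b d i j = s3 (x b) (x d) r := by
    rw [hrr, ← (Crit5_s3_sum c' x (x b) (x d)).1]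
    exact Crit5_half h2 c' hc _ _ fun i j => hq.sw3 b d i j
  have e4 : ∑ i, ∑ j, c' i j • q d i j a = s3 (x d) r (x a) := by
    rw [hrr, ← (Crit5_s3_sum c' x (x d) (x a)).2.1]
    exact Crit5_half h2 c' hc (fun i j => q d i j a) _ fun i j => hq.sw2 d i j a
  have e5 : ∑ i, ∑ j, c' i j • q i j a b = s3 r (x a) (x b) := by
    rw [hrr, ← (Crit5_s3_sum c' x (x a) (x b)).2.2]
    exact Crit5_half h2 c' hc (fun i j => q i j a b) _ fun i j => hq.sw1 i j a b
  have f3 : x a * s3 (x b) (x d) r = 0 :=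
    z6 _ (mul_mem_jpow (Crit5_one (x a)) (Crit5_s3_mem (Crit5_one (x b)) (Crit5_one (x d)) hr))
  have f4 : x b * s3 (x d) r (x a) = 0 :=
    z6 _ (mul_mem_jpow (Crit5_one (x b)) (Crit5_s3_mem (Crit5_one (x d)) hr (Crit5_one (x a))))
  have f5 : x d * s3 r (x a) (x b) = 0 :=
    z6 _ (mul_mem_jpow (Crit5_one (x d)) (Crit5_s3_mem hr (Crit5_one (x a)) (Crit5_one (x b))))
  have g3 : ∑ i, ∑ j, c' i j • (x a * q b d i j) = 0 := by
    rw [← f3, ← e3]
    simp only [Finset.mul_sum, mul_smul_comm]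
  have g4 : ∑ i, ∑ j, c' i j • (x b * q d i j a) = 0 := by
    rw [← f4, ← e4]
    simp only [Finset.mul_sum, mul_smul_comm]
  have g5 : ∑ i, ∑ j, c' i j • (x d * q i j a b) = 0 := by
    rw [← f5, ← e5]
    simp only [Finset.mul_sum, mul_smul_comm]
  have g2 : ∑ i, ∑ j, c' i j • (x j * q a b d i) = ∑ i, ∑ j, c' i j • (x i * q a b d j) :=
    Crit5_sym c' hc (fun i j => x i * q a b d j)
  have hstep : ∀ i j, c' i j • S5w x q ([i, j] ++ [a, b, d]) =
      c' i j • (x i * q j a b d) - c' i j • (x j * q a b d i) + c' i j • (x a * q b d i j)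
        - c' i j • (x b * q d i j a) + c' i j • (x d * q i j a b) := by
    intro i j
    simp only [← smul_sub, ← smul_add]
    rfl
  have hrot : ∀ j, q a b d j = (2 : K) • (x j * s3 (x a) (x b) (x d)) - q j a b d := by
    intro j
    rw [← hq.rot h2 hJ j a b d]
    abel
  calc ∑ i, ∑ j, c' i j • S5w x q ([i, j] ++ [a, b, d])
      = ∑ i, ∑ j, (c' i j • (x i * q j a b d) - c' i j • (x j * q a b d i) +
          c' i j • (x a * q b d i j) - c' i j • (x b * q d i j a) +
          c' i j • (x d * q i j a b)) :=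
        Finset.sum_congr rfl fun i _ => Finset.sum_congr rfl fun j _ => hstep i j
    _ = ∑ i, ∑ j, c' i j • (x i * q j a b d) - ∑ i, ∑ j, c' i j • (x i * q a b d j) := by
        simp only [Finset.sum_add_distrib, Finset.sum_sub_distrib]
        rw [g2, g3, g4, g5]
        abel
    _ = (2 : K) • T5 x q c' a b d := by
        unfold T5
        simp only [Finset.smul_sum, ← Finset.sum_sub_distrib]
        refine Finset.sum_congr rfl fun i _ => Finset.sum_congr rfl fun j _ => ?_
        rw [hrot j, mul_sub, mul_sub, mul_smul_comm]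
        module
    _ = 0 := by rw [hT, smul_zero]

theorem crit5 (h : Crit K J c e) (hc : c ≤ 5) {n : ℕ} (x : Fin n → J) (hx : Gens K J x)
    (q : Fin n → Fin n → Fin n → Fin n → J) (hq : Q4 K x q)
    (hq4 : ∀ a b c d, q a b c d ∈ jpow K J 4)
    (hT : ∀ c' : Fin n → Fin n → K, (∀ i j, c' i j = c' j i) →
      ∑ i, ∑ j, c' i j • (x i * x j) ∈ jpow K J 3 →
      ∀ a b d, a ≠ b → a ≠ d → b ≠ d → T5 x q c' a b d = 0) : False := by
  have h6 : jpow K J 6 = ⊥ := by
    rw [eq_bot_iff, ← h.bot]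
    exact jpow_anti (by omega)
  have hS := sys5 h.two h.jordan h6 x q hq hq4
  have hspan := Crit5_span h.two hS hx.gen
  refine h.exc (special_of_SSys_pal K J (Fin n) x (S5w x q) e h.two hS hspan h.ne h.mem ?_)
  intro k hrev hnil hk0 w hw hpal
  have hrest : ∀ f : List (Fin n) → J, ∀ T : Submodule K J, (∀ v, 3 ≤ v.length → f v ∈ T) →
      (k.filter (fun v => 3 ≤ v.length)).sum (fun v c => c • f v) ∈ T := by
    intro f T hf
    refine Submodule.sum_mem _ fun v hv => Submodule.smul_mem _ _ (hf v ?_)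
    rw [Finsupp.support_filter, Finset.mem_filter] at hv
    exact hv.2
  have hsp := Crit5_split k (S5w x q)
  rw [hk0, hnil, zero_smul, zero_add] at hsp
  have hR : (k.filter (fun v => 3 ≤ v.length)).sum (fun v c => c • S5w x q v) ∈
      jpow K J 3 := by
    refine hrest _ _ fun v hv => ?_
    have hv0 : v ≠ [] := by
      rintro rfl
      simp at hv
    exact jpow_anti hv (S5w_mem x q hq4 v hv0)
  have h2m : ∑ i, ∑ j, k [i, j] • S5w x q [i, j] ∈ jpow K J 2 := by
    refine Submodule.sum_mem _ fun i _ => Submodule.sum_mem _ fun j _ =>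
      Submodule.smul_mem _ _ ?_
    exact S5w_mem x q hq4 [i, j] (by simp)
  have h1m : ∑ i, k [i] • x i ∈ jpow K J 2 := by
    have e1 : ∑ i, k [i] • x i = -(∑ i, ∑ j, k [i, j] • S5w x q [i, j]) -
        (k.filter (fun v => 3 ≤ v.length)).sum (fun v c => c • S5w x q v) := by
      have : ∑ i, k [i] • x i = ∑ i, k [i] • S5w x q [i] := rfl
      rw [this]
      linear_combination (norm := abel) -hsp
    rw [e1]
    exact Submodule.sub_mem _ (Submodule.neg_mem _ h2m) (jpow_anti (by omega) hR)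
  have hk1 : ∀ i, k [i] = 0 := by
    have hind := Fintype.linearIndependent_iff.mp hx.indep (fun i => k [i])
    apply hind
    have : ∑ i, k [i] • (jpow K J 2).mkQ (x i) = (jpow K J 2).mkQ (∑ i, k [i] • x i) := by
      simp only [map_sum, map_smul]
    rw [this]
    exact (Submodule.Quotient.mk_eq_zero _).mpr h1m
  have hks : ∀ i j, k [i, j] = k [j, i] := by
    intro i j
    have e1 : (k.mapDomain List.reverse) ([j, i].reverse) = k [j, i] :=
      Finsupp.mapDomain_apply List.reverse_injective k [j, i]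
    rw [hrev] at e1
    exact e1
  have hr : ∑ i, ∑ j, k [i, j] • (x i * x j) ∈ jpow K J 3 := by
    have e1 : ∑ i, ∑ j, k [i, j] • (x i * x j) =
        -(k.filter (fun v => 3 ≤ v.length)).sum (fun v c => c • S5w x q v) := by
      have h0 : ∑ i, k [i] • S5w x q [i] = 0 :=
        Finset.sum_eq_zero fun i _ => by rw [hk1 i, zero_smul]
      rw [h0, zero_add] at hsp
      have : ∑ i, ∑ j, k [i, j] • (x i * x j) = ∑ i, ∑ j, k [i, j] • S5w x q [i, j] := rfl
      rw [this]
      linear_combination (norm := abel) -hsp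
    rw [e1]
    exact Submodule.neg_mem _ hR
  rw [Crit5_split k (fun v => S5w x q (v ++ w)), hnil, zero_smul, zero_add]
  have h0 : ∑ i, k [i] • S5w x q ([i] ++ w) = 0 :=
    Finset.sum_eq_zero fun i _ => by rw [hk1 i, zero_smul]
  have h3 : (k.filter (fun v => 3 ≤ v.length)).sum (fun v c => c • S5w x q (v ++ w)) = 0 := by
    have := hrest (fun v => S5w x q (v ++ w)) ⊥ fun v hv => by
      rw [Submodule.mem_bot]
      exact Crit5_long x q _ (by rw [List.length_append]; omega)
    rwa [Submodule.mem_bot] at this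
  rw [h0, h3, zero_add, add_zero]
  rcases Nat.lt_or_ge 3 w.length with h4 | h4
  · refine Finset.sum_eq_zero fun i _ => Finset.sum_eq_zero fun j _ => ?_
    rw [Crit5_long x q _ (by simp only [List.length_append, List.length_cons, List.length_nil]; omega),
      smul_zero]
  · obtain ⟨a, b, d, rfl, hab, had, hbd⟩ := twoPal_three w (by omega) hpal
    exact Crit5_key h.two h.jordan h6 x q hq (fun i j => k [i, j]) hks hr a b d
      (hT (fun i j => k [i, j]) hks hr a b d hab had hbd)

theorem Q4_mem_jpow (h2 : (2 : K) ≠ 0) {n : ℕ} (x : Fin n → J)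
    (q : Fin n → Fin n → Fin n → Fin n → J) (hq : Q4 K x q)
    (h0 : ∀ i j k l, i < j → j < k → k < l → q i j k l ∈ jpow K J 4) (a b c d : Fin n) :
    q a b c d ∈ jpow K J 4 := by
  refine Q4.mem h2 hq (jpow K J 4) a b c d ?_ ?_ ?_ ?_
  · intro i j k l _
    exact Crit5_s3_mem (mul_mem_jpow (Crit5_one (x i)) (Crit5_one (x j))) (Crit5_one (x k))
      (Crit5_one (x l))
  · intro i j k l _
    exact Crit5_s3_mem (Crit5_one (x i)) (mul_mem_jpow (Crit5_one (x j)) (Crit5_one (x k)))
      (Crit5_one (x l))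
  · intro i j k l _
    exact Crit5_s3_mem (Crit5_one (x i)) (Crit5_one (x j))
      (mul_mem_jpow (Crit5_one (x k)) (Crit5_one (x l)))
  · intro i j k l _ h1 h2' h3
    exact h0 i j k l h1 h2' h3

theorem crit_n_c4 (h : Crit K J c e) (hc : c ≤ 4) (hn : 3 ≤ ngen K J) : False := by
  have := h.fin
  have hnil : IsNilpotentAlg K J := ⟨c + 1, by omega, h.bot⟩
  obtain ⟨x, hx⟩ := exists_gens hnil
  have h8 : jpow K J 8 = ⊥ := by
    rw [eq_bot_iff, ← h.bot]
    exact jpow_anti (by omega)
  have h5 : ∀ t : J, t ∈ jpow K J 5 → t = 0 := by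
    intro t ht
    have := jpow_anti (F := K) (show c + 1 ≤ 5 by omega) ht
    rwa [h.bot, Submodule.mem_bot] at this
  obtain ⟨q, hq, hq0⟩ := exists_Q4 (F := K) h.two h.jordan h8 hn x (fun _ _ _ _ => 0)
  have hq4 : ∀ a b c d, q a b c d ∈ jpow K J 4 :=
    Q4_mem_jpow h.two x q hq fun i j k l h1 h2 h3 => by
      rw [hq0 i j k l h1 h2 h3]; exact zero_mem _
  refine crit5 h (by omega) x hx q hq hq4 ?_
  intro c' _ _ a b d _ _ _
  unfold T5
  refine Finset.sum_eq_zero fun i _ => Finset.sum_eq_zero fun j _ => ?_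
  have hm : q j a b d - x j * s3 (x a) (x b) (x d) ∈ jpow K J 4 :=
    Submodule.sub_mem _ (hq4 j a b d)
      (mul_mem_jpow (Crit5_one (x j)) (Crit5_s3_mem (Crit5_one (x a)) (Crit5_one (x b))
        (Crit5_one (x d))))
  rw [h5 _ (mul_mem_jpow (Crit5_one (x i)) hm), smul_zero]

end JD
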