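import Pool.Agent.H8.JD.Target1

set_option autoImplicit false
set_option linter.unusedSectionVars false

/-!
# JN Pal: only words that are not products of two palindromes matter (helper13)

`two_K`: for an S-system `S` and a symmetric `k` (`k` = finitely supported function on words) with `k [] = 0`, `∑ k_v S v = 0`, and ALL words `g, h`:
`∑_v k_v [S(v g h) + S(v g* h) + S(v g h*) + S(v g* h*)] = 0`. PROOF. In the notation of `Target1.lean` (basis `b` of `MonoidAlgebra F (FreeMonoid ι)` as in the proof of `special_of_SSys`): `k` is the element `∑ k_v b v` with `Target1_K`, `G = b g + b g*`, `H = b h + b h*` are symmetric; the sum is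
`ρ(k G H) = ρ((k G H)*) = ρ(H G k) = 0` by `Target1_rho_two_K` if `g, h` are nonempty (`Target1_Sym` needs augmentation `0`), `Target1_rho_one_K` if exactly one of them is empty, `hk0` if both are.
So for `TwoPal w` (`w = g ++ h`, `g, h` palindromes): `4 ∑ k_v S(v ++ w) = 0`.
`special_of_SSys_pal`: `special_of_SSys` with this remark.
`twoPal_le_five`: a word of length `≤ 5` in the two letters `a, b` is `TwoPal`: it is `w'.map σ` with `w' : List Bool`, and for `List Bool` of length `≤ 5` this is `decide` (63 words; e.g. search over the cut point). `twoPal_three`: a word of length 3 which is not `TwoPal` has three distinct letters (`[i,i,j]`, `[i,j,j]`, `[i,j,i]` are `TwoPal`).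
-/

namespace JD

universe u v w

/-- products of two palindromes -/
def TwoPal {ι : Type w} (w : List ι) : Prop :=
  ∃ g h : List ι, w = g ++ h ∧ g.reverse = g ∧ h.reverse = h

private theorem Pal_map {ι κ : Type*} (σ : ι → κ) (w : List ι) (n : ℕ)
    (h1 : (w.take n).reverse = w.take n) (h2 : (w.drop n).reverse = w.drop n) :
    ∃ g h : List κ, w.map σ = g ++ h ∧ g.reverse = g ∧ h.reverse = h := by
  refine ⟨(w.take n).map σ, (w.drop n).map σ, ?_, ?_, ?_⟩
  · rw [← List.map_append, List.take_append_drop]
  · rw [← List.map_reverse, h1]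
  · rw [← List.map_reverse, h2]

private theorem Pal_b5 : ∀ a b c d e : Bool, ∃ n : Fin 6,
    ([a, b, c, d, e].take n).reverse = [a, b, c, d, e].take n ∧
    ([a, b, c, d, e].drop n).reverse = [a, b, c, d, e].drop n := by
  decide

private theorem Pal_b4 : ∀ a b c d : Bool, ∃ n : Fin 6,
    ([a, b, c, d].take n).reverse = [a, b, c, d].take n ∧
    ([a, b, c, d].drop n).reverse = [a, b, c, d].drop n := by
  decide

private theorem Pal_b3 : ∀ a b c : Bool, ∃ n : Fin 6,
    ([a, b, c].take n).reverse = [a, b, c].take n ∧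
    ([a, b, c].drop n).reverse = [a, b, c].drop n := by
  decide

private theorem Pal_b2 : ∀ a b : Bool, ∃ n : Fin 6,
    ([a, b].take n).reverse = [a, b].take n ∧
    ([a, b].drop n).reverse = [a, b].drop n := by
  decide

private theorem Pal_bool (w : List Bool) (hw : w.length ≤ 5) :
    ∃ n : ℕ, (w.take n).reverse = w.take n ∧ (w.drop n).reverse = w.drop n := by
  match w, hw with
  | [], _ => exact ⟨0, rfl, rfl⟩
  | [a], _ => exact ⟨0, rfl, rfl⟩
  | [a, b], _ => obtain ⟨n, h⟩ := Pal_b2 a b; exact ⟨n, h⟩
  | [a, b, c], _ => obtain ⟨n, h⟩ := Pal_b3 a b c; exact ⟨n, h⟩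
  | [a, b, c, d], _ => obtain ⟨n, h⟩ := Pal_b4 a b c d; exact ⟨n, h⟩
  | [a, b, c, d, e], _ => obtain ⟨n, h⟩ := Pal_b5 a b c d e; exact ⟨n, h⟩
  | _ :: _ :: _ :: _ :: _ :: _ :: _, h => simp at h; omega

theorem twoPal_le_five {ι : Type w} (w : List ι) (hw : w.length ≤ 5) (a b : ι)
    (h : ∀ i ∈ w, i = a ∨ i = b) : TwoPal w := by
  classical
  obtain ⟨n, h1, h2⟩ := Pal_bool (w.map fun i => decide (i = a)) (by simpa using hw)
  have hmap : (w.map fun i => decide (i = a)).map (fun t => if t = true then a else b) = w := by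
    rw [List.map_map]
    conv_rhs => rw [← List.map_id w]
    refine List.map_congr_left fun i hi => ?_
    rcases h i hi with rfl | rfl
    · simp
    · by_cases hia : i = a
      · simp [hia]
      · simp [hia]
  have := Pal_map (fun t => if t = true then a else b) (w.map fun i => decide (i = a)) n h1 h2
  rw [hmap] at this
  exact this

theorem twoPal_three {ι : Type w} (w : List ι) (hw : w.length = 3) (h : ¬ TwoPal w) :
    ∃ i j l, w = [i, j, l] ∧ i ≠ j ∧ i ≠ l ∧ j ≠ l := by
  match w, hw, h with
  | [i, j, l], _, h =>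
    refine ⟨i, j, l, rfl, ?_, ?_, ?_⟩
    · rintro rfl
      exact h ⟨[i, i], [l], rfl, rfl, rfl⟩
    · rintro rfl
      exact h ⟨[i, j, i], [], rfl, rfl, rfl⟩
    · rintro rfl
      exact h ⟨[i], [j, j], rfl, rfl, rfl⟩

variable {F : Type u} [Field F] {J : Type v} [NonUnitalNonAssocCommRing J]
    [Module F J] [IsScalarTower F J J] [SMulCommClass F J J]

theorem two_K (h2 : (2 : F) ≠ 0) {ι : Type w} {x : ι → J} {S : List ι → J} (hS : SSys F x S)
    (k : List ι →₀ F) (hrev : k.mapDomain List.reverse = k) (hnil : k [] = 0)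
    (hk0 : k.sum (fun v c => c • S v) = 0) (g h : List ι) :
    k.sum (fun v c => c • (S (v ++ g ++ h) + S (v ++ g.reverse ++ h) + S (v ++ g ++ h.reverse) +
      S (v ++ g.reverse ++ h.reverse))) = 0 := by
  let b : Module.Basis (List ι) F (MonoidAlgebra F (FreeMonoid ι)) :=
    MonoidAlgebra.basis (FreeMonoid ι) F
  have hb : ∀ v w, b (v ++ w) = b v * b w := by
    intro v w
    change MonoidAlgebra.single (FreeMonoid.ofList (v ++ w)) (1 : F) =
      MonoidAlgebra.single (FreeMonoid.ofList v) (1 : F) *
        MonoidAlgebra.single (FreeMonoid.ofList w) (1 : F)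
    rw [MonoidAlgebra.single_mul_single, mul_one]
    rfl
  have hb1 : b [] = 1 := rfl
  have hK : Target1_K b S (k.sum fun v c => c • b v) := by
    refine ⟨⟨?_, ?_⟩, ?_⟩
    · conv_rhs => rw [← hrev]
      rw [Finsupp.sum_mapDomain_index (by simp) (by intro _ _ _; rw [add_smul]), Finsupp.sum,
        Finsupp.sum, map_sum]
      refine Finset.sum_congr rfl fun v _ => ?_
      rw [map_smul, Target1_st_b]
    · rw [Finsupp.sum, map_sum]
      refine Finset.sum_eq_zero fun v hv => ?_
      rw [map_smul, Target1_ep_ne b (by rintro rfl; exact (Finsupp.mem_support_iff.mp hv) hnil),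
        smul_zero]
    · rw [Finsupp.sum, map_sum, ← hk0, Finsupp.sum]
      refine Finset.sum_congr rfl fun v _ => ?_
      rw [map_smul, Target1_rho_b]
  have hS' : ∀ w : List ι, w ≠ [] → Target1_Sym b (b w + b w.reverse) := by
    intro w hw
    refine ⟨?_, ?_⟩
    · rw [map_add, Target1_st_b, Target1_st_b, List.reverse_reverse, add_comm]
    · rw [map_add, Target1_ep_ne b hw, Target1_ep_ne b (by simp [hw]), add_zero]
  have hst : ∀ w : List ι, Target1_st b (b w + b w.reverse) = b w + b w.reverse := by
    intro w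
    rw [map_add, Target1_st_b, Target1_st_b, List.reverse_reverse, add_comm]
  have key : Target1_rho b S ((b h + b h.reverse) * (b g + b g.reverse) *
      (k.sum fun v c => c • b v)) = 0 := by
    rcases eq_or_ne g [] with hg | hg
    · rcases eq_or_ne h [] with hh | hh
      · subst hg hh
        rw [List.reverse_nil, hb1]
        have e : ((1 : MonoidAlgebra F (FreeMonoid ι)) + 1) * (1 + 1) *
            (k.sum fun v c => c • b v) = (4 : F) • (k.sum fun v c => c • b v) := by
          have e4 : ((1 : MonoidAlgebra F (FreeMonoid ι)) + 1) * (1 + 1) *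
            (k.sum fun v c => c • b v) = (k.sum fun v c => c • b v) +
              (k.sum fun v c => c • b v) + ((k.sum fun v c => c • b v) +
              (k.sum fun v c => c • b v)) := by
            simp only [add_mul, mul_add, one_mul]
          rw [e4]
          module
        rw [e, map_smul, hK.rho, smul_zero]
      · subst hg
        rw [List.reverse_nil, hb1, mul_add, mul_one, add_mul, map_add,
          Target1_rho_one_K b h2 hS hb (hS' h hh) hK, add_zero]
    · rcases eq_or_ne h [] with hh | hh
      · subst hh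
        rw [List.reverse_nil, hb1, add_mul, one_mul, add_mul, map_add,
          Target1_rho_one_K b h2 hS hb (hS' g hg) hK, add_zero]
      · exact Target1_rho_two_K b h2 hS hb (hS' h hh) (hS' g hg) hK
  rw [← Target1_rho_st b S hS.rev, Target1_st_mul b hb, Target1_st_mul b hb, hst, hst,
    hK.sym.st] at key
  rw [← key, Finsupp.sum, Finsupp.sum, Finset.sum_mul, map_sum]
  refine Finset.sum_congr rfl fun v _ => ?_
  rw [smul_mul_assoc, map_smul]
  congr 1
  rw [← mul_assoc, mul_add (b v), ← hb, ← hb, mul_add, add_mul, add_mul, ← hb, ← hb, ← hb, ← hb]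
  simp only [map_add, Target1_rho_b]
  abel

theorem special_of_SSys_pal (F : Type u) [Field F] (J : Type v) [NonUnitalNonAssocCommRing J]
    [Module F J] [IsScalarTower F J J] [SMulCommClass F J J] (ι : Type w) (x : ι → J)
    (S : List ι → J) (u : J) (h2 : (2 : F) ≠ 0) (hS : SSys F x S)
    (hspan : Submodule.span F (Set.range S) = ⊤) (hu0 : u ≠ 0)
    (hu : ∀ I : Submodule F J, IsIdeal F J I → I ≠ ⊥ → u ∈ I)
    (hk : ∀ k : List ι →₀ F, k.mapDomain List.reverse = k → k [] = 0 →
      k.sum (fun v c => c • S v) = 0 →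
      ∀ w : List ι, 3 ≤ w.length → ¬ TwoPal w → k.sum (fun v c => c • S (v ++ w)) = 0) :
    IsSpecial.{u, v, max u w} F J := by
  refine special_of_SSys F J ι x S u h2 hS hspan hu0 hu fun k hrev hnil hk0 w hw => ?_
  by_cases hp : TwoPal w
  · obtain ⟨g, h, rfl, hg, hh⟩ := hp
    have h4 := two_K h2 hS k hrev hnil hk0 g h
    rw [hg, hh] at h4
    have e : k.sum (fun v c => c • (S (v ++ g ++ h) + S (v ++ g ++ h) + S (v ++ g ++ h) +
        S (v ++ g ++ h))) = (4 : F) • k.sum (fun v c => c • S (v ++ (g ++ h))) := by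
      rw [Finsupp.sum, Finsupp.sum, Finset.smul_sum]
      refine Finset.sum_congr rfl fun v _ => ?_
      rw [List.append_assoc]
      module
    rw [e] at h4
    have h40 : (4 : F) ≠ 0 := by
      have : (4 : F) = 2 * 2 := by norm_num
      rw [this]
      exact mul_ne_zero h2 h2
    exact (smul_eq_zero.mp h4).resolve_left h40
  · exact hk k hrev hnil hk0 w hw hp

end JD
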