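import Pool.Agent.H13.JN.SysW
import Pool.Agent.H13.JN.Pal
import Pool.Agent.H9.JN.PowX

set_option autoImplicit false
set_option linter.unusedSectionVars false

/-!
# JN CritW: the weight criterion (helper13)

`critW`. `J` critical of class `≤ 7`, `n ≥ 4` generators with a filtration of weights `a` with `Φ (N+1) = 0`, numerical conditions `h5` (four distinct letters and one more have weight `> N`) and `h4` (three distinct letters, one more and two letters of least weight `a0`), and the condition `hT` for words of length 3: contradiction.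
PROOF. `J^8 = 0`. `S` from `exists_SysW`. `special_of_SSys_pal` with `h.exc`, `h.ne`, `h.mem`: let `k` be symmetric, `k [] = 0`, `∑ k_v S v = 0`, `|w| ≥ 3`, `¬ TwoPal w`. `k [i] = 0` (modulo `J^2`, `hx.indep`; `S v ∈ J^|v|` by the filtration `filt_jpow`). `|w| = 3`: `w = [i,j,l]` distinct (`twoPal_three`), `hT`.
`|w| ≥ 4`: if `w` has three distinct letters `i, j, l` and another letter `m` (`w` is a permutation of `i :: j :: l :: m :: ..`) then for `k_v ≠ 0`, `|v| ≥ 2`: `wt (v ++ w) ≥ 2 a0 + a i + a j + a l + a m > N` so `S (v ++ w) ∈ Φ (N+1) = 0`. If `w` has at most two distinct letters: `|w| ≤ 5` is impossible by `twoPal_le_five`; for `|w| ≥ 6`,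
`|v| ≥ 2`: `S (v ++ w) = 0` (length `≥ 8`).

`critW_curv6`. Class 6, weights `2` for the letter `i0`, `3` for the others, `Φ 13 = 0`, `(x i0)^6 ≠ 0`. PROOF. `critW` with `N = 12`, `a0 = 2`. `h5`: four distinct letters: at least three have weight 3: `≥ 2 + 9 + 2 = 13`. `h4`: `≥ 2 + 3 + 3 + 2 + 4 = 14`. `hT`: `[i,j,l]` distinct has weight `≥ 8`. Let `k_v ≠ 0`. If `|v| ≥ 3`: weight `≥ 6 + 8`. If `|v| = 2` and
`v ≠ [i0,i0]`: weight `≥ 5 + 8 = 13`. So only `k [i0,i0] S([i0,i0,i,j,l])` remains and we show `k [i0,i0] = 0`: the relation gives `k [i0,i0] (x i0 * x i0) = - ∑ other k_v S v ∈ Φ 5` (weights `≥ 5`: `|v| = 2` other words `≥ 5`, `|v| ≥ 3`: `≥ 6`). If it were nonzero, `x i0 * x i0 ∈ Φ 5`, `(x i0)^6 = ((x i0)^2 (x i0)^2) (x i0)^2 ∈ Φ 15 ≤ Φ 13 = 0`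
(`xp_mul`), contradiction. (`S [i0,i0] = x i0 * x i0`: `SSys.q4`.)
`critW_curv7`. The same with class 7, weights `1` and `2`, `N = 7`, `a0 = 1`: `h5`: `≥ 1 + 6 + 1 = 8`; `h4`: `≥ 1 + 2 + 2 + 1 + 2 = 8`; `hT`: `[i,j,l]` has weight `≥ 5`, `|v| ≥ 3`: `≥ 3 + 5`; `|v| = 2`, `v ≠ [i0,i0]`: `≥ 3 + 5 = 8`; `k [i0,i0] ≠ 0` would give `x i0 * x i0 ∈ Φ 3`, `(x i0)^7 = x i0 * ((x i0)^2 (x i0)^2 (x i0)^2) ∈ Φ 10 ≤ Φ 8 = 0`.
-/

namespace JD

universe u

variable {K : Type u} [Field K] {J : Type u} [NonUnitalNonAssocCommRing J] [Module K J]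
  [IsScalarTower K J J] [SMulCommClass K J J] {c : ℕ} {e : J}

private theorem CritW_k1 {n : ℕ} (x : Fin n → J) (hx : Gens K J x) (S : List (Fin n) → J)
    (hS : SSys K x S)
    (hfilt : ∀ (b : Fin n → ℕ) (Ψ : ℕ → Submodule K J), Filt K x b Ψ →
        ∀ w, w ≠ [] → S w ∈ Ψ (wt b w))
    (k : List (Fin n) →₀ K) (hnil : k [] = 0) (hk0 : k.sum (fun v r => r • S v) = 0) (i : Fin n) :
    k [i] = 0 := by
  classical
  let g : List (Fin n) → J ⧸ jpow K J 2 := fun v => k v • (jpow K J 2).mkQ (S v)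
  have h0 : ∑ v ∈ k.support, g v = 0 := by
    have h1 := congrArg (jpow K J 2).mkQ hk0
    rw [map_zero, Finsupp.sum, map_sum] at h1
    rw [← h1]
    refine Finset.sum_congr rfl fun v _ => ?_
    rw [map_smul]
  have hg : ∀ v : List (Fin n), (∀ i, v ≠ [i]) → g v = 0 := by
    intro v hv
    rcases v with _ | ⟨a, _ | ⟨b, l⟩⟩
    · simp only [g, hnil, zero_smul]
    · exact absurd rfl (hv a)
    · have h1 := hfilt (fun _ => 1) (jpow K J) (filt_jpow x) (a :: b :: l) (by simp)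
      have h2 : S (a :: b :: l) ∈ jpow K J 2 := by
        refine jpow_anti ?_ h1
        have h5 : wt (fun _ => 1) (a :: b :: l) = 1 + (1 + wt (fun _ => 1) l) := by simp [wt]
        rw [h5]
        omega
      have h3 : (jpow K J 2).mkQ (S (a :: b :: l)) = 0 := by
        rw [Submodule.mkQ_apply, Submodule.Quotient.mk_eq_zero]
        exact h2
      simp only [g, h3, smul_zero]
  let T : Finset (List (Fin n)) := Finset.univ.image fun i : Fin n => [i]
  have h1 : ∑ v ∈ k.support ∪ T, g v = 0 := by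
    rw [← h0]
    symm
    refine Finset.sum_subset Finset.subset_union_left fun v _ hv => ?_
    rw [Finsupp.notMem_support_iff] at hv
    simp only [g, hv, zero_smul]
  have h2 : ∑ v ∈ T, g v = 0 := by
    rw [← h1]
    refine Finset.sum_subset Finset.subset_union_right fun v _ hv => hg v fun i hi => hv ?_
    rw [hi]
    exact Finset.mem_image_of_mem _ (Finset.mem_univ i)
  have h3 : ∑ i : Fin n, g [i] = 0 := by
    rw [← h2]
    symm
    exact Finset.sum_image fun a _ b _ hab => by simpa using hab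
  have h4 : ∑ i : Fin n, k [i] • (jpow K J 2).mkQ (x i) = 0 := by
    rw [← h3]
    refine Finset.sum_congr rfl fun i _ => ?_
    simp only [g, hS.single]
  exact Fintype.linearIndependent_iff.mp hx.indep (fun i => k [i]) h4 i

private theorem CritW_wt_append {n : ℕ} (a : Fin n → ℕ) (v w : List (Fin n)) :
    wt a (v ++ w) = wt a v + wt a w := by
  simp [wt]

private theorem CritW_wt_ge {n : ℕ} (a : Fin n → ℕ) (a0 : ℕ) (ha : ∀ i, a0 ≤ a i)
    (v : List (Fin n)) : v.length * a0 ≤ wt a v := by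
  induction v with
  | nil => simp
  | cons i v ih =>
    have h1 : wt a (i :: v) = a i + wt a v := by simp [wt]
    rw [h1, List.length_cons, add_mul, one_mul]
    have := ha i
    omega

private theorem CritW_letters {n : ℕ} (w : List (Fin n)) (hw : 4 ≤ w.length) :
    (∃ p q : Fin n, ∀ i ∈ w, i = p ∨ i = q) ∨
    ∃ i j l m : Fin n, (i ≠ j ∧ i ≠ l ∧ j ≠ l) ∧
      ∀ a : Fin n → ℕ, a i + a j + a l + a m ≤ wt a w := by
  by_cases h1 : ∃ p q : Fin n, ∀ i ∈ w, i = p ∨ i = q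
  · exact Or.inl h1
  right
  push Not at h1
  obtain ⟨i, hi⟩ : ∃ i, i ∈ w := by
    rcases w with _ | ⟨i, w⟩
    · simp at hw
    · exact ⟨i, List.mem_cons_self⟩
  obtain ⟨j, hj, hji, -⟩ := h1 i i
  obtain ⟨l, hl, hli, hlj⟩ := h1 i j
  have p1 : w.Perm (i :: w.erase i) := List.perm_cons_erase hi
  have hj' : j ∈ w.erase i := (List.mem_erase_of_ne hji).mpr hj
  have p2 : (w.erase i).Perm (j :: (w.erase i).erase j) := List.perm_cons_erase hj'
  have hl' : l ∈ (w.erase i).erase j :=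
    (List.mem_erase_of_ne hlj).mpr ((List.mem_erase_of_ne hli).mpr hl)
  have p3 : ((w.erase i).erase j).Perm (l :: ((w.erase i).erase j).erase l) :=
    List.perm_cons_erase hl'
  have p4 : w.Perm (i :: j :: l :: ((w.erase i).erase j).erase l) :=
    p1.trans ((p2.trans (p3.cons j)).cons i)
  obtain ⟨m, r, hr⟩ : ∃ m r, ((w.erase i).erase j).erase l = m :: r := by
    rcases h : ((w.erase i).erase j).erase l with _ | ⟨m, r⟩
    · rw [h] at p4
      have := p4.length_eq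
      simp at this
      omega
    · exact ⟨m, r, rfl⟩
  rw [hr] at p4
  refine ⟨i, j, l, m, ⟨hji.symm, hli.symm, hlj.symm⟩, fun a => ?_⟩
  have h2 : wt a w = wt a (i :: j :: l :: m :: r) := by
    unfold wt
    exact (p4.map a).sum_eq
  rw [h2]
  simp only [wt, List.map_cons, List.sum_cons]
  omega

theorem critW (h : Crit K J c e) (hc : c ≤ 7) {n : ℕ} (hn : 4 ≤ n) (x : Fin n → J)
    (hx : Gens K J x) (a : Fin n → ℕ) (Φ : ℕ → Submodule K J) (hΦ : Filt K x a Φ)
    (N a0 : ℕ) (hN : Φ (N + 1) = ⊥) (ha0 : ∀ i, a0 ≤ a i)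
    (h5 : ∀ i j k l m : Fin n, (i ≠ j ∧ i ≠ k ∧ i ≠ l ∧ j ≠ k ∧ j ≠ l ∧ k ≠ l) →
      N < a i + a j + a k + a l + a m)
    (h4 : ∀ i j l m : Fin n, (i ≠ j ∧ i ≠ l ∧ j ≠ l) → N < a i + a j + a l + a m + 2 * a0)
    (hT : ∀ S : List (Fin n) → J, SSys K x S →
      (∀ (b : Fin n → ℕ) (Ψ : ℕ → Submodule K J), Filt K x b Ψ →
        ∀ w, w ≠ [] → S w ∈ Ψ (wt b w)) →
      Submodule.span K (Set.range S) = ⊤ →
      ∀ k : List (Fin n) →₀ K, k.mapDomain List.reverse = k → k [] = 0 → (∀ i, k [i] = 0) →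
        k.sum (fun v r => r • S v) = 0 →
        ∀ i j l, (i ≠ j ∧ i ≠ l ∧ j ≠ l) → k.sum (fun v r => r • S (v ++ [i, j, l])) = 0) :
    False := by
  have h8 : jpow K J 8 = ⊥ := by
    rw [eq_bot_iff, ← h.bot]
    exact jpow_anti (by omega)
  obtain ⟨S, hS, hfilt, hz, hspan⟩ := exists_SysW h.two h.jordan h8 hn x a Φ hΦ N hN h5
  have hsp := hspan hx.gen
  apply h.exc
  refine special_of_SSys_pal K J (Fin n) x S e h.two hS hsp h.ne h.mem ?_
  intro k hrev hnil hk0 w hw hpal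
  have k1 : ∀ i, k [i] = 0 := CritW_k1 x hx S hS hfilt k hnil hk0
  rcases Nat.lt_or_ge w.length 4 with hw4 | hw4
  · obtain ⟨i, j, l, rfl, h1, h2, h3⟩ := twoPal_three w (by omega) hpal
    exact hT S hS hfilt hsp k hrev hnil k1 hk0 i j l ⟨h1, h2, h3⟩
  rw [Finsupp.sum]
  refine Finset.sum_eq_zero fun v hv => ?_
  have hv2 : 2 ≤ v.length := by
    rw [Finsupp.mem_support_iff] at hv
    rcases v with _ | ⟨b, _ | ⟨b', l⟩⟩
    · exact absurd hnil hv
    · exact absurd (k1 b) hv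
    · simp
  have hS0 : S (v ++ w) = 0 := by
    rcases CritW_letters w hw4 with ⟨p, q, hpq⟩ | ⟨i, j, l, m, hd, hwt⟩
    · apply hz
      rw [List.length_append]
      by_contra hcon
      exact hpal (twoPal_le_five w (by omega) p q hpq)
    · have h1 := hfilt a Φ hΦ (v ++ w) (by
        intro h0
        have := congrArg List.length h0
        rw [List.length_append, List.length_nil] at this
        omega)
      have h2 := h4 i j l m hd
      have h3 := hwt a
      have h5' := CritW_wt_ge a a0 ha0 v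
      have h6 : 2 * a0 ≤ v.length * a0 := Nat.mul_le_mul_right _ hv2
      have h7 : S (v ++ w) ∈ Φ (N + 1) := by
        refine hΦ.anti _ _ ?_ h1
        rw [CritW_wt_append]
        omega
      rw [hN] at h7
      exact (Submodule.mem_bot K).mp h7
  rw [hS0, smul_zero]

private theorem CritW_gen (h : Crit K J c e) (hc : c ≤ 7) {n : ℕ} (hn : 4 ≤ n) (x : Fin n → J)
    (hx : Gens K J x) (i0 : Fin n) (p q N M : ℕ) (Φ : ℕ → Submodule K J)
    (hΦ : Filt K x (fun i => if i = i0 then p else q) Φ) (hN : Φ (N + 1) = ⊥) (hpq : p ≤ q)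
    (c5 : N < 2 * p + 3 * q) (c4 : N < 4 * p + 2 * q) (hM1 : M ≤ p + q) (hM2 : M ≤ 3 * p)
    (hsq : x i0 * x i0 ∉ Φ M) : False := by
  classical
  obtain ⟨a, ha⟩ : ∃ a : Fin n → ℕ, a = fun i => if i = i0 then p else q := ⟨_, rfl⟩
  have hc1 : ∀ i, (i = i0 ∧ a i = p) ∨ (i ≠ i0 ∧ a i = q) := by
    intro i
    rw [ha]
    by_cases hi : i = i0
    · left
      exact ⟨hi, if_pos hi⟩
    · right
      exact ⟨hi, if_neg hi⟩
  have w1 : ∀ i, p ≤ a i := by
    intro i
    rcases hc1 i with ⟨-, h1⟩ | ⟨-, h1⟩ <;> omega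
  have w2 : ∀ i j, i ≠ j → p + q ≤ a i + a j := by
    intro i j hij
    rcases hc1 i with ⟨h1, h2⟩ | ⟨h1, h2⟩ <;> rcases hc1 j with ⟨h3, h4⟩ | ⟨h3, h4⟩
    · exact absurd (h1.trans h3.symm) hij
    all_goals omega
  have w3 : ∀ i j l, (i ≠ j ∧ i ≠ l ∧ j ≠ l) → p + 2 * q ≤ a i + a j + a l := by
    rintro i j l ⟨hij, hil, hjl⟩
    have h1 := w2 i j hij
    have h2 := w2 i l hil
    have h3 := w2 j l hjl
    rcases hc1 i with ⟨h4, h5⟩ | ⟨h4, h5⟩
    · rcases hc1 j with ⟨h6, -⟩ | ⟨-, h6⟩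
      · exact absurd (h4.trans h6.symm) hij
      · rcases hc1 l with ⟨h7, -⟩ | ⟨-, h7⟩
        · exact absurd (h4.trans h7.symm) hil
        · omega
    · omega
  have w4 : ∀ i j k l, (i ≠ j ∧ i ≠ k ∧ i ≠ l ∧ j ≠ k ∧ j ≠ l ∧ k ≠ l) →
      p + 3 * q ≤ a i + a j + a k + a l := by
    rintro i j k l ⟨hij, hik, hil, hjk, hjl, hkl⟩
    have h1 := w3 j k l ⟨hjk, hjl, hkl⟩
    rcases hc1 i with ⟨h4, h5⟩ | ⟨h4, h5⟩
    · have hne : ∀ m, i ≠ m → a m = q := by
        intro m hm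
        rcases hc1 m with ⟨h6, -⟩ | ⟨-, h6⟩
        · exact absurd (h4.trans h6.symm) hm
        · exact h6
      have h6 := hne j hij
      have h7 := hne k hik
      have h8 := hne l hil
      omega
    · omega
  rw [← ha] at hΦ
  refine critW h hc hn x hx a Φ hΦ N p hN w1 ?_ ?_ ?_
  · intro i j k l m hd
    have h1 := w4 i j k l hd
    have h2 := w1 m
    omega
  · intro i j l m hd
    have h1 := w3 i j l hd
    have h2 := w1 m
    omega
  · intro S hS hfilt hsp k hrev hnil k1 hk0 i j l hd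
    have hlong : ∀ v : List (Fin n), k v ≠ 0 → v ≠ [i0, i0] →
        (p + q ≤ wt a v ∨ 3 * p ≤ wt a v) ∧ v ≠ [] := by
      intro v hv hv0
      rcases v with _ | ⟨b, _ | ⟨b', _ | ⟨b'', l⟩⟩⟩
      · exact absurd hnil hv
      · exact absurd (k1 b) hv
      · refine ⟨Or.inl ?_, by simp⟩
        have h1 : wt a [b, b'] = a b + a b' := by simp [wt]
        rw [h1]
        by_cases hb : b = b'
        · subst hb
          rcases hc1 b with ⟨h2, -⟩ | ⟨-, h2⟩
          · exact absurd (by rw [h2]) hv0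
          · omega
        · exact w2 b b' hb
      · refine ⟨Or.inr ?_, by simp⟩
        have h1 := CritW_wt_ge a p w1 (b :: b' :: b'' :: l)
        have h2 : 3 ≤ (b :: b' :: b'' :: l).length := by simp
        exact (Nat.mul_le_mul_right p h2).trans h1
    have hk2 : k [i0, i0] = 0 := by
      by_contra hne
      have hmem : [i0, i0] ∈ k.support := Finsupp.mem_support_iff.mpr hne
      rw [Finsupp.sum, ← Finset.add_sum_erase _ _ hmem] at hk0
      have h1 : ∑ v ∈ k.support.erase [i0, i0], k v • S v ∈ Φ M := by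
        refine Submodule.sum_mem _ fun v hv => Submodule.smul_mem _ _ ?_
        rw [Finset.mem_erase, Finsupp.mem_support_iff] at hv
        obtain ⟨h2, h3⟩ := hlong v hv.2 hv.1
        refine hΦ.anti _ _ ?_ (hfilt a Φ hΦ v h3)
        rcases h2 with h2 | h2 <;> omega
      have h2 : k [i0, i0] • S [i0, i0] ∈ Φ M := by
        rw [eq_neg_of_add_eq_zero_left hk0]
        exact Submodule.neg_mem _ h1
      have h3 : S [i0, i0] ∈ Φ M := by
        have := Submodule.smul_mem _ (k [i0, i0])⁻¹ h2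
        rwa [smul_smul, inv_mul_cancel₀ hne, one_smul] at this
      rw [(hS.q4 h.two).1] at h3
      exact hsq h3
    rw [Finsupp.sum]
    refine Finset.sum_eq_zero fun v hv => ?_
    rw [Finsupp.mem_support_iff] at hv
    have hv0 : v ≠ [i0, i0] := by
      rintro rfl
      exact hv hk2
    obtain ⟨h2, h3⟩ := hlong v hv hv0
    have h4 := hfilt a Φ hΦ (v ++ [i, j, l]) (by simp)
    have h5 := w3 i j l hd
    have h6 : S (v ++ [i, j, l]) ∈ Φ (N + 1) := by
      refine hΦ.anti _ _ ?_ h4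
      have h7 : wt a [i, j, l] = a i + a j + a l := by simp [wt]; ring
      rw [CritW_wt_append, h7]
      rcases h2 with h2 | h2 <;> omega
    rw [hN] at h6
    rw [(Submodule.mem_bot K).mp h6, smul_zero]

theorem critW_curv6 (h : Crit K J 6 e) {n : ℕ} (hn : 4 ≤ n) (x : Fin n → J)
    (hx : Gens K J x) (i0 : Fin n) (Φ : ℕ → Submodule K J)
    (hΦ : Filt K x (fun i => if i = i0 then 2 else 3) Φ) (hN : Φ 13 = ⊥)
    (hx0 : xp (x i0) 6 ≠ 0) : False := by
  refine CritW_gen h (by norm_num) hn x hx i0 2 3 12 5 Φ hΦ hN (by norm_num) (by norm_num)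
    (by norm_num) (by norm_num) (by norm_num) ?_
  intro hsq
  apply hx0
  have h2 : xp (x i0) 2 ∈ Φ 5 := hsq
  have e4 : xp (x i0) 4 = xp (x i0) 2 * xp (x i0) 2 :=
    (xp_mul K h.two h.jordan (x i0) (i := 2) (by norm_num) (j := 2) (by norm_num)).symm
  have e6 : xp (x i0) 6 = xp (x i0) 2 * xp (x i0) 4 :=
    (xp_mul K h.two h.jordan (x i0) (i := 2) (by norm_num) (j := 4) (by norm_num)).symm
  have h4 : xp (x i0) 4 ∈ Φ (5 + 5) := by
    rw [e4]
    exact hΦ.mul_mem _ _ _ h2 _ h2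
  have h6 : xp (x i0) 6 ∈ Φ (5 + (5 + 5)) := by
    rw [e6]
    exact hΦ.mul_mem _ _ _ h2 _ h4
  have h7 := hΦ.anti 13 _ (by norm_num) h6
  rw [hN] at h7
  exact (Submodule.mem_bot K).mp h7

theorem critW_curv7 (h : Crit K J 7 e) {n : ℕ} (hn : 4 ≤ n) (x : Fin n → J)
    (hx : Gens K J x) (i0 : Fin n) (Φ : ℕ → Submodule K J)
    (hΦ : Filt K x (fun i => if i = i0 then 1 else 2) Φ) (hN : Φ 8 = ⊥)
    (hx0 : xp (x i0) 7 ≠ 0) : False := by
  refine CritW_gen h (by norm_num) hn x hx i0 1 2 7 3 Φ hΦ hN (by norm_num) (by norm_num)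
    (by norm_num) (by norm_num) (by norm_num) ?_
  intro hsq
  apply hx0
  have h2 : xp (x i0) 2 ∈ Φ 3 := hsq
  have h1 : x i0 ∈ Φ 1 := by
    have := hΦ.mem i0
    simpa using this
  have e4 : xp (x i0) 4 = xp (x i0) 2 * xp (x i0) 2 :=
    (xp_mul K h.two h.jordan (x i0) (i := 2) (by norm_num) (j := 2) (by norm_num)).symm
  have e6 : xp (x i0) 6 = xp (x i0) 2 * xp (x i0) 4 :=
    (xp_mul K h.two h.jordan (x i0) (i := 2) (by norm_num) (j := 4) (by norm_num)).symm
  have h4 : xp (x i0) 4 ∈ Φ (3 + 3) := by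
    rw [e4]
    exact hΦ.mul_mem _ _ _ h2 _ h2
  have h6 : xp (x i0) 6 ∈ Φ (3 + (3 + 3)) := by
    rw [e6]
    exact hΦ.mul_mem _ _ _ h2 _ h4
  have e7 : xp (x i0) 7 = x i0 * xp (x i0) 6 := rfl
  have h7 : xp (x i0) 7 ∈ Φ (1 + (3 + (3 + 3))) := by
    rw [e7]
    exact hΦ.mul_mem _ _ _ h1 _ h6
  have h8 := hΦ.anti 8 _ (by norm_num) h7
  rw [hN] at h8
  exact (Submodule.mem_bot K).mp h8

end JD
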