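import Pool.Agent.H13.JN.Q4U
import Pool.Agent.H8.JD.SSysEx
import Pool.Agent.H74.JD.SGen

set_option autoImplicit false
set_option linter.unusedSectionVars false

/-!
# JN Few: words in at most three of the `n` letters (helper13)

`Few w`: `w` is a word in at most three letters. `exists_few`: if `J^8 = 0` there is ONE function `S` on all words in `n ≥ 3` letters which is an S-system on every set of three letters, is `0` on the words with at least four letters,
and lies in every compatible filtration.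

PROOF. For every `y : Fin 3 → J` choose `S3 y` from `exists_SSys7` (file `SSysEx.lean`). For `w` with `Few w` choose an INJECTIVE `ε : Fin 3 → Fin n` and `w0` with `w0.map ε = w` (the at most three letters of `w`; `n ≥ 3`: extend to three distinct letters) and put
`S w = S3 (x ∘ ε) w0`; otherwise `S w = 0`. KEY LEMMA: for ALL `σ : Fin 3 → Fin n` and `w'` with `w'.map σ = w`: `S w = S3 (x ∘ σ) w'`. Proof: for each letter `i ∈ w'` the letter `σ i` is in `w`, hence `σ i = ε (α i)` for some `α : Fin 3 → Fin 3` (arbitrary outside). The function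
`v ↦ S3 (x ∘ ε) (v.map α)` is an S-system for `x ∘ ε ∘ α` (`SSys_comap`), which agrees with `x ∘ σ` on the letters of `w'`; `SSys.unique` (helper74, file `SGen.lean`, with `L i = (i ∈ w')`): `S3 (x ∘ σ) w' = S3 (x ∘ ε) (w'.map α)`. And `(w'.map α).map ε = w'.map σ = w = w0.map ε`, `ε` injective:
`w'.map α = w0`. So `S w = S3 (x ∘ σ) w'`.
The first claim follows: `w ↦ S (w.map σ) = S3 (x ∘ σ) w`. Filtration: `Filt F x a Φ` gives `Filt F (x ∘ ε) (a ∘ ε) Φ`, and `wt (a ∘ ε) w0 = wt a (w0.map ε)`. Length `≥ 8`: `exists_SSys7`.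

`few_of_le_three` words of length `≤ 3`. `not_few_four`: a word of length 4 that is not `Few` consists of four distinct letters. `not_few`: a word that is not `Few` contains four distinct letters (`n`-letter alphabet with decidable equality: if all letters are among three
letters `σ 0, σ 1, σ 2` then `w` is a `map`; choose the letters greedily). `Few.perm`, `Few.sub`: `Few` only depends on the set of letters: if all letters of `w` occur in `v` and `Few v` then `Few w`.
-/

namespace JD

universe u v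

/-- words in at most three letters -/
def Few {ι : Type v} (w : List ι) : Prop := ∃ (σ : Fin 3 → ι) (w' : List (Fin 3)), w'.map σ = w

theorem Few.sub {ι : Type v} {v w : List ι} (hv : Few v) (h : ∀ i ∈ w, i ∈ v) : Few w := by
  classical
  obtain ⟨σ, v', hv'⟩ := hv
  have hex : ∀ i ∈ w, ∃ j, σ j = i := by
    intro i hi
    have := h i hi
    rw [← hv', List.mem_map] at this
    obtain ⟨j, _, hj⟩ := this
    exact ⟨j, hj⟩
  refine ⟨σ, w.map (fun i => if h : ∃ j, σ j = i then h.choose else 0), ?_⟩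
  rw [List.map_map]
  conv_rhs => rw [← List.map_id w]
  refine List.map_congr_left fun i hi => ?_
  have hi' := hex i hi
  simp only [Function.comp_apply, dif_pos hi', id_eq]
  exact hi'.choose_spec

theorem few_of_le_three {n : ℕ} (hn : 1 ≤ n) (w : List (Fin n)) (hw : w.length ≤ 3) : Few w := by
  match w, hw with
  | [], _ => exact ⟨fun _ => ⟨0, hn⟩, [], rfl⟩
  | [a], _ => exact ⟨fun _ => a, [0], rfl⟩
  | [a, b], _ => exact ⟨![a, b, a], [0, 1], rfl⟩
  | [a, b, c], _ => exact ⟨![a, b, c], [0, 1, 2], rfl⟩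
  | _ :: _ :: _ :: _ :: _, h => simp at h; omega

theorem not_few_four {n : ℕ} (a b c d : Fin n) (h : ¬ Few [a, b, c, d]) :
    a ≠ b ∧ a ≠ c ∧ a ≠ d ∧ b ≠ c ∧ b ≠ d ∧ c ≠ d := by
  refine ⟨?_, ?_, ?_, ?_, ?_, ?_⟩
  · rintro rfl
    exact h ⟨![a, c, d], [0, 0, 1, 2], rfl⟩
  · rintro rfl
    exact h ⟨![a, b, d], [0, 1, 0, 2], rfl⟩
  · rintro rfl
    exact h ⟨![a, b, c], [0, 1, 2, 0], rfl⟩
  · rintro rfl
    exact h ⟨![a, b, d], [0, 1, 1, 2], rfl⟩
  · rintro rfl
    exact h ⟨![a, b, c], [0, 1, 2, 1], rfl⟩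
  · rintro rfl
    exact h ⟨![a, b, c], [0, 1, 2, 2], rfl⟩

theorem not_few_of_distinct {n : ℕ} (a b c d : Fin n)
    (h : a ≠ b ∧ a ≠ c ∧ a ≠ d ∧ b ≠ c ∧ b ≠ d ∧ c ≠ d) : ¬ Few [a, b, c, d] := by
  rintro ⟨σ, w', hw'⟩
  have key : ∀ i j k l : Fin 3,
      ¬ (i ≠ j ∧ i ≠ k ∧ i ≠ l ∧ j ≠ k ∧ j ≠ l ∧ k ≠ l) := by
    decide
  obtain ⟨h1, h2, h3, h4, h5, h6⟩ := h
  match w', hw' with
  | [], hw' => simp at hw'
  | [_], hw' => simp at hw'
  | [_, _], hw' => simp at hw'
  | [_, _, _], hw' => simp at hw'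
  | [i, j, k, l], hw' =>
    simp only [List.map_cons, List.map_nil, List.cons.injEq, and_true] at hw'
    obtain ⟨e1, e2, e3, e4⟩ := hw'
    refine key i j k l ⟨?_, ?_, ?_, ?_, ?_, ?_⟩
    · rintro rfl
      exact h1 (e1.symm.trans e2)
    · rintro rfl
      exact h2 (e1.symm.trans e3)
    · rintro rfl
      exact h3 (e1.symm.trans e4)
    · rintro rfl
      exact h4 (e2.symm.trans e3)
    · rintro rfl
      exact h5 (e2.symm.trans e4)
    · rintro rfl
      exact h6 (e3.symm.trans e4)
  | _ :: _ :: _ :: _ :: _ :: _, hw' => simp at hw'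

private theorem Few_of_card {n : ℕ} (hn : 1 ≤ n) (w : List (Fin n)) (hc : w.toFinset.card ≤ 3) :
    Few w := by
  classical
  have h1 : Fintype.card {i // i ∈ w.toFinset} ≤ Fintype.card (Fin 3) := by
    rw [Fintype.card_coe, Fintype.card_fin]
    exact hc
  obtain ⟨f⟩ := Function.Embedding.nonempty_of_card_le h1
  refine ⟨Function.extend f Subtype.val (fun _ => ⟨0, hn⟩),
    w.attach.map (fun i => f ⟨i.1, List.mem_toFinset.mpr i.2⟩), ?_⟩
  rw [List.map_map]
  have h2 : ((Function.extend f Subtype.val fun _ => (⟨0, hn⟩ : Fin n)) ∘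
      fun i : {x // x ∈ w} => f ⟨i.1, List.mem_toFinset.mpr i.2⟩) = Subtype.val := by
    funext i
    simp only [Function.comp_apply]
    rw [f.injective.extend_apply]
  rw [h2, List.attach_map_subtype_val]

/-- a word that is not `Few` contains four distinct letters; with one more letter if its length
is at least 5 -/
theorem not_few {n : ℕ} (hn : 1 ≤ n) (w : List (Fin n)) (h : ¬ Few w) :
    ∃ a b c d : Fin n, (a ≠ b ∧ a ≠ c ∧ a ≠ d ∧ b ≠ c ∧ b ≠ d ∧ c ≠ d) ∧
      ∃ w' : List (Fin n), w.Perm (a :: b :: c :: d :: w') := by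
  classical
  have hc : 4 ≤ w.toFinset.card := by
    by_contra hc
    exact h (Few_of_card hn w (by omega))
  have h1 : Fintype.card (Fin 4) ≤ Fintype.card {i // i ∈ w.toFinset} := by
    rw [Fintype.card_coe, Fintype.card_fin]
    exact hc
  obtain ⟨f⟩ := Function.Embedding.nonempty_of_card_le h1
  have hm : ∀ i, (f i : Fin n) ∈ w := fun i => List.mem_toFinset.mp (f i).2
  have hne : ∀ i j, i ≠ j → (f i : Fin n) ≠ f j := fun i j hij he =>
    hij (f.injective (Subtype.ext he))
  refine ⟨f 0, f 1, f 2, f 3, ⟨hne _ _ (by decide), hne _ _ (by decide), hne _ _ (by decide),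
    hne _ _ (by decide), hne _ _ (by decide), hne _ _ (by decide)⟩,
    ((((w.erase (f 0)).erase (f 1)).erase (f 2)).erase (f 3)), ?_⟩
  have p0 := List.perm_cons_erase (hm 0)
  have m1 : (f 1 : Fin n) ∈ w.erase (f 0) :=
    (List.mem_erase_of_ne (hne 1 0 (by decide))).mpr (hm 1)
  have p1 := List.perm_cons_erase m1
  have m2 : (f 2 : Fin n) ∈ (w.erase (f 0)).erase (f 1) :=
    (List.mem_erase_of_ne (hne 2 1 (by decide))).mpr
      ((List.mem_erase_of_ne (hne 2 0 (by decide))).mpr (hm 2))
  have p2 := List.perm_cons_erase m2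
  have m3 : (f 3 : Fin n) ∈ ((w.erase (f 0)).erase (f 1)).erase (f 2) :=
    (List.mem_erase_of_ne (hne 3 2 (by decide))).mpr
      ((List.mem_erase_of_ne (hne 3 1 (by decide))).mpr
        ((List.mem_erase_of_ne (hne 3 0 (by decide))).mpr (hm 3)))
  have p3 := List.perm_cons_erase m3
  exact p0.trans ((p1.trans ((p2.trans (p3.cons _)).cons _)).cons _)

private theorem Few_inj {n : ℕ} (hn : 3 ≤ n) (w : List (Fin n)) (h : Few w) :
    ∃ (ε : Fin 3 → Fin n) (w0 : List (Fin 3)), Function.Injective ε ∧ w0.map ε = w := by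
  classical
  have hc : w.toFinset.card ≤ 3 := by
    obtain ⟨σ, w', hw'⟩ := h
    have hsub : w.toFinset ⊆ Finset.univ.image σ := by
      intro i hi
      rw [List.mem_toFinset, ← hw', List.mem_map] at hi
      obtain ⟨j, _, hj⟩ := hi
      exact Finset.mem_image.mpr ⟨j, Finset.mem_univ _, hj⟩
    refine (Finset.card_le_card hsub).trans (Finset.card_image_le.trans ?_)
    simp
  obtain ⟨t, hst, ht⟩ := Finset.exists_superset_card_eq hc (by rw [Fintype.card_fin]; exact hn)
  let e := t.equivFinOfCardEq ht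
  refine ⟨fun j => (e.symm j : Fin n),
    w.attach.map (fun i => e ⟨i.1, hst (List.mem_toFinset.mpr i.2)⟩), ?_, ?_⟩
  · intro i j hij
    exact e.symm.injective (Subtype.ext hij)
  · rw [List.map_map]
    have h2 : ((fun j => (e.symm j : Fin n)) ∘
        fun i : {x // x ∈ w} => e ⟨i.1, hst (List.mem_toFinset.mpr i.2)⟩) = Subtype.val := by
      funext i
      simp only [Function.comp_apply, Equiv.symm_apply_apply]
    rw [h2, List.attach_map_subtype_val]

section S

variable {F : Type u} [Field F] {J : Type u} [NonUnitalNonAssocCommRing J] [Module F J]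
  [IsScalarTower F J J] [SMulCommClass F J J]

theorem SSys_comap {ι κ : Type} {x : ι → J} {S : List ι → J} (hS : SSys F x S) (σ : κ → ι) :
    SSys F (fun i => x (σ i)) (fun w => S (w.map σ)) := by
  refine ⟨?_, ?_, ?_, ?_, ?_⟩
  · exact hS.nil
  · intro i
    exact hS.single (σ i)
  · intro w
    simp only [List.map_reverse]
    exact hS.rev _
  · intro v w hv hw
    simp only [List.map_append, List.map_reverse]
    exact hS.mul _ _ (by simpa using hv) (by simpa using hw)
  · obtain ⟨N, hN⟩ := hS.bdd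
    exact ⟨N, fun w hw => hN _ (by rw [List.length_map]; exact hw)⟩

theorem exists_few (h2 : (2 : F) ≠ 0) (hJ : IsJordan J) (h8 : jpow F J 8 = ⊥) {n : ℕ}
    (hn : 3 ≤ n) (x : Fin n → J) :
    ∃ S : List (Fin n) → J,
      (∀ σ : Fin 3 → Fin n, SSys F (fun i => x (σ i)) (fun w => S (w.map σ))) ∧
      (∀ (a : Fin n → ℕ) (Φ : ℕ → Submodule F J), Filt F x a Φ →
        ∀ w, Few w → w ≠ [] → S w ∈ Φ (wt a w)) ∧
      (∀ w, ¬ Few w → S w = 0) ∧ (∀ w, 8 ≤ w.length → S w = 0) := by
  classical
  choose S3 hS3 hF3 hL3 _ using fun y : Fin 3 → J => exists_SSys7 (F := F) h2 hJ h8 y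
  choose ε w0 hε hw0 using Few_inj hn
  let S : List (Fin n) → J := fun w =>
    if h : Few w then S3 (fun i => x (ε w h i)) (w0 w h) else 0
  have hSf : ∀ w (h : Few w), S w = S3 (fun i => x (ε w h i)) (w0 w h) := fun w h => dif_pos h
  have key : ∀ (σ : Fin 3 → Fin n) (w' : List (Fin 3)),
      S (w'.map σ) = S3 (fun i => x (σ i)) w' := by
    intro σ w'
    have hf : Few (w'.map σ) := ⟨σ, w', rfl⟩
    rw [hSf _ hf]
    have hex : ∀ i ∈ w', ∃ j, ε _ hf j = σ i := by
      intro i hi
      have h1 : σ i ∈ (w0 _ hf).map (ε _ hf) := by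
        rw [hw0 _ hf]
        exact List.mem_map_of_mem hi
      obtain ⟨j, _, hj⟩ := List.mem_map.mp h1
      exact ⟨j, hj⟩
    let α : Fin 3 → Fin 3 := fun i => if h : ∃ j, ε _ hf j = σ i then h.choose else 0
    have hα : ∀ i ∈ w', ε _ hf (α i) = σ i := by
      intro i hi
      have h1 := hex i hi
      have h2 : α i = h1.choose := dif_pos h1
      rw [h2]
      exact h1.choose_spec
    have h3 := SSys.unique h2 (hS3 (fun i => x (σ i)))
      (SSys_comap (hS3 (fun i => x (ε _ hf i))) α) (fun i => i ∈ w')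
      (fun i hi => by simp only [hα i hi]) w' (fun i hi => hi)
    rw [h3]
    have h4 : w'.map α = w0 _ hf := by
      apply List.map_injective_iff.mpr (hε _ hf)
      rw [hw0 _ hf, List.map_map]
      exact List.map_congr_left fun i hi => hα i hi
    simp only [h4]
  refine ⟨S, ?_, ?_, ?_, ?_⟩
  · intro σ
    have : (fun w => S (w.map σ)) = S3 (fun i => x (σ i)) := funext fun w => key σ w
    rw [this]
    exact hS3 _
  · intro a Φ hΦ w hw hne
    rw [hSf w hw]
    have h1 : Filt F (fun i => x (ε w hw i)) (fun i => a (ε w hw i)) Φ :=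
      ⟨hΦ.anti, hΦ.mul_mem, fun i => hΦ.mem _⟩
    have h3 : w0 w hw ≠ [] := by
      intro h0
      have := hw0 w hw
      rw [h0, List.map_nil] at this
      exact hne this.symm
    have h4 := hF3 _ _ Φ h1 _ h3
    have h5 : wt (fun i => a (ε w hw i)) (w0 w hw) = wt a w := by
      conv_rhs => rw [← hw0 w hw]
      unfold wt
      rw [List.map_map]
      rfl
    rw [h5] at h4
    exact h4
  · intro w hw
    exact dif_neg hw
  · intro w hw
    by_cases hf : Few w
    · rw [hSf w hf]
      apply hL3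
      have := congrArg List.length (hw0 w hf)
      rw [List.length_map] at this
      omega
    · exact dif_neg hf

end S

end JD
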