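import Pool.Agent.H9.JH.GrQuot

set_option autoImplicit false
set_option linter.unusedSectionVars false

/-!
# JN Gens9: generators adapted to a linear map that kills `J^2` (helper13)

`adapted_gens`. `p : J → A` linear, `p = 0` on `J^2`, `y : Fin m → A` a basis of the range of `p`. Then `m ≤ ngen` and there are generators `x` (a basis of `J` modulo `J^2`) with `p (x i) = y i` for `i < m` and `p (x i) = 0` for `i ≥ m`.
PROOF. Choose `z i` with `p (z i) = y i`; the classes of `z i` modulo `J^2` are independent (`∑ a_i z_i ∈ J^2` gives `∑ a_i y_i = 0`). `exists_gens_ext` (file `Pow.lean`): generators `x'` with `x' i = z i` for `i < m`. For `i ≥ m`: `p (x' i) = ∑_{j<m} b_ij y_j`; put `x i = x' i - ∑_j b_ij z_j`, `x i = x' i` for `i < m`.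
Independence modulo `J^2` is preserved (unitriangular change), generation too (`T` contains all `x i` iff it contains all `x' i`).

`GF_nilp`: a graded algebra `GF F A N D` is nilpotent: `jpow F A k ≤ span of the D i, i ≥ k` (strong induction on `k`, `jpow_le_of`, `GF.all` for `k = 1`), so `jpow F A (N + 1) = ⊥` (`GF.above`). `GF_dim`: `finrank A ≤ ∑_{i ∈ Icc 1 N} finrank (D i)` (`GF.all`, `GF.zero`).
-/

namespace JD

universe u

variable {F : Type u} [Field F] {J : Type u} [NonUnitalNonAssocCommRing J] [Module F J]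
  [IsScalarTower F J J] [SMulCommClass F J J]

theorem adapted_gens (hn : IsNilpotentAlg F J) [Module.Finite F J] {A : Type u} [AddCommGroup A]
    [Module F A] (p : J →ₗ[F] A) (hp : ∀ a ∈ jpow F J 2, p a = 0) {m : ℕ} (y : Fin m → A)
    (hy : LinearIndependent F y) (hspan : Submodule.span F (Set.range y) = LinearMap.range p) :
    m ≤ ngen F J ∧ ∃ x : Fin (ngen F J) → J, Gens F J x ∧
      (∀ (i : Fin (ngen F J)) (hi : (i : ℕ) < m), p (x i) = y ⟨i, hi⟩) ∧
      ∀ i : Fin (ngen F J), m ≤ (i : ℕ) → p (x i) = 0 := by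
  have hz0 : ∀ i, ∃ z, p z = y i := by
    intro i
    have : y i ∈ LinearMap.range p := by
      rw [← hspan]
      exact Submodule.subset_span ⟨i, rfl⟩
    exact this
  choose z hz using hz0
  let pb : J ⧸ jpow F J 2 →ₗ[F] A := (jpow F J 2).liftQ p (fun a ha => hp a ha)
  have hpb : ∀ a, pb ((jpow F J 2).mkQ a) = p a := fun a => Submodule.liftQ_apply _ _ _
  have hzi : LinearIndependent F (fun i => (jpow F J 2).mkQ (z i)) := by
    apply LinearIndependent.of_comp pb
    have : pb ∘ (fun i => (jpow F J 2).mkQ (z i)) = y := by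
      funext i
      rw [Function.comp_apply, hpb, hz]
    rw [this]
    exact hy
  have hm : m ≤ ngen F J := by
    have := hzi.fintype_card_le_finrank
    rwa [Fintype.card_fin] at this
  refine ⟨hm, ?_⟩
  obtain ⟨x', hx', hxz⟩ := exists_gens_ext hn z hzi hm
  have hb0 : ∀ i, ∃ b : Fin m → F, ∑ j, b j • y j = p (x' i) := by
    intro i
    have : p (x' i) ∈ Submodule.span F (Set.range y) := by
      rw [hspan]
      exact LinearMap.mem_range_self p _
    exact (Submodule.mem_span_range_iff_exists_fun F).mp this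
  choose b hb using hb0
  let x : Fin (ngen F J) → J := fun i =>
    if h : (i : ℕ) < m then z ⟨i, h⟩ else x' i - ∑ j, b i j • z j
  have hx1 : ∀ (i : Fin (ngen F J)) (h : (i : ℕ) < m), x i = z ⟨i, h⟩ := fun i h => dif_pos h
  have hx2 : ∀ (i : Fin (ngen F J)), m ≤ (i : ℕ) → x i = x' i - ∑ j, b i j • z j :=
    fun i h => dif_neg (by omega)
  have hzx : ∀ j : Fin m, z j = x (Fin.castLE hm j) := fun j => by
    rw [hx1 (Fin.castLE hm j) j.2]
    rfl
  have hxT : ∀ i, x i ∈ Submodule.span F (Set.range x) ⊔ jpow F J 2 := fun i =>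
    Submodule.mem_sup_left (Submodule.subset_span ⟨i, rfl⟩)
  have hT : Submodule.span F (Set.range x) ⊔ jpow F J 2 = ⊤ := by
    refine hx'.gen _ (fun i => ?_) (fun a _ b _ => ?_)
    · rcases Nat.lt_or_ge (i : ℕ) m with h | h
      · have : x' i = x i := by
          rw [hx1 i h, ← hxz ⟨i, h⟩]
          rfl
        rw [this]
        exact hxT i
      · have : x' i = x i + ∑ j, b i j • z j := by
          rw [hx2 i h, sub_add_cancel]
        rw [this]
        refine Submodule.add_mem _ (hxT i) (Submodule.sum_mem _ fun j _ => Submodule.smul_mem _ _ ?_)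
        rw [hzx]
        exact hxT _
    · apply Submodule.mem_sup_right
      have ha : a ∈ jpow F J 1 := by rw [jpow_one]; exact Submodule.mem_top
      have hb : b ∈ jpow F J 1 := by rw [jpow_one]; exact Submodule.mem_top
      exact mul_mem_jpow ha hb
  have hind : LinearIndependent F (fun i => (jpow F J 2).mkQ (x i)) := by
    apply linearIndependent_of_top_le_span_of_card_eq_finrank
    · intro v _
      obtain ⟨a, rfl⟩ := (jpow F J 2).mkQ_surjective v
      have ha : a ∈ Submodule.span F (Set.range x) ⊔ jpow F J 2 := by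
        rw [hT]; exact Submodule.mem_top
      obtain ⟨s, hs, c, hc, rfl⟩ := Submodule.mem_sup.mp ha
      have hc0 : (jpow F J 2).mkQ c = 0 := by
        rw [Submodule.mkQ_apply, Submodule.Quotient.mk_eq_zero]
        exact hc
      rw [map_add, hc0, add_zero]
      have := Submodule.mem_map_of_mem (f := (jpow F J 2).mkQ) hs
      rw [Submodule.map_span, ← Set.range_comp] at this
      exact this
    · rw [Fintype.card_fin]
      rfl
  refine ⟨x, ⟨fun T hT1 hmul => gen_of_span hn x hT T hT1 hmul, hind⟩, fun i hi => ?_,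
    fun i hi => ?_⟩
  · rw [hx1 i hi, hz]
  · rw [hx2 i hi, map_sub, map_sum, ← hb i, sub_eq_zero]
    refine Finset.sum_congr rfl fun j _ => ?_
    rw [map_smul, hz]

variable {A : Type u} [NonUnitalNonAssocCommRing A] [Module F A]
  [IsScalarTower F A A] [SMulCommClass F A A] {D : ℕ → Submodule F A} {N : ℕ}

private theorem Gens9_mul (hG : GF F A N D) {i j : ℕ} (hi : 1 ≤ i) (hj : 1 ≤ j) {a b : A}
    (ha : a ∈ ⨆ k, ⨆ (_ : i ≤ k), D k) (hb : b ∈ ⨆ k, ⨆ (_ : j ≤ k), D k) :
    a * b ∈ ⨆ k, ⨆ (_ : i + j ≤ k), D k := by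
  have h1 : (⨆ k, ⨆ (_ : i ≤ k), D k) ≤
      (⨆ k, ⨆ (_ : i + j ≤ k), D k).comap (LinearMap.mulRight F b) := by
    refine iSup₂_le fun k hk a ha => ?_
    rw [Submodule.mem_comap, LinearMap.mulRight_apply]
    have h2 : (⨆ k, ⨆ (_ : j ≤ k), D k) ≤
        (⨆ k, ⨆ (_ : i + j ≤ k), D k).comap (LinearMap.mulLeft F a) := by
      refine iSup₂_le fun l hl b hb => ?_
      rw [Submodule.mem_comap, LinearMap.mulLeft_apply]
      have h3 := hG.mul_mem k l (by omega) (by omega) a ha b hb
      exact Submodule.mem_iSup_of_mem (k + l) (Submodule.mem_iSup_of_mem (by omega) h3)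
    exact h2 hb
  exact h1 ha

private theorem Gens9_le (hG : GF F A N D) (k : ℕ) (hk : 1 ≤ k) :
    jpow F A k ≤ ⨆ i, ⨆ (_ : k ≤ i), D i := by
  induction k using Nat.strong_induction_on with
  | _ k ih =>
    rcases Nat.lt_or_ge k 2 with h2 | h2
    · obtain rfl : k = 1 := by omega
      intro b _
      obtain ⟨a, ha, rfl⟩ := hG.all b
      refine Submodule.sum_mem _ fun i _ => ?_
      rcases Nat.eq_zero_or_pos i with rfl | hi
      · have h0 := ha 0
        rw [hG.zero, Submodule.mem_bot] at h0
        rw [h0]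
        exact Submodule.zero_mem _
      · exact Submodule.mem_iSup_of_mem i (Submodule.mem_iSup_of_mem hi (ha i))
    · refine jpow_le_of h2 _ fun i j hi hj hij a ha b hb => ?_
      have := Gens9_mul hG hi hj (ih i (by omega) hi ha) (ih j (by omega) hj hb)
      rwa [hij] at this

theorem GF_pow (hG : GF F A N D) : jpow F A (N + 1) = ⊥ := by
  rw [eq_bot_iff]
  refine (Gens9_le hG (N + 1) (by omega)).trans (iSup₂_le fun i hi a ha => ?_)
  rw [Submodule.mem_bot]
  exact hG.above i (by omega) a ha

private theorem Gens9_sup [Module.Finite F A] (S : Finset ℕ) :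
    Module.finrank F (S.sup D : Submodule F A) ≤ ∑ i ∈ S, Module.finrank F (D i) := by
  classical
  induction S using Finset.induction_on with
  | empty => simp
  | insert i S hi ih =>
    rw [Finset.sup_insert, Finset.sum_insert hi]
    exact (Submodule.finrank_add_le_finrank_add_finrank _ _).trans (Nat.add_le_add_left ih _)

theorem GF_dim (hG : GF F A N D) :
    Module.finrank F A ≤ ∑ i ∈ Finset.Icc 1 N, Module.finrank F (D i) := by
  have hfin := hG.fin
  refine le_trans (le_of_eq ?_) (Gens9_sup (D := D) (Finset.Icc 1 N))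
  have : (Finset.Icc 1 N).sup D = ⊤ := by
    rw [eq_top_iff]
    intro b _
    obtain ⟨a, ha, rfl⟩ := hG.all b
    refine Submodule.sum_mem _ fun i hi => ?_
    rcases Nat.eq_zero_or_pos i with rfl | hi0
    · have h0 := ha 0
      rw [hG.zero, Submodule.mem_bot] at h0
      rw [h0]
      exact Submodule.zero_mem _
    · have hmem : i ∈ Finset.Icc 1 N := by
        rw [Finset.mem_range] at hi
        rw [Finset.mem_Icc]
        omega
      exact Finset.le_sup (f := D) hmem (ha i)
  rw [this]
  exact (finrank_top F A).symm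

end JD
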