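import Pool.Agent.H13.JN.Basic

set_option autoImplicit false
set_option linter.unusedSectionVars false

/-!
# JN K5: class 5, `dim D 4 = 1`: definitions and first identities (helper13)

`A = D 1 + .. + D 5` is a graded cocyclic Jordan algebra of class 5 (`GJ F A 5 D`) with `D 4 = F g`, `D 5 = F u`.
`K5 D g u k4 k5 θ`: coordinates `k4` of `D 4`, `k5` of `D 5`, and `v a = θ(v) k4(a) u` for `v ∈ D 1`, `a ∈ D 4`.

`kk c v h = k4 ((c v) h - c (v h))` (`c, v ∈ D 1`, `h ∈ D 2`; trilinear).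
`Y5` = the submodule of all `v ∈ D 1` with `(c v) h = c (v h)` for all `c ∈ D 1`, `h ∈ D 2`.

USEFUL: after distributing (`simp only [mul_add, mul_sub, add_mul, sub_mul, mul_smul_comm, smul_mul_assoc]`) the tactic
`simp only [mul_comm] at h1 h2 ⊢` brings all commutative nonassociative products to a normal form (ordered rewriting), and then
`linear_combination (norm := abel) h1 + h2` (or `module`) works.

PROOFS.
`K5_exists`: `exists_coord` for `D 4`, `D 5` (`hG.top`), `θ(v) = k5 (v g)`, linear (composition of `LinearMap.mulRight`). `ne`: if `θ = 0` on `D 1` then `v g = 0` for all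
`v ∈ D 1` and `q g ∈ D 6 = 0`, so `g = 0` by `hG.nd 4`.
`kk_mem_Y5`: `v ∈ Y5 ↔ v ∈ D 1` and `kk c v h = 0` for all `c ∈ D 1`, `h ∈ D 2` (the element `(c v) h - c (v h)` is in `D 4`).
`kk_cyc`: for `x y z w ∈ D 1`: `kk x w (y z) + kk y w (z x) + kk z w (x y) = 0`: `gJ3 x y z w : (xy)(zw) + (yz)(xw) + (zx)(yw) = z((xy)w) + x((yz)w) + y((zx)w)`;
the left side is the sum of the `(z w)(x y)`, the right side the sum of the `z (w (x y))`.
`kk_sq`: `kk x w (x x) = 0` : `gJ1 x w : (xx)(xw) = x((xx)w)` (also in characteristic 3).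
`kk_star`: for `x y v ∈ D 1`, `h' ∈ D 2`:
  `k5 (h' (v (x y))) = θ v * k4 ((x y) h') + θ x * kk v y h' + θ y * kk v x h'`.
  `gJ3 x y h' v : (xy)(h'v) + (yh')(xv) + (h'x)(yv) = h'((xy)v) + x((yh')v) + y((h'x)v)` and
  `gJ3 x y v h' : (xy)(vh') + (yv)(xh') + (vx)(yh') = v((xy)h') + x((yv)h') + y((vx)h')`; subtract:
  `h'((xy)v) = v((xy)h') + x((yv)h' - v(yh')) + y((vx)h' - v(xh'))`, and apply `k5` and `hθ` (all the inner elements are in `D 4`).
`hat_mem`: for a finite family `y i ∈ D 1` and symmetric `c'` with `∑ c'_ij y_i y_j = 0`: `∑_ij c'_ij θ(y_i) y_j ∈ Y5`. For `c ∈ D 1`, `h ∈ D 2`: sum `c'_ij` times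
  `gJ3 (y i) (y j) c h : (y_i y_j)(ch) + (y_j c)(y_i h) + (c y_i)(y_j h) = c((y_i y_j)h) + y_i((y_j c)h) + y_j((c y_i)h)`: `∑ c'_ij (y_j c)(y_i h) = ∑ c'_ij y_i((y_j c)h)` (symmetry of `c'`; cancel 2), and
  `gJ4 (y i) (y j) c h : ((y_i y_j)c)h = (y_i y_j)(ch) + (y_i c)(y_j h) + (y_j c)(y_i h) - y_i(c(y_j h)) - y_j(c(y_i h))`: `∑ c'_ij (y_j c)(y_i h) = ∑ c'_ij y_i (c (y_j h))`.
  So `∑ c'_ij y_i ((c y_j)h - c(y_j h)) = 0`; the inner element is in `D 4`; apply `k5`: `∑ c'_ij θ(y_i) kk c (y_j) h = 0`.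
`nform`: if `ζ : A → F` is linear and vanishes on `Y5` then there is `n : A → F` linear with `2 n (a b) = θ a * ζ b + θ b * ζ a` for `a b ∈ D 1`.
  Let `e i` be a basis of `D 1` (finite). The map `S : (symmetric matrices c') → A`, `c' ↦ ∑ c'_ij e_i e_j`, and the functional `Λ(c') = ∑ c'_ij θ(e_i) ζ(e_j)`: if `S c' = 0` then
  `Λ c' = ζ (∑ c'_ij θ(e_i) e_j) = 0` by `hat_mem`. So there is a linear `n` on the range of `S`, extended to `A`, with `n (S c') = Λ c'`
  (`LinearMap.exists_extend` after factoring through the kernel). For `a = ∑ a_i e_i`, `b = ∑ b_j e_j` take `c'_ij = (a_i b_j + a_j b_i) / 2`.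
-/

namespace JD

universe u

variable {F : Type u} [Field F] {A : Type u} [NonUnitalNonAssocCommRing A] [Module F A]
  [IsScalarTower F A A] [SMulCommClass F A A] {D : ℕ → Submodule F A}

structure K5 (D : ℕ → Submodule F A) (g u : A) (k4 k5 θ : A →ₗ[F] F) : Prop where
  g_mem : g ∈ D 4
  u_mem : u ∈ D 5
  k4g : k4 g = 1
  k5u : k5 u = 1
  h4 : ∀ a ∈ D 4, a = k4 a • g
  h5 : ∀ a ∈ D 5, a = k5 a • u
  hθ : ∀ v ∈ D 1, ∀ a ∈ D 4, k5 (v * a) = θ v * k4 a
  ne : ∃ v ∈ D 1, θ v ≠ 0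

/-- `k4 ((c v) h - c (v h))` -/
def kk (k4 : A →ₗ[F] F) (c v h : A) : F := k4 ((c * v) * h - c * (v * h))

/-- the elements `v` of `D 1` with `(c v) h = c (v h)` -/
def Y5 (D : ℕ → Submodule F A) : Submodule F A where
  carrier := {v | v ∈ D 1 ∧ ∀ c ∈ D 1, ∀ h ∈ D 2, (c * v) * h = c * (v * h)}
  zero_mem' := ⟨(D 1).zero_mem, fun c _ h _ => by simp⟩
  add_mem' := by
    rintro a b ⟨ha, ha'⟩ ⟨hb, hb'⟩
    refine ⟨(D 1).add_mem ha hb, fun c hc h hh => ?_⟩
    rw [mul_add, add_mul, add_mul, mul_add, ha' c hc h hh, hb' c hc h hh]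
  smul_mem' := by
    rintro r a ⟨ha, ha'⟩
    refine ⟨(D 1).smul_mem r ha, fun c hc h hh => ?_⟩
    rw [mul_smul_comm, smul_mul_assoc, smul_mul_assoc, mul_smul_comm, ha' c hc h hh]

theorem K5_exists (hG : GJ F A 5 D) (h4 : Module.finrank F (D 4) = 1) :
    ∃ (g u : A) (k4 k5 θ : A →ₗ[F] F), K5 D g u k4 k5 θ := by
  have := hG.fin
  obtain ⟨g, hg, hg0, k4, hk4, h4'⟩ := exists_coord h4
  obtain ⟨u, hu, hu0, k5, hk5, h5'⟩ := exists_coord hG.top
  refine ⟨g, u, k4, k5, k5 ∘ₗ LinearMap.mulRight F g, hg, hu, hk4, hk5, h4', h5', ?_, ?_⟩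
  · intro v hv a ha
    have e := h4' a ha
    conv_lhs => rw [e]
    rw [mul_smul_comm, map_smul]
    simp [mul_comm]
  · by_contra hcon
    push Not at hcon
    apply hg0
    apply hG.nd 4 (by norm_num) (by norm_num) g hg
    · intro v hv
      have h1 : v * g ∈ D 5 := hG.mul_mem 1 4 (by norm_num) (by norm_num) v hv g hg
      have h2 := h5' _ h1
      have h3 := hcon v hv
      simp only [LinearMap.comp_apply, LinearMap.mulRight_apply] at h3
      rw [h2, h3, zero_smul]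
    · intro q hq
      exact hG.above 6 (by norm_num) _ (hG.mul_mem 2 4 (by norm_num) (by norm_num) q hq g hg)

variable {g u : A} {k4 k5 θ : A →ₗ[F] F}

private theorem K5_mem4 (hG : GJ F A 5 D) (c v h : A) (hc : c ∈ D 1) (hv : v ∈ D 1) (hh : h ∈ D 2) :
    (c * v) * h - c * (v * h) ∈ D 4 := by
  have h1 : (c * v) * h ∈ D 4 := hG.mul_mem 2 2 (by norm_num) (by norm_num) _
    (hG.mul_mem 1 1 (by norm_num) (by norm_num) c hc v hv) h hh
  have h2 : c * (v * h) ∈ D 4 := hG.mul_mem 1 3 (by norm_num) (by norm_num) _ hc _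
    (hG.mul_mem 1 2 (by norm_num) (by norm_num) v hv h hh)
  exact (D 4).sub_mem h1 h2

theorem kk_mem_Y5 (hG : GJ F A 5 D) (hK : K5 D g u k4 k5 θ) (v : A) :
    v ∈ Y5 D ↔ v ∈ D 1 ∧ ∀ c ∈ D 1, ∀ h ∈ D 2, kk k4 c v h = 0 := by
  constructor
  · rintro ⟨hv, h1⟩
    refine ⟨hv, fun c hc h hh => ?_⟩
    unfold kk
    rw [h1 c hc h hh, sub_self, map_zero]
  · rintro ⟨hv, h1⟩
    refine ⟨hv, fun c hc h hh => ?_⟩
    have h2 := hK.h4 _ (K5_mem4 hG c v h hc hv hh)
    have h3 := h1 c hc h hh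
    unfold kk at h3
    rw [h3, zero_smul] at h2
    exact sub_eq_zero.mp h2

theorem kk_cyc (hG : GJ F A 5 D) (k4 : A →ₗ[F] F) (x y z w : A) :
    kk k4 x w (y * z) + kk k4 y w (z * x) + kk k4 z w (x * y) = 0 := by
  unfold kk
  rw [← map_add, ← map_add]
  have e := gJ3 F hG.two hG.jordan x y z w
  have : x * w * (y * z) - x * (w * (y * z)) + (y * w * (z * x) - y * (w * (z * x))) +
      (z * w * (x * y) - z * (w * (x * y))) = 0 := by
    simp only [mul_comm] at e ⊢
    linear_combination (norm := abel) e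
  rw [this, map_zero]

theorem kk_sq (hG : GJ F A 5 D) (k4 : A →ₗ[F] F) (x w : A) : kk k4 x w (x * x) = 0 := by
  unfold kk
  have e := gJ1 hG.jordan x w
  have : x * w * (x * x) - x * (w * (x * x)) = 0 := by
    rw [mul_comm (x * w), mul_comm w, e, sub_self]
  rw [this, map_zero]

theorem kk_star (hG : GJ F A 5 D) (hK : K5 D g u k4 k5 θ) (v x y h' : A) (hv : v ∈ D 1)
    (hx : x ∈ D 1) (hy : y ∈ D 1) (hh : h' ∈ D 2) :
    k5 (h' * (v * (x * y))) =
      θ v * k4 ((x * y) * h') + θ x * kk k4 v y h' + θ y * kk k4 v x h' := by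
  have e1 := gJ3 F hG.two hG.jordan x y h' v
  have e2 := gJ3 F hG.two hG.jordan x y v h'
  have e : h' * (v * (x * y)) = v * ((x * y) * h') + x * (v * y * h' - v * (y * h')) +
      y * (v * x * h' - v * (x * h')) := by
    simp only [mul_sub]
    simp only [mul_comm] at e1 e2 ⊢
    linear_combination (norm := abel) e2 - e1
  have h1 : (x * y) * h' ∈ D 4 := hG.mul_mem 2 2 (by norm_num) (by norm_num) _
    (hG.mul_mem 1 1 (by norm_num) (by norm_num) x hx y hy) h' hh
  rw [e, map_add, map_add, hK.hθ v hv _ h1, hK.hθ x hx _ (K5_mem4 hG v y h' hv hy hh),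
    hK.hθ y hy _ (K5_mem4 hG v x h' hv hx hh)]
  rfl

private theorem K5_swap {W : Type u} [AddCommGroup W] [Module F W] {m : ℕ}
    (c' : Fin m → Fin m → F) (hc : ∀ i j, c' i j = c' j i) (f : Fin m → Fin m → W) :
    ∑ i, ∑ j, c' i j • f j i = ∑ i, ∑ j, c' i j • f i j := by
  rw [Finset.sum_comm]
  refine Finset.sum_congr rfl fun i _ => Finset.sum_congr rfl fun j _ => ?_
  rw [hc]

theorem hat_mem (hG : GJ F A 5 D) (hK : K5 D g u k4 k5 θ) {m : ℕ} (y : Fin m → A)
    (hy : ∀ i, y i ∈ D 1) (c' : Fin m → Fin m → F) (hc : ∀ i j, c' i j = c' j i)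
    (h0 : ∑ i, ∑ j, c' i j • (y i * y j) = 0) :
    ∑ i, ∑ j, (c' i j * θ (y i)) • y j ∈ Y5 D := by
  rw [kk_mem_Y5 hG hK]
  refine ⟨Submodule.sum_mem _ fun i _ => Submodule.sum_mem _ fun j _ =>
    Submodule.smul_mem _ _ (hy j), fun c hcc h hh => ?_⟩
  -- the four sums
  have z1 : ∑ i, ∑ j, c' i j • ((y i * y j) * (c * h)) = 0 := by
    have := congrArg (fun z => z * (c * h)) h0
    simpa only [Finset.sum_mul, smul_mul_assoc, zero_mul] using this
  have z2 : ∑ i, ∑ j, c' i j • (c * ((y i * y j) * h)) = 0 := by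
    have := congrArg (fun z => c * (z * h)) h0
    simpa only [Finset.sum_mul, Finset.mul_sum, smul_mul_assoc, mul_smul_comm, zero_mul,
      mul_zero] using this
  have z3 : ∑ i, ∑ j, c' i j • (((y i * y j) * c) * h) = 0 := by
    have := congrArg (fun z => (z * c) * h) h0
    simpa only [Finset.sum_mul, smul_mul_assoc, zero_mul] using this
  have w1 := K5_swap c' hc (fun i j => (y j * c) * (y i * h))
  have w2 := K5_swap c' hc (fun i j => y i * ((y j * c) * h))
  have w3 := K5_swap c' hc (fun i j => y i * (c * (y j * h)))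
  have e1 : ∑ i, ∑ j, c' i j • ((y i * y j) * (c * h)) + ∑ i, ∑ j, c' i j • ((y j * c) * (y i * h))
      + ∑ i, ∑ j, c' i j • ((y i * c) * (y j * h)) =
      ∑ i, ∑ j, c' i j • (c * ((y i * y j) * h)) + ∑ i, ∑ j, c' i j • (y i * ((y j * c) * h))
      + ∑ i, ∑ j, c' i j • (y j * ((y i * c) * h)) := by
    simp only [← Finset.sum_add_distrib, ← smul_add]
    refine Finset.sum_congr rfl fun i _ => Finset.sum_congr rfl fun j _ => ?_
    have e := gJ3 F hG.two hG.jordan (y i) (y j) c h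
    rw [mul_comm c (y i)] at e
    rw [e]
  have e2 : ∑ i, ∑ j, c' i j • (((y i * y j) * c) * h) =
      ∑ i, ∑ j, c' i j • ((y i * y j) * (c * h)) + ∑ i, ∑ j, c' i j • ((y i * c) * (y j * h))
      + ∑ i, ∑ j, c' i j • ((y j * c) * (y i * h)) - ∑ i, ∑ j, c' i j • (y i * (c * (y j * h)))
      - ∑ i, ∑ j, c' i j • (y j * (c * (y i * h))) := by
    simp only [← Finset.sum_add_distrib, ← smul_add, ← Finset.sum_sub_distrib, ← smul_sub]
    refine Finset.sum_congr rfl fun i _ => Finset.sum_congr rfl fun j _ => ?_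
    rw [gJ4 F hG.two hG.jordan (y i) (y j) c h]
  rw [z1, z2, w1, w2, zero_add, zero_add] at e1
  rw [z1, z3, w1, w3, zero_add] at e2
  have e3 : ∑ i, ∑ j, c' i j • (y i * ((c * y j) * h - c * (y j * h))) = 0 := by
    have h1 : (2 : F) • ∑ i, ∑ j, c' i j • (y i * ((c * y j) * h - c * (y j * h))) = 0 := by
      have h2 : ∑ i, ∑ j, c' i j • (y i * ((c * y j) * h - c * (y j * h))) =
          ∑ i, ∑ j, c' i j • (y i * ((y j * c) * h)) -
            ∑ i, ∑ j, c' i j • (y i * (c * (y j * h))) := by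
        simp only [← Finset.sum_sub_distrib, ← smul_sub]
        refine Finset.sum_congr rfl fun i _ => Finset.sum_congr rfl fun j _ => ?_
        rw [mul_sub, mul_comm c (y j)]
      rw [h2, two_smul]
      linear_combination (norm := abel) - e1 - e2
    exact (smul_eq_zero.mp h1).resolve_left hG.two
  have e4 := congrArg k5 e3
  simp only [map_sum, map_smul, map_zero] at e4
  have e5 : kk k4 c (∑ i, ∑ j, (c' i j * θ (y i)) • y j) h =
      ∑ i, ∑ j, c' i j • k5 (y i * ((c * y j) * h - c * (y j * h))) := by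
    unfold kk
    simp only [Finset.sum_mul, Finset.mul_sum, smul_mul_assoc, mul_smul_comm, map_sub, map_sum,
      map_smul, ← Finset.sum_sub_distrib]
    refine Finset.sum_congr rfl fun i _ => Finset.sum_congr rfl fun j _ => ?_
    rw [hK.hθ (y i) (hy i) _ (K5_mem4 hG c (y j) h hcc (hy j) hh), map_sub]
    simp only [smul_eq_mul]
    ring
  rw [e5, e4]

theorem nform (hG : GJ F A 5 D) (hK : K5 D g u k4 k5 θ) (ζ : A →ₗ[F] F)
    (hζ : ∀ y ∈ Y5 D, ζ y = 0) :
    ∃ n : A →ₗ[F] F, ∀ a ∈ D 1, ∀ b ∈ D 1, 2 * n (a * b) = θ a * ζ b + θ b * ζ a := by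
  have := hG.fin
  let e := Module.finBasis F (D 1)
  let S : (Fin (Module.finrank F (D 1)) → Fin (Module.finrank F (D 1)) → F) →ₗ[F] A :=
    { toFun := fun c' => ∑ i, ∑ j, c' i j • ((e i : A) * (e j : A))
      map_add' := by
        intro c₁ c₂
        simp only [Pi.add_apply, add_smul, Finset.sum_add_distrib]
      map_smul' := by
        intro r c₁
        simp only [Pi.smul_apply, smul_eq_mul, mul_smul, Finset.smul_sum, RingHom.id_apply] }
  let Λ : (Fin (Module.finrank F (D 1)) → Fin (Module.finrank F (D 1)) → F) →ₗ[F] F :=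
    { toFun := fun c' => ∑ i, ∑ j, (c' i j + c' j i) * (θ (e i) * ζ (e j))
      map_add' := by
        intro c₁ c₂
        simp only [Pi.add_apply, ← Finset.sum_add_distrib]
        refine Finset.sum_congr rfl fun i _ => Finset.sum_congr rfl fun j _ => ?_
        ring
      map_smul' := by
        intro r c₁
        simp only [Pi.smul_apply, smul_eq_mul, Finset.mul_sum, RingHom.id_apply]
        refine Finset.sum_congr rfl fun i _ => Finset.sum_congr rfl fun j _ => ?_
        ring }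
  have hker : Λ ∈ (LinearMap.ker S).dualAnnihilator := by
    rw [Submodule.mem_dualAnnihilator]
    intro c' hc'
    have hS : ∑ i, ∑ j, c' i j • ((e i : A) * (e j : A)) = 0 := hc'
    have hS2 : ∑ i, ∑ j, (c' i j + c' j i) • ((e i : A) * (e j : A)) = 0 := by
      simp only [add_smul, Finset.sum_add_distrib]
      rw [hS, zero_add, Finset.sum_comm]
      rw [← hS]
      refine Finset.sum_congr rfl fun i _ => Finset.sum_congr rfl fun j _ => ?_
      rw [mul_comm (e j : A)]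
    have h1 := hζ _ (hat_mem hG hK (fun i => (e i : A)) (fun i => (e i).2)
      (fun i j => c' i j + c' j i) (fun i j => add_comm _ _) hS2)
    simp only [map_sum, map_smul] at h1
    change ∑ i, ∑ j, (c' i j + c' j i) * (θ (e i) * ζ (e j)) = 0
    rw [← h1]
    refine Finset.sum_congr rfl fun i _ => Finset.sum_congr rfl fun j _ => ?_
    simp only [smul_eq_mul]
    ring
  rw [← LinearMap.range_dualMap_eq_dualAnnihilator_ker] at hker
  obtain ⟨n, hn⟩ := hker
  refine ⟨(2 : F)⁻¹ • n, fun a ha b hb => ?_⟩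
  have ha' : a = ∑ i, e.repr ⟨a, ha⟩ i • (e i : A) := by
    have := congrArg (D 1).subtype (e.sum_repr ⟨a, ha⟩)
    rw [map_sum] at this
    simp only [map_smul, Submodule.subtype_apply] at this
    exact this.symm
  have hb' : b = ∑ i, e.repr ⟨b, hb⟩ i • (e i : A) := by
    have := congrArg (D 1).subtype (e.sum_repr ⟨b, hb⟩)
    rw [map_sum] at this
    simp only [map_smul, Submodule.subtype_apply] at this
    exact this.symm
  have h1 := LinearMap.congr_fun hn (fun i j => e.repr ⟨a, ha⟩ i * e.repr ⟨b, hb⟩ j)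
  have h2 : S (fun i j => e.repr ⟨a, ha⟩ i * e.repr ⟨b, hb⟩ j) = a * b := by
    conv_rhs => rw [ha', hb']
    change ∑ i, ∑ j, (e.repr ⟨a, ha⟩ i * e.repr ⟨b, hb⟩ j) • ((e i : A) * (e j : A)) = _
    rw [Finset.sum_mul_sum]
    refine Finset.sum_congr rfl fun i _ => Finset.sum_congr rfl fun j _ => ?_
    rw [smul_mul_smul_comm]
  have h3 : Λ (fun i j => e.repr ⟨a, ha⟩ i * e.repr ⟨b, hb⟩ j) = θ a * ζ b + θ b * ζ a := by
    change ∑ i, ∑ j, (e.repr ⟨a, ha⟩ i * e.repr ⟨b, hb⟩ j +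
      e.repr ⟨a, ha⟩ j * e.repr ⟨b, hb⟩ i) * (θ (e i) * ζ (e j)) = _
    have t1 : θ a * ζ b = ∑ i, ∑ j, (e.repr ⟨a, ha⟩ i * e.repr ⟨b, hb⟩ j) *
        (θ (e i) * ζ (e j)) := by
      conv_lhs => rw [ha', hb']
      rw [map_sum, map_sum, Finset.sum_mul_sum]
      refine Finset.sum_congr rfl fun i _ => Finset.sum_congr rfl fun j _ => ?_
      rw [map_smul, map_smul, smul_eq_mul, smul_eq_mul]
      ring
    have t2 : θ b * ζ a = ∑ i, ∑ j, (e.repr ⟨a, ha⟩ j * e.repr ⟨b, hb⟩ i) *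
        (θ (e i) * ζ (e j)) := by
      conv_lhs => rw [ha', hb']
      rw [map_sum, map_sum, Finset.sum_mul_sum]
      refine Finset.sum_congr rfl fun i _ => Finset.sum_congr rfl fun j _ => ?_
      rw [map_smul, map_smul, smul_eq_mul, smul_eq_mul]
      ring
    rw [t1, t2, ← Finset.sum_add_distrib]
    refine Finset.sum_congr rfl fun i _ => ?_
    rw [← Finset.sum_add_distrib]
    refine Finset.sum_congr rfl fun j _ => ?_
    ring
  rw [LinearMap.dualMap_apply, h2, h3] at h1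
  rw [LinearMap.smul_apply, smul_eq_mul, ← mul_assoc, mul_inv_cancel₀ hG.two, one_mul, h1]

end JD
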