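import Pool.Agent.H13.JN.Red5
import Pool.Agent.H13.JN.CliW
import Pool.Agent.H9.JN.One
import Pool.Agent.H9.JP.W6
import Pool.Agent.H9.JP.W7
import Pool.Agent.H9.JP.WC
import Pool.Agent.H78.L2.C8

set_option autoImplicit false
set_option linter.unusedSectionVars false

/-!
# JN Main: critical algebras have at most three generators (helper13)
-/

namespace JD

universe u

open Module


section cases

variable {K : Type u} [Field K] {J : Type u} [NonUnitalNonAssocCommRing J]
  [Module K J] [IsScalarTower K J J] [SMulCommClass K J J] {c : ℕ} {e : J}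

private theorem Main_finrank (h : Crit K J c e) :
    ngen K J + finrank K (jpow K J 2) = finrank K J := by
  have := h.fin
  have := (jpow K J 2).finrank_quotient_add_finrank
  unfold ngen
  omega

private theorem Main_d2 (h : Crit K J c e) (hn : 4 ≤ ngen K J) :
    finrank K (jpow K J 2) ≤ 7 := by
  have h1 := Main_finrank h
  have h2 := h.dim
  omega

private theorem Main_sum (h : Crit K J c e) (hc : 2 ≤ c) (hn : 4 ≤ ngen K J) :
    ∑ i ∈ Finset.Ico 2 c, dlay K J i ≤ 6 := by
  have := h.fin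
  have key : ∀ m, 2 ≤ m → ∑ i ∈ Finset.Ico 2 m, dlay K J i + finrank K (jpow K J m) =
      finrank K (jpow K J 2) := by
    intro m hm
    induction m, hm using Nat.le_induction with
    | base => simp
    | succ m hm ih =>
      rw [Finset.sum_Ico_succ_top hm]
      have h1 : finrank K (jpow K J (m + 1)) ≤ finrank K (jpow K J m) :=
        Submodule.finrank_mono (jpow_succ_le m)
      unfold dlay at ih ⊢
      omega
  have h1 := key c hc
  have h2 : finrank K (jpow K J c) = 1 := by
    rw [h.top]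
    exact finrank_span_singleton h.ne
  have h3 := Main_d2 h hn
  omega

private theorem Main_xp (x : J) : ∀ n, L2.xp x n = xp x n
  | 0 => rfl
  | 1 => rfl
  | n + 2 => by
    have ih := Main_xp x (n + 1)
    rw [L2.xp_succ x (by omega : 1 ≤ n + 1), xp_succ x (by omega : 1 ≤ n + 1), ih]

theorem crit_n_c8 [IsAlgClosed K] (h : Crit K J 8 e) (hn : 4 ≤ ngen K J) : False := by
  have := h.fin
  have : Infinite K := IsAlgClosed.instInfinite
  obtain ⟨-, x, hx⟩ := exists_xp_ne h.two h.jordan (by norm_num) h.ne h.top h.bot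
    (Main_sum h (by norm_num) hn)
  exact crit_c8 h hn (x := x) (by rw [Main_xp]; exact hx)

theorem crit_n_c7 [IsAlgClosed K] (h : Crit K J 7 e) (hn : 4 ≤ ngen K J) : False := by
  have := h.fin
  have : Infinite K := IsAlgClosed.instInfinite
  obtain ⟨-, x0, hx0⟩ := exists_xp_ne h.two h.jordan (by norm_num) h.ne h.top h.bot
    (Main_sum h (by norm_num) hn)
  obtain ⟨n, hn'⟩ : ∃ n, ngen K J = n + 1 := ⟨ngen K J - 1, by omega⟩
  obtain ⟨x, Φ, hx, hxx, hΦ, hbot⟩ := weights7 h.two h.jordan h.ne h.top h.bot hx0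
    (Main_d2 h hn) hn'
  exact critW_curv7 h (by omega) x hx 0 Φ hΦ hbot (by rw [hxx]; exact hx0)

theorem crit_n_c6 [IsAlgClosed K] (h : Crit K J 6 e) (hn : 4 ≤ ngen K J) : False := by
  have := h.fin
  have : Infinite K := IsAlgClosed.instInfinite
  obtain ⟨A, i1, i2, i3, i4, D, π, hG, hGF, hmap, hπ, hker, hkill, htk, hdim, hsum⟩ :=
    exists_GJ K J h.two h.jordan 6 (by norm_num) e h.ne h.top h.bot
  rcases gj_curv h.two h.jordan le_rfl h.ne h.top h.bot (Main_sum h (by norm_num) hn) hG hmap hπ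
    htk hdim with d1 | ⟨-, d1, d2, d3, d4, d5, -, -⟩
  · obtain ⟨n, hn'⟩ : ∃ n, ngen K J = n + 1 := ⟨ngen K J - 1, by omega⟩
    obtain ⟨x, Φ, hx, hxx, hΦ, hbot⟩ := weights6 h.two h.jordan h.ne h.bot h.ann_le hG hmap hπ
      hkill htk d1 (Main_d2 h hn) hn'
    exact critW_curv6 h (by omega) x hx 0 Φ hΦ hbot hxx
  · have hfr := Main_finrank h
    have hd := h.dim
    have e2 : finrank K (D 2) + finrank K (jpow K J 3) ≤ finrank K (jpow K J 2) :=
      hdim 2 (by norm_num)
    have e3 : finrank K (D 3) + finrank K (jpow K J 4) ≤ finrank K (jpow K J 3) :=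
      hdim 3 (by norm_num)
    have e4 : finrank K (D 4) + finrank K (jpow K J 5) ≤ finrank K (jpow K J 4) :=
      hdim 4 (by norm_num)
    have e5 : finrank K (D 5) + finrank K (jpow K J 6) ≤ finrank K (jpow K J 5) :=
      hdim 5 (by norm_num)
    have e6 : finrank K (jpow K J 6) = 1 := by
      rw [h.top]
      exact finrank_span_singleton h.ne
    have hn4 : ngen K J = 4 := by omega
    obtain ⟨x, Φ, hx, hΦ, hbot, e3, h00, h11, h01⟩ := weightsC' h.two h.jordan h.ne h.top h.bot hG hmap
      hπ hkill hdim d1 d2 d3 d4 d5 (Main_d2 h hn) hn4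
    exact critW_cliff h x hx Φ hΦ hbot e3.ge (e3 ▸ h00) (e3 ▸ h11) h01

theorem crit_n_ge_four_main [IsAlgClosed K] (h : Crit K J c e) (hn : 4 ≤ ngen K J) : False := by
  have := h.fin
  have : Infinite K := IsAlgClosed.instInfinite
  by_cases hc4 : c ≤ 4
  · exact crit_n_c4 h hc4 (by omega)
  have hc8 : c ≤ 8 := class_le_eight h.two h.jordan h.ne h.top h.bot (Main_sum h (by omega) hn)
  obtain rfl | rfl | rfl | rfl : c = 5 ∨ c = 6 ∨ c = 7 ∨ c = 8 := by omega
  · exact crit5_n h hn
  · exact crit_n_c6 h hn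
  · exact crit_n_c7 h hn
  · exact crit_n_c8 h hn

end cases

end JD
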