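import Pool.Agent.H13.JN.K5L

set_option autoImplicit false
set_option linter.unusedSectionVars false

/-!
# JN Om2: class 5, `dim D 4 = 1`, `dim D 2 = 2`: the condition (ω) (helper13)

(ω): `b (c (y y')) = c (b (y y'))` for `y, y' ∈ Y5`, `b, c ∈ D 1`. As `b (c h) - c (b h) ∈ D 4` and
`k4 (b (c h) - c (b h)) = kk c b h - kk b c h` (definition of `kk`, `c b = b c`), (ω) says: `kk c b h = kk b c h` for `h = y y'`. [`omega_iff`]

PROOF of `omega_two`. Suppose (ω) fails. Then `Y5 ≠ D 1` (otherwise `kk = 0` by `kk_mem_Y5`); so there is a functional `ζ0`, zero on `Y5`, with `ζ0 (b0) = 1`,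
`b0 ∈ D 1`. There are `y, y' ∈ Y5` with `y y' ≠ 0`; call `s` this product.
(1) EVERY FUNCTIONAL `ζ` WITH `ζ = 0` ON `Y5` IS A MULTIPLE OF `ζ0` ON `D 1`. Let `n`, `n0` be the forms of `ζ`, `ζ0` (`nform`). For `y, y' ∈ Y5`: `2 n(y y') = 0 = 2 n0(y y')`. So `n` and `n0`
vanish on `s ≠ 0`; `finrank (D 2) = 2`, so there is `(a,b) ≠ (0,0)` with `a n + b n0 = 0` on `D 2`; `nform_inj` for `a ζ + b ζ0` gives `a ζ + b ζ0 = 0` on `D 1`; `a ≠ 0` as `ζ0 b0 = 1`.
(2) So for `c ∈ D 1`, `h ∈ D 2`: `kk c v h = kk c b0 h * ζ0 v` for all `v ∈ D 1` (the functional `v ↦ kk c v h` vanishes on `Y5` by `kk_mem_Y5`). In particular `v ∈ D 1` with `ζ0 v = 0` is in `Y5` (`kk_mem_Y5`).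
(3) `n0 ≠ 0` on `D 2` (`nform_inj`), `n0 (y y') = 0` for `y, y' ∈ Y5`, so all products `y y'` (`y, y' ∈ Y5`) are in the one-dimensional space `D 2 ⊓ ker n0 = F s`: `y y' = β(y,y') s`, `β` bilinear symmetric
(e.g. `β = φ (y * y')` with a functional `φ`, `φ s = 1`). `kk_sq` (`w = b0`): `β(x,x) kk x b0 s = 0` for `x ∈ Y5`; `quad_lin`: `β = 0` on `Y5` (impossible, as `s` is such a product) or
`kk x b0 s = 0` for all `x ∈ Y5`.
(4) For `b, c ∈ D 1`: `c - ζ0(c) b0 ∈ Y5` by (2), so `kk c b s = kk c b0 s * ζ0 b = ζ0(c) ζ0(b) kk b0 b0 s`: symmetric in `b, c`. So (ω) holds for `s`, and every `y y'` is a multiple of `s`. Contradiction.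
-/

namespace JD

universe u

variable {F : Type u} [Field F] {A : Type u} [NonUnitalNonAssocCommRing A] [Module F A]
  [IsScalarTower F A A] [SMulCommClass F A A] {D : ℕ → Submodule F A}
  {g u : A} {k4 k5 θ : A →ₗ[F] F}

/-- `kk` as a linear function of the second argument -/
private def Om2_L (k4 : A →ₗ[F] F) (c h : A) : A →ₗ[F] F where
  toFun v := kk k4 c v h
  map_add' v w := by
    simp only [kk, mul_add, add_mul, map_sub, map_add]
    ring
  map_smul' r v := by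
    simp only [kk, mul_smul_comm, smul_mul_assoc, map_sub, map_smul, smul_eq_mul,
      RingHom.id_apply]
    ring

/-- `kk` as a linear function of the first argument -/
private def Om2_M (k4 : A →ₗ[F] F) (v h : A) : A →ₗ[F] F where
  toFun c := kk k4 c v h
  map_add' c w := by
    simp only [kk, add_mul, map_sub, map_add]
    ring
  map_smul' r c := by
    simp only [kk, smul_mul_assoc, map_sub, map_smul, smul_eq_mul,
      RingHom.id_apply]
    ring

private theorem Om2_smul_right (k4 : A →ₗ[F] F) (c v h : A) (r : F) :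
    kk k4 c v (r • h) = r * kk k4 c v h := by
  simp only [kk, mul_smul_comm, map_sub, map_smul, smul_eq_mul]
  ring

private theorem Om2_mem {c : ℕ} (hG : GJ F A c D) {m n l : ℕ} (hm : 1 ≤ m) (hn : 1 ≤ n)
    (hl : m + n = l) {a b : A} (ha : a ∈ D m) (hb : b ∈ D n) : a * b ∈ D l := by
  subst hl
  exact hG.mul_mem m n hm hn a ha b hb

theorem omega_iff (hG : GJ F A 5 D) (hK : K5 D g u k4 k5 θ) (b c h : A) (hb : b ∈ D 1)
    (hc : c ∈ D 1) (hh : h ∈ D 2) : b * (c * h) = c * (b * h) ↔ kk k4 c b h = kk k4 b c h := by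
  have h1 : kk k4 c b h - kk k4 b c h = k4 (b * (c * h) - c * (b * h)) := by
    unfold kk
    rw [mul_comm c b]
    simp only [map_sub]
    ring
  have hm : b * (c * h) - c * (b * h) ∈ D 4 :=
    (D 4).sub_mem
      (Om2_mem hG (m := 1) (n := 3) le_rfl (by norm_num) (by norm_num) hb
        (Om2_mem hG (m := 1) (n := 2) le_rfl (by norm_num) (by norm_num) hc hh))
      (Om2_mem hG (m := 1) (n := 3) le_rfl (by norm_num) (by norm_num) hc
        (Om2_mem hG (m := 1) (n := 2) le_rfl (by norm_num) (by norm_num) hb hh))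
  constructor
  · intro h2
    rw [h2, sub_self, map_zero] at h1
    exact sub_eq_zero.mp h1
  · intro h2
    rw [h2, sub_self] at h1
    have h3 := hK.h4 _ hm
    rw [← h1, zero_smul] at h3
    exact sub_eq_zero.mp h3

private theorem Om2_pair [Module.Finite F A] {T : Submodule F A} (hT : Module.finrank F T = 2)
    {s : A} (hs : s ∈ T) (hs0 : s ≠ 0) :
    ∃ s' ∈ T, ∀ h ∈ T, ∃ α β : F, h = α • s + β • s' := by
  obtain ⟨s₁, hs₁, s₂, hs₂, φ₁, φ₂, -, -, -, -, hφ⟩ := exists_coord2 hT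
  by_cases h1 : φ₁ s = 0
  · have h2 : φ₂ s ≠ 0 := by
      intro h2
      apply hs0
      rw [hφ s hs, h1, h2, zero_smul, zero_smul, add_zero]
    have h3 : s₂ = (φ₂ s)⁻¹ • s := by
      have h4 : φ₂ s • s₂ = s := by
        have h5 := hφ s hs
        rw [h1, zero_smul, zero_add] at h5
        exact h5.symm
      calc s₂ = (φ₂ s)⁻¹ • (φ₂ s • s₂) := by rw [smul_smul, inv_mul_cancel₀ h2, one_smul]
        _ = (φ₂ s)⁻¹ • s := by rw [h4]
    refine ⟨s₁, hs₁, fun h hh => ⟨φ₂ h * (φ₂ s)⁻¹, φ₁ h, ?_⟩⟩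
    rw [mul_smul, ← h3, add_comm]
    exact hφ h hh
  · refine ⟨s₂, hs₂, fun h hh => ⟨φ₁ h * (φ₁ s)⁻¹, φ₂ h - φ₁ h * (φ₁ s)⁻¹ * φ₂ s, ?_⟩⟩
    have h4 : φ₁ s • s₁ = s - φ₂ s • s₂ := by
      rw [eq_sub_iff_add_eq]
      exact (hφ s hs).symm
    have h5 : s₁ = (φ₁ s)⁻¹ • (s - φ₂ s • s₂) := by
      rw [← h4, smul_smul, inv_mul_cancel₀ h1, one_smul]
    calc h = φ₁ h • s₁ + φ₂ h • s₂ := hφ h hh
      _ = φ₁ h • ((φ₁ s)⁻¹ • (s - φ₂ s • s₂)) + φ₂ h • s₂ := by rw [← h5]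
      _ = _ := by module

theorem omega_two (hG : GJ F A 5 D) (hK : K5 D g u k4 k5 θ) (h2 : Module.finrank F (D 2) = 2) :
    ∀ y ∈ Y5 D, ∀ y' ∈ Y5 D, ∀ b ∈ D 1, ∀ c ∈ D 1, b * (c * (y * y')) = c * (b * (y * y')) := by
  have hfin := hG.fin
  have hinf := hG.inf
  have htwo := hG.two
  intro y hy y' hy' b hb c hc
  by_contra hfail
  set s : A := y * y' with hs
  have hsD : s ∈ D 2 :=
    Om2_mem hG (m := 1) (n := 1) le_rfl le_rfl (by norm_num) hy.1 hy'.1
  have hs0 : s ≠ 0 := by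
    intro h0
    apply hfail
    rw [h0, mul_zero, mul_zero, mul_zero]
  obtain ⟨s', hs'D, hsp⟩ := Om2_pair h2 hsD hs0
  obtain ⟨r, v, ζ, hv, hζ0, hζ1, hζ2⟩ := comp_exists (Y5 D) (D 1) (fun v hv => hv.1)
  -- `Y5 ≠ D 1`
  have hr : 0 < r := by
    rcases Nat.eq_zero_or_pos r with h0 | h0
    · exfalso
      subst h0
      have h3 : ∀ w ∈ D 1, w ∈ Y5 D := by
        intro w hw
        have := hζ2 w hw
        simpa using this
      apply hfail
      rw [omega_iff hG hK b c s hb hc hsD, ((kk_mem_Y5 hG hK b).mp (h3 b hb)).2 c hc s hsD,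
        ((kk_mem_Y5 hG hK c).mp (h3 c hc)).2 b hb s hsD]
    · exact h0
  set i0 : Fin r := ⟨0, hr⟩ with hi0
  have hb0 := hv i0
  set b0 := v i0 with hb0d
  have hz0 : ∀ y ∈ Y5 D, ζ i0 y = 0 := hζ0 i0
  have hz1 : ζ i0 b0 = 1 := by
    rw [hb0d, hζ1, if_pos rfl]
  set ζ0 := ζ i0 with hζ0d
  obtain ⟨n0, hn0⟩ := nform hG hK ζ0 hz0
  have hYY : ∀ x ∈ Y5 D, ∀ x' ∈ Y5 D, ∀ (ζ n : A →ₗ[F] F), (∀ y ∈ Y5 D, ζ y = 0) →
      (∀ a ∈ D 1, ∀ b ∈ D 1, 2 * n (a * b) = θ a * ζ b + θ b * ζ a) → n (x * x') = 0 := by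
    intro x hx x' hx' ζ n hz hn
    have h3 := hn x hx.1 x' hx'.1
    rw [hz x hx, hz x' hx', mul_zero, mul_zero, add_zero] at h3
    exact (mul_eq_zero.mp h3).resolve_left htwo
  have hn0s' : n0 s' ≠ 0 := by
    intro h0
    have h3 : ∀ a ∈ D 1, ζ0 a = 0 := by
      apply nform_inj hG hK ζ0 n0 hn0
      intro h hh
      obtain ⟨α, β, rfl⟩ := hsp h hh
      rw [map_add, map_smul, map_smul, h0, hs, hYY y hy y' hy' ζ0 n0 hz0 hn0, smul_zero,
        smul_zero, add_zero]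
    have h4 := h3 b0 hb0
    rw [hz1] at h4
    exact one_ne_zero h4
  -- (1)
  have hmult : ∀ η : A →ₗ[F] F, (∀ y ∈ Y5 D, η y = 0) → ∀ w ∈ D 1, η w = η b0 * ζ0 w := by
    intro η hη
    obtain ⟨n, hn⟩ := nform hG hK η hη
    have h3 : ∀ a ∈ D 1, (η - (n s' / n0 s') • ζ0) a = 0 := by
      apply nform_inj hG hK _ (n - (n s' / n0 s') • n0)
      · intro a ha b hb
        simp only [LinearMap.sub_apply, LinearMap.smul_apply, smul_eq_mul]
        linear_combination hn a ha b hb - (n s' / n0 s') * hn0 a ha b hb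
      · intro h hh
        obtain ⟨α, β, rfl⟩ := hsp h hh
        simp only [LinearMap.sub_apply, LinearMap.smul_apply, smul_eq_mul, map_add, map_smul]
        rw [hs, hYY y hy y' hy' ζ0 n0 hz0 hn0, hYY y hy y' hy' η n hη hn]
        field_simp
        ring
    intro w hw
    have h4 := h3 w hw
    have h5 := h3 b0 hb0
    simp only [LinearMap.sub_apply, LinearMap.smul_apply, smul_eq_mul] at h4 h5
    rw [hz1, mul_one] at h5
    rw [sub_eq_zero.mp h5, sub_eq_zero.mp h4]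
  -- (2)
  have hkk : ∀ c ∈ D 1, ∀ h ∈ D 2, ∀ v ∈ D 1, kk k4 c v h = kk k4 c b0 h * ζ0 v := by
    intro c hc h hh v hv
    exact hmult (Om2_L k4 c h) (fun y hy => ((kk_mem_Y5 hG hK y).mp hy).2 c hc h hh) v hv
  have hproj : ∀ c ∈ D 1, c - ζ0 c • b0 ∈ Y5 D := by
    intro c hc
    have hm : c - ζ0 c • b0 ∈ D 1 := (D 1).sub_mem hc ((D 1).smul_mem _ hb0)
    rw [kk_mem_Y5 hG hK]
    refine ⟨hm, fun c' hc' h hh => ?_⟩
    rw [hkk c' hc' h hh _ hm, map_sub, map_smul, hz1, smul_eq_mul, mul_one, sub_self, mul_zero]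
  -- (3)
  obtain ⟨φ, hφ⟩ : ∃ φ : A →ₗ[F] F, φ s = 1 := by
    obtain ⟨φ, hφ⟩ : ∃ φ : A →ₗ[F] F, φ s ≠ 0 := by
      by_contra hcon
      push Not at hcon
      exact hs0 ((Module.forall_dual_apply_eq_zero_iff F s).mp hcon)
    exact ⟨(φ s)⁻¹ • φ, by simp [hφ]⟩
  have hprod : ∀ x ∈ Y5 D, ∀ x' ∈ Y5 D, x * x' = φ (x * x') • s := by
    intro x hx x' hx'
    have hD : x * x' ∈ D 2 :=
      Om2_mem hG (m := 1) (n := 1) le_rfl le_rfl (by norm_num) hx.1 hx'.1
    obtain ⟨α, β, he⟩ := hsp _ hD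
    have h3 := hYY x hx x' hx' ζ0 n0 hz0 hn0
    rw [he, map_add, map_smul, map_smul, hs, hYY y hy y' hy' ζ0 n0 hz0 hn0, smul_zero, zero_add,
      smul_eq_mul] at h3
    have h4 : β = 0 := (mul_eq_zero.mp h3).resolve_right hn0s'
    rw [h4, zero_smul, add_zero] at he
    rw [he, map_smul, hφ, smul_eq_mul, mul_one]
  have hlam : ∀ x ∈ Y5 D, kk k4 x b0 s = 0 := by
    rcases quad_lin htwo (Y5 D) ((LinearMap.mul F A).compr₂ φ) (fun x _ z _ => by
      simp only [LinearMap.compr₂_apply, LinearMap.mul_apply', mul_comm x z])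
      (Om2_M k4 b0 s) (fun x hx => by
        have h3 := kk_sq hG k4 x b0
        rw [hprod x hx x hx, Om2_smul_right] at h3
        exact h3) with h3 | h3
    · exact h3
    · exfalso
      have h4 := h3 y hy y' hy'
      simp only [LinearMap.compr₂_apply, LinearMap.mul_apply'] at h4
      rw [← hs, hφ] at h4
      exact one_ne_zero h4
  -- (4)
  have hc1 : ∀ c ∈ D 1, kk k4 c b0 s = ζ0 c * kk k4 b0 b0 s := by
    intro c hc
    have h3 := hlam _ (hproj c hc)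
    have h4 : kk k4 (c - ζ0 c • b0) b0 s = kk k4 c b0 s - ζ0 c * kk k4 b0 b0 s := by
      have h5 := map_sub (Om2_M k4 b0 s) c (ζ0 c • b0)
      rw [map_smul] at h5
      exact h5
    rw [h4] at h3
    exact sub_eq_zero.mp h3
  apply hfail
  rw [omega_iff hG hK b c s hb hc hsD, hkk c hc s hsD b hb, hkk b hb s hsD c hc, hc1 c hc,
    hc1 b hb]
  ring

end JD
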