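import Pool.Agent.H13.JN.Crit5
import Pool.Agent.H13.JN.Gens9
import Pool.Agent.H13.JN.C5Low

set_option autoImplicit false
set_option linter.unusedSectionVars false

/-!
# JN Red5: class 5, at least 4 generators (helper13)

`crit5_good`: `J` critical of class 5, `n = ngen ≥ 4`, `A, D, π` the graded algebra of `J` (conclusions of `exists_GJ`), `y : Fin m → A` a basis of `D 1` with `Good5 F D y`: contradiction.
PROOF. `adapted_gens` for `p = π 1` (`LinearMap.range (π 1) = D 1` since `jpow 1 = ⊤`; `π 1` kills `J^2`): `x`. Let `t` be the base of `Good5`. Define the base `tJ i j k l ∈ J^4` for `i < j < k < l`: if `l < m` a preimage in `J^4` of `t i j k l` under `π 4` (`(J^4).map (π 4) = D 4`), else `0`; (anything in `J^4` otherwise, e.g. `0`).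
`exists_Q4` (`J^6 = 0`, so `J^8 = 0`): `q` on `x`; `q ∈ J^4` (`Q4_mem_jpow`). Apply `crit5`. Let `c'` be symmetric with `∑ c'_ij x_i x_j ∈ J^3` and `a, b, d` distinct. `T5 x q c' a b d ∈ J^5` and `π 5` is injective on `J^5`: show `π 5 (T5) = 0`.
`q' := π 4 ∘ q` is a `Q4` system for `y' := π 1 ∘ x` (`Q4.map` with `Φ = jpow`), and `π 5 (T5 x q c' a b d) = T5 y' q' c' a b d` (multiplicativity of `π`). `y' i = y i` for `i < m`, `y' i = 0` for `i ≥ m`.
(a) `q' i j k l = 0` if one of the indices is `≥ m`: `Q4.mem` with `T = ⊥` (all `s3` terms contain a zero letter; sorted tuples containing an index `≥ m` have `l ≥ m`, base `0`).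
(b) If one of `a, b, d` is `≥ m`: every term of `T5 y' q' c' a b d` is `0`. Otherwise `a, b, d < m`, the terms with `i ≥ m` or `j ≥ m` vanish, and `T5 y' q' c' a b d = T5 y q'' c'' a b d` with the restrictions `q'', c''` to `Fin m` (`Q4.comp` along the inclusion `Fin m → Fin n`);
`q''` has base `t`; `∑_{i,j<m} c''_ij y_i y_j = π 2 (∑ c'_ij x_i x_j) = 0` as `π 2` kills `J^3`. So `T5 = 0` by `Good5`.

`crit5_n`: `exists_GJ` with `c = 5`, `good5_main`. `hd`: `finrank (D 1) ≤ n` (`finrank (D 1) + finrank J^2 ≤ finrank J`), `finrank (D i) ≤ dlay i`, `∑_{i=1}^{5} dlay i = finrank J ≤ 11` and `dlay 5 = 1`: `n' + d2 + d3 + d4 ≤ 10`. (Directly: add the inequalities `finrank (D i) + finrank (J^(i+1)) ≤ finrank (J^i)`, `i = 1..4`,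
`finrank (J^5) = 1`.) `hsp`: `finrank (D 1) ≤ 3`: `finrank A ≤ ∑ finrank (D i)` (`GF_dim`) `≤ 3 + finrank (J^2) < n + finrank (J^2) = finrank J`; `A` is nilpotent (`GF_pow`), Jordan, finite: special by `h.minDim`.
-/

namespace JD

universe u

variable {K : Type u} [Field K] {J : Type u} [NonUnitalNonAssocCommRing J] [Module K J]
  [IsScalarTower K J J] [SMulCommClass K J J] {e : J}

private theorem Red5_sum {A : Type u} [AddCommMonoid A] {m n : ℕ} (hmn : m ≤ n) (g : Fin n → A)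
    (hg : ∀ i : Fin n, m ≤ (i : ℕ) → g i = 0) :
    ∑ i, g i = ∑ i : Fin m, g (Fin.castLE hmn i) := by
  refine (Fintype.sum_of_injective (Fin.castLE hmn) (Fin.castLE_injective hmn)
    (fun i => g (Fin.castLE hmn i)) g (fun i hi => ?_) (fun i => rfl)).symm
  apply hg
  by_contra hlt
  push Not at hlt
  exact hi ⟨⟨i, hlt⟩, by ext; simp⟩

private theorem Red5_s3_mem {a b c : J} (ha : a ∈ jpow K J 1) (hb : b ∈ jpow K J 1)
    (hc : c ∈ jpow K J 1) : s3 a b c ∈ jpow K J 3 := by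
  unfold s3
  exact Submodule.sub_mem _ (Submodule.add_mem _ (mul_mem_jpow ha (mul_mem_jpow hb hc))
    (mul_mem_jpow hc (mul_mem_jpow ha hb))) (mul_mem_jpow hb (mul_mem_jpow ha hc))

theorem crit5_good (h : Crit K J 5 e) (hn : 4 ≤ ngen K J)
    {A : Type u} [NonUnitalNonAssocCommRing A] [Module K A] [IsScalarTower K A A]
    [SMulCommClass K A A] {D : ℕ → Submodule K A} {π : ℕ → J →ₗ[K] A} (hG : GJ K A 5 D)
    (hmap : ∀ i, 1 ≤ i → (jpow K J i).map (π i) = D i)
    (hπ : ∀ i j, 1 ≤ i → 1 ≤ j → ∀ a ∈ jpow K J i, ∀ b ∈ jpow K J j,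
        π (i + j) (a * b) = π i a * π j b)
    (hkill : ∀ i, 1 ≤ i → ∀ a ∈ jpow K J (i + 1), π i a = 0)
    (htk : ∀ a ∈ jpow K J 5, π 5 a = 0 → a = 0)
    {m : ℕ} (y : Fin m → A) (hy : LinearIndependent K y)
    (hspan : Submodule.span K (Set.range y) = D 1) (hgood : Good5 K D y) : False := by
  have hfin := h.fin
  have hJ1 : ∀ x : J, x ∈ jpow K J 1 := fun x => by rw [jpow_one]; exact Submodule.mem_top
  have hrange : LinearMap.range (π 1) = D 1 := by
    rw [← hmap 1 le_rfl, jpow_one, Submodule.map_top]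
  obtain ⟨hmn, x, hx, hx1, hx2⟩ := adapted_gens ⟨6, by norm_num, h.bot⟩ (π 1)
    (fun a ha => hkill 1 le_rfl a ha) y hy (by rw [hspan, hrange])
  obtain ⟨t, htD, hgood⟩ := hgood
  have hex : ∀ i j k l : Fin (ngen K J), ∃ z ∈ jpow K J 4,
      (∀ (hi : (i : ℕ) < m) (hj : (j : ℕ) < m) (hk : (k : ℕ) < m) (hl : (l : ℕ) < m),
        π 4 z = t ⟨i, hi⟩ ⟨j, hj⟩ ⟨k, hk⟩ ⟨l, hl⟩) ∧
      (m ≤ (i : ℕ) ∨ m ≤ (j : ℕ) ∨ m ≤ (k : ℕ) ∨ m ≤ (l : ℕ) → π 4 z = 0) := by
    intro i j k l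
    by_cases hc : (i : ℕ) < m ∧ (j : ℕ) < m ∧ (k : ℕ) < m ∧ (l : ℕ) < m
    · obtain ⟨hi, hj, hk, hl⟩ := hc
      have h1 := htD ⟨i, hi⟩ ⟨j, hj⟩ ⟨k, hk⟩ ⟨l, hl⟩
      rw [← hmap 4 (by norm_num)] at h1
      obtain ⟨z, hz, hz'⟩ := Submodule.mem_map.mp h1
      exact ⟨z, hz, fun _ _ _ _ => hz', fun hbad => by omega⟩
    · exact ⟨0, Submodule.zero_mem _, fun hi hj hk hl => absurd ⟨hi, hj, hk, hl⟩ hc,
        fun _ => map_zero _⟩
  choose tJ htJ htJ1 htJ2 using hex
  have h8 : jpow K J 8 = ⊥ := by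
    rw [eq_bot_iff, ← h.bot]
    exact jpow_anti (by norm_num)
  obtain ⟨q, hq, hqt⟩ := exists_Q4 h.two h.jordan h8 (by omega) x tJ
  have hq4 : ∀ a b c d, q a b c d ∈ jpow K J 4 :=
    Q4_mem_jpow h.two x q hq (fun i j k l h1 h2 h3 => by
      rw [hqt i j k l h1 h2 h3]; exact htJ i j k l)
  -- the images
  have hq' : Q4 K (fun i => π 1 (x i)) (fun a b c d => π 4 (q a b c d)) :=
    hq.map (jpow K J) π (fun i => hJ1 _) (fun m n a ha b hb => mul_mem_jpow ha hb) hπ
  have hbad : ∀ i j k l : Fin (ngen K J),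
      (m ≤ (i : ℕ) ∨ m ≤ (j : ℕ) ∨ m ≤ (k : ℕ) ∨ m ≤ (l : ℕ)) → π 4 (q i j k l) = 0 := by
    intro i j k l hb
    have key : ∀ i' j' k' l' : Fin (ngen K J), [i', j', k', l'].Perm [i, j, k, l] →
        (m ≤ (i' : ℕ) ∨ m ≤ (j' : ℕ) ∨ m ≤ (k' : ℕ) ∨ m ≤ (l' : ℕ)) := by
      intro i' j' k' l' hp
      obtain ⟨z, hz, hzm⟩ : ∃ z ∈ [i, j, k, l], m ≤ (z : ℕ) := by
        rcases hb with hb | hb | hb | hb
        · exact ⟨i, by simp, hb⟩
        · exact ⟨j, by simp, hb⟩
        · exact ⟨k, by simp, hb⟩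
        · exact ⟨l, by simp, hb⟩
      have := hp.symm.mem_iff.mp hz
      simp only [List.mem_cons, List.not_mem_nil, or_false] at this
      rcases this with rfl | rfl | rfl | rfl
      · exact Or.inl hzm
      · exact Or.inr (Or.inl hzm)
      · exact Or.inr (Or.inr (Or.inl hzm))
      · exact Or.inr (Or.inr (Or.inr hzm))
    have := hq'.mem h.two ⊥ i j k l
      (fun i' j' k' l' hp => by
        rw [Submodule.mem_bot]
        rcases key i' j' k' l' hp with hb | hb | hb | hb <;> simp [hx2 _ hb])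
      (fun i' j' k' l' hp => by
        rw [Submodule.mem_bot]
        rcases key i' j' k' l' hp with hb | hb | hb | hb <;> simp [hx2 _ hb])
      (fun i' j' k' l' hp => by
        rw [Submodule.mem_bot]
        rcases key i' j' k' l' hp with hb | hb | hb | hb <;> simp [hx2 _ hb])
      (fun i' j' k' l' hp h1 h2 h3 => by
        rw [Submodule.mem_bot, hqt i' j' k' l' h1 h2 h3]
        exact htJ2 i' j' k' l' (key i' j' k' l' hp))
    rwa [Submodule.mem_bot] at this
  have hs3 : ∀ a b c : J, π 3 (s3 a b c) = s3 (π 1 a) (π 1 b) (π 1 c) := by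
    intro a b c
    have e2 : ∀ a b : J, π 2 (a * b) = π 1 a * π 1 b := fun a b =>
      hπ 1 1 le_rfl le_rfl a (hJ1 a) b (hJ1 b)
    have e3 : ∀ a b c : J, π 3 (a * (b * c)) = π 1 a * (π 1 b * π 1 c) := fun a b c => by
      have := hπ 1 2 le_rfl (by norm_num) a (hJ1 a) (b * c) (mul_mem_jpow (hJ1 b) (hJ1 c))
      rw [e2] at this
      exact this
    simp only [s3, map_add, map_sub, e3]
  refine crit5 h le_rfl x hx q hq hq4 fun c' hc' hr a b d hab had hbd => ?_
  apply htk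
  · unfold T5
    refine Submodule.sum_mem _ fun i _ => Submodule.sum_mem _ fun j _ => Submodule.smul_mem _ _ ?_
    exact mul_mem_jpow (hJ1 _) (Submodule.sub_mem _ (hq4 _ _ _ _)
      (mul_mem_jpow (hJ1 _) (Red5_s3_mem (hJ1 _) (hJ1 _) (hJ1 _))))
  have hπ5 : π 5 (T5 x q c' a b d) = ∑ i, ∑ j, c' i j • (π 1 (x i) * (π 4 (q j a b d) -
      π 1 (x j) * s3 (π 1 (x a)) (π 1 (x b)) (π 1 (x d)))) := by
    unfold T5
    rw [map_sum]
    refine Finset.sum_congr rfl fun i _ => ?_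
    rw [map_sum]
    refine Finset.sum_congr rfl fun j _ => ?_
    have e4 := hπ 1 3 le_rfl (by norm_num) (x j) (hJ1 _) (s3 (x a) (x b) (x d))
      (Red5_s3_mem (hJ1 _) (hJ1 _) (hJ1 _))
    have e5 := hπ 1 4 le_rfl (by norm_num) (x i) (hJ1 _) (q j a b d - x j * s3 (x a) (x b) (x d))
      (Submodule.sub_mem _ (hq4 _ _ _ _)
      (mul_mem_jpow (hJ1 _) (Red5_s3_mem (hJ1 _) (hJ1 _) (hJ1 _))))
    rw [show (1 : ℕ) + 3 = 4 from rfl, hs3] at e4
    rw [show (1 : ℕ) + 4 = 5 from rfl, map_sub, e4] at e5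
    rw [map_smul, e5]
  rw [hπ5]
  by_cases hc : (a : ℕ) < m ∧ (b : ℕ) < m ∧ (d : ℕ) < m
  · obtain ⟨ha, hb, hd⟩ := hc
    have hyx : ∀ i : Fin m, π 1 (x (Fin.castLE hmn i)) = y i := fun i => hx1 _ i.2
    have h0 : ∑ i, ∑ j, c' (Fin.castLE hmn i) (Fin.castLE hmn j) • (y i * y j) = 0 := by
      have e1 := hkill 2 (by norm_num) _ hr
      have e2 : ∀ a b : J, π 2 (a * b) = π 1 a * π 1 b := fun a b =>
        hπ 1 1 le_rfl le_rfl a (hJ1 a) b (hJ1 b)
      simp only [map_sum, map_smul, e2] at e1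
      rw [Red5_sum hmn _ (fun i hi => by
        refine Finset.sum_eq_zero fun j _ => ?_
        rw [hx2 i hi, zero_mul, smul_zero])] at e1
      rw [← e1]
      refine Finset.sum_congr rfl fun i _ => ?_
      rw [Red5_sum hmn _ (fun j hj => by rw [hx2 j hj, mul_zero, smul_zero])]
      simp only [hyx]
    have hQ : Q4 K y (fun i j k l => π 4 (q (Fin.castLE hmn i) (Fin.castLE hmn j)
        (Fin.castLE hmn k) (Fin.castLE hmn l))) := by
      have := hq'.comp (Fin.castLE hmn)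
      simp only [hyx] at this
      exact this
    have := hgood _ hQ (fun i j k l h1 h2 h3 => by
      rw [hqt (Fin.castLE hmn i) (Fin.castLE hmn j) (Fin.castLE hmn k) (Fin.castLE hmn l)
        (Fin.lt_def.mpr (Fin.lt_def.mp h1)) (Fin.lt_def.mpr (Fin.lt_def.mp h2))
        (Fin.lt_def.mpr (Fin.lt_def.mp h3))]
      exact htJ1 _ _ _ _ i.2 j.2 k.2 l.2)
      (fun i j => c' (Fin.castLE hmn i) (Fin.castLE hmn j)) (fun i j => hc' _ _) h0
      ⟨a, ha⟩ ⟨b, hb⟩ ⟨d, hd⟩ (by
        intro he; apply hab; ext; exact congrArg (fun z : Fin m => (z : ℕ)) he) (by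
        intro he; apply had; ext; exact congrArg (fun z : Fin m => (z : ℕ)) he) (by
        intro he; apply hbd; ext; exact congrArg (fun z : Fin m => (z : ℕ)) he)
    rw [← this]
    unfold T5
    rw [Red5_sum hmn _ (fun i hi => by
        refine Finset.sum_eq_zero fun j _ => ?_
        rw [hx2 i hi, zero_mul, smul_zero])]
    refine Finset.sum_congr rfl fun i _ => ?_
    rw [Red5_sum hmn _ (fun j hj => by
      rw [hx2 j hj, hbad j a b d (Or.inl hj), zero_mul, sub_zero, mul_zero, smul_zero])]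
    refine Finset.sum_congr rfl fun j _ => ?_
    rw [hyx, hyx, hx1 a ha, hx1 b hb, hx1 d hd]
    rfl
  · have hc' : m ≤ (a : ℕ) ∨ m ≤ (b : ℕ) ∨ m ≤ (d : ℕ) := by omega
    refine Finset.sum_eq_zero fun i _ => Finset.sum_eq_zero fun j _ => ?_
    rw [hbad j a b d (Or.inr hc'), zero_sub]
    have : s3 (π 1 (x a)) (π 1 (x b)) (π 1 (x d)) = 0 := by
      rcases hc' with hb | hb | hb <;> simp [hx2 _ hb]
    rw [this, mul_zero, neg_zero, mul_zero, smul_zero]

theorem crit5_n [IsAlgClosed K] (h : Crit K J 5 e) (hn : 4 ≤ ngen K J) : False := by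
  have hfin := h.fin
  have hinf : Infinite K := IsAlgClosed.instInfinite
  obtain ⟨A, i1, i2, i3, i4, D, π, hGJ, hGF, hmap, hπ, hker, hkill, htk, hdim, hsum⟩ :=
    exists_GJ K J h.two h.jordan 5 (by norm_num) e h.ne h.top h.bot
  have d1 := hdim 1 le_rfl
  have d2 := hdim 2 (by norm_num)
  have d3 := hdim 3 (by norm_num)
  have d4 := hdim 4 (by norm_num)
  have d5 := hdim 5 (by norm_num)
  simp only [Nat.reduceAdd] at d1 d2 d3 d4 d5
  have e5 : Module.finrank K (jpow K J 5) = 1 := by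
    rw [h.top]; exact finrank_span_singleton h.ne
  have e1 : Module.finrank K (jpow K J 1) = Module.finrank K J := by
    rw [jpow_one]; exact finrank_top K J
  have eng : ngen K J + Module.finrank K (jpow K J 2) = Module.finrank K J := by
    unfold ngen
    exact Submodule.finrank_quotient_add_finrank _
  have h11 := h.dim
  obtain ⟨y, hy, hspan, hgood⟩ := good5_main hGJ (fun h3 => by
      have hle := GF_dim hGF
      rw [show Finset.Icc 1 5 = {1, 2, 3, 4, 5} from rfl, Finset.sum_insert (by decide),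
        Finset.sum_insert (by decide), Finset.sum_insert (by decide),
        Finset.sum_insert (by decide), Finset.sum_singleton] at hle
      exact h.minDim A i1 i2 i3 i4 hGF.fin hGF.jordan ⟨6, by norm_num, GF_pow hGF⟩ (by omega))
    (fun h4 => by omega)
  exact crit5_good h hn hGJ hmap hπ hkill htk y hy hspan hgood

end JD
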