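import Pool.Agent.H13.JN.Q4Ex

set_option autoImplicit false
set_option linter.unusedSectionVars false

/-!
# JN SysW: n-letter S-systems by weights (helper13)

`exists_SysW`: `J^8 = 0`, `n ≥ 4` letters, a filtration `Φ` with weights `a`, `Φ (N+1) = 0`, and every word with four distinct letters and at least one more letter has weight `> N`. Then there is an S-system for `x`, which lies in EVERY compatible filtration and vanishes on words of length `≥ 8`.

PROOF. `S0` from `exists_few`, `q` from `exists_Q4` with `t = 0`. `S w := S0 w` if `Few w`; `S [a,b,c,d] := q a b c d` if `¬ Few`; `S w := 0` otherwise. FILTRATIONS: for `Filt F x b Ψ` and `w ≠ []`: `S w ∈ Ψ (wt b w)`: `Few`: `exists_few`; `q a b c d ∈ Ψ(..)` by `Q4.mem` (the `s3` of letters of total weight `W` is in `Ψ W`: `Filt.mul_mem`, `Filt.mem`).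
(Unless `w` is `Few` or of length 4, `S w = 0`.) `nil, single, rev`: `Few w.reverse ↔ Few w` (`Few.sub`); `S0 w.reverse = S0 w` for `Few w` (write `w = w'.map σ`); `Q4.rev`.
`mul` for nonempty `v, w`. If `Few (v ++ w)`: write `v ++ w = u.map σ` (`v = v'.map σ`, `w = w'.map σ`): the rule of the S-system of `σ`; all words involved are `Few`. If `¬ Few (v ++ w)`: `|v| + |w| ≥ 4` (`few_of_le_three`). Length 4: the four letters are distinct (`not_few_four`) and the three cases are: (1,3), (3,1): `Q4.rot` and
`S [b,c,d] = s3` (`SSys.q4` for the three-letter system); (2,2): `sw3` for `(a,b,c,d)` and `(b,a,c,d)`, `s3_swap` (see the header of `Sys5.lean`: the same computations). Length `≥ 5`: all four words on the right are not `Few` and of length `≥ 5`, so `0`; the left side is in `Φ (wt v + wt w)` and `wt (v ++ w) > N` by `not_few` and `h5`: it is in `Φ (N+1) = 0`.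
`bdd`: length `≥ 8`. Span: as at the end of `exists_SSys7` (`4 ≠ 0`).
-/

namespace JD

universe u

variable {F : Type u} [Field F] {J : Type u} [NonUnitalNonAssocCommRing J] [Module F J]
  [IsScalarTower F J J] [SMulCommClass F J J]

private theorem SysW_s3 {ι : Type} {x : ι → J} {b : ι → ℕ} {Ψ : ℕ → Submodule F J}
    (h : Filt F x b Ψ) {s t r : ℕ} {p q u : J} (hp : p ∈ Ψ s) (hq : q ∈ Ψ t) (hu : u ∈ Ψ r) :
    s3 p q u ∈ Ψ (s + t + r) := by
  unfold s3
  refine Submodule.sub_mem _ (Submodule.add_mem _ ?_ ?_) ?_
  · have := h.mul_mem _ _ _ hp _ (h.mul_mem _ _ _ hq _ hu)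
    rwa [show s + (t + r) = s + t + r by omega] at this
  · have := h.mul_mem _ _ _ hu _ (h.mul_mem _ _ _ hp _ hq)
    rwa [show r + (s + t) = s + t + r by omega] at this
  · have := h.mul_mem _ _ _ hq _ (h.mul_mem _ _ _ hp _ hu)
    rwa [show t + (s + r) = s + t + r by omega] at this

private theorem SysW_q (h2 : (2 : F) ≠ 0) {n : ℕ} {x : Fin n → J}
    {q : Fin n → Fin n → Fin n → Fin n → J} (hq : Q4 F x q)
    (hq0 : ∀ i j k l, i < j → j < k → k < l → q i j k l = 0) {b : Fin n → ℕ}
    {Ψ : ℕ → Submodule F J} (h : Filt F x b Ψ) (i j k l : Fin n) :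
    q i j k l ∈ Ψ (wt b [i, j, k, l]) := by
  have hw : ∀ i' j' k' l', [i', j', k', l'].Perm [i, j, k, l] →
      wt b [i, j, k, l] = b i' + b j' + b k' + b l' := by
    intro i' j' k' l' hp
    rw [← wt_perm b hp]
    simp only [wt, List.map_cons, List.map_nil, List.sum_cons, List.sum_nil]
    omega
  refine Q4.mem h2 hq _ i j k l ?_ ?_ ?_ ?_
  · intro i' j' k' l' hp
    rw [hw i' j' k' l' hp]
    exact SysW_s3 h (h.mul_mem _ _ _ (h.mem i') _ (h.mem j')) (h.mem k') (h.mem l')
  · intro i' j' k' l' hp
    rw [hw i' j' k' l' hp]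
    have := SysW_s3 h (h.mem i') (h.mul_mem _ _ _ (h.mem j') _ (h.mem k')) (h.mem l')
    rwa [show b i' + (b j' + b k') + b l' = b i' + b j' + b k' + b l' by omega] at this
  · intro i' j' k' l' hp
    rw [hw i' j' k' l' hp]
    have := SysW_s3 h (h.mem i') (h.mem j') (h.mul_mem _ _ _ (h.mem k') _ (h.mem l'))
    rwa [show b i' + b j' + (b k' + b l') = b i' + b j' + b k' + b l' by omega] at this
  · intro i' j' k' l' _ h1 h3 h4
    rw [hq0 i' j' k' l' h1 h3 h4]
    exact Submodule.zero_mem _

theorem exists_SysW (h2 : (2 : F) ≠ 0) (hJ : IsJordan J) (h8 : jpow F J 8 = ⊥) {n : ℕ}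
    (hn : 4 ≤ n) (x : Fin n → J) (a : Fin n → ℕ) (Φ : ℕ → Submodule F J) (hΦ : Filt F x a Φ)
    (N : ℕ) (hN : Φ (N + 1) = ⊥)
    (h5 : ∀ i j k l m : Fin n, (i ≠ j ∧ i ≠ k ∧ i ≠ l ∧ j ≠ k ∧ j ≠ l ∧ k ≠ l) →
      N < a i + a j + a k + a l + a m) :
    ∃ S : List (Fin n) → J, SSys F x S ∧
      (∀ (b : Fin n → ℕ) (Ψ : ℕ → Submodule F J), Filt F x b Ψ →
        ∀ w, w ≠ [] → S w ∈ Ψ (wt b w)) ∧
      (∀ w, 8 ≤ w.length → S w = 0) ∧
      ((∀ T : Submodule F J, (∀ i, x i ∈ T) → (∀ a ∈ T, ∀ b ∈ T, a * b ∈ T) → T = ⊤) →
        Submodule.span F (Set.range S) = ⊤) := by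
  classical
  have h4 : (4 : F) ≠ 0 := by
    have : (4 : F) = 2 * 2 := by norm_num
    rw [this]; exact mul_ne_zero h2 h2
  obtain ⟨S0, hS0, hfil0, hnot0, hlong0⟩ := exists_few h2 hJ h8 (by omega : 3 ≤ n) x
  obtain ⟨q, hq, hqt⟩ := exists_Q4 h2 hJ h8 (by omega : 3 ≤ n) x (fun _ _ _ _ => 0)
  let G : List (Fin n) → J := fun w => match w with
    | [a, b, c, d] => q a b c d
    | _ => 0
  have hG : ∀ w : List (Fin n), w.length ≠ 4 → G w = 0 := by
    intro w hl
    match w, hl with
    | [], _ => rfl
    | [_], _ => rfl
    | [_, _], _ => rfl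
    | [_, _, _], _ => rfl
    | [_, _, _, _], hl => exact absurd rfl hl
    | _ :: _ :: _ :: _ :: _ :: _, _ => rfl
  let S : List (Fin n) → J := fun w => if Few w then S0 w else G w
  have hF : ∀ w, Few w → S w = S0 w := fun w h => if_pos h
  have hQ : ∀ a b c d, ¬ Few [a, b, c, d] → S [a, b, c, d] = q a b c d :=
    fun a b c d h => if_neg h
  have hZ : ∀ w, ¬ Few w → w.length ≠ 4 → S w = 0 := fun w h hl =>
    (if_neg h : S w = G w).trans (hG w hl)
  -- filtrations
  have hfil : ∀ (b : Fin n → ℕ) (Ψ : ℕ → Submodule F J), Filt F x b Ψ →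
      ∀ w, w ≠ [] → S w ∈ Ψ (wt b w) := by
    intro b Ψ h w hw
    by_cases hf : Few w
    · rw [hF w hf]; exact hfil0 b Ψ h w hf hw
    · by_cases hl : w.length = 4
      · match w, hl, hf with
        | [i, j, k, l], _, hf =>
          rw [hQ i j k l hf]
          exact SysW_q h2 hq (fun i j k l h1 h3 h5 => hqt i j k l h1 h3 h5) h i j k l
      · rw [hZ w hf hl]; exact Submodule.zero_mem _
  have hlong : ∀ w, 8 ≤ w.length → S w = 0 := by
    intro w hw
    by_cases hf : Few w
    · rw [hF w hf]; exact hlong0 w hw
    · exact hZ w hf (by omega)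
  have hrevF : ∀ w : List (Fin n), Few w → Few w.reverse := fun w h =>
    h.sub fun i hi => List.mem_reverse.mp hi
  -- short words
  have hs1 : ∀ i, S [i] = x i := by
    intro i
    have hf : Few [i] := ⟨fun _ => i, [0], rfl⟩
    rw [hF _ hf]
    exact (hS0 fun _ => i).single 0
  have hs2 : ∀ i j, S [i, j] = x i * x j := by
    intro i j
    have hf : Few [i, j] := ⟨![i, j, j], [0, 1], rfl⟩
    rw [hF _ hf]
    exact ((hS0 ![i, j, j]).q4 h2).1 0 1
  have hs3 : ∀ i j k, S [i, j, k] = s3 (x i) (x j) (x k) := by
    intro i j k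
    have hf : Few [i, j, k] := ⟨![i, j, k], [0, 1, 2], rfl⟩
    rw [hF _ hf]
    exact ((hS0 ![i, j, k]).q4 h2).2.1 0 1 2
  have hS : SSys F x S := by
    refine ⟨?_, hs1, ?_, ?_, 8, hlong⟩
    · have hf : Few ([] : List (Fin n)) := ⟨fun _ => ⟨0, by omega⟩, [], rfl⟩
      rw [hF _ hf]
      exact (hS0 fun _ => ⟨0, by omega⟩).nil
    · intro w
      by_cases hf : Few w
      · rw [hF w hf, hF _ (hrevF w hf)]
        obtain ⟨σ, w', rfl⟩ := hf
        rw [← List.map_reverse]
        exact (hS0 σ).rev w'
      · have hf' : ¬ Few w.reverse := fun h => hf (by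
          have := hrevF _ h
          rwa [List.reverse_reverse] at this)
        by_cases hl : w.length = 4
        · match w, hl, hf, hf' with
          | [i, j, k, l], _, hf, hf' =>
            have e1 := hQ i j k l hf
            have e3 := hQ l k j i hf'
            have e5 := hq.rev h2 i j k l
            change S [l, k, j, i] = S [i, j, k, l]
            rw [e1, e3, e5]
        · rw [hZ w hf hl, hZ _ hf' (by rw [List.length_reverse]; exact hl)]
    · intro v w hv hw
      by_cases hf : Few (v ++ w)
      · have f1 : Few v := hf.sub fun i hi => List.mem_append.mpr (Or.inl hi)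
        have f3 : Few w := hf.sub fun i hi => List.mem_append.mpr (Or.inr hi)
        have f4 : Few (v ++ w.reverse) := hf.sub fun i hi => by
          simp only [List.mem_append, List.mem_reverse] at hi ⊢; exact hi
        have f5 : Few (v.reverse ++ w) := hf.sub fun i hi => by
          simp only [List.mem_append, List.mem_reverse] at hi ⊢; exact hi
        have f6 : Few (w ++ v) := hf.sub fun i hi => by
          simp only [List.mem_append] at hi ⊢; exact hi.symm
        rw [hF _ hf, hF _ f1, hF _ f3, hF _ f4, hF _ f5, hF _ f6]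
        obtain ⟨σ, u, hu⟩ := hf
        obtain ⟨v', w', rfl, rfl, rfl⟩ := List.map_eq_append_iff.mp hu
        have := (hS0 σ).mul v' w' (by rintro rfl; exact hv rfl) (by rintro rfl; exact hw rfl)
        simpa only [List.map_append, List.map_reverse] using this
      · have g4 : ¬ Few (v ++ w.reverse) := fun h => hf (h.sub fun i hi => by
          simp only [List.mem_append, List.mem_reverse] at hi ⊢; exact hi)
        have g5 : ¬ Few (v.reverse ++ w) := fun h => hf (h.sub fun i hi => by
          simp only [List.mem_append, List.mem_reverse] at hi ⊢; exact hi)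
        have g6 : ¬ Few (w ++ v) := fun h => hf (h.sub fun i hi => by
          simp only [List.mem_append] at hi ⊢; exact hi.symm)
        have hlen : ¬ (v ++ w).length ≤ 3 := fun h => hf (few_of_le_three (by omega) _ h)
        rw [List.length_append] at hlen
        have hv1 : 1 ≤ v.length := List.length_pos_iff.mpr hv
        have hw1 : 1 ≤ w.length := List.length_pos_iff.mpr hw
        by_cases hl : v.length + w.length = 4
        · obtain h | h | h : (v.length = 1 ∧ w.length = 3) ∨ (v.length = 2 ∧ w.length = 2) ∨
            (v.length = 3 ∧ w.length = 1) := by omega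
          · obtain ⟨a, rfl⟩ := List.length_eq_one_iff.mp h.1
            obtain ⟨b, c, d, rfl⟩ := List.length_eq_three.mp h.2
            have e1 := hQ a b c d hf
            have e3 := hQ a d c b g4
            have e5 := hQ b c d a g6
            have r1 := hq.rev h2 b c d a
            have r3 := hq.rot h2 hJ a b c d
            change (4 : F) • (S [a] * S [b, c, d]) =
              S [a, b, c, d] + S [a, d, c, b] + S [a, b, c, d] + S [b, c, d, a]
            rw [e1, e3, e5, hs1, hs3, r1]
            linear_combination (norm := module) (-2 : F) • r3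
          · obtain ⟨a, b, rfl⟩ := List.length_eq_two.mp h.1
            obtain ⟨c, d, rfl⟩ := List.length_eq_two.mp h.2
            have e1 := hQ a b c d hf
            have e3 := hQ a b d c g4
            have e5 := hQ b a c d g5
            have e6 := hQ c d a b g6
            have r1 := hq.rev h2 b a d c
            have r3 := hq.sw3 a b c d
            have r4 := hq.sw3 b a c d
            have r5 := s3_swap (x a) (x b) (x c * x d)
            change (4 : F) • (S [a, b] * S [c, d]) =
              S [a, b, c, d] + S [a, b, d, c] + S [b, a, c, d] + S [c, d, a, b]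
            rw [e1, e3, e5, e6, hs2, hs2, r1, mul_comm (x a * x b) (x c * x d)]
            linear_combination (norm := module) -r3 - r4 - (2 : F) • r5
          · obtain ⟨b, c, d, rfl⟩ := List.length_eq_three.mp h.1
            obtain ⟨a, rfl⟩ := List.length_eq_one_iff.mp h.2
            have e1 := hQ b c d a hf
            have e3 := hQ d c b a g5
            have e5 := hQ a b c d g6
            have r1 := hq.rev h2 a b c d
            have r3 := hq.rot h2 hJ a b c d
            change (4 : F) • (S [b, c, d] * S [a]) =
              S [b, c, d, a] + S [b, c, d, a] + S [d, c, b, a] + S [a, b, c, d]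
            rw [e1, e3, e5, hs1, hs3, r1, mul_comm (s3 (x b) (x c) (x d)) (x a)]
            linear_combination (norm := module) (-2 : F) • r3
        · have z1 : S (v ++ w) = 0 := hZ _ hf (by rw [List.length_append]; exact hl)
          have z3 : S (v ++ w.reverse) = 0 := hZ _ g4 (by
            rw [List.length_append, List.length_reverse]; exact hl)
          have z4 : S (v.reverse ++ w) = 0 := hZ _ g5 (by
            rw [List.length_append, List.length_reverse]; exact hl)
          have z5 : S (w ++ v) = 0 := hZ _ g6 (by rw [List.length_append]; omega)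
          have hm := hΦ.mul_mem _ _ _ (hfil a Φ hΦ v hv) _ (hfil a Φ hΦ w hw)
          rw [← wt_append] at hm
          obtain ⟨i, j, k, l, hd, w', hp⟩ := not_few (by omega) _ hf
          have hw' : w' ≠ [] := by
            rintro rfl
            have := hp.length_eq
            simp only [List.length_append, List.length_cons, List.length_nil] at this
            omega
          obtain ⟨m, w'', rfl⟩ := List.exists_cons_of_ne_nil hw'
          have hwt : N + 1 ≤ wt a (v ++ w) := by
            rw [wt_perm a hp]
            have := h5 i j k l m hd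
            simp only [wt, List.map_cons, List.sum_cons]
            omega
          have h0 : S v * S w = 0 := by
            have := hΦ.anti _ _ hwt hm
            rwa [hN, Submodule.mem_bot] at this
          rw [z1, z3, z4, z5, h0]
          simp
  refine ⟨S, hS, hfil, hlong, ?_⟩
  intro hgen
  apply hgen
  · intro i
    rw [← hS.single i]
    exact Submodule.subset_span ⟨[i], rfl⟩
  · intro a ha b hb
    induction ha using Submodule.span_induction with
    | mem a ha =>
      obtain ⟨v, rfl⟩ := ha
      induction hb using Submodule.span_induction with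
      | mem b hb =>
        obtain ⟨w, rfl⟩ := hb
        by_cases hv : v = []
        · subst hv; rw [hS.nil, zero_mul]; exact zero_mem _
        · by_cases hw : w = []
          · subst hw; rw [hS.nil, mul_zero]; exact zero_mem _
          · have := hS.mul v w hv hw
            have e : S v * S w = (4 : F)⁻¹ • (S (v ++ w) + S (v ++ w.reverse) +
                S (v.reverse ++ w) + S (w ++ v)) := by
              rw [← this, smul_smul, inv_mul_cancel₀ h4, one_smul]
            rw [e]
            have hm : ∀ w, S w ∈ Submodule.span F (Set.range S) := fun w =>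
              Submodule.subset_span ⟨w, rfl⟩
            exact Submodule.smul_mem _ _ (add_mem (add_mem (add_mem (hm _) (hm _)) (hm _)) (hm _))
      | zero => rw [mul_zero]; exact zero_mem _
      | add b c _ _ hb hc => rw [mul_add]; exact add_mem hb hc
      | smul r b _ hb => rw [mul_smul_comm]; exact Submodule.smul_mem _ _ hb
    | zero => rw [zero_mul]; exact zero_mem _
    | add a c _ _ ha hc => rw [add_mul]; exact add_mem ha hc
    | smul r a _ ha => rw [smul_mul_assoc]; exact Submodule.smul_mem _ _ ha

end JD
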