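import Pool.Agent.H13.JN.Q4U

set_option autoImplicit false
set_option linter.unusedSectionVars false

/-!
# JN T5Alt: the obstruction `T5 a b d` is alternating in `a, b, d` (any Jordan algebra) (helper13)

`q(j,a,b,d) + q(j,b,a,d) = 2 s3(y_j, ab, d)` (`Q4.sw2`), `s3(a,b,d) + s3(b,a,d) = 2 d(ab)`. So with `h = y_a y_b`, `z = y_d`: `T5 a b d + T5 b a d = 2 ∑ c'_ij y_i [s3(y_j,h,z) - y_j(z h)] = 2 ∑ c'_ij y_i [z (y_j h) - h (y_j z)]`
(`s3(y_j,h,z) = y_j(hz) + z(y_j h) - h(y_j z)`).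
`gJ4 (y i) (y j) z h : ((y_i y_j)z)h = (y_i y_j)(zh) + (y_i z)(y_j h) + (y_j z)(y_i h) - y_i(z(y_j h)) - y_j(z(y_i h))`; summed with `c'_ij`: `∑ c'_ij y_i(z(y_j h)) = ∑ c'_ij (y_i z)(y_j h)`.
`gJ3 (y i) (y j) z h : (y_i y_j)(zh) + (y_j z)(y_i h) + (z y_i)(y_j h) = z((y_i y_j)h) + y_i((y_j z)h) + y_j((z y_i)h)`; summed: `∑ c'_ij (y_j z)(y_i h) = ∑ c'_ij y_i((y_j z)h)`. By the symmetry of `c'` both sums are equal: the difference is `0`.
[`sumsq`: this fact as a lemma: `∑ c'_ij y_i (z (y_j h)) = ∑ c'_ij y_i ((y_j z) h)` for all `z, h ∈ A`.]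
Second: `q(j,a,b,d) + q(j,a,d,b) = 2 s3(y_j, a, bd)`, `s3(a,b,d) + s3(a,d,b) = 2 a(bd)`: with `h = y_b y_d`, `z = y_a`: `T5 a b d + T5 a d b = 2 ∑ c'_ij y_i [h (y_j z) - z (y_j h)] = 0` by the same lemma.
`T5_sorted`: if `T5 a b d = 0` for `a < b < d` then `T5 a b d = 0` for all distinct `a, b, d`.
-/

namespace JD

universe u

variable {F : Type u} [Field F] {A : Type u} [NonUnitalNonAssocCommRing A] [Module F A]
  [IsScalarTower F A A] [SMulCommClass F A A]

private theorem T5Alt_two (h2 : (2 : F) ≠ 0) {a b : A} (h : a + a = b + b) : a = b := by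
  have h1 : (2 : F) • (a - b) = 0 := by
    rw [two_smul]
    linear_combination (norm := abel) h
  exact sub_eq_zero.1 ((smul_eq_zero.1 h1).resolve_left h2)

private theorem T5Alt_zero {m : ℕ} (y : Fin m → A) (c' : Fin m → Fin m → F)
    (h0 : ∑ i, ∑ j, c' i j • (y i * y j) = 0) (w : A) :
    ∑ i, ∑ j, c' i j • ((y i * y j) * w) = 0 := by
  have h1 := congrArg (fun t => t * w) h0
  simp only [Finset.sum_mul, smul_mul_assoc, zero_mul] at h1
  exact h1

private theorem T5Alt_zero' {m : ℕ} (y : Fin m → A) (c' : Fin m → Fin m → F)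
    (h0 : ∑ i, ∑ j, c' i j • (y i * y j) = 0) (z w : A) :
    ∑ i, ∑ j, c' i j • (((y i * y j) * z) * w) = 0 := by
  have h1 := congrArg (fun t => t * w) (T5Alt_zero y c' h0 z)
  simp only [Finset.sum_mul, smul_mul_assoc, zero_mul] at h1
  exact h1

private theorem T5Alt_zero'' {m : ℕ} (y : Fin m → A) (c' : Fin m → Fin m → F)
    (h0 : ∑ i, ∑ j, c' i j • (y i * y j) = 0) (z w : A) :
    ∑ i, ∑ j, c' i j • (z * ((y i * y j) * w)) = 0 := by
  have h1 := congrArg (fun t => z * t) (T5Alt_zero y c' h0 w)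
  simp only [Finset.mul_sum, mul_smul_comm, mul_zero] at h1
  exact h1

private theorem T5Alt_symm {m : ℕ} (c' : Fin m → Fin m → F) (hc : ∀ i j, c' i j = c' j i)
    (f : Fin m → Fin m → A) :
    ∑ i, ∑ j, c' i j • f j i = ∑ i, ∑ j, c' i j • f i j := by
  rw [Finset.sum_comm]
  refine Finset.sum_congr rfl fun i _ => Finset.sum_congr rfl fun j _ => ?_
  rw [hc]

theorem sumsq (h2 : (2 : F) ≠ 0) (hJ : IsJordan A) {m : ℕ} (y : Fin m → A)
    (c' : Fin m → Fin m → F) (hc : ∀ i j, c' i j = c' j i)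
    (h0 : ∑ i, ∑ j, c' i j • (y i * y j) = 0) (z h : A) :
    ∑ i, ∑ j, c' i j • (y i * (z * (y j * h))) =
      ∑ i, ∑ j, c' i j • (y i * ((y j * z) * h)) := by
  have a1 : ∑ i, ∑ j, c' i j • (y i * (z * (y j * h))) =
      ∑ i, ∑ j, c' i j • ((y i * z) * (y j * h)) := by
    have e : ∑ i, ∑ j, c' i j • (((y i * y j) * z) * h) = ∑ i, ∑ j, c' i j •
        ((y i * y j) * (z * h) + (y i * z) * (y j * h) + (y j * z) * (y i * h)
          - y i * (z * (y j * h)) - y j * (z * (y i * h))) := by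
      refine Finset.sum_congr rfl fun i _ => Finset.sum_congr rfl fun j _ => ?_
      rw [gJ4 F h2 hJ (y i) (y j) z h]
    simp only [smul_add, smul_sub, Finset.sum_add_distrib, Finset.sum_sub_distrib] at e
    rw [T5Alt_zero' y c' h0, T5Alt_zero y c' h0,
      T5Alt_symm c' hc (fun i j => (y i * z) * (y j * h)),
      T5Alt_symm c' hc (fun i j => y i * (z * (y j * h)))] at e
    refine T5Alt_two h2 ?_
    linear_combination (norm := abel) e
  have a2 : ∑ i, ∑ j, c' i j • (y i * ((y j * z) * h)) =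
      ∑ i, ∑ j, c' i j • ((y i * z) * (y j * h)) := by
    have e : ∑ i, ∑ j, c' i j • ((y i * y j) * (z * h) + (y j * z) * (y i * h) +
        (y i * z) * (y j * h)) = ∑ i, ∑ j, c' i j •
        (z * ((y i * y j) * h) + y i * ((y j * z) * h) + y j * ((y i * z) * h)) := by
      refine Finset.sum_congr rfl fun i _ => Finset.sum_congr rfl fun j _ => ?_
      have e1 := gJ3 F h2 hJ (y i) (y j) z h
      rw [mul_comm z (y i)] at e1
      rw [e1]
    simp only [smul_add, Finset.sum_add_distrib] at e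
    rw [T5Alt_zero'' y c' h0, T5Alt_zero y c' h0,
      T5Alt_symm c' hc (fun i j => (y i * z) * (y j * h)),
      T5Alt_symm c' hc (fun i j => y i * ((y j * z) * h))] at e
    refine T5Alt_two h2 ?_
    linear_combination (norm := abel) -e
  rw [a1, a2]

theorem T5_alt1 (h2 : (2 : F) ≠ 0) (hJ : IsJordan A) {m : ℕ} (y : Fin m → A)
    (q : Fin m → Fin m → Fin m → Fin m → A) (hq : Q4 F y q)
    (c' : Fin m → Fin m → F) (hc : ∀ i j, c' i j = c' j i)
    (h0 : ∑ i, ∑ j, c' i j • (y i * y j) = 0) (a b d : Fin m) :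
    T5 y q c' a b d + T5 y q c' b a d = 0 := by
  have hs := sumsq h2 hJ y c' hc h0 (y d) (y a * y b)
  have e : T5 y q c' a b d + T5 y q c' b a d =
      (∑ i, ∑ j, c' i j • (y i * (y d * (y j * (y a * y b)))) -
        ∑ i, ∑ j, c' i j • (y i * ((y j * y d) * (y a * y b)))) +
      (∑ i, ∑ j, c' i j • (y i * (y d * (y j * (y a * y b)))) -
        ∑ i, ∑ j, c' i j • (y i * ((y j * y d) * (y a * y b)))) := by
    unfold T5
    simp only [← Finset.sum_add_distrib, ← Finset.sum_sub_distrib, ← smul_add, ← smul_sub,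
      ← mul_add, ← mul_sub]
    refine Finset.sum_congr rfl fun i _ => Finset.sum_congr rfl fun j _ => ?_
    congr 2
    have e1 := hq.sw2 j a b d
    have e2 := congrArg (fun t => y j * t) (s3_swap (y a) (y b) (y d))
    simp only [mul_add] at e2
    rw [two_smul] at e1
    have e3 : s3 (y j) (y a * y b) (y d) = y j * (y d * (y a * y b)) +
        y d * (y j * (y a * y b)) - (y j * y d) * (y a * y b) := by
      unfold s3
      rw [mul_comm (y a * y b) (y d), mul_comm (y a * y b) (y j * y d)]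
    rw [e3] at e1
    linear_combination (norm := abel) e1 - e2
  rw [e, hs, sub_self, add_zero]

theorem T5_alt2 (h2 : (2 : F) ≠ 0) (hJ : IsJordan A) {m : ℕ} (y : Fin m → A)
    (q : Fin m → Fin m → Fin m → Fin m → A) (hq : Q4 F y q)
    (c' : Fin m → Fin m → F) (hc : ∀ i j, c' i j = c' j i)
    (h0 : ∑ i, ∑ j, c' i j • (y i * y j) = 0) (a b d : Fin m) :
    T5 y q c' a b d + T5 y q c' a d b = 0 := by
  have hs := sumsq h2 hJ y c' hc h0 (y a) (y b * y d)
  have e : T5 y q c' a b d + T5 y q c' a d b =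
      (∑ i, ∑ j, c' i j • (y i * ((y j * y a) * (y b * y d))) -
        ∑ i, ∑ j, c' i j • (y i * (y a * (y j * (y b * y d))))) +
      (∑ i, ∑ j, c' i j • (y i * ((y j * y a) * (y b * y d))) -
        ∑ i, ∑ j, c' i j • (y i * (y a * (y j * (y b * y d))))) := by
    unfold T5
    simp only [← Finset.sum_add_distrib, ← Finset.sum_sub_distrib, ← smul_add, ← smul_sub,
      ← mul_add, ← mul_sub]
    refine Finset.sum_congr rfl fun i _ => Finset.sum_congr rfl fun j _ => ?_
    congr 2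
    have e1 := hq.sw3 j a b d
    have e2 := congrArg (fun t => y j * t) (s3_swap' (y a) (y b) (y d))
    simp only [mul_add] at e2
    rw [two_smul] at e1
    have e3 : s3 (y j) (y a) (y b * y d) = y j * (y a * (y b * y d)) +
        (y j * y a) * (y b * y d) - y a * (y j * (y b * y d)) := by
      unfold s3
      rw [mul_comm (y b * y d) (y j * y a)]
    rw [e3] at e1
    linear_combination (norm := abel) e1 - e2
  rw [e, hs, sub_self, add_zero]

theorem T5_sorted (h2 : (2 : F) ≠ 0) (hJ : IsJordan A) {m : ℕ} (y : Fin m → A)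
    (q : Fin m → Fin m → Fin m → Fin m → A) (hq : Q4 F y q)
    (c' : Fin m → Fin m → F) (hc : ∀ i j, c' i j = c' j i)
    (h0 : ∑ i, ∑ j, c' i j • (y i * y j) = 0)
    (hs : ∀ a b d, a < b → b < d → T5 y q c' a b d = 0) (a b d : Fin m)
    (hab : a ≠ b) (had : a ≠ d) (hbd : b ≠ d) : T5 y q c' a b d = 0 := by
  have A1 : ∀ a b d, T5 y q c' b a d = 0 → T5 y q c' a b d = 0 := fun a b d h => by
    have := T5_alt1 h2 hJ y q hq c' hc h0 a b d
    rwa [h, add_zero] at this
  have A2 : ∀ a b d, T5 y q c' a d b = 0 → T5 y q c' a b d = 0 := fun a b d h => by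
    have := T5_alt2 h2 hJ y q hq c' hc h0 a b d
    rwa [h, add_zero] at this
  rcases lt_or_gt_of_ne hab with h1 | h1
  · rcases lt_or_gt_of_ne hbd with h3 | h3
    · exact hs a b d h1 h3
    · rcases lt_or_gt_of_ne had with h4 | h4
      · exact A2 _ _ _ (hs a d b h4 h3)
      · exact A2 _ _ _ (A1 _ _ _ (hs d a b h4 h1))
  · rcases lt_or_gt_of_ne had with h4 | h4
    · exact A1 _ _ _ (hs b a d h1 h4)
    · rcases lt_or_gt_of_ne hbd with h3 | h3
      · exact A1 _ _ _ (A2 _ _ _ (hs b d a h3 h4))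
      · exact A1 _ _ _ (A2 _ _ _ (A1 _ _ _ (hs d b a h3 h1)))

end JD
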