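import Pool.Agent.H13.JN.Q4U

set_option autoImplicit false
set_option linter.unusedSectionVars false

/-!
# JN TAB: class 5: `Good5` for at most 3 letters and for commuting multiplications (helper13)

`good5_comm`. HYPOTHESIS `v (q h) = q (v h)` for `v ∈ D 1`, `q ∈ D 2`, `h ∈ D 1` . Take `t i j k l = N i j k l := (y_i y_j)(y_k y_l) - (y_i y_k)(y_j y_l) + (y_i y_l)(y_j y_k)`. `N` is a `Q4` system:
`N a b c d + N b a c d = 2 (ab)(cd)` and `s3 (ab) c d = (ab)(cd) + d((ab)c) - c((ab)d) = (ab)(cd) + (ab)(cd) - (ab)(cd)`; `N a b c d + N a c b d = 2 (ad)(bc)` and `s3 a (bc) d = a((bc)d) + d(a(bc)) - (bc)(ad) = (bc)(ad)`; `N a b c d + N a b d c = 2 (ab)(cd)` and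
`s3 a b (cd) = a(b(cd)) + (cd)(ab) - b(a(cd)) = (cd)(ab) + (cd)(ab) - (cd)(ab)` (with `a (b (cd)) = a ((cd) b) = (cd)(a b)`). So `q = N` (`Q4.ext`), and `y_j s3 (a,b,d) = j(a(bd)) + j(d(ab)) - j(b(ad)) = (bd)(ja) + (ab)(jd) - (ad)(jb) = N j a b d`. So every term of `T5` is `0`.

`good5_three`. `m ≤ 3`, `A` special: `f : A → B` injective, `f (a b) = (1/2)(f a f b + f b f a)`, `B` associative. `t = 0` (there are no `i < j < k < l`). Write `e_i = f (y_i)`. CLAIM: `2 f (q a b c d) = e_a e_b e_c e_d + e_d e_c e_b e_a`: the difference is alternating (`Alt4`; `f (s3 a b c) =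
(1/2)(f a f b f c + f c f b f a)`), and two of four indices in `Fin m`, `m ≤ 3`, are equal: `Alt4.zero`. `∑ c'_ij e_i e_j = 0` (apply `f` to the relation; `c'` symmetric). With `w = e_a e_b e_d`, `w' = e_d e_b e_a`:
`4 f (q j a b d - y_j s3) = 2 (e_j w + w' e_j) - (e_j w + e_j w' + w e_j + w' e_j) = e_j w + w' e_j - e_j w' - w e_j`, and `8 f (T5) = ∑ c'_ij [e_i (e_j w + w' e_j - e_j w' - w e_j) + (e_j w + w' e_j - e_j w' - w e_j) e_i] = 0`: the terms with `e_i e_j` or `e_j e_i` adjacent vanish by the relation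
(`w' e_j e_i` and `w e_j e_i` too), and `∑ c'_ij (e_i w' e_j - e_j w' e_i) = 0`, `∑ c'_ij (e_j w e_i - e_i w e_j) = 0` by symmetry. `f` injective.
-/

namespace JD

universe u

variable {F : Type u} [Field F] {A : Type u} [NonUnitalNonAssocCommRing A] [Module F A]
  [IsScalarTower F A A] [SMulCommClass F A A] {D : ℕ → Submodule F A}

theorem good5_comm (hG : GJ F A 5 D)
    (hc : ∀ v ∈ D 1, ∀ q ∈ D 2, ∀ h ∈ D 1, v * (q * h) = q * (v * h))
    {m : ℕ} (y : Fin m → A) (hy : ∀ i, y i ∈ D 1) : Good5 F D y := by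
  have hd2 : ∀ i j, y i * y j ∈ D 2 := fun i j =>
    hG.mul_mem 1 1 le_rfl le_rfl _ (hy i) _ (hy j)
  have hd4 : ∀ i j k l, (y i * y j) * (y k * y l) ∈ D 4 := fun i j k l =>
    hG.mul_mem 2 2 (by norm_num) (by norm_num) _ (hd2 i j) _ (hd2 k l)
  -- `y_i ((y_j y_k) y_l) = (y_j y_k) (y_i y_l)`
  have hk : ∀ i j k l, y i * ((y j * y k) * y l) = (y j * y k) * (y i * y l) :=
    fun i j k l => hc _ (hy i) _ (hd2 j k) _ (hy l)
  -- `y_i (y_l (y_j y_k)) = (y_j y_k) (y_i y_l)`
  have hk' : ∀ i j k l, y i * (y l * (y j * y k)) = (y j * y k) * (y i * y l) := by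
    intro i j k l
    rw [mul_comm (y l), hk]
  let N : Fin m → Fin m → Fin m → Fin m → A := fun i j k l =>
    (y i * y j) * (y k * y l) - (y i * y k) * (y j * y l) + (y i * y l) * (y j * y k)
  have hN : Q4 F y N := by
    refine ⟨fun a b c d => ?_, fun a b c d => ?_, fun a b c d => ?_⟩
    · have e1 : s3 (y a * y b) (y c) (y d) = (y a * y b) * (y c * y d) := by
        unfold s3
        rw [hk d a b c, hk c a b d, mul_comm (y d) (y c)]
        abel
      rw [e1, two_smul]
      show (y a * y b) * (y c * y d) - (y a * y c) * (y b * y d) + (y a * y d) * (y b * y c) +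
        ((y b * y a) * (y c * y d) - (y b * y c) * (y a * y d) + (y b * y d) * (y a * y c)) = _
      rw [mul_comm (y b) (y a), mul_comm (y b * y c) (y a * y d),
        mul_comm (y b * y d) (y a * y c)]
      abel
    · have e1 : s3 (y a) (y b * y c) (y d) = (y b * y c) * (y a * y d) := by
        unfold s3
        rw [hk a b c d, hk' d b c a, mul_comm (y d) (y a)]
        abel
      rw [e1, two_smul]
      show (y a * y b) * (y c * y d) - (y a * y c) * (y b * y d) + (y a * y d) * (y b * y c) +
        ((y a * y c) * (y b * y d) - (y a * y b) * (y c * y d) + (y a * y d) * (y c * y b)) = _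
      rw [mul_comm (y c) (y b), mul_comm (y b * y c) (y a * y d)]
      abel
    · have e1 : s3 (y a) (y b) (y c * y d) = (y a * y b) * (y c * y d) := by
        unfold s3
        rw [hk' a c d b, hk' b c d a, mul_comm (y b) (y a), mul_comm (y a * y b) (y c * y d)]
        abel
      rw [e1, two_smul]
      show (y a * y b) * (y c * y d) - (y a * y c) * (y b * y d) + (y a * y d) * (y b * y c) +
        ((y a * y b) * (y d * y c) - (y a * y d) * (y b * y c) + (y a * y c) * (y b * y d)) = _
      rw [mul_comm (y d) (y c)]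
      abel
  refine ⟨N, fun i j k l => ?_, ?_⟩
  · exact (D 4).add_mem ((D 4).sub_mem (hd4 i j k l) (hd4 i k j l)) (hd4 i l j k)
  · intro q hq h0 c' _ _ a b d _ _ _
    have hqN : q = N := Q4.ext hG.two hq hN h0
    unfold T5
    refine Finset.sum_eq_zero fun i _ => Finset.sum_eq_zero fun j _ => ?_
    have e : q j a b d - y j * s3 (y a) (y b) (y d) = 0 := by
      rw [hqN]
      unfold s3
      rw [mul_sub, mul_add, hk' j b d a, hk' j a b d, hk' j a d b]
      show (y j * y a) * (y b * y d) - (y j * y b) * (y a * y d) + (y j * y d) * (y a * y b) - _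
        = 0
      rw [mul_comm (y j * y a) (y b * y d), mul_comm (y j * y b) (y a * y d),
        mul_comm (y j * y d) (y a * y b)]
      abel
    rw [e, mul_zero, smul_zero]

private theorem TAB_alt {B : Type u} [AddCommGroup B] [Module F B] (h2 : (2 : F) ≠ 0) {m : ℕ}
    (hm : m ≤ 3) (δ : Fin m → Fin m → Fin m → Fin m → B)
    (s1 : ∀ a b c d, δ b a c d = -δ a b c d) (s2 : ∀ a b c d, δ a c b d = -δ a b c d)
    (s3 : ∀ a b c d, δ a b d c = -δ a b c d) (a b c d : Fin m) : δ a b c d = 0 := by
  have hz : ∀ z : B, z = -z → z = 0 := by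
    intro z hz
    have h : (2 : F) • z = 0 := by
      rw [two_smul]
      nth_rewrite 2 [hz]
      abel
    exact (smul_eq_zero.mp h).resolve_left h2
  have t1 : ∀ a c d, δ a a c d = 0 := fun a c d => hz _ (s1 a a c d)
  have t2 : ∀ a b d, δ a b b d = 0 := fun a b d => hz _ (s2 a b b d)
  have t3 : ∀ a b c, δ a b c c = 0 := fun a b c => hz _ (s3 a b c c)
  have he : a = b ∨ a = c ∨ a = d ∨ b = c ∨ b = d ∨ c = d := by
    have ha := a.2
    have hb := b.2
    have hc := c.2
    have hd := d.2
    simp only [Fin.ext_iff]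
    omega
  rcases he with h | h | h | h | h | h
  · subst h; exact t1 _ _ _
  · subst h; rw [s1 b a a d, t2, neg_zero]
  · subst h; rw [s3 a b a c, s1 b a a c, t2, neg_zero, neg_zero]
  · subst h; exact t2 _ _ _
  · subst h; rw [s3 a b b c, t2, neg_zero]
  · subst h; exact t3 _ _ _

private theorem TAB_symm {B : Type u} [AddCommGroup B] [Module F B] {m : ℕ}
    (c' : Fin m → Fin m → F) (hc : ∀ i j, c' i j = c' j i) (g : Fin m → Fin m → B) :
    ∑ i, ∑ j, c' i j • g i j = ∑ i, ∑ j, c' i j • g j i := by
  rw [Finset.sum_comm]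
  refine Finset.sum_congr rfl fun i _ => Finset.sum_congr rfl fun j _ => ?_
  rw [hc j i]

theorem good5_three (h2 : (2 : F) ≠ 0) (hsp : IsSpecial.{u, u, u} F A)
    {m : ℕ} (hm : m ≤ 3) (y : Fin m → A) : Good5 F D y := by
  obtain ⟨B, _, _, _, _, f, hinj, hf⟩ := hsp
  refine ⟨fun _ _ _ _ => 0, fun _ _ _ _ => (D 4).zero_mem, ?_⟩
  intro q hq _ c' hc hR a b d _ _ _
  -- `2 f (a b) = f a f b + f b f a`
  have hf2 : ∀ a b : A, (2 : F) • f (a * b) = f a * f b + f b * f a := by
    intro a b
    rw [hf, smul_smul, mul_inv_cancel₀ h2, one_smul]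
  have hcan : ∀ z z' : B, (2 : F) • z = (2 : F) • z' → z = z' := by
    intro z z' h
    have := congrArg (fun t => (2 : F)⁻¹ • t) h
    simpa [smul_smul, inv_mul_cancel₀ h2] using this
  -- `2 f (s3 a b c) = f a f b f c + f c f b f a`
  have hs3 : ∀ a b c : A, (2 : F) • f (s3 a b c) = f a * f b * f c + f c * f b * f a := by
    intro a b c
    apply hcan
    have e : ∀ a b c : A, (2 : F) • (2 : F) • f (a * (b * c)) =
        f a * f b * f c + f a * f c * f b + f b * f c * f a + f c * f b * f a := by
      intro a b c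
      rw [hf2, smul_add, ← mul_smul_comm, ← smul_mul_assoc, hf2, mul_add, add_mul, ← mul_assoc,
        ← mul_assoc]
      abel
    unfold s3
    rw [map_sub, map_add, smul_sub, smul_add, smul_sub, smul_add, e, e, e, two_smul]
    abel
  set e : Fin m → B := fun i => f (y i) with he
  -- the associative form of `q`
  have hQ : ∀ a b c d : Fin m, (2 : F) • f (q a b c d) =
      e a * e b * e c * e d + e d * e c * e b * e a := by
    intro a b c d
    refine sub_eq_zero.mp (TAB_alt h2 hm (fun a b c d : Fin m => (2 : F) • f (q a b c d) -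
        (e a * e b * e c * e d + e d * e c * e b * e a)) ?_ ?_ ?_ a b c d)
    · intro a b c d
      have h := congrArg (fun t => (2 : F) • f t) (hq.sw1 a b c d)
      simp only [map_add, map_smul, smul_add] at h
      have h' : (2 : F) • (2 : F) • f (s3 (y a * y b) (y c) (y d)) =
          e a * e b * e c * e d + e b * e a * e c * e d + e d * e c * e a * e b +
            e d * e c * e b * e a := by
        rw [hs3, smul_add, ← smul_mul_assoc, ← smul_mul_assoc, ← mul_smul_comm, hf2]
        simp only [add_mul, mul_add, mul_assoc, he]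
        abel
      rw [h'] at h
      linear_combination (norm := abel) h
    · intro a b c d
      have h := congrArg (fun t => (2 : F) • f t) (hq.sw2 a b c d)
      simp only [map_add, map_smul, smul_add] at h
      have h' : (2 : F) • (2 : F) • f (s3 (y a) (y b * y c) (y d)) =
          e a * e b * e c * e d + e a * e c * e b * e d + e d * e c * e b * e a +
            e d * e b * e c * e a := by
        rw [hs3, smul_add, ← smul_mul_assoc, ← mul_smul_comm, hf2, ← smul_mul_assoc,
          ← mul_smul_comm, hf2]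
        simp only [add_mul, mul_add, mul_assoc, he]
        abel
      rw [h'] at h
      linear_combination (norm := abel) h
    · intro a b c d
      have h := congrArg (fun t => (2 : F) • f t) (hq.sw3 a b c d)
      simp only [map_add, map_smul, smul_add] at h
      have h' : (2 : F) • (2 : F) • f (s3 (y a) (y b) (y c * y d)) =
          e a * e b * e c * e d + e a * e b * e d * e c + e d * e c * e b * e a +
            e c * e d * e b * e a := by
        rw [hs3, smul_add, ← mul_smul_comm, hf2, ← smul_mul_assoc, ← smul_mul_assoc, hf2]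
        simp only [add_mul, mul_add, mul_assoc, he]
        abel
      rw [h'] at h
      linear_combination (norm := abel) h
  -- the relation
  have hR' : ∑ i, ∑ j, c' i j • (e i * e j) = 0 := by
    have h := congrArg (fun t => (2 : F) • f t) hR
    simp only [map_sum, map_smul, map_zero, smul_zero, Finset.smul_sum] at h
    have h1 : ∑ i, ∑ j, (2 : F) • c' i j • f (y i * y j) =
        ∑ i, ∑ j, c' i j • (e i * e j) + ∑ i, ∑ j, c' i j • (e j * e i) := by
      rw [← Finset.sum_add_distrib]
      refine Finset.sum_congr rfl fun i _ => ?_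
      rw [← Finset.sum_add_distrib]
      refine Finset.sum_congr rfl fun j _ => ?_
      rw [smul_comm, hf2, smul_add]
    rw [h1, ← TAB_symm c' hc (fun i j => e i * e j), ← two_smul F] at h
    exact (smul_eq_zero.mp h).resolve_left h2
  have hR'' : ∑ i, ∑ j, c' i j • (e j * e i) = 0 := by
    rw [← TAB_symm c' hc (fun i j => e i * e j)]
    exact hR'
  have hRr : ∀ z : B, ∑ i, ∑ j, c' i j • (e i * e j * z) = 0 := by
    intro z
    have : ∑ i, ∑ j, c' i j • (e i * e j * z) = (∑ i, ∑ j, c' i j • (e i * e j)) * z := by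
      rw [Finset.sum_mul]
      refine Finset.sum_congr rfl fun i _ => ?_
      rw [Finset.sum_mul]
      refine Finset.sum_congr rfl fun j _ => ?_
      rw [smul_mul_assoc]
    rw [this, hR', zero_mul]
  have hRl : ∀ z : B, ∑ i, ∑ j, c' i j • (z * (e j * e i)) = 0 := by
    intro z
    have : ∑ i, ∑ j, c' i j • (z * (e j * e i)) = z * (∑ i, ∑ j, c' i j • (e j * e i)) := by
      rw [Finset.mul_sum]
      refine Finset.sum_congr rfl fun i _ => ?_
      rw [Finset.mul_sum]
      refine Finset.sum_congr rfl fun j _ => ?_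
      rw [mul_smul_comm]
    rw [this, hR'', mul_zero]
  have hRs : ∀ z : B, ∑ i, ∑ j, c' i j • (e i * z * e j - e j * z * e i) = 0 := by
    intro z
    have h1 : ∑ i, ∑ j, c' i j • (e i * z * e j - e j * z * e i) =
        ∑ i, ∑ j, c' i j • (e i * z * e j) - ∑ i, ∑ j, c' i j • (e j * z * e i) := by
      rw [← Finset.sum_sub_distrib]
      refine Finset.sum_congr rfl fun i _ => ?_
      rw [← Finset.sum_sub_distrib]
      refine Finset.sum_congr rfl fun j _ => ?_
      rw [smul_sub]
    rw [h1, TAB_symm c' hc (fun i j => e i * z * e j), sub_self]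
  -- the terms
  set w : B := e a * e b * e d with hw
  set w' : B := e d * e b * e a with hw'
  have hfs : ∀ (a b : A) (z : B), (2 : F) • f b = z →
      (2 : F) • (2 : F) • f (a * b) = f a * z + z * f a := by
    intro a b z hz
    rw [hf2, smul_add, ← mul_smul_comm, ← smul_mul_assoc, hz]
  have hX : ∀ j, (2 : F) • (2 : F) • f (q j a b d - y j * s3 (y a) (y b) (y d)) =
      e j * w + w' * e j - e j * w' - w * e j := by
    intro j
    rw [map_sub, smul_sub, smul_sub, hQ, hfs _ _ _ (hs3 _ _ _), two_smul, hw, hw']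
    simp only [mul_add, add_mul, mul_assoc, he]
    abel
  have hY : ∀ i j, (2 : F) • (2 : F) • (2 : F) •
      f (y i * (q j a b d - y j * s3 (y a) (y b) (y d))) =
      (e i * e j * w - e i * e j * w' + w' * (e j * e i) - w * (e j * e i)) +
        ((e i * w' * e j - e j * w' * e i) - (e i * w * e j - e j * w * e i)) := by
    intro i j
    rw [hf2, smul_add, smul_add, ← mul_smul_comm, ← mul_smul_comm, ← smul_mul_assoc,
      ← smul_mul_assoc, hX]
    simp only [mul_add, add_mul, mul_sub, sub_mul, mul_assoc, he]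
    abel
  apply hinj
  rw [map_zero]
  apply hcan
  rw [smul_zero]
  apply hcan
  rw [smul_zero]
  apply hcan
  rw [smul_zero]
  unfold T5
  simp only [map_sum, map_smul, Finset.smul_sum]
  have h1 : ∀ i j, (2 : F) • (2 : F) • (2 : F) •
      c' i j • f (y i * (q j a b d - y j * s3 (y a) (y b) (y d))) =
      (c' i j • (e i * e j * w) - c' i j • (e i * e j * w') + c' i j • (w' * (e j * e i)) -
        c' i j • (w * (e j * e i))) +
        (c' i j • (e i * w' * e j - e j * w' * e i) -
          c' i j • (e i * w * e j - e j * w * e i)) := by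
    intro i j
    rw [smul_comm (2 : F) (c' i j), smul_comm (2 : F) (c' i j), smul_comm (2 : F) (c' i j), hY]
    simp only [smul_add, smul_sub]
  simp only [h1, Finset.sum_add_distrib, Finset.sum_sub_distrib, hRr, hRl, hRs]
  simp

end JD
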