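import Pool.Agent.H13.JN.T5Alt
import Pool.Agent.H9.JH.PenN

set_option autoImplicit false
set_option linter.unusedSectionVars false

/-!
# JN TEa: class 5, dimensions `(4; 2, 2, 2)`, common factor structure: `Δ k = 0` on the kernel (helper13)

`hP : PS D s1 s2 l m1 m2 Δ` (files `Pen.lean`, `PenN.lean`: `PS.comp1 : w (v s1) = s1 (v w) - m2(w) Δ v`, `PS.comp2 : w (v s2) = s2 (v w) + m1(w) Δ v`, `PS.polar : 2 v w = (l(v)m1(w) + l(w)m1(v)) s1 + (l(v)m2(w) + l(w)m2(v)) s2`).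
`k ∈ D 1` with `l(k) = m1(k) = m2(k) = 0`.

`PS_k_mul`: `k v = 0` for `v ∈ D 1` (polar). `PS_k_mul3`: `k a = 0` for `a ∈ D 3`: `D 3` is spanned by the `v s_i` (`hG.gen 3`, `D 2 = <s1,s2>`), `k (v s1) = s1 (v k) - m2(k) Δ v = 0`, same for `s2`.
`PS_delta`: `Δ k = 0`. PROOF. Suppose `Δ k ≠ 0`. `w (k s1) = s1 (k w) - m2(w) Δ k = - m2(w) Δ k`, `w (k s2) = m1(w) Δ k` (`w ∈ D 1`); with the dual vectors of `m1, m2` (`hP.dual`): `k s1, k s2` are linearly independent, so (`finrank (D 3) = 2`) a basis of `D 3`,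
and `w a ∈ F (Δ k)` for all `w ∈ D 1`, `a ∈ D 3`. Let `v1, v2` be the dual vectors. By `comp1`: `w (v s1) - v (w s1) = m2(v) Δ w - m2(w) Δ v` (`s1 (v w)` is symmetric) and the left side is in `F (Δ k)`. `v = v1, w = v2`: `Δ v1 ∈ F (Δ k)`.
By `comp2`: `w (v s2) - v (w s2) = m1(w) Δ v - m1(v) Δ w`: `v = v1, w = v2`: `Δ v2 ∈ F (Δ k)`. For `u ∈ D 1` with `m1(u) = m2(u) = 0`: `comp1` with `v = u, w = v2`: `Δ u ∈ F (Δ k)`. So `Δ v ∈ F (Δ k)` for all `v ∈ D 1`.
`D 2 D 2`: `s1 (v w) = w (v s1) + m2(w) Δ v ∈ F (Δ k)` and `s2 (v w) = w (v s2) - m1(w) Δ v ∈ F (Δ k)`; `D 2` is spanned by the `v w`; so `D 4 ≤ F (Δ k)` (`hG.gen 4`), contradiction to `finrank (D 4) = 2`.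
-/

namespace JD

universe u

variable {F : Type u} [Field F] {A : Type u} [NonUnitalNonAssocCommRing A] [Module F A]
  [IsScalarTower F A A] [SMulCommClass F A A] {D : ℕ → Submodule F A}
  {s1 s2 : A} {l m1 m2 : A →ₗ[F] F} {Δ : A →ₗ[F] A}

theorem PS_k_mul (h2 : (2 : F) ≠ 0) (hP : PS D s1 s2 l m1 m2 Δ) (k : A) (hk : k ∈ D 1)
    (hl : l k = 0) (hm1 : m1 k = 0) (hm2 : m2 k = 0) (v : A) (hv : v ∈ D 1) : k * v = 0 := by
  have h1 := hP.polar h2 k hk v hv
  rw [hl, hm1, hm2] at h1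
  simp only [zero_mul, mul_zero, add_zero, zero_smul] at h1
  rcases smul_eq_zero.1 h1 with h | h
  · exact absurd h h2
  · exact h

theorem PS_k_mul3 (hG : GJ F A 5 D) (hP : PS D s1 s2 l m1 m2 Δ) (k : A) (hk : k ∈ D 1)
    (hl : l k = 0) (hm1 : m1 k = 0) (hm2 : m2 k = 0) (a : A) (ha : a ∈ D 3) : k * a = 0 := by
  have hT : D 3 ≤ LinearMap.ker (LinearMap.mulLeft F k) := by
    have key : ∀ v ∈ D 1, ∀ h ∈ D 2, k * (v * h) = 0 := by
      intro v hv h hh
      obtain ⟨α, β, rfl⟩ := hP.span h hh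
      have e1 := hP.comp1 k hk v
      have e2 := hP.comp2 k hk v
      have e3 : v * k = 0 := by
        rw [mul_comm]
        exact PS_k_mul hG.two hP k hk hl hm1 hm2 v hv
      rw [e3, mul_zero, hm2, zero_smul, sub_zero] at e1
      rw [e3, mul_zero, hm1, zero_smul, add_zero] at e2
      rw [mul_add, mul_smul_comm, mul_smul_comm, mul_add, mul_smul_comm, mul_smul_comm, e1, e2,
        smul_zero, smul_zero, add_zero]
    refine hG.gen 3 le_rfl _ ?_ ?_
    · intro v hv h hh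
      rw [LinearMap.mem_ker, LinearMap.mulLeft_apply]
      exact key v hv h hh
    · intro q hq h hh
      rw [LinearMap.mem_ker, LinearMap.mulLeft_apply, mul_comm q h]
      exact key h hh q hq
  have h1 := hT ha
  rwa [LinearMap.mem_ker, LinearMap.mulLeft_apply] at h1

theorem PS_delta (hG : GJ F A 5 D) (hP : PS D s1 s2 l m1 m2 Δ)
    (h3 : Module.finrank F (D 3) = 2) (h4 : Module.finrank F (D 4) = 2) (k : A) (hk : k ∈ D 1)
    (hl : l k = 0) (hm1 : m1 k = 0) (hm2 : m2 k = 0) : Δ k = 0 := by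
  by_contra hne
  have hfin : Module.Finite F A := hG.fin
  obtain ⟨v1, hv1, v2, hv2, m11, m21, m12, m22⟩ := hP.dual
  have hkw : ∀ w ∈ D 1, k * w = 0 := fun w hw => PS_k_mul hG.two hP k hk hl hm1 hm2 w hw
  have hk1 : ∀ w ∈ D 1, w * (k * s1) = -(m2 w • Δ k) := by
    intro w hw
    rw [hP.comp1 w hw k, hkw w hw, mul_zero, zero_sub]
  have hk2 : ∀ w ∈ D 1, w * (k * s2) = m1 w • Δ k := by
    intro w hw
    rw [hP.comp2 w hw k, hkw w hw, mul_zero, zero_add]
  have hk1m : k * s1 ∈ D 3 := hG.mul_mem 1 2 le_rfl (by norm_num) k hk s1 hP.s1_mem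
  have hk2m : k * s2 ∈ D 3 := hG.mul_mem 1 2 le_rfl (by norm_num) k hk s2 hP.s2_mem
  have hli : LinearIndependent F ![k * s1, k * s2] := by
    rw [LinearIndependent.pair_iff]
    intro α β h
    constructor
    · have h5 : v2 * (α • (k * s1) + β • (k * s2)) = 0 := by rw [h, mul_zero]
      rw [mul_add, mul_smul_comm, mul_smul_comm, hk1 v2 hv2, hk2 v2 hv2, m22, m12, zero_smul,
        smul_zero, add_zero, one_smul, smul_neg, neg_eq_zero] at h5
      exact (smul_eq_zero.1 h5).resolve_right hne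
    · have h5 : v1 * (α • (k * s1) + β • (k * s2)) = 0 := by rw [h, mul_zero]
      rw [mul_add, mul_smul_comm, mul_smul_comm, hk1 v1 hv1, hk2 v1 hv1, m21, m11, zero_smul,
        neg_zero, smul_zero, zero_add, one_smul] at h5
      exact (smul_eq_zero.1 h5).resolve_right hne
  have hspan : Submodule.span F (Set.range ![k * s1, k * s2]) = D 3 := by
    refine Submodule.eq_of_le_of_finrank_eq ?_ ?_
    · rw [Submodule.span_le]
      rintro x ⟨i, rfl⟩
      fin_cases i
      · exact hk1m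
      · exact hk2m
    · rw [finrank_span_eq_card hli, h3, Fintype.card_fin]
  have hc : ∀ w ∈ D 1, ∀ a ∈ D 3, w * a ∈ Submodule.span F {Δ k} := by
    intro w hw a ha
    rw [← hspan, Matrix.range_cons, Matrix.range_cons, Matrix.range_empty, Set.union_empty,
      Set.singleton_union, Submodule.mem_span_pair] at ha
    obtain ⟨α, β, rfl⟩ := ha
    rw [mul_add, mul_smul_comm, mul_smul_comm, hk1 w hw, hk2 w hw]
    exact Submodule.add_mem _ (Submodule.smul_mem _ _ (Submodule.neg_mem _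
      (Submodule.smul_mem _ _ (Submodule.mem_span_singleton_self _))))
      (Submodule.smul_mem _ _ (Submodule.smul_mem _ _ (Submodule.mem_span_singleton_self _)))
  have hm31 : ∀ v ∈ D 1, v * s1 ∈ D 3 := fun v hv =>
    hG.mul_mem 1 2 le_rfl (by norm_num) v hv s1 hP.s1_mem
  have hm32 : ∀ v ∈ D 1, v * s2 ∈ D 3 := fun v hv =>
    hG.mul_mem 1 2 le_rfl (by norm_num) v hv s2 hP.s2_mem
  have hd1 : ∀ v ∈ D 1, ∀ w ∈ D 1, m2 w • Δ v - m2 v • Δ w ∈ Submodule.span F {Δ k} := by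
    intro v hv w hw
    have e1 := hP.comp1 w hw v
    have e2 := hP.comp1 v hv w
    rw [mul_comm w v] at e2
    have e3 : m2 w • Δ v - m2 v • Δ w = v * (w * s1) - w * (v * s1) := by
      rw [e1, e2]
      abel
    rw [e3]
    exact Submodule.sub_mem _ (hc v hv _ (hm31 w hw)) (hc w hw _ (hm31 v hv))
  have hd2 : ∀ v ∈ D 1, ∀ w ∈ D 1, m1 w • Δ v - m1 v • Δ w ∈ Submodule.span F {Δ k} := by
    intro v hv w hw
    have e1 := hP.comp2 w hw v
    have e2 := hP.comp2 v hv w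
    rw [mul_comm w v] at e2
    have e3 : m1 w • Δ v - m1 v • Δ w = w * (v * s2) - v * (w * s2) := by
      rw [e1, e2]
      abel
    rw [e3]
    exact Submodule.sub_mem _ (hc w hw _ (hm32 v hv)) (hc v hv _ (hm32 w hw))
  have hD2 : Δ v2 ∈ Submodule.span F {Δ k} := by
    have h5 := hd2 v2 hv2 v1 hv1
    rwa [m11, m12, one_smul, zero_smul, sub_zero] at h5
  have hD : ∀ v ∈ D 1, Δ v ∈ Submodule.span F {Δ k} := by
    intro v hv
    have h5 := hd1 v hv v2 hv2
    rw [m22, one_smul] at h5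
    have h6 := Submodule.add_mem _ h5 (Submodule.smul_mem _ (m2 v) hD2)
    rwa [sub_add_cancel] at h6
  have hq1 : D 2 ≤ (Submodule.span F {Δ k}).comap (LinearMap.mulLeft F s1) := by
    refine hG.gen2 _ ?_
    intro v hv w hw
    rw [Submodule.mem_comap, LinearMap.mulLeft_apply]
    have e1 := hP.comp1 w hw v
    have e3 : s1 * (v * w) = w * (v * s1) + m2 w • Δ v := by
      rw [e1]
      abel
    rw [e3]
    exact Submodule.add_mem _ (hc w hw _ (hm31 v hv)) (Submodule.smul_mem _ _ (hD v hv))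
  have hq2 : D 2 ≤ (Submodule.span F {Δ k}).comap (LinearMap.mulLeft F s2) := by
    refine hG.gen2 _ ?_
    intro v hv w hw
    rw [Submodule.mem_comap, LinearMap.mulLeft_apply]
    have e1 := hP.comp2 w hw v
    have e3 : s2 * (v * w) = w * (v * s2) - m1 w • Δ v := by
      rw [e1]
      abel
    rw [e3]
    exact Submodule.sub_mem _ (hc w hw _ (hm32 v hv)) (Submodule.smul_mem _ _ (hD v hv))
  have h4le : D 4 ≤ Submodule.span F {Δ k} := by
    refine hG.gen 4 (by norm_num) _ (fun v hv h hh => hc v hv h hh) ?_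
    intro q hq h hh
    obtain ⟨α, β, rfl⟩ := hP.span q hq
    have a1 := hq1 hh
    have a2 := hq2 hh
    rw [Submodule.mem_comap, LinearMap.mulLeft_apply] at a1 a2
    rw [add_mul, smul_mul_assoc, smul_mul_assoc]
    exact Submodule.add_mem _ (Submodule.smul_mem _ _ a1) (Submodule.smul_mem _ _ a2)
  have h5 := Submodule.finrank_mono h4le
  rw [h4, finrank_span_singleton hne] at h5
  norm_num at h5

end JD
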