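import Pool.Agent.H13.JN.TEa

set_option autoImplicit false
set_option linter.unusedSectionVars false

/-!
# JN TEb: class 5, `(4; 2, 2, 2)`, common factor structure, `l, m1, m2` independent (helper13)

Letters `y = ![x, y, z, k]` (indices 0, 1, 2, 3): `l(x) = 1, m1(y) = 1, m2(z) = 1`, all other values `0`, `Δ k = 0`. Products: `x x = y y = z z = y z = 0`, `2 x y = s1`, `2 x z = s2`, `k v = 0` (`PS.polar`, `PS.sq`). Base `t = 0`.
`k a = 0` for `a ∈ D 3` (`PS_k_mul3`).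
(1) TABLE (`comp1`, `comp2`), `sij = s_i s_j`: `x(x s1) = 0, x(y s1) = s11/2, x(z s1) = s12/2, x(k s1) = 0`; `y(x s1) = s11/2, y(y s1) = y(z s1) = y(k s1) = 0`; `z(x s1) = s12/2 - Δx, z(y s1) = -Δy, z(z s1) = -Δz, z(k s1) = -Δk = 0`;
`x(x s2) = 0, x(y s2) = s12/2, x(z s2) = s22/2, x(k s2) = 0`; `y(x s2) = s12/2 + Δx, y(y s2) = Δy, y(z s2) = Δz, y(k s2) = Δk = 0`; `z(x s2) = s22/2, z(y s2) = z(z s2) = z(k s2) = 0`.
(2) `s3 x y z = (z s1 - y s2)/2`, `s3 x y k = (k s1)/2`, `s3 x z k = (k s2)/2`, `s3 y z k = 0`.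
(3) RELATIONS: `∑ c'_ij y_i y_j = c'_01 s1 + c'_02 s2` (`c'` symmetric), so `c'_01 = c'_10 = 0`, `c'_02 = c'_20 = 0` (`hP.li`).
(4) THE VALUES `G(j;a,b,d) = q j a b d - y_j s3 (y_a) (y_b) (y_d)` for `a < b < d` (`q 0 1 2 3 = 0`): all are `0` except `G(1;0,1,2) = -Δy/2`, `G(2;0,1,2) = -Δz/2`. Computation:
 `q 0012 = s3(xx,y,z) = 0`, `x s3(x,y,z) = (x(z s1) - x(y s2))/2 = 0`. `q 1012 = 2 s3(xy,y,z) - q 0112 = s3(s1,y,z) - s3(x,yy,z) = s1(yz) + z(s1 y) - y(s1 z) = -Δy`; `y s3(x,y,z) = (y(z s1) - y(y s2))/2 = -Δy/2`: `G(1;0,1,2) = -Δy/2`.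
 `q 2012 = 2 s3(xz,y,z) - q 0212`, `q 0212 = 2 s3(x,zy,z) - q 0122 = 0 - s3(x,y,zz) = 0`: `q 2012 = s3(s2,y,z) = s2(yz) + z(s2 y) - y(s2 z) = -Δz`; `z s3(x,y,z) = (z(z s1) - z(y s2))/2 = -Δz/2`: `G(2;0,1,2) = -Δz/2`.
 `q 3012`: `q 0123 = 0`, `q 0132 = 2 s3(x,y,zk) - 0 = 0`, `q 0312 = 2 s3(x,ky,z) - 0 = 0`, `q 3012 = 2 s3(kx,y,z) - 0 = 0`; `k s3 = 0`.
 `(0,1,3)`: `q 0013 = 0, x (k s1) = 0`; `q 1013 = 2 s3(xy,y,k) - s3(x,yy,k) = s3(s1,y,k) = s1(yk) + k(s1 y) - y(s1 k) = 0`, `y(k s1) = 0`; `q 2013 = 2 s3(zx,y,k) - q 0213`, `q 0213 = 2 s3(x,yz,k) - q 0123 = 0`; `= s3(s2,y,k) = s2(yk) + k(s2 y) - y(s2 k) = 0`,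
 `z(k s1) = 0`; `q 3013`: `q 0133 = s3(x,y,kk) = 0`, `q 0313 = 2 s3(x,ky,k) - 0 = 0`, `q 3013 = 2 s3(kx,y,k) - 0 = 0`.
 `(0,2,3)`: `q 0023 = 0`; `q 2023 = 2 s3(xz,z,k) - s3(x,zz,k) = s3(s2,z,k) = 0`; `q 1023 = 2 s3(xy,z,k) - q 0123 = s3(s1,z,k) = s1(zk) + k(s1 z) - z(s1 k) = 0`; `q 3023 = 0`; `x(k s2) = y(k s2) = z(k s2) = 0`.
 `(1,2,3)`: `s3 y z k = 0`; `q 0123 = 0, q 1123 = s3(yy,z,k) = 0, q 2123 = 2 s3(zy,z,k) - s3(y,zz,k) = 0, q 3123 = 0`.
(5) `Δ` IS A DERIVATION: `0 = Δ(yy) = 2 y Δy`, `0 = Δ(zz) = 2 z Δz`, `0 = Δ(yz) = y Δz + z Δy`, `0 = Δ(k y) = k Δy`, `0 = Δ(k z) = k Δz` (`Δ k = 0`).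
(6) `T5_sorted`: `T5 a b d` for `a < b < d`: only `(0,1,2)` can be nonzero: `T5 = ∑_i [c'_i1 y_i (-Δy/2) + c'_i2 y_i (-Δz/2)] = -(1/2)[c'_01 x Δy + c'_11 y Δy + c'_21 z Δy + c'_31 k Δy + c'_02 x Δz + c'_12 y Δz + c'_22 z Δz + c'_32 k Δz] = 0`.
-/

namespace JD

universe u

variable {F : Type u} [Field F] {A : Type u} [NonUnitalNonAssocCommRing A] [Module F A]
  [IsScalarTower F A A] [SMulCommClass F A A] {D : ℕ → Submodule F A}
  {s1 s2 : A} {l m1 m2 : A →ₗ[F] F} {Δ : A →ₗ[F] A}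

private theorem TEb_dbl (h2 : (2 : F) ≠ 0) {a : A} (h : a + a = 0) : a = 0 := by
  rw [← two_smul F a] at h
  exact (smul_eq_zero.mp h).resolve_left h2

theorem good5_N1 (hG : GJ F A 5 D) (hP : PS D s1 s2 l m1 m2 Δ) (x y z k : A)
    (hx : x ∈ D 1) (hy : y ∈ D 1) (hz : z ∈ D 1) (hk : k ∈ D 1)
    (lx : l x = 1) (ly : l y = 0) (lz : l z = 0) (lk : l k = 0)
    (m1x : m1 x = 0) (m1y : m1 y = 1) (m1z : m1 z = 0) (m1k : m1 k = 0)
    (m2x : m2 x = 0) (m2y : m2 y = 0) (m2z : m2 z = 1) (m2k : m2 k = 0)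
    (hΔ : Δ k = 0) : Good5 F D ![x, y, z, k] := by
  have h2 := hG.two
  -- products of two letters
  have xx : x * x = 0 := by rw [hP.sq x hx, m1x, m2x, zero_smul, zero_smul, add_zero, smul_zero]
  have yy : y * y = 0 := by rw [hP.sq y hy, ly, zero_smul]
  have zz : z * z = 0 := by rw [hP.sq z hz, lz, zero_smul]
  have kx : k * x = 0 := PS_k_mul h2 hP k hk lk m1k m2k x hx
  have ky : k * y = 0 := PS_k_mul h2 hP k hk lk m1k m2k y hy
  have kz : k * z = 0 := PS_k_mul h2 hP k hk lk m1k m2k z hz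
  have kk0 : k * k = 0 := PS_k_mul h2 hP k hk lk m1k m2k k hk
  have xk : x * k = 0 := by rw [mul_comm, kx]
  have yk : y * k = 0 := by rw [mul_comm, ky]
  have zk : z * k = 0 := by rw [mul_comm, kz]
  have xy2 : x * y + x * y = s1 := by
    have := hP.polar h2 x hx y hy
    rw [lx, ly, m1x, m1y, m2x, m2y] at this
    rw [← two_smul F (x * y), this]
    module
  have xz2 : x * z + x * z = s2 := by
    have := hP.polar h2 x hx z hz
    rw [lx, lz, m1x, m1z, m2x, m2z] at this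
    rw [← two_smul F (x * z), this]
    module
  have yz : y * z = 0 := by
    have := hP.polar h2 y hy z hz
    rw [ly, lz, zero_mul, zero_mul, zero_mul, zero_mul, add_zero, zero_smul, zero_smul,
      add_zero] at this
    exact (smul_eq_zero.mp this).resolve_left h2
  have yx : y * x = x * y := mul_comm _ _
  have zx : z * x = x * z := mul_comm _ _
  have zy : z * y = 0 := by rw [mul_comm, yz]
  -- table
  have t1 : ∀ w ∈ D 1, ∀ v, w * (v * s1) = s1 * (v * w) - m2 w • Δ v := fun w hw v =>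
    hP.comp1 w hw v
  have t2 : ∀ w ∈ D 1, ∀ v, w * (v * s2) = s2 * (v * w) + m1 w • Δ v := fun w hw v =>
    hP.comp2 w hw v
  have a_xz1 : x * (z * s1) = s1 * (x * z) := by rw [t1 x hx, m2x, zero_smul, sub_zero, zx]
  have a_xk1 : x * (k * s1) = 0 := by rw [t1 x hx, m2x, zero_smul, sub_zero, kx, mul_zero]
  have a_yz1 : y * (z * s1) = 0 := by rw [t1 y hy, m2y, zero_smul, sub_zero, zy, mul_zero]
  have a_yk1 : y * (k * s1) = 0 := by rw [t1 y hy, m2y, zero_smul, sub_zero, ky, mul_zero]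
  have a_zy1 : z * (y * s1) = -Δ y := by rw [t1 z hz, m2z, one_smul, yz, mul_zero, zero_sub]
  have a_zz1 : z * (z * s1) = -Δ z := by rw [t1 z hz, m2z, one_smul, zz, mul_zero, zero_sub]
  have a_zk1 : z * (k * s1) = 0 := by
    rw [t1 z hz, m2z, one_smul, kz, mul_zero, zero_sub, hΔ, neg_zero]
  have a_ky1 : k * (y * s1) = 0 := by rw [t1 k hk, m2k, zero_smul, sub_zero, yk, mul_zero]
  have a_kz1 : k * (z * s1) = 0 := by rw [t1 k hk, m2k, zero_smul, sub_zero, zk, mul_zero]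
  have a_kk1 : k * (k * s1) = 0 := by rw [t1 k hk, m2k, zero_smul, sub_zero, kk0, mul_zero]
  have b_xy2 : x * (y * s2) = s2 * (x * y) := by rw [t2 x hx, m1x, zero_smul, add_zero, yx]
  have b_xk2 : x * (k * s2) = 0 := by rw [t2 x hx, m1x, zero_smul, add_zero, kx, mul_zero]
  have b_yy2 : y * (y * s2) = Δ y := by rw [t2 y hy, m1y, one_smul, yy, mul_zero, zero_add]
  have b_yz2 : y * (z * s2) = Δ z := by rw [t2 y hy, m1y, one_smul, zy, mul_zero, zero_add]
  have b_yk2 : y * (k * s2) = 0 := by rw [t2 y hy, m1y, one_smul, ky, mul_zero, zero_add, hΔ]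
  have b_zy2 : z * (y * s2) = 0 := by rw [t2 z hz, m1z, zero_smul, add_zero, yz, mul_zero]
  have b_zz2 : z * (z * s2) = 0 := by rw [t2 z hz, m1z, zero_smul, add_zero, zz, mul_zero]
  have b_zk2 : z * (k * s2) = 0 := by rw [t2 z hz, m1z, zero_smul, add_zero, kz, mul_zero]
  have b_ky2 : k * (y * s2) = 0 := by rw [t2 k hk, m1k, zero_smul, add_zero, yk, mul_zero]
  have b_kz2 : k * (z * s2) = 0 := by rw [t2 k hk, m1k, zero_smul, add_zero, zk, mul_zero]
  have b_kk2 : k * (k * s2) = 0 := by rw [t2 k hk, m1k, zero_smul, add_zero, kk0, mul_zero]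
  -- the elements `s3` with `s1`, `s2`
  have v1 : s3 s1 y z = -Δ y := by
    unfold s3
    rw [yz, mul_zero, zero_add, mul_comm s1 y, mul_comm s1 z, a_zy1, a_yz1, sub_zero]
  have v2 : s3 s2 y z = -Δ z := by
    unfold s3
    rw [yz, mul_zero, zero_add, mul_comm s2 y, mul_comm s2 z, b_zy2, b_yz2, zero_sub]
  have v3 : s3 s1 y k = 0 := by
    unfold s3
    rw [yk, mul_zero, zero_add, mul_comm s1 y, mul_comm s1 k, a_ky1, a_yk1, sub_zero]
  have v4 : s3 s2 y k = 0 := by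
    unfold s3
    rw [yk, mul_zero, zero_add, mul_comm s2 y, mul_comm s2 k, b_ky2, b_yk2, sub_zero]
  have v5 : s3 s1 z k = 0 := by
    unfold s3
    rw [zk, mul_zero, zero_add, mul_comm s1 z, mul_comm s1 k, a_kz1, a_zk1, sub_zero]
  have v6 : s3 s2 z k = 0 := by
    unfold s3
    rw [zk, mul_zero, zero_add, mul_comm s2 z, mul_comm s2 k, b_kz2, b_zk2, sub_zero]
  have dbl : ∀ a b c : A, (2 : F) • s3 a b c = s3 (a + a) b c := by
    intro a b c
    rw [two_smul, s3_add_left]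
  -- twice `s3` of the letters
  have u1 : s3 x y z + s3 x y z = z * s1 - y * s2 := by
    unfold s3
    rw [yz, mul_zero, zero_add, ← xy2, ← xz2, mul_add, mul_add]
    abel
  have u2 : s3 x y k + s3 x y k = k * s1 := by
    unfold s3
    rw [yk, xk, mul_zero, mul_zero, zero_add, sub_zero, ← xy2, mul_add]
  have u3 : s3 x z k + s3 x z k = k * s2 := by
    unfold s3
    rw [zk, xk, mul_zero, mul_zero, zero_add, sub_zero, ← xz2, mul_add]
  have u4 : s3 y z k = 0 := by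
    unfold s3
    rw [zk, yz, yk, mul_zero, mul_zero, mul_zero, zero_add, sub_zero]
  have w1x : x * s3 x y z = 0 := by
    apply TEb_dbl h2
    rw [← mul_add, u1, mul_sub, a_xz1, b_xy2, ← xy2, ← xz2, add_mul, add_mul,
      mul_comm (x * z) (x * y), sub_self]
  have w1y : y * s3 x y z + y * s3 x y z = -Δ y := by
    rw [← mul_add, u1, mul_sub, a_yz1, b_yy2, zero_sub]
  have w1z : z * s3 x y z + z * s3 x y z = -Δ z := by
    rw [← mul_add, u1, mul_sub, a_zz1, b_zy2, sub_zero]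
  have w1k : k * s3 x y z = 0 := by
    apply TEb_dbl h2
    rw [← mul_add, u1, mul_sub, a_kz1, b_ky2, sub_zero]
  have w2x : x * s3 x y k = 0 := by
    apply TEb_dbl h2
    rw [← mul_add, u2, a_xk1]
  have w2y : y * s3 x y k = 0 := by
    apply TEb_dbl h2
    rw [← mul_add, u2, a_yk1]
  have w2z : z * s3 x y k = 0 := by
    apply TEb_dbl h2
    rw [← mul_add, u2, a_zk1]
  have w2k : k * s3 x y k = 0 := by
    apply TEb_dbl h2
    rw [← mul_add, u2, a_kk1]
  have w3x : x * s3 x z k = 0 := by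
    apply TEb_dbl h2
    rw [← mul_add, u3, b_xk2]
  have w3y : y * s3 x z k = 0 := by
    apply TEb_dbl h2
    rw [← mul_add, u3, b_yk2]
  have w3z : z * s3 x z k = 0 := by
    apply TEb_dbl h2
    rw [← mul_add, u3, b_zk2]
  have w3k : k * s3 x z k = 0 := by
    apply TEb_dbl h2
    rw [← mul_add, u3, b_kk2]
  -- the derivation
  have dyy : y * Δ y = 0 := by
    have := hP.der y y
    rw [yy, map_zero, mul_comm (Δ y) y] at this
    exact TEb_dbl h2 this.symm
  have dzz : z * Δ z = 0 := by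
    have := hP.der z z
    rw [zz, map_zero, mul_comm (Δ z) z] at this
    exact TEb_dbl h2 this.symm
  have dyz : z * Δ y + y * Δ z = 0 := by
    have := hP.der y z
    rw [yz, map_zero, mul_comm (Δ y) z] at this
    exact this.symm
  have dky : k * Δ y = 0 := by
    have := hP.der k y
    rw [ky, map_zero, hΔ, zero_mul, zero_add] at this
    exact this.symm
  have dkz : k * Δ z = 0 := by
    have := hP.der k z
    rw [kz, map_zero, hΔ, zero_mul, zero_add] at this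
    exact this.symm
  refine ⟨fun _ _ _ _ => 0, fun _ _ _ _ => (D 4).zero_mem, ?_⟩
  intro q hq hq0 c' hc h0
  have q0123 : q 0 1 2 3 = 0 := hq0 0 1 2 3 (by decide) (by decide) (by decide)
  set Y : Fin 4 → A := ![x, y, z, k] with hY
  have e0 : Y 0 = x := rfl
  have e1 : Y 1 = y := rfl
  have e2 : Y 2 = z := rfl
  have e3 : Y 3 = k := rfl
  -- values of `q`
  have q0012 : q 0 0 1 2 = 0 := by
    have := hq.sw1 0 0 1 2
    rw [e0, xx, s3_zero_left, smul_zero] at this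
    exact TEb_dbl h2 this
  have q0013 : q 0 0 1 3 = 0 := by
    have := hq.sw1 0 0 1 3
    rw [e0, xx, s3_zero_left, smul_zero] at this
    exact TEb_dbl h2 this
  have q0023 : q 0 0 2 3 = 0 := by
    have := hq.sw1 0 0 2 3
    rw [e0, xx, s3_zero_left, smul_zero] at this
    exact TEb_dbl h2 this
  have q1123 : q 1 1 2 3 = 0 := by
    have := hq.sw1 1 1 2 3
    rw [e1, yy, s3_zero_left, smul_zero] at this
    exact TEb_dbl h2 this
  have q0112 : q 0 1 1 2 = 0 := by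
    have := hq.sw2 0 1 1 2
    rw [e1, yy, s3_zero_mid, smul_zero] at this
    exact TEb_dbl h2 this
  have q0113 : q 0 1 1 3 = 0 := by
    have := hq.sw2 0 1 1 3
    rw [e1, yy, s3_zero_mid, smul_zero] at this
    exact TEb_dbl h2 this
  have q0223 : q 0 2 2 3 = 0 := by
    have := hq.sw2 0 2 2 3
    rw [e2, zz, s3_zero_mid, smul_zero] at this
    exact TEb_dbl h2 this
  have q1223 : q 1 2 2 3 = 0 := by
    have := hq.sw2 1 2 2 3
    rw [e2, zz, s3_zero_mid, smul_zero] at this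
    exact TEb_dbl h2 this
  have q0122 : q 0 1 2 2 = 0 := by
    have := hq.sw3 0 1 2 2
    rw [e2, zz, s3_zero_right, smul_zero] at this
    exact TEb_dbl h2 this
  have q0133 : q 0 1 3 3 = 0 := by
    have := hq.sw3 0 1 3 3
    rw [e3, kk0, s3_zero_right, smul_zero] at this
    exact TEb_dbl h2 this
  have q0233 : q 0 2 3 3 = 0 := by
    have := hq.sw3 0 2 3 3
    rw [e3, kk0, s3_zero_right, smul_zero] at this
    exact TEb_dbl h2 this
  have q1233 : q 1 2 3 3 = 0 := by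
    have := hq.sw3 1 2 3 3
    rw [e3, kk0, s3_zero_right, smul_zero] at this
    exact TEb_dbl h2 this
  have q1012 : q 1 0 1 2 = -Δ y := by
    have := hq.sw1 1 0 1 2
    rw [q0112, add_zero, e0, e1, e2, yx, dbl, xy2, v1] at this
    exact this
  have q0212 : q 0 2 1 2 = 0 := by
    have := hq.sw2 0 2 1 2
    rw [q0122, add_zero, e1, e2, zy, s3_zero_mid, smul_zero] at this
    exact this
  have q2012 : q 2 0 1 2 = -Δ z := by
    have := hq.sw1 2 0 1 2
    rw [q0212, add_zero, e0, e1, e2, zx, dbl, xz2, v2] at this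
    exact this
  have q0132 : q 0 1 3 2 = 0 := by
    have := hq.sw3 0 1 3 2
    rw [q0123, add_zero, e2, e3, kz, s3_zero_right, smul_zero] at this
    exact this
  have q0312 : q 0 3 1 2 = 0 := by
    have := hq.sw2 0 3 1 2
    rw [q0132, add_zero, e1, e3, ky, s3_zero_mid, smul_zero] at this
    exact this
  have q3012 : q 3 0 1 2 = 0 := by
    have := hq.sw1 3 0 1 2
    rw [q0312, add_zero, e0, e3, kx, s3_zero_left, smul_zero] at this
    exact this
  have q1013 : q 1 0 1 3 = 0 := by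
    have := hq.sw1 1 0 1 3
    rw [q0113, add_zero, e0, e1, e3, yx, dbl, xy2, v3] at this
    exact this
  have q0213 : q 0 2 1 3 = 0 := by
    have := hq.sw2 0 2 1 3
    rw [q0123, add_zero, e1, e2, zy, s3_zero_mid, smul_zero] at this
    exact this
  have q2013 : q 2 0 1 3 = 0 := by
    have := hq.sw1 2 0 1 3
    rw [q0213, add_zero, e0, e1, e2, e3, zx, dbl, xz2, v4] at this
    exact this
  have q0313 : q 0 3 1 3 = 0 := by
    have := hq.sw2 0 3 1 3
    rw [q0133, add_zero, e1, e3, ky, s3_zero_mid, smul_zero] at this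
    exact this
  have q3013 : q 3 0 1 3 = 0 := by
    have := hq.sw1 3 0 1 3
    rw [q0313, add_zero, e0, e3, kx, s3_zero_left, smul_zero] at this
    exact this
  have q1023 : q 1 0 2 3 = 0 := by
    have := hq.sw1 1 0 2 3
    rw [q0123, add_zero, e0, e1, e2, e3, yx, dbl, xy2, v5] at this
    exact this
  have q2023 : q 2 0 2 3 = 0 := by
    have := hq.sw1 2 0 2 3
    rw [q0223, add_zero, e0, e2, e3, zx, dbl, xz2, v6] at this
    exact this
  have q0323 : q 0 3 2 3 = 0 := by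
    have := hq.sw2 0 3 2 3
    rw [q0233, add_zero, e2, e3, kz, s3_zero_mid, smul_zero] at this
    exact this
  have q3023 : q 3 0 2 3 = 0 := by
    have := hq.sw1 3 0 2 3
    rw [q0323, add_zero, e0, e3, kx, s3_zero_left, smul_zero] at this
    exact this
  have q2123 : q 2 1 2 3 = 0 := by
    have := hq.sw1 2 1 2 3
    rw [q1223, add_zero, e1, e2, zy, s3_zero_left, smul_zero] at this
    exact this
  have q1323 : q 1 3 2 3 = 0 := by
    have := hq.sw2 1 3 2 3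
    rw [q1233, add_zero, e2, e3, kz, s3_zero_mid, smul_zero] at this
    exact this
  have q3123 : q 3 1 2 3 = 0 := by
    have := hq.sw1 3 1 2 3
    rw [q1323, add_zero, e1, e3, ky, s3_zero_left, smul_zero] at this
    exact this
  -- relations
  have hrel : c' 0 1 = 0 ∧ c' 0 2 = 0 := by
    have h1 := h0
    simp only [Fin.sum_univ_four, e0, e1, e2, e3, xx, yy, zz, kk0, xk, yk, zk, kx, ky, kz, yz, zy,
      yx, zx, smul_zero, add_zero, zero_add] at h1
    rw [hc 1 0, hc 2 0] at h1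
    have h3 : c' 0 1 • s1 + c' 0 2 • s2 = 0 := by
      rw [← xy2, ← xz2, smul_add, smul_add, ← h1]
      abel
    exact hP.li _ _ h3
  obtain ⟨c01, c02⟩ := hrel
  refine T5_sorted h2 hG.jordan Y q hq c' hc h0 ?_
  -- the four sorted triples
  have T012 : T5 Y q c' 0 1 2 = 0 := by
    have g1 : (q 1 0 1 2 - y * s3 x y z) + (q 1 0 1 2 - y * s3 x y z) = -Δ y := by
      have : (q 1 0 1 2 - y * s3 x y z) + (q 1 0 1 2 - y * s3 x y z) =
          q 1 0 1 2 + q 1 0 1 2 - (y * s3 x y z + y * s3 x y z) := by abel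
      rw [this, w1y, q1012]
      abel
    have g2 : (q 2 0 1 2 - z * s3 x y z) + (q 2 0 1 2 - z * s3 x y z) = -Δ z := by
      have : (q 2 0 1 2 - z * s3 x y z) + (q 2 0 1 2 - z * s3 x y z) =
          q 2 0 1 2 + q 2 0 1 2 - (z * s3 x y z + z * s3 x y z) := by abel
      rw [this, w1z, q2012]
      abel
    have mul2 : ∀ a b c : A, b + b = -c → a * c = 0 → a * b = 0 := by
      intro a b c h1 h3
      apply TEb_dbl h2
      rw [← mul_add, h1, mul_neg, h3, neg_zero]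
    have p11 : y * (q 1 0 1 2 - y * s3 x y z) = 0 := mul2 _ _ _ g1 dyy
    have p31 : k * (q 1 0 1 2 - y * s3 x y z) = 0 := mul2 _ _ _ g1 dky
    have p22 : z * (q 2 0 1 2 - z * s3 x y z) = 0 := mul2 _ _ _ g2 dzz
    have p32 : k * (q 2 0 1 2 - z * s3 x y z) = 0 := mul2 _ _ _ g2 dkz
    have p12 : z * (q 1 0 1 2 - y * s3 x y z) + y * (q 2 0 1 2 - z * s3 x y z) = 0 := by
      apply TEb_dbl h2
      have : z * (q 1 0 1 2 - y * s3 x y z) + y * (q 2 0 1 2 - z * s3 x y z) +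
          (z * (q 1 0 1 2 - y * s3 x y z) + y * (q 2 0 1 2 - z * s3 x y z)) =
          z * ((q 1 0 1 2 - y * s3 x y z) + (q 1 0 1 2 - y * s3 x y z)) +
          y * ((q 2 0 1 2 - z * s3 x y z) + (q 2 0 1 2 - z * s3 x y z)) := by
        rw [mul_add, mul_add]
        abel
      rw [this, g1, g2, mul_neg, mul_neg, ← neg_add, dyz, neg_zero]
    unfold T5
    simp only [Fin.sum_univ_four, e0, e1, e2, e3, w1x, w1k, q0012, q3012, sub_zero, mul_zero,
      smul_zero, add_zero, zero_add, c01, c02, zero_smul, p11, p31, p22, p32]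
    rw [hc 2 1, add_comm, ← smul_add, p12, smul_zero]
  have T013 : T5 Y q c' 0 1 3 = 0 := by
    unfold T5
    simp only [Fin.sum_univ_four, e0, e1, e2, e3, w2x, w2y, w2z, w2k, q0013, q1013, q2013, q3013,
      sub_zero, mul_zero, smul_zero, add_zero]
  have T023 : T5 Y q c' 0 2 3 = 0 := by
    unfold T5
    simp only [Fin.sum_univ_four, e0, e1, e2, e3, w3x, w3y, w3z, w3k, q0023, q1023, q2023, q3023,
      sub_zero, mul_zero, smul_zero, add_zero]
  have T123 : T5 Y q c' 1 2 3 = 0 := by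
    unfold T5
    simp only [Fin.sum_univ_four, e0, e1, e2, e3, u4, q0123, q1123, q2123, q3123,
      sub_zero, mul_zero, smul_zero, add_zero]
  intro a b d hab hbd
  have key : (a = 0 ∧ b = 1 ∧ d = 2) ∨ (a = 0 ∧ b = 1 ∧ d = 3) ∨ (a = 0 ∧ b = 2 ∧ d = 3) ∨
      (a = 1 ∧ b = 2 ∧ d = 3) := by
    revert hab hbd
    revert a b d
    decide
  rcases key with ⟨rfl, rfl, rfl⟩ | ⟨rfl, rfl, rfl⟩ | ⟨rfl, rfl, rfl⟩ | ⟨rfl, rfl, rfl⟩
  · exact T012
  · exact T013
  · exact T023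
  · exact T123

end JD
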